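import Pool.Agent.H28.Lusin.BFin

open MeasureTheory Set Filter
open scoped ContDiff Topology ENNReal

namespace Pool.Agent.H28.Lusin

/-- Approximate invariance of `μ` in the first `m + 1` coordinate directions. -/
def HypA {n : ℕ} (m : ℕ) (μ : Measure (Eu n)) (δ : ℝ) : Prop :=
  ∀ (Ψ : Eu n → ℝ) (L : ℝ), 0 ≤ L → ContDiff ℝ 1 Ψ → (∀ x y, |Ψ x - Ψ y| ≤ L * ‖x - y‖) →
    (∀ x : Eu n, (∃ i : Fin n, (i : ℕ) ≤ m ∧ x i ∉ Ioo (0 : ℝ) 1) → Ψ x = 0) →
    ∀ r : Fin n, (r : ℕ) ≤ m →
      |∫ x, fderiv ℝ Ψ x (EuclideanSpace.single r (1 : ℝ)) ∂μ| ≤ δ * L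

/-! ### Cutoff functions -/

theorem exists_bump1 : ∃ (b : ℝ → ℝ) (Cb : ℝ), 0 ≤ Cb ∧ ContDiff ℝ 1 b ∧
    (∀ t, 0 ≤ b t) ∧ (∀ t, b t ≤ 1) ∧ (∀ t, t ∉ Ioo (0 : ℝ) 1 → b t = 0) ∧
    (∀ t ∈ Icc (1 / 4 : ℝ) (3 / 4), b t = 1) ∧ ∀ s t, |b s - b t| ≤ Cb * |s - t| := by
  let B : ContDiffBump (1 / 2 : ℝ) :=
    { rIn := 1 / 4, rOut := 1 / 2, rIn_pos := by norm_num, rIn_lt_rOut := by norm_num }
  have hc : ContDiff ℝ 1 (B : ℝ → ℝ) := B.contDiff
  obtain ⟨D, hD⟩ := hc.lipschitzWith_of_hasCompactSupport B.hasCompactSupport (by norm_num)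
  refine ⟨B, D, D.2, hc, fun t => B.nonneg, fun t => B.le_one, ?_, ?_, ?_⟩
  · intro t ht
    apply B.zero_of_le_dist
    change (1 / 2 : ℝ) ≤ dist t (1 / 2)
    rw [Real.dist_eq]
    by_contra h
    rw [not_le, abs_lt] at h
    apply ht
    constructor <;> linarith [h.1, h.2]
  · intro t ht
    apply B.one_of_mem_closedBall
    change dist t (1 / 2) ≤ (1 / 4 : ℝ)
    rw [Real.dist_eq, abs_le]
    constructor <;> linarith [ht.1, ht.2]
  · intro s t
    have := hD.dist_le_mul s t
    rwa [Real.dist_eq, Real.dist_eq] at this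

theorem abs_prod_sub_prod_le {ι : Type*} (s : Finset ι) (a b : ι → ℝ)
    (ha0 : ∀ i, 0 ≤ a i) (ha : ∀ i, a i ≤ 1) (hb0 : ∀ i, 0 ≤ b i) (hb : ∀ i, b i ≤ 1) :
    |∏ i ∈ s, a i - ∏ i ∈ s, b i| ≤ ∑ i ∈ s, |a i - b i| := by
  classical
  induction s using Finset.induction_on with
  | empty => simp
  | insert i s hi ih =>
    rw [Finset.prod_insert hi, Finset.prod_insert hi, Finset.sum_insert hi]
    have h1 : a i * ∏ j ∈ s, a j - b i * ∏ j ∈ s, b j
        = (a i - b i) * ∏ j ∈ s, a j + b i * (∏ j ∈ s, a j - ∏ j ∈ s, b j) := by ring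
    rw [h1]
    have hp0 : 0 ≤ ∏ j ∈ s, a j := Finset.prod_nonneg fun j _ => ha0 j
    have hp1 : ∏ j ∈ s, a j ≤ 1 := Finset.prod_le_one (fun j _ => ha0 j) fun j _ => ha j
    calc |(a i - b i) * ∏ j ∈ s, a j + b i * (∏ j ∈ s, a j - ∏ j ∈ s, b j)|
        ≤ |(a i - b i) * ∏ j ∈ s, a j| + |b i * (∏ j ∈ s, a j - ∏ j ∈ s, b j)| := abs_add_le _ _
      _ = |a i - b i| * (∏ j ∈ s, a j) + b i * |∏ j ∈ s, a j - ∏ j ∈ s, b j| := by
        rw [abs_mul, abs_mul, abs_of_nonneg hp0, abs_of_nonneg (hb0 i)]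
      _ ≤ |a i - b i| * 1 + 1 * ∑ j ∈ s, |a j - b j| := by
        gcongr
        exact hb i
      _ = |a i - b i| + ∑ j ∈ s, |a j - b j| := by ring

theorem exists_chi {n q : ℕ} (hn : q + 2 < n) : ∃ (χ : Eu n → ℝ) (D : ℝ), 0 ≤ D ∧
    ContDiff ℝ 1 χ ∧ (∀ x, 0 ≤ χ x) ∧ (∀ x, χ x ≤ 1) ∧
    (∀ x y, |χ x - χ y| ≤ D * ‖x - y‖) ∧
    (∀ x : Eu n, (∃ i : Fin n, (i : ℕ) ≤ q + 1 ∧ x i ∉ Ioo (0 : ℝ) 1) → χ x = 0) ∧
    (∀ x : Eu n, (∀ i : Fin n, (i : ℕ) ≤ q + 1 → x i ∈ Icc (1 / 4 : ℝ) (3 / 4)) → χ x = 1) ∧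
    ∀ (x : Eu n) (p : ℝ), χ (x + EuclideanSpace.single (⟨q + 2, hn⟩ : Fin n) p) = χ x := by
  obtain ⟨b, D, hD, hb, hb0, hb1, hbz, hbo, hbl⟩ := exists_bump1
  let J : Fin (q + 2) → Fin n := fun i => ⟨i, by omega⟩
  refine ⟨fun x => ∏ i : Fin (q + 2), b (x (J i)), (q + 2) * D, by positivity, ?_, ?_, ?_, ?_,
    ?_, ?_, ?_⟩
  · apply contDiff_prod
    intro i _
    exact hb.comp (EuclideanSpace.proj (𝕜 := ℝ) (J i)).contDiff
  · intro x
    exact Finset.prod_nonneg fun i _ => hb0 _
  · intro x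
    exact Finset.prod_le_one (fun i _ => hb0 _) fun i _ => hb1 _
  · intro x y
    refine (abs_prod_sub_prod_le _ _ _ (fun i => hb0 _) (fun i => hb1 _) (fun i => hb0 _)
      fun i => hb1 _).trans ?_
    calc ∑ i : Fin (q + 2), |b (x (J i)) - b (y (J i))|
        ≤ ∑ i : Fin (q + 2), D * ‖x - y‖ := by
          apply Finset.sum_le_sum
          intro i _
          refine (hbl _ _).trans ?_
          gcongr
          have := EuclideanSpace.norm_eq (x - y)
          have h2 := PiLp.norm_apply_le (x - y) (J i)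
          rwa [Real.norm_eq_abs, PiLp.sub_apply] at h2
      _ = (q + 2) * D * ‖x - y‖ := by
          simp
          ring
  · rintro x ⟨i, hi, hx⟩
    apply Finset.prod_eq_zero (Finset.mem_univ (⟨i, by omega⟩ : Fin (q + 2)))
    exact hbz _ hx
  · intro x hx
    apply Finset.prod_eq_one
    intro i _
    exact hbo _ (hx (J i) (by simp only [J]; omega))
  · intro x p
    apply Finset.prod_congr rfl
    intro i _
    congr 1
    have : J i ≠ (⟨q + 2, hn⟩ : Fin n) := by
      intro h
      have := congrArg Fin.val h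
      simp only [J] at this
      omega
    simp [this]

/-! ### Components of the exterior derivative -/

/-- The standard `(q+2)`-frame. -/
noncomputable def fr {n q : ℕ} (hn : q + 2 < n) : Fin (q + 2) → Eu n :=
  fun i => EuclideanSpace.single (⟨i, by omega⟩ : Fin n) (1 : ℝ)

theorem dxI_fr {n q : ℕ} (hn : q + 2 < n) : dxI hn (fr hn) = 1 := by
  unfold dxI
  rw [wedgeC_apply]
  have : (fun i j : Fin (q + 2) => dxx (⟨j, by omega⟩ : Fin n) (fr hn i)) =
      (1 : Matrix (Fin (q + 2)) (Fin (q + 2)) ℝ) := by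
    ext i j
    rw [Matrix.one_apply]
    change (EuclideanSpace.single (⟨i, by omega⟩ : Fin n) (1 : ℝ)) (⟨j, by omega⟩ : Fin n) = _
    by_cases h : i = j
    · subst h
      simp
    · have : (⟨(j : ℕ), by omega⟩ : Fin n) ≠ ⟨(i : ℕ), by omega⟩ := by
        intro h'
        apply h
        ext
        have := congrArg Fin.val h'
        simpa using this.symm
      simp [h, this]
  rw [this]
  exact Matrix.det_one

/-- The components of `φ`. -/
noncomputable def comp {n q : ℕ} (hn : q + 2 < n) (φ : Eu n → Cov n (q + 1)) (r : Fin (q + 2)) :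
    Eu n → ℝ := fun x => φ x (r.removeNth (fr hn))

theorem comp_contDiff {n q : ℕ} (hn : q + 2 < n) {φ : Eu n → Cov n (q + 1)}
    (hφ : ContDiff ℝ 1 φ) (r : Fin (q + 2)) : ContDiff ℝ 1 (comp hn φ r) := by
  have h1 : comp hn φ r = fun x =>
      (ContinuousAlternatingMap.apply ℝ (Eu n) ℝ (r.removeNth (fr hn))) (φ x) := rfl
  rw [h1]
  exact (ContinuousLinearMap.contDiff _).comp hφ

theorem comp_lip {n q : ℕ} (hn : q + 2 < n) {φ : Eu n → Cov n (q + 1)} {C : ℝ}
    (h : ∀ (I : Fin (q + 1) → Fin n) (x y : Eu n),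
          |φ x (fun i => EuclideanSpace.single (I i) (1 : ℝ))
            - φ y (fun i => EuclideanSpace.single (I i) (1 : ℝ))| ≤ C * ‖x - y‖)
    (r : Fin (q + 2)) (x y : Eu n) : |comp hn φ r x - comp hn φ r y| ≤ C * ‖x - y‖ :=
  h (fun i => ⟨r.succAbove i, by omega⟩) x y

theorem extDeriv_fr {n q : ℕ} (hn : q + 2 < n) {φ : Eu n → Cov n (q + 1)}
    (hφ : ContDiff ℝ 1 φ) (x : Eu n) :
    extDeriv φ x (fr hn) = ∑ r : Fin (q + 2), (-1) ^ (r : ℕ) * fderiv ℝ (comp hn φ r) x (fr hn r) := by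
  rw [extDeriv_apply (hφ.differentiable (by norm_num) x)]
  apply Finset.sum_congr rfl
  intro r _
  have : ∀ y : ℝ, (-1 : ℤ) ^ (r : ℕ) • y = (-1) ^ (r : ℕ) * y := by
    intro y
    rw [zsmul_eq_mul]
    push_cast
    rfl
  rw [this]
  rfl

theorem abs_fderiv_le {n : ℕ} {g : Eu n → ℝ} {C : ℝ} (hC : 0 ≤ C)
    (hg : ∀ x y, |g x - g y| ≤ C * ‖x - y‖) (x : Eu n) (r : Fin n) :
    |fderiv ℝ g x (EuclideanSpace.single r (1 : ℝ))| ≤ C := by
  have h1 : ‖fderiv ℝ g x‖ ≤ C :=
    norm_fderiv_le_of_lip' ℝ hC (Eventually.of_forall fun y => hg y x)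
  have h2 := (fderiv ℝ g x).le_opNorm (EuclideanSpace.single r (1 : ℝ))
  rw [Real.norm_eq_abs, PiLp.norm_single, norm_one, mul_one] at h2
  exact h2.trans h1

theorem continuous_fderiv_apply_single {n : ℕ} {g : Eu n → ℝ} (hg : ContDiff ℝ 1 g) (r : Fin n) :
    Continuous fun x => fderiv ℝ g x (EuclideanSpace.single r (1 : ℝ)) :=
  (hg.continuous_fderiv (by norm_num)).clm_apply continuous_const

/-- The main estimate for one component. -/
theorem comp_estimate {n m : ℕ} {μ0 : Measure (Eu n)} [IsFiniteMeasure μ0] {δ C D p : ℝ}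
    (hC : 0 ≤ C) (hD : 0 ≤ D) (hp : 0 ≤ p) (z : Fin n)
    (hA : HypA m μ0 δ) (hμ : μ0.real univ ≤ 1) {χ g : Eu n → ℝ} (hχ : ContDiff ℝ 1 χ)
    (hχ0 : ∀ x, 0 ≤ χ x) (hχ1 : ∀ x, χ x ≤ 1) (hχl : ∀ x y, |χ x - χ y| ≤ D * ‖x - y‖)
    (hχz : ∀ x : Eu n, (∃ i : Fin n, (i : ℕ) ≤ m ∧ x i ∉ Ioo (0 : ℝ) 1) → χ x = 0)
    (hg : ContDiff ℝ 1 g) (hgl : ∀ x y, |g x - g y| ≤ C * ‖x - y‖) (r : Fin n)
    (hr : (r : ℕ) ≤ m) :
    |∫ x, χ x * (fderiv ℝ g x (EuclideanSpace.single r (1 : ℝ))
      - fderiv ℝ g (x + EuclideanSpace.single z p) (EuclideanSpace.single r (1 : ℝ))) ∂μ0|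
      ≤ δ * (2 * C + C * p * D) + C * p * D := by
  set h : Eu n → ℝ := fun x => g x - g (x + EuclideanSpace.single z p) with hh
  have hgs : ContDiff ℝ 1 fun x => g (x + EuclideanSpace.single z p) :=
    hg.comp (contDiff_id.add contDiff_const)
  have hhc : ContDiff ℝ 1 h := hg.sub hgs
  have hhb : ∀ x, |h x| ≤ C * p := by
    intro x
    have := hgl x (x + EuclideanSpace.single z p)
    have e : x - (x + EuclideanSpace.single z p) = - EuclideanSpace.single z p := by abel
    rwa [e, norm_neg, PiLp.norm_single, Real.norm_eq_abs, abs_of_nonneg hp] at this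
  have hhl : ∀ x y, |h x - h y| ≤ 2 * C * ‖x - y‖ := by
    intro x y
    have h1 := hgl x y
    have h2 := hgl (x + EuclideanSpace.single z p) (y + EuclideanSpace.single z p)
    rw [add_sub_add_right_eq_sub] at h2
    have e : h x - h y = (g x - g y) -
      (g (x + EuclideanSpace.single z p) - g (y + EuclideanSpace.single z p)) := by
      simp only [hh]
      ring
    rw [e]
    calc _ ≤ |g x - g y| + |g (x + EuclideanSpace.single z p) - g (y + EuclideanSpace.single z p)| :=
          abs_sub _ _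
      _ ≤ 2 * C * ‖x - y‖ := by linarith
  have hhd : ∀ x v, fderiv ℝ h x v = fderiv ℝ g x v
      - fderiv ℝ g (x + EuclideanSpace.single z p) v := by
    intro x v
    have h1 : fderiv ℝ h x = fderiv ℝ g x - fderiv ℝ (fun x => g (x + EuclideanSpace.single z p)) x :=
      fderiv_fun_sub (hg.differentiable (by norm_num) x) (hgs.differentiable (by norm_num) x)
    rw [h1, fderiv_comp_add_right]
    rfl
  have hΨl : ∀ x y, |χ x * h x - χ y * h y| ≤ (2 * C + C * p * D) * ‖x - y‖ := by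
    intro x y
    have e : χ x * h x - χ y * h y = χ x * (h x - h y) + (χ x - χ y) * h y := by ring
    rw [e]
    calc _ ≤ |χ x * (h x - h y)| + |(χ x - χ y) * h y| := abs_add_le _ _
      _ = χ x * |h x - h y| + |χ x - χ y| * |h y| := by
        rw [abs_mul, abs_mul, abs_of_nonneg (hχ0 x)]
      _ ≤ 1 * (2 * C * ‖x - y‖) + (D * ‖x - y‖) * (C * p) := by
        gcongr
        · exact hχ1 x
        · exact hhl x y
        · exact hχl x y
        · exact hhb y
      _ = _ := by ring
  have hΨ := hA (fun x => χ x * h x) (2 * C + C * p * D) (by positivity) (hχ.mul hhc) hΨl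
    (fun x hx => by rw [hχz x hx, zero_mul]) r hr
  have hd : ∀ x, fderiv ℝ (fun x => χ x * h x) x (EuclideanSpace.single r (1 : ℝ)) =
      χ x * fderiv ℝ h x (EuclideanSpace.single r (1 : ℝ)) +
        h x * fderiv ℝ χ x (EuclideanSpace.single r (1 : ℝ)) := by
    intro x
    rw [fderiv_fun_mul (hχ.differentiable (by norm_num) x) (hhc.differentiable (by norm_num) x)]
    rfl
  have c1 : Continuous fun x => χ x * fderiv ℝ h x (EuclideanSpace.single r (1 : ℝ)) :=
    hχ.continuous.mul (continuous_fderiv_apply_single hhc r)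
  have c2 : Continuous fun x => h x * fderiv ℝ χ x (EuclideanSpace.single r (1 : ℝ)) :=
    hhc.continuous.mul (continuous_fderiv_apply_single hχ r)
  have b1 : ∀ x, ‖χ x * fderiv ℝ h x (EuclideanSpace.single r (1 : ℝ))‖ ≤ 1 * (2 * C) := by
    intro x
    rw [Real.norm_eq_abs, abs_mul, abs_of_nonneg (hχ0 x)]
    exact mul_le_mul (hχ1 x) (abs_fderiv_le (by positivity) hhl x r) (abs_nonneg _) zero_le_one
  have b2 : ∀ x, ‖h x * fderiv ℝ χ x (EuclideanSpace.single r (1 : ℝ))‖ ≤ C * p * D := by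
    intro x
    rw [Real.norm_eq_abs, abs_mul]
    exact mul_le_mul (hhb x) (abs_fderiv_le hD hχl x r) (abs_nonneg _) (by positivity)
  have i1 : Integrable (fun x => χ x * fderiv ℝ h x (EuclideanSpace.single r (1 : ℝ))) μ0 :=
    Integrable.of_bound c1.aestronglyMeasurable _ (Eventually.of_forall b1)
  have i2 : Integrable (fun x => h x * fderiv ℝ χ x (EuclideanSpace.single r (1 : ℝ))) μ0 :=
    Integrable.of_bound c2.aestronglyMeasurable _ (Eventually.of_forall b2)
  simp_rw [hd] at hΨ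
  rw [integral_add i1 i2] at hΨ
  have h2 : |∫ x, h x * fderiv ℝ χ x (EuclideanSpace.single r (1 : ℝ)) ∂μ0| ≤ C * p * D := by
    have := norm_integral_le_of_norm_le_const (μ := μ0) (Eventually.of_forall b2)
    rw [Real.norm_eq_abs] at this
    refine this.trans ?_
    calc C * p * D * μ0.real univ ≤ C * p * D * 1 := by gcongr
      _ = _ := mul_one _
  simp_rw [← hhd]
  have h3 := abs_sub_abs_le_abs_sub
    (∫ x, χ x * fderiv ℝ h x (EuclideanSpace.single r (1 : ℝ)) ∂μ0)
    (-∫ x, h x * fderiv ℝ χ x (EuclideanSpace.single r (1 : ℝ)) ∂μ0)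
  rw [sub_neg_eq_add, abs_neg] at h3
  linarith

/-- No `C¹` form with `C`-Lipschitz components has exterior derivative `± dx_0 ∧ ... ∧ dx_{q+1}`
on a large set, with opposite signs on the two copies of `μ0`. -/
theorem afin {n q : ℕ} (hn : q + 2 < n) (C : ℝ) (hC : 0 ≤ C) :
    ∃ δ0 : ℝ, 0 < δ0 ∧ ∃ p0 : ℝ, 0 < p0 ∧ ∃ ε0 : ℝ, 0 < ε0 ∧
    ∀ (μ0 : Measure (Eu n)) [IsFiniteMeasure μ0] (p : ℝ), 0 < p → p ≤ p0 →
      HypA (q + 1) μ0 δ0 → μ0.real univ ≤ 1 →
      (∀ᵐ x ∂μ0, |x (⟨q + 2, hn⟩ : Fin n)| ≤ p / 4) →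
      (1 / 8) * (1 / 2) ^ q
        ≤ μ0.real {x | ∀ i : Fin n, (i : ℕ) ≤ q + 1 → x i ∈ Icc (1 / 4 : ℝ) (3 / 4)} →
      ∀ (φ : Eu n → Cov n (q + 1)) (K : Set (Eu n)), ContDiff ℝ 1 φ → IsClosed K →
        (μ0 + μ0.map fun x => x + EuclideanSpace.single (⟨q + 2, hn⟩ : Fin n) p).real Kᶜ < ε0 →
        (∀ x ∈ K, extDeriv φ x
          = (if x (⟨q + 2, hn⟩ : Fin n) < p / 2 then (1 : ℝ) else -1) • dxI hn) →
        (∀ (I : Fin (q + 1) → Fin n) (x y : Eu n),
          |φ x (fun i => EuclideanSpace.single (I i) (1 : ℝ))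
            - φ y (fun i => EuclideanSpace.single (I i) (1 : ℝ))| ≤ C * ‖x - y‖) → False := by
  obtain ⟨χ, D, hD, hχ, hχ0, hχ1, hχl, hχz, hχo, hχs⟩ := exists_chi hn
  set κ : ℝ := (1 / 8) * (1 / 2) ^ q with hκ
  have hκ0 : 0 < κ := by positivity
  refine ⟨κ / (2 * (q + 2) * (2 * C + C * D) + 1), by positivity,
    min 1 (κ / (2 * (q + 2) * (C * D) + 1)), by positivity,
    κ / (2 * (1 + (q + 2) * C)), by positivity, ?_⟩
  intro μ0 _ p hp hp0 hA hμ1 hz hcube φ K hφ hK hKc hdK hφl
  have hp1 : p ≤ 1 := hp0.trans (min_le_left _ _)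
  have hp2 : p ≤ κ / (2 * (q + 2) * (C * D) + 1) := hp0.trans (min_le_right _ _)
  set z : Fin n := ⟨q + 2, hn⟩ with hzdef
  set sh : Eu n → Eu n := fun x => x + EuclideanSpace.single z p with hsh
  set μ : Measure (Eu n) := μ0 + μ0.map sh with hμ
  have hshc : Continuous sh := continuous_id.add continuous_const
  have hshm : Measurable sh := hshc.measurable
  have hμfin : IsFiniteMeasure μ := by
    rw [hμ]
    infer_instance
  -- the component function
  set G : Eu n → ℝ := fun x =>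
    ∑ r : Fin (q + 2), (-1) ^ (r : ℕ) * fderiv ℝ (comp hn φ r) x (fr hn r) with hG
  set f : Eu n → ℝ := fun x => if x z < p / 2 then (1 : ℝ) else -1 with hf
  have hGb : ∀ x, |G x| ≤ (q + 2) * C := by
    intro x
    calc |G x| ≤ ∑ r : Fin (q + 2), |(-1) ^ (r : ℕ) * fderiv ℝ (comp hn φ r) x (fr hn r)| :=
          Finset.abs_sum_le_sum_abs _ _
      _ ≤ ∑ r : Fin (q + 2), C := by
          apply Finset.sum_le_sum
          intro r _
          rw [abs_mul, abs_pow, abs_neg, abs_one, one_pow, one_mul]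
          exact abs_fderiv_le hC (comp_lip hn hφl r) x _
      _ = (q + 2) * C := by simp
  have hGc : Continuous G := by
    apply continuous_finsetSum
    intro r _
    exact continuous_const.mul (continuous_fderiv_apply_single (comp_contDiff hn hφ r) _)
  have hfK : ∀ x ∈ K, f x * G x = 1 := by
    intro x hx
    have h1 := congrArg (fun w : Cov n (q + 2) => w (fr hn)) (hdK x hx)
    simp only at h1
    rw [extDeriv_fr hn hφ x] at h1
    have h2 : G x = f x * 1 := by
      rw [← dxI_fr hn]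
      exact h1
    rw [h2, mul_one]
    simp only [hf]
    split_ifs <;> norm_num
  have hfb : ∀ x, |f x| = 1 := by
    intro x
    simp only [hf]
    split_ifs <;> simp
  have hfm : Measurable f := by
    apply Measurable.ite _ measurable_const measurable_const
    exact measurableSet_lt ((EuclideanSpace.proj (𝕜 := ℝ) z).continuous.measurable)
      measurable_const
  -- integrability
  have iχ : ∀ ν : Measure (Eu n), IsFiniteMeasure ν → Integrable χ ν := by
    intro ν _
    apply Integrable.of_bound hχ.continuous.aestronglyMeasurable 1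
    refine Eventually.of_forall fun x => ?_
    rw [Real.norm_eq_abs, abs_of_nonneg (hχ0 x)]
    exact hχ1 x
  have hFm : Measurable fun x => χ x * (f x * G x) :=
    hχ.continuous.measurable.mul (hfm.mul hGc.measurable)
  have hFb : ∀ x, ‖χ x * (f x * G x)‖ ≤ (q + 2) * C := by
    intro x
    rw [Real.norm_eq_abs, abs_mul, abs_mul, hfb, one_mul, abs_of_nonneg (hχ0 x)]
    calc χ x * |G x| ≤ 1 * ((q + 2) * C) := by
          gcongr
          · exact hχ1 x
          · exact hGb x
      _ = _ := one_mul _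
  have iF : ∀ ν : Measure (Eu n), IsFiniteMeasure ν → Integrable (fun x => χ x * (f x * G x)) ν := by
    intro ν _
    exact Integrable.of_bound hFm.aestronglyMeasurable _ (Eventually.of_forall hFb)
  -- lower bound
  have hlow : 2 * κ ≤ ∫ x, χ x ∂μ := by
    rw [hμ, integral_add_measure (iχ _ inferInstance) (iχ _ inferInstance),
      integral_map hshm.aemeasurable hχ.continuous.aestronglyMeasurable]
    have h1 : ∀ x, χ (sh x) = χ x := fun x => hχs x p
    simp_rw [h1]
    have h2 : κ ≤ ∫ x, χ x ∂μ0 := by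
      refine hcube.trans ?_
      set Q : Set (Eu n) := {x | ∀ i : Fin n, (i : ℕ) ≤ q + 1 → x i ∈ Icc (1 / 4 : ℝ) (3 / 4)}
        with hQ
      have hQm : MeasurableSet Q := by
        rw [hQ, ofPred_forall]
        refine MeasurableSet.iInter fun i => ?_
        rw [ofPred_forall]
        refine MeasurableSet.iInter fun _ => ?_
        exact measurableSet_Icc.preimage
          ((EuclideanSpace.proj (𝕜 := ℝ) i).continuous.measurable)
      rw [← integral_indicator_one hQm]
      apply integral_mono_ae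
      · exact (integrable_const (1 : ℝ)).indicator hQm
      · exact iχ _ inferInstance
      · refine Eventually.of_forall fun x => ?_
        simp only [indicator, Pi.one_apply]
        split_ifs with hx
        · rw [hχo x hx]
        · exact hχ0 x
    linarith
  -- error
  have herr : |∫ x, (χ x - χ x * (f x * G x)) ∂μ| ≤ (1 + (q + 2) * C) * μ.real Kᶜ := by
    have hb : ∀ x, ‖χ x - χ x * (f x * G x)‖ ≤ Kᶜ.indicator (fun _ => 1 + (q + 2) * C) x := by
      intro x
      by_cases hx : x ∈ K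
      · rw [indicator_of_notMem (by simpa using hx), hfK x hx, mul_one, sub_self, norm_zero]
      · rw [indicator_of_mem (by simpa using hx)]
        refine (norm_sub_le _ _).trans ?_
        have h1 : ‖χ x‖ ≤ 1 := by
          rw [Real.norm_eq_abs, abs_of_nonneg (hχ0 x)]
          exact hχ1 x
        exact add_le_add h1 (hFb x)
    have h1 := norm_integral_le_of_norm_le (μ := μ)
      ((integrable_const (1 + ((q : ℝ) + 2) * C)).indicator hK.isOpen_compl.measurableSet)
      (Eventually.of_forall hb)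
    rw [integral_indicator hK.isOpen_compl.measurableSet, setIntegral_const, smul_eq_mul,
      Real.norm_eq_abs] at h1
    rw [mul_comm]
    exact h1
  rw [integral_sub (iχ _ hμfin) (iF _ hμfin)] at herr
  -- the main term
  have hmain : |∫ x, χ x * (f x * G x) ∂μ| ≤
      (q + 2) * (κ / (2 * (q + 2) * (2 * C + C * D) + 1) * (2 * C + C * p * D) + C * p * D) := by
    rw [hμ, integral_add_measure (iF _ inferInstance) (iF _ inferInstance),
      integral_map hshm.aemeasurable hFm.aestronglyMeasurable]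
    have h1 : ∫ x, χ x * (f x * G x) ∂μ0 = ∫ x, χ x * G x ∂μ0 := by
      apply integral_congr_ae
      filter_upwards [hz] with x hx
      have : x z < p / 2 := by
        have := le_of_abs_le hx
        linarith
      simp only [hf, if_pos this, one_mul]
    have h2 : ∫ x, χ (sh x) * (f (sh x) * G (sh x)) ∂μ0 = ∫ x, -(χ x * G (sh x)) ∂μ0 := by
      apply integral_congr_ae
      filter_upwards [hz] with x hx
      have h3 : ¬ (sh x) z < p / 2 := by
        have h4 : (sh x) z = x z + p := by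
          simp [hsh]
        rw [h4, not_lt]
        have := neg_le_of_abs_le hx
        linarith
      have h5 : χ (sh x) = χ x := hχs x p
      simp only [hf, if_neg h3, h5]
      ring
    rw [h1, h2]
    have cg : Continuous fun x => χ x * G x := hχ.continuous.mul hGc
    have cgs : Continuous fun x => -(χ x * G (sh x)) :=
      (hχ.continuous.mul (hGc.comp hshc)).neg
    have bg : ∀ x y, |χ x * G y| ≤ (q + 2) * C := by
      intro x y
      rw [abs_mul, abs_of_nonneg (hχ0 x)]
      calc χ x * |G y| ≤ 1 * ((q + 2) * C) := by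
            gcongr
            · exact hχ1 x
            · exact hGb y
        _ = _ := one_mul _
    have ig : Integrable (fun x => χ x * G x) μ0 :=
      Integrable.of_bound cg.aestronglyMeasurable _ (Eventually.of_forall fun x => bg x x)
    have igs : Integrable (fun x => -(χ x * G (sh x))) μ0 := by
      refine Integrable.of_bound cgs.aestronglyMeasurable ((q + 2) * C)
        (Eventually.of_forall fun x => ?_)
      rw [Real.norm_eq_abs, abs_neg]
      exact bg x _
    rw [← integral_add ig igs]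
    have h6 : ∀ x, χ x * G x + -(χ x * G (sh x)) = ∑ r : Fin (q + 2), (-1) ^ (r : ℕ) *
        (χ x * (fderiv ℝ (comp hn φ r) x (fr hn r) - fderiv ℝ (comp hn φ r) (sh x) (fr hn r))) := by
      intro x
      simp only [hG]
      rw [← sub_eq_add_neg, ← mul_sub, ← Finset.sum_sub_distrib, Finset.mul_sum]
      apply Finset.sum_congr rfl
      intro r _
      ring
    simp_rw [h6]
    rw [integral_finsetSum]
    · refine (Finset.abs_sum_le_sum_abs _ _).trans ?_
      calc _ ≤ ∑ r : Fin (q + 2), (κ / (2 * (q + 2) * (2 * C + C * D) + 1) *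
            (2 * C + C * p * D) + C * p * D) := by
            apply Finset.sum_le_sum
            intro r _
            rw [integral_const_mul, abs_mul, abs_pow, abs_neg, abs_one, one_pow, one_mul]
            exact comp_estimate hC hD hp.le z hA hμ1 hχ hχ0 hχ1 hχl hχz
              (comp_contDiff hn hφ r) (comp_lip hn hφl r) ⟨r, by omega⟩ (by simp only; omega)
        _ = _ := by
            simp
            ring
    · intro r _
      apply Integrable.const_mul
      have c1 : Continuous fun x => χ x * (fderiv ℝ (comp hn φ r) x (fr hn r)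
          - fderiv ℝ (comp hn φ r) (sh x) (fr hn r)) := by
        have c2 : Continuous fun x => fderiv ℝ (comp hn φ r) x (fr hn r) :=
          continuous_fderiv_apply_single (comp_contDiff hn hφ r) _
        exact hχ.continuous.mul (c2.sub (c2.comp hshc))
      refine Integrable.of_bound c1.aestronglyMeasurable (1 * (C + C))
        (Eventually.of_forall fun x => ?_)
      rw [Real.norm_eq_abs, abs_mul, abs_of_nonneg (hχ0 x)]
      have b1 : ∀ y, |fderiv ℝ (comp hn φ r) y (fr hn r)| ≤ C := fun y =>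
        abs_fderiv_le hC (comp_lip hn hφl r) y _
      exact mul_le_mul (hχ1 x) ((abs_sub _ _).trans (add_le_add (b1 _) (b1 _))) (abs_nonneg _)
        zero_le_one
  -- conclusion
  have e1 : (q + 2) * (κ / (2 * (q + 2) * (2 * C + C * D) + 1) * (2 * C + C * p * D))
      ≤ κ / 2 := by
    have hA0 : 0 ≤ 2 * C + C * D := by positivity
    have h1 : 2 * C + C * p * D ≤ 2 * C + C * D := by
      have : C * p * D ≤ C * 1 * D := by gcongr
      linarith
    have h2 : κ / (2 * (q + 2) * (2 * C + C * D) + 1) * (2 * (q + 2) * (2 * C + C * D)) ≤ κ := by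
      rw [div_mul_eq_mul_div, div_le_iff₀ (by positivity)]
      nlinarith [mul_nonneg (by positivity : (0 : ℝ) ≤ 2 * (q + 2)) hA0]
    calc _ ≤ (q + 2) * (κ / (2 * (q + 2) * (2 * C + C * D) + 1) * (2 * C + C * D)) := by gcongr
      _ = (κ / (2 * (q + 2) * (2 * C + C * D) + 1) * (2 * (q + 2) * (2 * C + C * D))) / 2 := by
        ring
      _ ≤ κ / 2 := by linarith
  have e2 : (q + 2) * (C * p * D) ≤ κ / 2 := by
    have hA0 : 0 ≤ C * D := by positivity
    have h2 : κ / (2 * (q + 2) * (C * D) + 1) * (2 * (q + 2) * (C * D)) ≤ κ := by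
      rw [div_mul_eq_mul_div, div_le_iff₀ (by positivity)]
      nlinarith [mul_nonneg (by positivity : (0 : ℝ) ≤ 2 * (q + 2)) hA0]
    calc (q + 2) * (C * p * D) = p * (2 * (q + 2) * (C * D)) / 2 := by ring
      _ ≤ κ / (2 * (q + 2) * (C * D) + 1) * (2 * (q + 2) * (C * D)) / 2 := by gcongr
      _ ≤ κ / 2 := by linarith
  have e3 : (1 + (q + 2) * C) * μ.real Kᶜ < κ / 2 := by
    have h1 : 0 < 1 + (q + 2) * C := by positivity
    calc (1 + (q + 2) * C) * μ.real Kᶜ < (1 + (q + 2) * C) * (κ / (2 * (1 + (q + 2) * C))) := by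
          gcongr
      _ = κ / 2 := by
          field_simp
  have h7 := abs_le.mp herr
  have h8 := abs_le.mp hmain
  have h9 := h7.2
  have h10 := h8.2
  rw [mul_add] at h10
  linarith

end Pool.Agent.H28.Lusin
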