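import Pool.Agent.H28.Lusin.Cur

open MeasureTheory Set Filter
open scoped ContDiff Topology ENNReal

namespace Pool.Agent.H28.Lusin

/-- The first two coordinates and the coordinate of index `q + 2`. -/
noncomputable def qq {n q : ℕ} (hn : q + 2 < n) : Eu n →L[ℝ] (ℝ × ℝ) × ℝ :=
  ((dxx (⟨0, by omega⟩ : Fin n)).prod (dxx (⟨1, by omega⟩ : Fin n))).prod
    (dxx (⟨q + 2, hn⟩ : Fin n))

/-- `dx_0 ∧ ... ∧ dx_{q+1}`. -/
noncomputable def dxI {n q : ℕ} (hn : q + 2 < n) : Cov n (q + 2) :=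
  wedgeC fun i : Fin (q + 2) => dxx (⟨i, by omega⟩ : Fin n)

/-- The covectors `dx_b, dx_2, ..., dx_{q+1}`. -/
noncomputable def bfR {n q : ℕ} (hn : q + 2 < n) (b : Fin n) :
    Fin (q + 1) → (Eu n →L[ℝ] ℝ) :=
  Fin.cons (dxx b) (fun j : Fin q => dxx (⟨j + 2, by omega⟩ : Fin n))

/-- `α ∧ dx_b ∧ dx_2 ∧ ... ∧ dx_{q+1}`. -/
noncomputable def bfW {n q : ℕ} (hn : q + 2 < n) (b : Fin n) (α : Eu n →L[ℝ] ℝ) :
    Cov n (q + 2) :=
  wedgeC (Fin.cons α (bfR hn b) : Fin (q + 2) → (Eu n →L[ℝ] ℝ))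

section

variable {n q : ℕ} (hn : q + 2 < n)

lemma bfW_sum (b : Fin n) (α : Eu n →L[ℝ] ℝ) :
    bfW hn b α = ∑ a : Fin n, α (EuclideanSpace.single a (1 : ℝ)) • bfW hn b (dxx a) :=
  wedgeC_cons_sum α (bfR hn b)

lemma bfW_add (b : Fin n) (α β : Eu n →L[ℝ] ℝ) :
    bfW hn b (α + β) = bfW hn b α + bfW hn b β := by
  rw [bfW_sum hn b (α + β), bfW_sum hn b α, bfW_sum hn b β, ← Finset.sum_add_distrib]
  refine Finset.sum_congr rfl fun a _ => ?_
  rw [_root_.add_apply, add_smul]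

lemma bfW_smul (b : Fin n) (c : ℝ) (α : Eu n →L[ℝ] ℝ) :
    bfW hn b (c • α) = c • bfW hn b α := by
  rw [bfW_sum hn b (c • α), bfW_sum hn b α, Finset.smul_sum]
  refine Finset.sum_congr rfl fun a _ => ?_
  rw [_root_.smul_apply, smul_smul, smul_eq_mul]

lemma bfW_self (b : Fin n) : bfW hn b (dxx b) = 0 := by
  have h := wedgeC_cons_eq_zero (bfR hn b) 0
  exact h

lemma norm_bfW_dxx (a b : Fin n) : ‖bfW hn b (dxx a)‖ ≤ ((q + 2).factorial : ℝ) := by
  have h : bfW hn b (dxx a) = wedgeC (fun i => dxx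
      ((Fin.cons a (Fin.cons b (fun j : Fin q => (⟨j + 2, by omega⟩ : Fin n)) :
        Fin (q + 1) → Fin n) : Fin (q + 2) → Fin n) i)) := by
    unfold bfW bfR
    congr 1
    funext i
    refine Fin.cases rfl (fun i => ?_) i
    refine Fin.cases rfl (fun i => rfl) i
  rw [h]
  exact norm_wedgeC_le _

lemma bfW_zero_one : bfW hn (⟨1, by omega⟩ : Fin n) (dxx (⟨0, by omega⟩ : Fin n)) = dxI hn := by
  unfold bfW bfR dxI
  congr 1
  funext i
  refine Fin.cases rfl (fun i => ?_) i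
  refine Fin.cases rfl (fun i => rfl) i

lemma bfW_one_zero : bfW hn (⟨0, by omega⟩ : Fin n) (dxx (⟨1, by omega⟩ : Fin n)) = -dxI hn := by
  rw [← bfW_zero_one hn]
  exact wedgeC_cons_swap _ _ _

lemma norm_bfW_le (b : Fin n) (α : Eu n →L[ℝ] ℝ) (K : ℝ)
    (hK : ∀ a : Fin n, |α (EuclideanSpace.single a (1 : ℝ))| ≤ K) :
    ‖bfW hn b α‖ ≤ n * (K * ((q + 2).factorial : ℝ)) := by
  rw [bfW_sum]
  refine (norm_sum_le _ _).trans ?_
  have h : ∀ a ∈ (Finset.univ : Finset (Fin n)),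
      ‖α (EuclideanSpace.single a (1 : ℝ)) • bfW hn b (dxx a)‖ ≤ K * ((q + 2).factorial : ℝ) := by
    intro a _
    rw [norm_smul, Real.norm_eq_abs]
    exact mul_le_mul (hK a) (norm_bfW_dxx hn a b) (norm_nonneg _) ((abs_nonneg _).trans (hK a))
  refine (Finset.sum_le_card_nsmul _ _ _ h).trans ?_
  simp

lemma qq_single (a : Fin n) : qq hn (EuclideanSpace.single a (1 : ℝ)) =
    ((if a = (⟨0, by omega⟩ : Fin n) then 1 else 0, if a = (⟨1, by omega⟩ : Fin n) then 1 else 0),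
      if a = (⟨q + 2, hn⟩ : Fin n) then 1 else 0) := by
  simp [qq, dxx, eq_comm]

lemma bfW_comp_qq (b : Fin n) (L : (ℝ × ℝ) × ℝ →L[ℝ] ℝ) :
    bfW hn b (L.comp (qq hn)) = L ((1, 0), 0) • bfW hn b (dxx (⟨0, by omega⟩ : Fin n))
      + L ((0, 1), 0) • bfW hn b (dxx (⟨1, by omega⟩ : Fin n))
      + L ((0, 0), 1) • bfW hn b (dxx (⟨q + 2, hn⟩ : Fin n)) := by
  rw [bfW_sum]
  have hs : ∀ a : Fin n, a ∉ ({(⟨0, by omega⟩ : Fin n), (⟨1, by omega⟩ : Fin n),
      (⟨q + 2, hn⟩ : Fin n)} : Finset (Fin n)) →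
      (L.comp (qq hn)) (EuclideanSpace.single a (1 : ℝ)) • bfW hn b (dxx a) = 0 := by
    intro a ha
    simp only [Finset.mem_insert, Finset.mem_singleton, not_or] at ha
    rw [ContinuousLinearMap.comp_apply, qq_single, if_neg ha.1, if_neg ha.2.1, if_neg ha.2.2]
    have : (((0 : ℝ), (0 : ℝ)), (0 : ℝ)) = (0 : (ℝ × ℝ) × ℝ) := rfl
    rw [this, map_zero, zero_smul]
  rw [← Finset.sum_subset (Finset.subset_univ
    ({(⟨0, by omega⟩ : Fin n), (⟨1, by omega⟩ : Fin n), (⟨q + 2, hn⟩ : Fin n)} :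
      Finset (Fin n))) (fun a _ ha => hs a ha)]
  rw [Finset.sum_insert (by simp), Finset.sum_insert (by simp), Finset.sum_singleton, ← add_assoc]
  simp only [ContinuousLinearMap.comp_apply, qq_single]
  simp

end


/-- A functional of finite mass in `U` is bounded by the mass on the forms supported in `U`. -/
lemma abs_le_massOn {n k : ℕ} (T : Cur n k) (U : Set (Eu n)) (α : TestForm n k)
    (hU : tsupport (α : Eu n → Cov n k) ⊆ U) (S : ℝ) (hS : 0 < S)
    (hα : ∀ x, ‖(α : Eu n → Cov n k) x‖ ≤ S) (hfin : massOn T U ≠ ⊤) :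
    |T α| ≤ S * (massOn T U).toReal := by
  have key : ∀ c : ℝ, |c| = 1 → c * T α ≤ S * (massOn T U).toReal := by
    intro c hc
    have hmem : tsupport (((c / S) • α : TestForm n k) : Eu n → Cov n k) ⊆ U ∧
        ∀ x, ‖(((c / S) • α : TestForm n k) : Eu n → Cov n k) x‖ ≤ 1 := by
      refine ⟨?_, fun x => ?_⟩
      · refine (closure_mono ?_).trans hU
        intro x hx
        rw [Function.mem_support] at hx ⊢
        intro h0
        apply hx
        show (c / S) • ((α : Eu n → Cov n k) x) = 0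
        rw [h0, smul_zero]
      · show ‖(c / S) • ((α : Eu n → Cov n k) x)‖ ≤ 1
        rw [norm_smul, Real.norm_eq_abs, abs_div, hc, abs_of_pos hS]
        rw [one_div, inv_mul_le_iff₀ hS, mul_one]
        exact hα x
    have h1 : ENNReal.ofReal (T ((c / S) • α)) ≤ massOn T U :=
      le_iSup (fun α : {α : TestForm n k // tsupport (α : Eu n → Cov n k) ⊆ U ∧
        ∀ x, ‖(α : Eu n → Cov n k) x‖ ≤ 1} => ENNReal.ofReal (T α)) ⟨_, hmem⟩
    have h2 : T ((c / S) • α) ≤ (massOn T U).toReal :=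
      (ENNReal.ofReal_le_iff_le_toReal hfin).mp h1
    rw [map_smul, smul_eq_mul] at h2
    have h3 : c * T α = S * (c / S * T α) := by field_simp
    rw [h3]
    exact mul_le_mul_of_nonneg_left h2 hS.le
  rw [abs_le]
  constructor
  · have := key (-1) (by simp)
    linarith
  · have := key 1 (by simp)
    linarith

section

variable {n q : ℕ} (hn : q + 2 < n)

/-- The test form `h A0 dx_0 ∧ dx_2 ∧ ... + h A1 dx_1 ∧ dx_2 ∧ ...`. -/
noncomputable def bfEta (h : Eu n → ℝ) (hh : ContDiff ℝ ∞ h) (hs : HasCompactSupport h)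
    (A0 A1 : (ℝ × ℝ) × ℝ → ℝ) (hA0 : ContDiff ℝ ∞ A0) (hA1 : ContDiff ℝ ∞ A1) :
    TestForm n (q + 1) :=
  ⟨fun y => (h y * A0 (qq hn y)) • wedgeC (bfR hn (⟨0, by omega⟩ : Fin n))
    + (h y * A1 (qq hn y)) • wedgeC (bfR hn (⟨1, by omega⟩ : Fin n)), by
    refine ⟨?_, ?_⟩
    · exact ((hh.mul (hA0.comp (qq hn).contDiff)).smul contDiff_const).add
        ((hh.mul (hA1.comp (qq hn).contDiff)).smul contDiff_const)
    · refine HasCompactSupport.intro hs fun x hx => ?_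
      have : h x = 0 := image_eq_zero_of_notMem_tsupport hx
      simp [this]⟩

/-- The value of the exterior derivative of `bfEta`. -/
lemma bfEta_deriv (h : Eu n → ℝ) (hh : ContDiff ℝ ∞ h) (hs : HasCompactSupport h)
    (A0 A1 : (ℝ × ℝ) × ℝ → ℝ) (hA0 : ContDiff ℝ ∞ A0) (hA1 : ContDiff ℝ ∞ A1) (x : Eu n) :
    (dTest (bfEta hn h hh hs A0 A1 hA0 hA1) : Eu n → Cov n (q + 2)) x
      = h x • ((fderiv ℝ A1 (qq hn x) ((1, 0), 0) - fderiv ℝ A0 (qq hn x) ((0, 1), 0)) • dxI hn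
          + fderiv ℝ A0 (qq hn x) ((0, 0), 1) •
            bfW hn (⟨0, by omega⟩ : Fin n) (dxx (⟨q + 2, hn⟩ : Fin n))
          + fderiv ℝ A1 (qq hn x) ((0, 0), 1) •
            bfW hn (⟨1, by omega⟩ : Fin n) (dxx (⟨q + 2, hn⟩ : Fin n)))
        + (A0 (qq hn x) • bfW hn (⟨0, by omega⟩ : Fin n) (fderiv ℝ h x)
          + A1 (qq hn x) • bfW hn (⟨1, by omega⟩ : Fin n) (fderiv ℝ h x)) := by
  have hd : ∀ A : (ℝ × ℝ) × ℝ → ℝ, ContDiff ℝ ∞ A →
      DifferentiableAt ℝ (fun y : Eu n => A (qq hn y)) x := fun A hA =>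
    (hA.comp (qq hn).contDiff).contDiffAt.differentiableAt (by simp)
  have hhd : DifferentiableAt ℝ h x := hh.contDiffAt.differentiableAt (by simp)
  have hfd : ∀ A : (ℝ × ℝ) × ℝ → ℝ, ContDiff ℝ ∞ A →
      fderiv ℝ (fun y : Eu n => A (qq hn y)) x = (fderiv ℝ A (qq hn x)).comp (qq hn) := by
    intro A hA
    have h1 : DifferentiableAt ℝ A (qq hn x) := hA.contDiffAt.differentiableAt (by simp)
    have h2 := fderiv_comp x h1 (qq hn).differentiableAt
    rw [(qq hn).fderiv] at h2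
    exact h2
  have hfm : ∀ A : (ℝ × ℝ) × ℝ → ℝ, ContDiff ℝ ∞ A →
      fderiv ℝ (fun y : Eu n => h y * A (qq hn y)) x
        = h x • (fderiv ℝ A (qq hn x)).comp (qq hn) + A (qq hn x) • fderiv ℝ h x := by
    intro A hA
    rw [fderiv_fun_mul hhd (hd A hA), hfd A hA]
  have h1 : (dTest (bfEta hn h hh hs A0 A1 hA0 hA1) : Eu n → Cov n (q + 2)) x
      = extDeriv (fun y => (h y * A0 (qq hn y)) • wedgeC (bfR hn (⟨0, by omega⟩ : Fin n))
        + (h y * A1 (qq hn y)) • wedgeC (bfR hn (⟨1, by omega⟩ : Fin n))) x := rfl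
  have hdm : ∀ A : (ℝ × ℝ) × ℝ → ℝ, ContDiff ℝ ∞ A →
      DifferentiableAt ℝ (fun y : Eu n => h y * A (qq hn y)) x := fun A hA => hhd.mul (hd A hA)
  rw [h1, extDeriv_fun_add ((hdm A0 hA0).smul_const _) ((hdm A1 hA1).smul_const _),
    extDeriv_smul_wedgeC (hdm A0 hA0), extDeriv_smul_wedgeC (hdm A1 hA1), hfm A0 hA0, hfm A1 hA1]
  have h2 : ∀ (b : Fin n) (α : Eu n →L[ℝ] ℝ),
      wedgeC (Fin.cons α (bfR hn b) : Fin (q + 2) → (Eu n →L[ℝ] ℝ)) = bfW hn b α :=
    fun _ _ => rfl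
  rw [h2, h2, bfW_add, bfW_add, bfW_smul, bfW_smul, bfW_smul, bfW_smul, bfW_comp_qq, bfW_comp_qq,
    bfW_self, bfW_self, bfW_zero_one, bfW_one_zero]
  module

end


lemma bfin_limit {n q : ℕ} (hn : q + 2 < n) (μ : Measure (Eu n)) [IsFiniteMeasure μ]
    (A0 A1 : ℕ → (ℝ × ℝ) × ℝ → ℝ) (hA0 : ∀ i, ContDiff ℝ ∞ (A0 i))
    (hA1 : ∀ i, ContDiff ℝ ∞ (A1 i)) (δ : ℕ → ℝ) (hδ : Tendsto δ atTop (𝓝 0))
    (h0 : ∀ i p, |A0 i p| ≤ δ i) (h1 : ∀ i p, |A1 i p| ≤ δ i) (C : ℝ)
    (hC1 : ∀ i p, |fderiv ℝ (A1 i) p ((1, 0), 0) - fderiv ℝ (A0 i) p ((0, 1), 0)| ≤ C)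
    (hC2 : ∀ i p, |fderiv ℝ (A0 i) p ((0, 0), 1)| ≤ C)
    (hC3 : ∀ i p, |fderiv ℝ (A1 i) p ((0, 0), 1)| ≤ C)
    (c : ℝ)
    (hL1 : Tendsto (fun i => ∫ x, |fderiv ℝ (A1 i) (qq hn x) ((1, 0), 0)
      - fderiv ℝ (A0 i) (qq hn x) ((0, 1), 0) - c| ∂μ) atTop (𝓝 0))
    (hL2 : Tendsto (fun i => ∫ x, |fderiv ℝ (A0 i) (qq hn x) ((0, 0), 1)| ∂μ) atTop (𝓝 0))
    (hL3 : Tendsto (fun i => ∫ x, |fderiv ℝ (A1 i) (qq hn x) ((0, 0), 1)| ∂μ) atTop (𝓝 0))
    (x : Eu n) (r : ℝ) (h : Eu n → ℝ) (hh : ContDiff ℝ ∞ h) (hs : HasCompactSupport h)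
    (hp : ∀ y, 0 ≤ h y) (hp1 : ∀ y, h y ≤ 1) (hU : tsupport h ⊆ Metric.ball x r)
    (v : KVec n (q + 2)) (N : Cur n (q + 2)) (hN : ∀ η : TestForm n (q + 1), N (dTest η) = 0)
    (hfin : massOn (N - vecCur v μ) (Metric.ball x r) ≠ ⊤) :
    |c * v (dxI hn)| * ∫ y, h y ∂μ ≤ (3 * C * ((q + 2).factorial : ℝ) + 1)
      * (massOn (N - vecCur v μ) (Metric.ball x r)).toReal := by
  have hC : 0 ≤ C := (abs_nonneg _).trans (hC2 0 0)
  have hf0 : (0 : ℝ) ≤ ((q + 2).factorial : ℝ) := Nat.cast_nonneg _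
  obtain ⟨M, hM⟩ := (hs.fderiv (𝕜 := ℝ)).exists_bound_of_continuous
    (hh.continuous_fderiv (by simp))
  set K0 : ℝ := n * (M * ((q + 2).factorial : ℝ)) with hK0
  have hK : ∀ (b : Fin n) (y : Eu n), ‖bfW hn b (fderiv ℝ h y)‖ ≤ K0 := by
    intro b y
    refine norm_bfW_le hn b _ M fun a => ?_
    have h2 := (fderiv ℝ h y).le_opNorm (EuclideanSpace.single a (1 : ℝ))
    rw [PiLp.norm_single, norm_one, mul_one, Real.norm_eq_abs] at h2
    exact h2.trans (hM y)
  have hδ0 : ∀ i, 0 ≤ δ i := fun i => (abs_nonneg _).trans (h0 i 0)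
  have hK00 : 0 ≤ K0 := (norm_nonneg _).trans (hK (⟨0, by omega⟩ : Fin n) 0)
  -- short names
  set W0 : Cov n (q + 2) := bfW hn (⟨0, by omega⟩ : Fin n) (dxx (⟨q + 2, hn⟩ : Fin n)) with hW0
  set W1 : Cov n (q + 2) := bfW hn (⟨1, by omega⟩ : Fin n) (dxx (⟨q + 2, hn⟩ : Fin n)) with hW1
  have hW0n : ‖W0‖ ≤ ((q + 2).factorial : ℝ) := norm_bfW_dxx hn _ _
  have hW1n : ‖W1‖ ≤ ((q + 2).factorial : ℝ) := norm_bfW_dxx hn _ _
  have hIn : ‖dxI hn‖ ≤ ((q + 2).factorial : ℝ) := by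
    rw [← bfW_zero_one hn]; exact norm_bfW_dxx hn _ _
  let D : ℕ → Eu n → ℝ := fun i y =>
    fderiv ℝ (A1 i) (qq hn y) ((1, 0), 0) - fderiv ℝ (A0 i) (qq hn y) ((0, 1), 0)
  let a : ℕ → Eu n → ℝ := fun i y => fderiv ℝ (A0 i) (qq hn y) ((0, 0), 1)
  let b : ℕ → Eu n → ℝ := fun i y => fderiv ℝ (A1 i) (qq hn y) ((0, 0), 1)
  let e : ℕ → Eu n → Cov n (q + 2) := fun i y =>
    A0 i (qq hn y) • bfW hn (⟨0, by omega⟩ : Fin n) (fderiv ℝ h y)
          + A1 i (qq hn y) • bfW hn (⟨1, by omega⟩ : Fin n) (fderiv ℝ h y)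
  have hcf : ∀ (A : (ℝ × ℝ) × ℝ → ℝ) (w : (ℝ × ℝ) × ℝ), ContDiff ℝ ∞ A →
      Continuous fun y : Eu n => fderiv ℝ A (qq hn y) w := fun A w hA =>
    ((hA.continuous_fderiv (by simp)).comp (qq hn).continuous).clm_apply continuous_const
  have hDc : ∀ i, Continuous (D i) := fun i => (hcf _ _ (hA1 i)).sub (hcf _ _ (hA0 i))
  have hac : ∀ i, Continuous (a i) := fun i => hcf _ _ (hA0 i)
  have hbc : ∀ i, Continuous (b i) := fun i => hcf _ _ (hA1 i)
  have he : ∀ i y, ‖e i y‖ ≤ 2 * δ i * K0 := by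
    intro i y
    refine (norm_add_le _ _).trans ?_
    rw [norm_smul, norm_smul, Real.norm_eq_abs, Real.norm_eq_abs]
    have t1 := mul_le_mul (h0 i (qq hn y)) (hK (⟨0, by omega⟩ : Fin n) y) (norm_nonneg _) (hδ0 i)
    have t2 := mul_le_mul (h1 i (qq hn y)) (hK (⟨1, by omega⟩ : Fin n) y) (norm_nonneg _) (hδ0 i)
    linarith
  have hη : ∀ i y, (dTest (bfEta hn h hh hs (A0 i) (A1 i) (hA0 i) (hA1 i)) :
      Eu n → Cov n (q + 2)) y = h y • (D i y • dxI hn + a i y • W0 + b i y • W1) + e i y :=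
    fun i y => bfEta_deriv hn h hh hs (A0 i) (A1 i) (hA0 i) (hA1 i) y
  -- the bound through the mass
  have hmass : ∀ᶠ i in atTop,
      |∫ y, v ((dTest (bfEta hn h hh hs (A0 i) (A1 i) (hA0 i) (hA1 i)) :
        Eu n → Cov n (q + 2)) y) ∂μ| ≤ (3 * C * ((q + 2).factorial : ℝ) + 1)
      * (massOn (N - vecCur v μ) (Metric.ball x r)).toReal := by
    have hlim : Tendsto (fun i => 2 * δ i * K0) atTop (𝓝 0) := by
      have := (hδ.const_mul 2).mul_const K0
      simpa using this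
    filter_upwards [hlim.eventually (ge_mem_nhds (zero_lt_one))] with i hi
    set η := dTest (bfEta hn h hh hs (A0 i) (A1 i) (hA0 i) (hA1 i)) with hηdef
    have e1 : ∫ y, v ((η : Eu n → Cov n (q + 2)) y) ∂μ = -((N - vecCur v μ) η) := by
      rw [LinearMap.sub_apply, hN, zero_sub, neg_neg]
      rfl
    rw [e1, abs_neg]
    refine abs_le_massOn _ _ _ ?_ _ (by positivity) ?_ hfin
    · refine (closure_minimal ?_ (isClosed_tsupport h)).trans hU
      intro y hy
      by_contra hy0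
      apply hy
      have z1 : h y = 0 := image_eq_zero_of_notMem_tsupport hy0
      have z2 : fderiv ℝ h y = 0 := fderiv_of_notMem_tsupport ℝ hy0
      have z3 : ∀ b : Fin n, bfW hn b 0 = 0 := by
        intro b
        have := bfW_smul hn b 0 0
        simpa using this
      rw [hη i y, z1]
      simp only [e, z2, z3, zero_smul, smul_zero, add_zero]
    · intro y
      rw [hη i y]
      refine (norm_add_le _ _).trans (add_le_add ?_ ((he i y).trans hi))
      rw [norm_smul, Real.norm_eq_abs, abs_of_nonneg (hp y)]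
      have t : ‖D i y • dxI hn + a i y • W0 + b i y • W1‖ ≤ 3 * C * ((q + 2).factorial : ℝ) := by
        refine (norm_add₃_le).trans ?_
        rw [norm_smul, norm_smul, norm_smul]
        have t1 := mul_le_mul (hC1 i (qq hn y)) hIn (norm_nonneg _) hC
        have t2 := mul_le_mul (hC2 i (qq hn y)) hW0n (norm_nonneg _) hC
        have t3 := mul_le_mul (hC3 i (qq hn y)) hW1n (norm_nonneg _) hC
        simp only [Real.norm_eq_abs, D, a, b]
        linarith
      calc h y * ‖D i y • dxI hn + a i y • W0 + b i y • W1‖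
          ≤ 1 * (3 * C * ((q + 2).factorial : ℝ)) :=
            mul_le_mul (hp1 y) t (norm_nonneg _) zero_le_one
        _ = _ := one_mul _
  -- the error
  let E : ℕ → ℝ := fun i => |v (dxI hn)| * ∫ y, |D i y - c| ∂μ + |v W0| * ∫ y, |a i y| ∂μ
    + |v W1| * ∫ y, |b i y| ∂μ + ‖v‖ * (2 * δ i * K0) * μ.real univ
  have hE : Tendsto E atTop (𝓝 0) := by
    have e1 := hL1.const_mul |v (dxI hn)|
    have e2 := hL2.const_mul |v W0|
    have e3 := hL3.const_mul |v W1|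
    have e4 : Tendsto (fun i => ‖v‖ * (2 * δ i * K0) * μ.real univ) atTop (𝓝 0) := by
      have := (((hδ.const_mul 2).mul_const K0).const_mul ‖v‖).mul_const (μ.real univ)
      simpa using this
    have := ((e1.add e2).add e3).add e4
    simpa using this
  have hbd : ∀ (f : Eu n → ℝ) (R : ℝ), Continuous f → (∀ y, |f y| ≤ R) → Integrable f μ :=
    fun f R hf hR => Integrable.of_bound hf.aestronglyMeasurable R (Eventually.of_forall hR)
  have herr : ∀ i, |∫ y, v ((dTest (bfEta hn h hh hs (A0 i) (A1 i) (hA0 i) (hA1 i)) :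
        Eu n → Cov n (q + 2)) y) ∂μ - c * v (dxI hn) * ∫ y, h y ∂μ| ≤ E i := by
    intro i
    set η := dTest (bfEta hn h hh hs (A0 i) (A1 i) (hA0 i) (hA1 i)) with hηdef
    have i1 : Integrable (fun y => v ((η : Eu n → Cov n (q + 2)) y)) μ :=
      (v.continuous.comp η.2.1.continuous).integrable_of_hasCompactSupport
        (η.2.2.comp_left (map_zero v))
    have i2 : Integrable h μ := hh.continuous.integrable_of_hasCompactSupport hs
    rw [← integral_const_mul, ← integral_sub i1 (i2.const_mul _)]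
    have j1 : Integrable (fun y => |D i y - c|) μ :=
      (hbd (fun y => D i y - c) (C + |c|) ((hDc i).sub continuous_const) fun y =>
        (abs_sub _ _).trans (add_le_add (hC1 i _) le_rfl)).abs
    have j2 : Integrable (fun y => |a i y|) μ := (hbd (a i) C (hac i) fun y => hC2 i _).abs
    have j3 : Integrable (fun y => |b i y|) μ := (hbd (b i) C (hbc i) fun y => hC3 i _).abs
    have k1 : Integrable (fun y => |v (dxI hn)| * |D i y - c|) μ := j1.const_mul _
    have k2 : Integrable (fun y => |v W0| * |a i y|) μ := j2.const_mul _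
    have k3 : Integrable (fun y => |v W1| * |b i y|) μ := j3.const_mul _
    have k4 : Integrable (fun _ : Eu n => ‖v‖ * (2 * δ i * K0)) μ := integrable_const _
    have k12 : Integrable (fun y => |v (dxI hn)| * |D i y - c| + |v W0| * |a i y|) μ := k1.add k2
    have k123 : Integrable (fun y => |v (dxI hn)| * |D i y - c| + |v W0| * |a i y|
      + |v W1| * |b i y|) μ := k12.add k3
    have k : Integrable (fun y => |v (dxI hn)| * |D i y - c| + |v W0| * |a i y|
      + |v W1| * |b i y| + ‖v‖ * (2 * δ i * K0)) μ := k123.add k4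
    have hEi : E i = ∫ y, (|v (dxI hn)| * |D i y - c| + |v W0| * |a i y| + |v W1| * |b i y|
        + ‖v‖ * (2 * δ i * K0)) ∂μ := by
      rw [integral_add k123 k4, integral_add k12 k3, integral_add k1 k2, integral_const_mul,
        integral_const_mul, integral_const_mul, integral_const, smul_eq_mul]
      simp only [E]
      ring
    rw [hEi, ← Real.norm_eq_abs]
    refine norm_integral_le_of_norm_le k (Eventually.of_forall fun y => ?_)
    rw [hη i y]
    have e2 : v (h y • (D i y • dxI hn + a i y • W0 + b i y • W1) + e i y)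
        - c * v (dxI hn) * h y
        = h y * ((D i y - c) * v (dxI hn) + a i y * v W0 + b i y * v W1) + v (e i y) := by
      simp only [map_add, map_smul, smul_eq_mul]
      ring
    rw [e2]
    refine (norm_add_le _ _).trans (add_le_add ?_ ?_)
    · rw [norm_mul, Real.norm_eq_abs, abs_of_nonneg (hp y)]
      have t : ‖(D i y - c) * v (dxI hn) + a i y * v W0 + b i y * v W1‖
          ≤ |v (dxI hn)| * |D i y - c| + |v W0| * |a i y| + |v W1| * |b i y| := by
        refine (norm_add₃_le).trans ?_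
        rw [norm_mul, norm_mul, norm_mul]
        simp only [Real.norm_eq_abs]
        linarith
      calc h y * ‖(D i y - c) * v (dxI hn) + a i y * v W0 + b i y * v W1‖
          ≤ 1 * _ := mul_le_mul (hp1 y) t (norm_nonneg _) zero_le_one
        _ = _ := one_mul _
    · exact (v.le_opNorm _).trans (mul_le_mul_of_nonneg_left (he i y) (norm_nonneg _))
  have hint : 0 ≤ ∫ y, h y ∂μ := integral_nonneg hp
  have hev : ∀ᶠ i in atTop, |c * v (dxI hn)| * ∫ y, h y ∂μ
      ≤ (3 * C * ((q + 2).factorial : ℝ) + 1)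
      * (massOn (N - vecCur v μ) (Metric.ball x r)).toReal + E i := by
    filter_upwards [hmass] with i hi
    have t1 := herr i
    have t0 : |c * v (dxI hn)| * ∫ y, h y ∂μ = |c * v (dxI hn) * ∫ y, h y ∂μ| := by
      rw [abs_mul (c * v (dxI hn)), abs_of_nonneg hint]
    rw [t0]
    have t2 := abs_sub_abs_le_abs_sub (c * v (dxI hn) * ∫ y, h y ∂μ)
      (∫ y, v ((dTest (bfEta hn h hh hs (A0 i) (A1 i) (hA0 i) (hA1 i)) :
        Eu n → Cov n (q + 2)) y) ∂μ)
    rw [abs_sub_comm] at t2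
    linarith
  have hlim2 : Tendsto (fun i => (3 * C * ((q + 2).factorial : ℝ) + 1)
      * (massOn (N - vecCur v μ) (Metric.ball x r)).toReal + E i) atTop
      (𝓝 ((3 * C * ((q + 2).factorial : ℝ) + 1)
      * (massOn (N - vecCur v μ) (Metric.ball x r)).toReal + 0)) := hE.const_add _
  rw [add_zero] at hlim2
  exact ge_of_tendsto hlim2 hev


/-- Vanishing of the component `dx_0 ∧ ... ∧ dx_{q+1}` on the decomposability bundle. -/
theorem bfin {n q : ℕ} (hn : q + 2 < n) (μ : Measure (Eu n)) [IsFiniteMeasure μ]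
    (A0 A1 : ℕ → (ℝ × ℝ) × ℝ → ℝ) (hA0 : ∀ i, ContDiff ℝ ∞ (A0 i))
    (hA1 : ∀ i, ContDiff ℝ ∞ (A1 i)) (δ : ℕ → ℝ) (hδ : Tendsto δ atTop (𝓝 0))
    (h0 : ∀ i p, |A0 i p| ≤ δ i) (h1 : ∀ i p, |A1 i p| ≤ δ i) (C : ℝ)
    (hC1 : ∀ i p, |fderiv ℝ (A1 i) p ((1, 0), 0) - fderiv ℝ (A0 i) p ((0, 1), 0)| ≤ C)
    (hC2 : ∀ i p, |fderiv ℝ (A0 i) p ((0, 0), 1)| ≤ C)
    (hC3 : ∀ i p, |fderiv ℝ (A1 i) p ((0, 0), 1)| ≤ C)
    (c : ℝ) (hc : c ≠ 0)
    (hL1 : Tendsto (fun i => ∫ x, |fderiv ℝ (A1 i) (qq hn x) ((1, 0), 0)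
      - fderiv ℝ (A0 i) (qq hn x) ((0, 1), 0) - c| ∂μ) atTop (𝓝 0))
    (hL2 : Tendsto (fun i => ∫ x, |fderiv ℝ (A0 i) (qq hn x) ((0, 0), 1)| ∂μ) atTop (𝓝 0))
    (hL3 : Tendsto (fun i => ∫ x, |fderiv ℝ (A1 i) (qq hn x) ((0, 0), 1)| ∂μ) atTop (𝓝 0))
    (x : Eu n) (hx : ∀ r : ℝ, 0 < r → 0 < μ (Metric.ball x r)) (v : KVec n (q + 2))
    (hv : v ∈ Vk (q + 1) μ x) : v (dxI hn) = 0 := by
  obtain ⟨N, -, hN2, hN3⟩ := hv
  have hC : 0 ≤ C := (abs_nonneg _).trans (hC2 0 0)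
  set R : ℝ := 3 * C * ((q + 2).factorial : ℝ) + 1 with hR
  have hRpos : 0 < R := by positivity
  have claim : ∀ r : ℝ, 0 < r → ENNReal.ofReal |c * v (dxI hn)| * (μ (Metric.ball x r) / 2)
      ≤ ENNReal.ofReal R * massOn (N - vecCur v μ) (Metric.ball x r) := by
    intro r hr
    by_cases hfin : massOn (N - vecCur v μ) (Metric.ball x r) = ⊤
    · rw [hfin, ENNReal.mul_top (by simpa using hRpos)]
      exact le_top
    have hhalf : μ (Metric.ball x r) / 2 < μ (Metric.ball x r) :=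
      ENNReal.half_lt_self (hx r hr).ne' (measure_ne_top μ _)
    obtain ⟨K, hKU, hKc, hKm⟩ := Metric.isOpen_ball.exists_lt_isCompact hhalf
    -- a smaller ball that contains `K`
    obtain ⟨s, hs0, hsr, hKs⟩ : ∃ s : ℝ, 0 < s ∧ s < r ∧ K ⊆ Metric.closedBall x s := by
      rcases K.eq_empty_or_nonempty with hKe | hKne
      · exact ⟨r / 2, by linarith, by linarith, by rw [hKe]; exact empty_subset _⟩
      · obtain ⟨y, hy, hmax⟩ := hKc.exists_isMaxOn hKne
          (continuous_id.dist continuous_const).continuousOn (f := fun y => dist y x)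
        refine ⟨max (dist y x) (r / 2), lt_max_of_lt_right (by linarith),
          max_lt (hKU hy) (by linarith), fun z hz => ?_⟩
        exact Metric.mem_closedBall.mpr ((hmax hz).trans (le_max_left _ _))
    let f : ContDiffBump x := ⟨s, (s + r) / 2, hs0, by linarith⟩
    have hfts : tsupport (f : Eu n → ℝ) ⊆ Metric.ball x r := by
      rw [f.tsupport_eq]
      exact Metric.closedBall_subset_ball (by show (s + r) / 2 < r; linarith)
    have hlim := bfin_limit hn μ A0 A1 hA0 hA1 δ hδ h0 h1 C hC1 hC2 hC3 c hL1 hL2 hL3 x r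
      (f : Eu n → ℝ) f.contDiff f.hasCompactSupport (fun y => f.nonneg) (fun y => f.le_one) hfts
      v N hN2 hfin
    have hKint : μ.real K ≤ ∫ y, f y ∂μ := by
      have hint : Integrable (f : Eu n → ℝ) μ :=
        (f.contDiff (n := 0)).continuous.integrable_of_hasCompactSupport f.hasCompactSupport
      calc μ.real K = ∫ y, K.indicator (fun _ => (1 : ℝ)) y ∂μ := by
            rw [integral_indicator_const _ hKc.measurableSet, smul_eq_mul, mul_one]
        _ ≤ ∫ y, f y ∂μ := by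
            refine integral_mono ((integrable_const _).indicator hKc.measurableSet) hint
              fun y => ?_
            by_cases hy : y ∈ K
            · rw [indicator_of_mem hy]
              exact (f.one_of_mem_closedBall (hKs hy)).ge
            · rw [indicator_of_notMem hy]
              exact f.nonneg
    calc ENNReal.ofReal |c * v (dxI hn)| * (μ (Metric.ball x r) / 2)
        ≤ ENNReal.ofReal |c * v (dxI hn)| * μ K := by gcongr
      _ = ENNReal.ofReal (|c * v (dxI hn)| * μ.real K) := by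
          rw [ENNReal.ofReal_mul (abs_nonneg _), Measure.real, ENNReal.ofReal_toReal
            (measure_ne_top μ _)]
      _ ≤ ENNReal.ofReal (|c * v (dxI hn)| * ∫ y, f y ∂μ) := by
          apply ENNReal.ofReal_le_ofReal
          exact mul_le_mul_of_nonneg_left hKint (abs_nonneg _)
      _ ≤ ENNReal.ofReal (R * (massOn (N - vecCur v μ) (Metric.ball x r)).toReal) :=
          ENNReal.ofReal_le_ofReal hlim
      _ = _ := by rw [ENNReal.ofReal_mul hRpos.le, ENNReal.ofReal_toReal hfin]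
  have hle : ∀ r : ℝ, 0 < r → ENNReal.ofReal |c * v (dxI hn)| / 2
      ≤ ENNReal.ofReal R * (massOn (N - vecCur v μ) (Metric.ball x r)
        / μ (Metric.ball x r)) := by
    intro r hr
    have hb0 : μ (Metric.ball x r) ≠ 0 := (hx r hr).ne'
    have hbt : μ (Metric.ball x r) ≠ ⊤ := measure_ne_top μ _
    rw [← mul_div_assoc, ENNReal.le_div_iff_mul_le (Or.inl hb0) (Or.inl hbt)]
    refine le_trans (le_of_eq ?_) (claim r hr)
    rw [ENNReal.div_eq_inv_mul, ENNReal.div_eq_inv_mul]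
    ring
  have hlim : Tendsto (fun r : ℝ => ENNReal.ofReal R * (massOn (N - vecCur v μ)
      (Metric.ball x r) / μ (Metric.ball x r))) (𝓝[>] 0) (𝓝 (ENNReal.ofReal R * 0)) :=
    ENNReal.Tendsto.const_mul hN3 (Or.inr ENNReal.ofReal_ne_top)
  rw [mul_zero] at hlim
  have hz : ENNReal.ofReal |c * v (dxI hn)| / 2 ≤ 0 := by
    refine ge_of_tendsto hlim ?_
    filter_upwards [self_mem_nhdsWithin] with r hr
    exact hle r hr
  have hz2 : ENNReal.ofReal |c * v (dxI hn)| = 0 := by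
    have := le_antisymm hz bot_le
    rw [ENNReal.div_eq_zero_iff] at this
    rcases this with h | h
    · exact h
    · exact absurd h (by norm_num)
  have hz3 : |c * v (dxI hn)| ≤ 0 := ENNReal.ofReal_eq_zero.mp hz2
  have hz4 : c * v (dxI hn) = 0 := abs_nonpos_iff.mp hz3
  exact (mul_eq_zero.mp hz4).resolve_left hc


end Pool.Agent.H28.Lusin
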