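import Pool.Agent.H28.Lusin.Cons

open MeasureTheory Set Real Filter
open scoped ContDiff Topology ENNReal ComplexConjugate

namespace Pool.Agent.H28.Lusin

variable {m0 Pst : ℕ} {s : ℕ → Lev}

theorem bS_self : bS m0 m0 = 0 := by unfold bS; omega

theorem bS_mono {m m' : ℕ} (h : m ≤ m') : bS m0 m ≤ bS m0 m' := by
  unfold bS
  exact Nat.sub_le_sub_right (Nat.pow_le_pow_right (by norm_num) h) _

theorem bb_eq_of_mem {m j : ℕ} (hm : m0 ≤ m) (h1 : bS m0 m ≤ j) (h2 : j < bS m0 (m + 1)) :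
    bb m0 j = m := by
  unfold bS at h1 h2
  have h3 : 16 ^ m0 ≤ 16 ^ m := Nat.pow_le_pow_right (by norm_num) hm
  unfold bb
  rw [Nat.log_eq_iff (Or.inr ⟨by norm_num, by positivity⟩)]
  constructor <;> omega

theorem bS_bb_le (j : ℕ) : bS m0 (bb m0 j) ≤ j ∧ j < bS m0 (bb m0 j + 1) := by
  have h1 := Nat.pow_log_le_self 16 (x := 16 ^ m0 + j) (by positivity)
  have h2 := Nat.lt_pow_succ_log_self (b := 16) (by norm_num) (16 ^ m0 + j)
  unfold bS bb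
  constructor <;> omega

theorem bl_rho {m j : ℕ} (hm : m0 ≤ m) (h1 : bS m0 m ≤ j) (h2 : j < bS m0 (m + 1)) :
    rho m0 j = 1 / 16 ^ m := by
  unfold rho JJ
  rw [bb_eq_of_mem hm h1 h2]
  push_cast
  rfl

theorem bl_card {m : ℕ} (hm : m0 ≤ m) : bS m0 (m + 1) - bS m0 m = 15 * 16 ^ m := by
  have h3 : 16 ^ m0 ≤ 16 ^ m := Nat.pow_le_pow_right (by norm_num) hm
  unfold bS
  rw [pow_succ]
  omega

theorem sum_rho_block {m : ℕ} (hm : m0 ≤ m) :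
    ∑ j ∈ Finset.Ico (bS m0 m) (bS m0 (m + 1)), rho m0 j = 15 := by
  have h : ∀ j ∈ Finset.Ico (bS m0 m) (bS m0 (m + 1)), rho m0 j = 1 / 16 ^ m := by
    intro j hj
    rw [Finset.mem_Ico] at hj
    exact bl_rho hm hj.1 hj.2
  rw [Finset.sum_congr rfl h, Finset.sum_const, Nat.card_Ico, bl_card hm, nsmul_eq_mul]
  push_cast
  have : (16 : ℝ) ^ m ≠ 0 := by positivity
  field_simp

theorem Cg_pos : 0 < Cg := by
  unfold Cg
  have := Cq_pos
  positivity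

theorem bl_gain {m j : ℕ} (hm : m0 ≤ m) (h1 : bS m0 m ≤ j) (h2 : j < bS m0 (m + 1)) :
    gain m0 j = (1 / 256) ^ m * (32 * m + 6 + Cq ^ 2) := by
  unfold gain KK ep KK
  rw [bl_rho hm h1 h2, bb_eq_of_mem hm h1 h2]
  push_cast
  have e1 : ((2 : ℝ)⁻¹) ^ (8 * m) = (1 / 256) ^ m := by
    rw [pow_mul]; norm_num
  have e2 : ((1 : ℝ) / 16 ^ m) ^ 2 = (1 / 256) ^ m := by
    rw [div_pow, one_pow, ← pow_mul, mul_comm m 2, pow_mul, div_pow, one_pow]; norm_num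
  rw [e1, e2]
  ring

theorem bl_num (m : ℕ) : 15 * (16 : ℝ) ^ m * ((1 / 256) ^ m * (32 * m + 6 + Cq ^ 2))
    ≤ Cg * (1 / 8) ^ m := by
  have e1 : (16 : ℝ) ^ m * (1 / 256) ^ m = (1 / 8) ^ m * (1 / 2) ^ m := by
    rw [← mul_pow, ← mul_pow]; norm_num
  have e2 : 15 * (16 : ℝ) ^ m * ((1 / 256) ^ m * (32 * m + 6 + Cq ^ 2))
      = (1 / 8) ^ m * (15 * ((1 / 2) ^ m * (32 * m + 6 + Cq ^ 2))) := by
    calc _ = 15 * ((16 : ℝ) ^ m * (1 / 256) ^ m) * (32 * m + 6 + Cq ^ 2) := by ring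
      _ = _ := by rw [e1]; ring
  rw [e2]
  have h1 : ((1 : ℝ) / 2) ^ m * m ≤ 1 / 2 := by
    have : ∀ n : ℕ, ((1 : ℝ) / 2) ^ n * n ≤ 1 / 2 := by
      intro n
      have h2 : n ≤ 2 ^ (n - 1) := by
        cases n with
        | zero => norm_num
        | succ n => exact Nat.lt_two_pow_self
      have h3 : (n : ℝ) ≤ 2 ^ (n - 1) := by exact_mod_cast h2
      cases n with
      | zero => norm_num
      | succ n =>
        rw [Nat.add_sub_cancel] at h3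
        have h4 : ((1 : ℝ) / 2) ^ (n + 1) * ((n + 1 : ℕ) : ℝ) ≤ (1 / 2) ^ (n + 1) * 2 ^ n := by
          gcongr
        refine h4.trans (le_of_eq ?_)
        rw [pow_succ, mul_assoc, mul_comm (1 / 2 : ℝ) (2 ^ n), ← mul_assoc, ← mul_pow]
        norm_num
    exact this m
  have h2 : ((1 : ℝ) / 2) ^ m ≤ 1 := pow_le_one₀ (by norm_num) (by norm_num)
  have h0 : (0 : ℝ) ≤ (1 / 2) ^ m := by positivity
  have h3 : ((1 : ℝ) / 2) ^ m * Cq ^ 2 ≤ Cq ^ 2 := by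
    have := sq_nonneg Cq
    nlinarith
  have h4 : 15 * (((1 : ℝ) / 2) ^ m * (32 * m + 6 + Cq ^ 2)) ≤ Cg := by
    unfold Cg
    have : ((1 : ℝ) / 2) ^ m * (32 * m + 6 + Cq ^ 2)
        = 32 * (((1 : ℝ) / 2) ^ m * m) + 6 * (1 / 2) ^ m + (1 / 2) ^ m * Cq ^ 2 := by ring
    rw [this]
    linarith
  have h5 : (0 : ℝ) ≤ (1 / 8) ^ m := by positivity
  calc _ ≤ (1 / 8) ^ m * Cg := by gcongr
    _ = _ := mul_comm _ _

theorem bl_FF (hs : ∀ j, Good m0 Pst j s) {m : ℕ} (hm : m0 ≤ m) (n : ℕ)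
    (h2 : bS m0 m + n ≤ bS m0 (m + 1)) : FF m0 s (bS m0 m) (bS m0 m + n)
      ≤ n * ((1 / 256) ^ m * (32 * m + 6 + Cq ^ 2)) := by
  induction n with
  | zero => rw [Nat.add_zero, FF_self]; simp
  | succ n ih =>
    have ih' := ih (by omega)
    have h3 := (hs (bS m0 m + n)).2
    have h4 : bs m0 (bS m0 m + n) = bS m0 m := by
      unfold bs bS
      have := bb_eq_of_mem (m0 := m0) (m := m) (j := bS m0 m + n) hm (by omega) (by omega)
      unfold bS at this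
      rw [this]
    rw [h4, bl_gain hm (by omega) (by omega)] at h3
    rw [← Nat.add_assoc]
    push_cast
    linarith

/-- The functional stays small inside a block. -/
theorem FF_block_le (hs : ∀ j, Good m0 Pst j s) {m j : ℕ} (hm : m0 ≤ m) (h1 : bS m0 m ≤ j)
    (h2 : j ≤ bS m0 (m + 1)) : FF m0 s (bS m0 m) j ≤ Cg * (1 / 8) ^ m := by
  obtain ⟨n, rfl⟩ := Nat.exists_eq_add_of_le h1
  refine (bl_FF hs hm n h2).trans ((mul_le_mul_of_nonneg_right ?_ ?_).trans (bl_num m))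
  · have h3 := bl_card (m0 := m0) hm
    have h4 : n ≤ 15 * 16 ^ m := by omega
    exact_mod_cast h4
  · have := sq_nonneg Cq
    positivity

theorem bl_integrable_Fu (i j : ℕ) : Integrable (Fu m0 s i j) Tor :=
  integrable_of_bdd (measurable_Fu m0 s i j) (abs_Fu_le m0 s i j)

theorem bl_St_nonneg (i j : ℕ) (u : ℝ × ℝ) : 0 ≤ ∑ l ∈ Finset.Ico i j, St m0 s l u :=
  Finset.sum_nonneg fun l _ => strip_nonneg _ _ _

theorem bl_integrable_of_le {f : ℝ × ℝ → ℝ} (hf : Measurable f) {i j : ℕ} (h0 : ∀ u, 0 ≤ f u)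
    (h : ∀ u, f u ≤ Fu m0 s i j u) : Integrable f Tor := by
  refine integrable_of_bdd hf (C := FuB m0 i j) fun u => ?_
  rw [abs_of_nonneg (h0 u)]
  exact (h u).trans ((le_abs_self _).trans (abs_Fu_le m0 s i j u))

theorem bl_le {f : ℝ × ℝ → ℝ} (hf : Measurable f) (hs : ∀ j, Good m0 Pst j s) {m j : ℕ}
    (hm : m0 ≤ m) (h1 : bS m0 m ≤ j) (h2 : j ≤ bS m0 (m + 1)) (h0 : ∀ u, 0 ≤ f u)
    (h : ∀ u, f u ≤ Fu m0 s (bS m0 m) j u) : ∫ u, f u ∂Tor ≤ Cg * (1 / 8) ^ m :=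
  (integral_mono (bl_integrable_of_le hf h0 h) (bl_integrable_Fu _ _) h).trans
    (FF_block_le hs hm h1 h2)

/-- `L²` and `L¹` bounds extracted from `FF_block_le`. -/
theorem integral_sq_S1_le (hs : ∀ j, Good m0 Pst j s) {m j : ℕ} (hm : m0 ≤ m)
    (h1 : bS m0 m ≤ j) (h2 : j ≤ bS m0 (m + 1)) :
    ∫ u, (∑ l ∈ Finset.Ico (bS m0 m) j, S1 m0 s l u) ^ 2 ∂Tor ≤ Cg * (1 / 8) ^ m := by
  refine bl_le ((Finset.measurable_fun_sum _ fun l _ => measurable_S1 m0 s l).pow_const 2)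
    hs hm h1 h2 (fun u => sq_nonneg _) fun u => ?_
  have h3 := bl_St_nonneg (m0 := m0) (s := s) (bS m0 m) j u
  have h4 := sq_nonneg (∑ l ∈ Finset.Ico (bS m0 m) j, S2 m0 s l u)
  have h5 := sq_nonneg (∑ l ∈ Finset.Ico (bS m0 m) j, Qc m0 s l u)
  unfold Fu
  linarith

theorem integral_sq_S2_le (hs : ∀ j, Good m0 Pst j s) {m j : ℕ} (hm : m0 ≤ m)
    (h1 : bS m0 m ≤ j) (h2 : j ≤ bS m0 (m + 1)) :
    ∫ u, (∑ l ∈ Finset.Ico (bS m0 m) j, S2 m0 s l u) ^ 2 ∂Tor ≤ Cg * (1 / 8) ^ m := by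
  refine bl_le ((Finset.measurable_fun_sum _ fun l _ => measurable_S2 m0 s l).pow_const 2)
    hs hm h1 h2 (fun u => sq_nonneg _) fun u => ?_
  have h3 := bl_St_nonneg (m0 := m0) (s := s) (bS m0 m) j u
  have h4 := sq_nonneg (∑ l ∈ Finset.Ico (bS m0 m) j, S1 m0 s l u)
  have h5 := sq_nonneg (∑ l ∈ Finset.Ico (bS m0 m) j, Qc m0 s l u)
  unfold Fu
  linarith

theorem integral_sq_Qc_le (hs : ∀ j, Good m0 Pst j s) {m j : ℕ} (hm : m0 ≤ m)
    (h1 : bS m0 m ≤ j) (h2 : j ≤ bS m0 (m + 1)) :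
    ∫ u, (∑ l ∈ Finset.Ico (bS m0 m) j, Qc m0 s l u) ^ 2 ∂Tor ≤ Cg * (1 / 8) ^ m := by
  refine bl_le ((Finset.measurable_fun_sum _ fun l _ => measurable_Qc m0 s l).pow_const 2)
    hs hm h1 h2 (fun u => sq_nonneg _) fun u => ?_
  have h3 := bl_St_nonneg (m0 := m0) (s := s) (bS m0 m) j u
  have h4 := sq_nonneg (∑ l ∈ Finset.Ico (bS m0 m) j, S1 m0 s l u)
  have h5 := sq_nonneg (∑ l ∈ Finset.Ico (bS m0 m) j, S2 m0 s l u)
  unfold Fu
  linarith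

theorem integral_St_le (hs : ∀ j, Good m0 Pst j s) {m j : ℕ} (hm : m0 ≤ m)
    (h1 : bS m0 m ≤ j) (h2 : j ≤ bS m0 (m + 1)) :
    ∫ u, (∑ l ∈ Finset.Ico (bS m0 m) j, St m0 s l u) ∂Tor ≤ Cg * (1 / 8) ^ m := by
  refine bl_le (Finset.measurable_fun_sum _ fun l _ => measurable_St m0 s l)
    hs hm h1 h2 (fun u => bl_St_nonneg _ _ u) fun u => ?_
  have h3 := sq_nonneg (∑ l ∈ Finset.Ico (bS m0 m) j, S1 m0 s l u)
  have h4 := sq_nonneg (∑ l ∈ Finset.Ico (bS m0 m) j, S2 m0 s l u)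
  have h5 := sq_nonneg (∑ l ∈ Finset.Ico (bS m0 m) j, Qc m0 s l u)
  unfold Fu
  linarith

/-- from the second moment to the first one -/
theorem bl_abs_le {g : ℝ × ℝ → ℝ} (hg : Measurable g) {C : ℝ} (hC : ∀ u, |g u| ≤ C) {c : ℝ}
    (hc : 0 < c) (h : ∫ u, g u ^ 2 ∂Tor ≤ c ^ 2) : ∫ u, |g u| ∂Tor ≤ c := by
  have hi2 : Integrable (fun u => g u ^ 2) Tor := by
    refine integrable_of_bdd (hg.pow_const 2) (C := C ^ 2) fun u => ?_
    rw [abs_pow]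
    gcongr
    exact hC u
  have hi1 : Integrable (fun u => |g u|) Tor :=
    integrable_of_bdd hg.abs (C := C) fun u => by rw [abs_abs]; exact hC u
  have h1 : ∀ u, |g u| ≤ (1 / (2 * c)) * g u ^ 2 + c / 2 := by
    intro u
    have h2 : 0 ≤ (|g u| - c) ^ 2 := sq_nonneg _
    have h3 : |g u| ^ 2 = g u ^ 2 := sq_abs _
    have h4 : 2 * c * |g u| ≤ g u ^ 2 + c ^ 2 := by nlinarith
    have h5 : (1 / (2 * c)) * g u ^ 2 + c / 2 = (g u ^ 2 + c ^ 2) / (2 * c) := by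
      field_simp
    rw [h5, le_div_iff₀ (by positivity)]
    linarith
  calc ∫ u, |g u| ∂Tor ≤ ∫ u, ((1 / (2 * c)) * g u ^ 2 + c / 2) ∂Tor :=
        integral_mono hi1 ((hi2.const_mul _).add (integrable_const _)) h1
    _ = (1 / (2 * c)) * ∫ u, g u ^ 2 ∂Tor + c / 2 := by
        rw [integral_add (hi2.const_mul _) (integrable_const _), integral_const_mul]
        simp
    _ ≤ (1 / (2 * c)) * c ^ 2 + c / 2 := by gcongr
    _ = c := by field_simp; ring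

theorem bl_sum (f : ℕ → ℝ × ℝ → ℝ) (hf : ∀ l, Measurable (f l)) (B : ℕ → ℝ)
    (hB : ∀ l u, |f l u| ≤ B l)
    (h : ∀ m j, m0 ≤ m → bS m0 m ≤ j → j ≤ bS m0 (m + 1) →
      ∫ u, (∑ l ∈ Finset.Ico (bS m0 m) j, f l u) ^ 2 ∂Tor ≤ Cg * (1 / 8) ^ m) (J : ℕ) :
    ∫ u, |∑ l ∈ Finset.range J, f l u| ∂Tor ≤ 2 * √Cg * (1 / 2) ^ m0 := by
  have hsC : 0 < √Cg := Real.sqrt_pos.mpr Cg_pos
  have hmeas : ∀ I : Finset ℕ, Measurable fun u => ∑ l ∈ I, f l u := fun I =>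
    Finset.measurable_fun_sum _ fun l _ => hf l
  have hbd : ∀ I : Finset ℕ, ∀ u, |∑ l ∈ I, f l u| ≤ ∑ l ∈ I, B l := fun I u =>
    (Finset.abs_sum_le_sum_abs _ _).trans (Finset.sum_le_sum fun l _ => hB l u)
  have hint : ∀ I : Finset ℕ, Integrable (fun u => |∑ l ∈ I, f l u|) Tor := fun I =>
    integrable_of_bdd (hmeas I).abs (C := ∑ l ∈ I, B l) fun u => by rw [abs_abs]; exact hbd I u
  have hblock : ∀ m j, m0 ≤ m → bS m0 m ≤ j → j ≤ bS m0 (m + 1) →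
      ∫ u, |∑ l ∈ Finset.Ico (bS m0 m) j, f l u| ∂Tor ≤ √Cg * (1 / 2) ^ m := by
    intro m j hm h1 h2
    refine bl_abs_le (hmeas _) (hbd _) (by positivity) ((h m j hm h1 h2).trans ?_)
    rw [mul_pow, Real.sq_sqrt Cg_pos.le, ← pow_mul, mul_comm m 2, pow_mul]
    have : ((1 : ℝ) / 8) ^ m ≤ ((1 / 2) ^ 2) ^ m :=
      pow_le_pow_left₀ (by norm_num) (by norm_num) m
    have h3 := Cg_pos
    gcongr
  have key : ∀ n J, J ≤ bS m0 (m0 + n) →
      ∫ u, |∑ l ∈ Finset.range J, f l u| ∂Tor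
        ≤ √Cg * ((1 / 2) ^ m0 * (2 - 2 * (1 / 2) ^ n)) := by
    intro n
    induction n with
    | zero =>
      intro J hJ
      rw [Nat.add_zero, bS_self] at hJ
      obtain rfl : J = 0 := by omega
      simp
    | succ n ih =>
      intro J hJ
      have hmono : √Cg * ((1 / 2) ^ m0 * (2 - 2 * (1 / 2) ^ n)) + √Cg * (1 / 2) ^ (m0 + n)
          = √Cg * ((1 / 2) ^ m0 * (2 - 2 * (1 / 2) ^ (n + 1))) := by
        rw [pow_add, pow_succ]; ring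
      by_cases hJ' : J ≤ bS m0 (m0 + n)
      · have := ih J hJ'
        have h5 : 0 ≤ √Cg * (1 / 2 : ℝ) ^ (m0 + n) := by positivity
        linarith
      · have h1 := ih (bS m0 (m0 + n)) le_rfl
        have h2 := hblock (m0 + n) J (by omega) (by omega) hJ
        have hsplit : ∀ u, |∑ l ∈ Finset.range J, f l u| ≤
            |∑ l ∈ Finset.range (bS m0 (m0 + n)), f l u|
              + |∑ l ∈ Finset.Ico (bS m0 (m0 + n)) J, f l u| := by
          intro u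
          rw [← Finset.sum_range_add_sum_Ico _ (by omega : bS m0 (m0 + n) ≤ J)]
          exact abs_add_le _ _
        calc ∫ u, |∑ l ∈ Finset.range J, f l u| ∂Tor
            ≤ ∫ u, (|∑ l ∈ Finset.range (bS m0 (m0 + n)), f l u|
              + |∑ l ∈ Finset.Ico (bS m0 (m0 + n)) J, f l u|) ∂Tor :=
              integral_mono (hint _) ((hint _).add (hint _)) hsplit
          _ = _ := integral_add (hint _) (hint _)
          _ ≤ √Cg * ((1 / 2) ^ m0 * (2 - 2 * (1 / 2) ^ n)) + √Cg * (1 / 2) ^ (m0 + n) :=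
              add_le_add h1 h2
          _ = _ := hmono
  obtain ⟨n, hn⟩ := Nat.exists_eq_add_of_le (le_bb m0 J)
  have h1 := key (n + 1) J (by
    have := (bS_bb_le (m0 := m0) J).2
    rw [hn] at this
    exact this.le)
  refine h1.trans ?_
  have h2 : (0 : ℝ) ≤ (1 / 2) ^ (n + 1) := by positivity
  have h3 : (0 : ℝ) ≤ (1 / 2) ^ m0 := by positivity
  calc √Cg * ((1 / 2) ^ m0 * (2 - 2 * (1 / 2) ^ (n + 1)))
      ≤ √Cg * ((1 / 2) ^ m0 * 2) := by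
        gcongr
        linarith
    _ = _ := by ring

theorem integral_abs_sum_S1_le (hs : ∀ j, Good m0 Pst j s) (J : ℕ) :
    ∫ u, |∑ l ∈ Finset.range J, S1 m0 s l u| ∂Tor ≤ 2 * √Cg * (1 / 2) ^ m0 :=
  bl_sum (S1 m0 s) (measurable_S1 m0 s) (fun l => 1 / ep m0 l) (abs_S1_le m0 s)
    (fun _ _ hm h1 h2 => integral_sq_S1_le hs hm h1 h2) J

theorem integral_abs_sum_S2_le (hs : ∀ j, Good m0 Pst j s) (J : ℕ) :
    ∫ u, |∑ l ∈ Finset.range J, S2 m0 s l u| ∂Tor ≤ 2 * √Cg * (1 / 2) ^ m0 :=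
  bl_sum (S2 m0 s) (measurable_S2 m0 s) (fun l => 1 / ep m0 l) (abs_S2_le m0 s)
    (fun _ _ hm h1 h2 => integral_sq_S2_le hs hm h1 h2) J

end Pool.Agent.H28.Lusin
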