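import Pool.Agent.H28.Lusin.LDefs

open MeasureTheory Set Real Filter
open scoped ContDiff Topology ENNReal ComplexConjugate

namespace Pool.Agent.H28.Lusin

variable {m0 Pst : ℕ} {s : ℕ → Lev}

theorem D_pos (hs : ∀ j, Good m0 Pst j s) (j : ℕ) : 0 < (s j).D := (hs j).1.2.1

theorem Pp_pos' (hP : 0 < Pst) (hs : ∀ j, Good m0 Pst j s) (j : ℕ) : 0 < Pp m0 Pst s j :=
  Pp_pos m0 hP fun i _ => D_pos hs i

theorem Pp_dvd_succ (hs : ∀ j, Good m0 Pst j s) (j : ℕ) : Pp m0 Pst s j ∣ Pp m0 Pst s (j + 1) :=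
  (hs j).1.1.trans (Dvd.intro_left _ rfl)

theorem Pp_dvd (hs : ∀ j, Good m0 Pst j s) {i j : ℕ} (h : i ≤ j) :
    Pp m0 Pst s i ∣ Pp m0 Pst s j := by
  induction h with
  | refl => exact dvd_rfl
  | step _ ih => exact ih.trans (Pp_dvd_succ hs _)

theorem Pst_dvd (hs : ∀ j, Good m0 Pst j s) (j : ℕ) : Pst ∣ Pp m0 Pst s j :=
  Pp_dvd hs (Nat.zero_le j)

theorem Bnd_le_D (hs : ∀ j, Good m0 Pst j s) (j : ℕ) : Bnd m0 Pst s j ≤ (s j).D := (hs j).1.2.2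

theorem D_le_Pp (j : ℕ) : ((s j).D : ℝ) ≤ Pp m0 Pst s (j + 1) := by
  have h : (s j).D ≤ JJ m0 j * (s j).D := Nat.le_mul_of_pos_left _ (JJ_pos m0 j)
  exact_mod_cast h

theorem Bnd_le_Pp (hs : ∀ j, Good m0 Pst j s) (j : ℕ) :
    Bnd m0 Pst s j ≤ Pp m0 Pst s (j + 1) := (Bnd_le_D hs j).trans (D_le_Pp j)

theorem pj_pos (hP : 0 < Pst) (hs : ∀ j, Good m0 Pst j s) (j : ℕ) : 0 < pj m0 Pst s j := by
  have := Pp_pos' hP hs (j + 1)
  unfold pj; positivity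

/-- The factors of `Bnd` other than the listed ones are at least one. -/
theorem le_Bnd (j : ℕ) :
    2 ^ (j + m0 + 10) * (NN m0 j : ℝ) * Pp m0 Pst s j ≤ Bnd m0 Pst s j := by
  unfold Bnd
  have h1 : (1 : ℝ) ≤ 1 + j := by
    have : (0 : ℝ) ≤ j := by positivity
    linarith
  have h2 : (1 : ℝ) ≤ 1 + Gam m0 j := by linarith [Gam_nonneg m0 j]
  have h3 : (1 : ℝ) ≤ 1 + cutL m0 s j := by linarith [cutL_nonneg m0 s j]
  have h4 : (1 : ℝ) ≤ 1 + lamB := by linarith [lamB_pos]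
  have h5 : (1 : ℝ) ≤ (1 + j) * (1 + Gam m0 j) * (1 + cutL m0 s j) * (1 + lamB) :=
    one_le_mul_of_one_le_of_one_le (one_le_mul_of_one_le_of_one_le
      (one_le_mul_of_one_le_of_one_le h1 h2) h3) h4
  have h6 : (0 : ℝ) ≤ 2 ^ (j + m0 + 10) * (NN m0 j : ℝ) * Pp m0 Pst s j := by positivity
  calc _ = 2 ^ (j + m0 + 10) * (NN m0 j : ℝ) * Pp m0 Pst s j * 1 := (mul_one _).symm
    _ ≤ 2 ^ (j + m0 + 10) * (NN m0 j : ℝ) * Pp m0 Pst s j *
        ((1 + j) * (1 + Gam m0 j) * (1 + cutL m0 s j) * (1 + lamB)) := by gcongr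
    _ = _ := by ring

theorem pj_NN_le (hP : 0 < Pst) (hs : ∀ j, Good m0 Pst j s) (j : ℕ) :
    pj m0 Pst s j * NN m0 j ≤ (1 / 2) ^ (j + m0 + 10) / Pp m0 Pst s j := by
  have h1 := (le_Bnd (m0 := m0) (Pst := Pst) (s := s) j).trans (Bnd_le_Pp hs j)
  have hp : (0 : ℝ) < Pp m0 Pst s j := by exact_mod_cast Pp_pos' hP hs j
  have hp' : (0 : ℝ) < Pp m0 Pst s (j + 1) := by exact_mod_cast Pp_pos' hP hs (j + 1)
  have h2 : (0 : ℝ) < 2 ^ (j + m0 + 10) := by positivity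
  unfold pj
  rw [one_div_mul_eq_div, div_le_div_iff₀ hp' hp, one_div_pow, one_div_mul_eq_div,
    le_div_iff₀ h2]
  linarith

theorem one_le_Pst (hP : 0 < Pst) : (1 : ℝ) ≤ Pst := by exact_mod_cast hP

theorem Pp_mono (hP : 0 < Pst) (hs : ∀ j, Good m0 Pst j s) {i j : ℕ} (h : i ≤ j) :
    (Pp m0 Pst s i : ℝ) ≤ Pp m0 Pst s j := by
  exact_mod_cast Nat.le_of_dvd (Pp_pos' hP hs j) (Pp_dvd hs h)

theorem one_le_Pp (hP : 0 < Pst) (hs : ∀ j, Good m0 Pst j s) (j : ℕ) :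
    (1 : ℝ) ≤ Pp m0 Pst s j := by exact_mod_cast Pp_pos' hP hs j

theorem pj_NN_le' (hP : 0 < Pst) (hs : ∀ j, Good m0 Pst j s) {i j : ℕ} (h : i ≤ j) :
    pj m0 Pst s j * NN m0 j ≤ (1 / 2) ^ (j + m0 + 10) / Pp m0 Pst s i := by
  refine (pj_NN_le hP hs j).trans ?_
  have hp : (0 : ℝ) < Pp m0 Pst s i := by exact_mod_cast Pp_pos' hP hs i
  gcongr
  exact_mod_cast Pp_mono hP hs h

theorem summable_pj_NN (hP : 0 < Pst) (hs : ∀ j, Good m0 Pst j s) :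
    Summable fun j => pj m0 Pst s j * NN m0 j := by
  refine Summable.of_nonneg_of_le (fun j => ?_) (fun j => ?_)
    (summable_geometric_of_lt_one (by norm_num : (0 : ℝ) ≤ 1 / 2) (by norm_num))
  · have := pj_pos hP hs j; positivity
  · refine (pj_NN_le' hP hs (Nat.zero_le j)).trans ?_
    have h1 := one_le_Pp hP hs 0
    have h2 : ((1 : ℝ) / 2) ^ (j + m0 + 10) ≤ (1 / 2) ^ j :=
      pow_le_pow_of_le_one (by norm_num) (by norm_num) (by omega)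
    calc ((1 : ℝ) / 2) ^ (j + m0 + 10) / Pp m0 Pst s 0 ≤ (1 / 2) ^ j / 1 := by gcongr
      _ = _ := div_one _

/-- Tail estimate for the vertical displacements. -/
theorem tail_pj_NN (hP : 0 < Pst) (hs : ∀ j, Good m0 Pst j s) (j : ℕ) :
    Pp m0 Pst s j * ∑' l, pj m0 Pst s (l + j) * NN m0 (l + j) ≤ (1 / 2) ^ (j + m0 + 9) := by
  have hp : (0 : ℝ) < Pp m0 Pst s j := by exact_mod_cast Pp_pos' hP hs j
  have hsum : Summable fun l => pj m0 Pst s (l + j) * NN m0 (l + j) :=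
    (summable_nat_add_iff j).2 (summable_pj_NN hP hs)
  have hg : Summable fun l : ℕ => ((1 : ℝ) / 2) ^ l := summable_geometric_two
  have hle : ∀ l, pj m0 Pst s (l + j) * NN m0 (l + j)
      ≤ ((1 / 2) ^ (j + m0 + 10) / Pp m0 Pst s j) * (1 / 2) ^ l := by
    intro l
    refine (pj_NN_le' hP hs (Nat.le_add_left j l)).trans (le_of_eq ?_)
    rw [show l + j + m0 + 10 = (j + m0 + 10) + l by ring, pow_add]
    ring
  have h1 : ∑' l, pj m0 Pst s (l + j) * NN m0 (l + j)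
      ≤ ((1 / 2) ^ (j + m0 + 10) / Pp m0 Pst s j) * 2 := by
    calc _ ≤ ∑' l : ℕ, ((1 / 2 : ℝ) ^ (j + m0 + 10) / Pp m0 Pst s j) * (1 / 2) ^ l :=
          hsum.tsum_le_tsum hle (hg.mul_left _)
      _ = _ := by rw [tsum_mul_left, tsum_geometric_two]
  calc _ ≤ (Pp m0 Pst s j : ℝ) * (((1 / 2) ^ (j + m0 + 10) / Pp m0 Pst s j) * 2) := by gcongr
    _ = (1 / 2) ^ (j + m0 + 9) := by
      field_simp
      rw [show j + m0 + 10 = (j + m0 + 9) + 1 by ring, pow_succ]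
      ring

theorem NN_eq (j : ℕ) : (NN m0 j : ℝ) = 2 ^ (j + m0 + 1) := by unfold NN; push_cast; rfl

theorem one_le_NN (j : ℕ) : (1 : ℝ) ≤ NN m0 j := by exact_mod_cast NN_pos m0 j

end Pool.Agent.H28.Lusin
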