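import Pool.Agent.H28.Lusin.CurDefs

open MeasureTheory Set Filter
open scoped ContDiff Topology ENNReal

namespace Pool.Agent.H28.Lusin

variable {n k : ℕ}

/-- Laplace expansion along the first covector. -/
theorem wedgeC_cons_apply (α : Eu n →L[ℝ] ℝ) (r : Fin k → (Eu n →L[ℝ] ℝ))
    (v : Fin (k + 1) → Eu n) :
    wedgeC (Fin.cons α r : Fin (k + 1) → (Eu n →L[ℝ] ℝ)) v
      = ∑ i : Fin (k + 1), (-1 : ℝ) ^ (i : ℕ) * α (v i) * wedgeC r (i.removeNth v) := by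
  exact Matrix.det_succ_column_zero (Matrix.of fun i j =>
    (Fin.cons α r : Fin (k + 1) → (Eu n →L[ℝ] ℝ)) j (v i))

theorem apply_eq_sum (α : Eu n →L[ℝ] ℝ) (v : Eu n) :
    α v = ∑ a : Fin n, α (EuclideanSpace.single a (1 : ℝ)) * dxx a v := by
  have h : v = ∑ a : Fin n, dxx a v • EuclideanSpace.single a (1 : ℝ) := by
    have := (EuclideanSpace.basisFun (Fin n) ℝ).sum_repr v
    conv_lhs => rw [← this]
    refine Finset.sum_congr rfl fun a _ => ?_
    simp [dxx]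
  conv_lhs => rw [h]
  rw [map_sum]
  refine Finset.sum_congr rfl fun a _ => ?_
  rw [map_smul, smul_eq_mul, mul_comm]

theorem wedgeC_cons_sum (α : Eu n →L[ℝ] ℝ) (r : Fin k → (Eu n →L[ℝ] ℝ)) :
    wedgeC (Fin.cons α r : Fin (k + 1) → (Eu n →L[ℝ] ℝ))
      = ∑ a : Fin n, α (EuclideanSpace.single a (1 : ℝ)) •
        wedgeC (Fin.cons (dxx a) r : Fin (k + 1) → (Eu n →L[ℝ] ℝ)) := by
  ext v
  rw [wedgeC_cons_apply, ContinuousAlternatingMap.sum_apply]
  simp only [ContinuousAlternatingMap.smul_apply, smul_eq_mul, wedgeC_cons_apply]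
  simp_rw [Finset.mul_sum]
  rw [Finset.sum_comm]
  refine Finset.sum_congr rfl fun i _ => ?_
  rw [apply_eq_sum α (v i), Finset.mul_sum, Finset.sum_mul]
  refine Finset.sum_congr rfl fun a _ => ?_
  ring

theorem wedgeC_cons_eq_zero (r : Fin k → (Eu n →L[ℝ] ℝ)) (i : Fin k) :
    wedgeC (Fin.cons (r i) r : Fin (k + 1) → (Eu n →L[ℝ] ℝ)) = 0 := by
  ext v
  rw [wedgeC_apply]
  exact Matrix.det_zero_of_column_eq (i := 0) (j := i.succ) (Fin.succ_ne_zero i).symm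
    (fun _ => rfl)

theorem wedgeC_cons_swap (α β : Eu n →L[ℝ] ℝ) (r : Fin k → (Eu n →L[ℝ] ℝ)) :
    wedgeC (Fin.cons α (Fin.cons β r : Fin (k + 1) → (Eu n →L[ℝ] ℝ)) :
        Fin (k + 2) → (Eu n →L[ℝ] ℝ))
      = -wedgeC (Fin.cons β (Fin.cons α r : Fin (k + 1) → (Eu n →L[ℝ] ℝ)) :
        Fin (k + 2) → (Eu n →L[ℝ] ℝ)) := by
  ext v
  rw [ContinuousAlternatingMap.neg_apply, wedgeC_apply, wedgeC_apply]
  have h := Matrix.det_permute' (Equiv.swap (0 : Fin (k + 2)) 1)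
    (fun i j => (Fin.cons β (Fin.cons α r : Fin (k + 1) → (Eu n →L[ℝ] ℝ)) :
        Fin (k + 2) → (Eu n →L[ℝ] ℝ)) j (v i))
  rw [Equiv.Perm.sign_swap (by simp)] at h
  simp only [Units.val_neg, Units.val_one, Int.cast_neg, Int.cast_one, neg_mul, one_mul] at h
  rw [← h]
  congr 1
  funext i j
  show _ = (Fin.cons β (Fin.cons α r : Fin (k + 1) → (Eu n →L[ℝ] ℝ)) :
        Fin (k + 2) → (Eu n →L[ℝ] ℝ)) (Equiv.swap (0 : Fin (k + 2)) 1 j) (v i)
  refine Fin.cases ?_ (fun j => ?_) j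
  · rw [Equiv.swap_apply_left]
    rfl
  · refine Fin.cases ?_ (fun j => ?_) j
    · have : (Fin.succ 0 : Fin (k + 2)) = 1 := rfl
      rw [this, Equiv.swap_apply_right]
      rfl
    · rw [Equiv.swap_apply_of_ne_of_ne (Fin.succ_ne_zero _)]
      · rfl
      · intro h
        have h2 : (Fin.succ (Fin.succ j) : Fin (k + 2)) = Fin.succ 0 := h
        exact Fin.succ_ne_zero j (Fin.succ_injective _ h2)

/-- `d (f r_0 ∧ ... ∧ r_{k-1}) = df ∧ r_0 ∧ ... ∧ r_{k-1}` (Laplace expansion). -/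
theorem extDeriv_smul_wedgeC {f : Eu n → ℝ} {x : Eu n} (hf : DifferentiableAt ℝ f x)
    (r : Fin k → (Eu n →L[ℝ] ℝ)) :
    extDeriv (fun y => f y • wedgeC r) x
      = wedgeC (Fin.cons (fderiv ℝ f x) r : Fin (k + 1) → (Eu n →L[ℝ] ℝ)) := by
  ext v
  rw [extDeriv_apply (hf.smul_const _), wedgeC_cons_apply]
  refine Finset.sum_congr rfl fun i _ => ?_
  have h : (fun y => (f y • wedgeC r) (i.removeNth v)) =
      fun y => f y * wedgeC r (i.removeNth v) := by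
    funext y
    simp
  rw [h, fderiv_mul_const hf]
  simp only [_root_.smul_apply, smul_eq_mul]
  ring

/-- Comass bound for unit coordinate covectors. -/
theorem norm_wedgeC_le (r : Fin k → Fin n) : ‖wedgeC (fun i => dxx (r i))‖ ≤ (k.factorial : ℝ) := by
  refine ContinuousAlternatingMap.opNorm_le_bound _ (Nat.cast_nonneg _) fun v => ?_
  have h0 : wedgeC (fun i => dxx (r i)) v = ∑ σ : Equiv.Perm (Fin k),
      Equiv.Perm.sign σ • ∏ i, dxx (r i) (v (σ i)) :=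
    Matrix.det_apply (Matrix.of fun i j => dxx (r j) (v i))
  rw [h0]
  refine (norm_sum_le _ _).trans ?_
  have h : ∀ σ ∈ (Finset.univ : Finset (Equiv.Perm (Fin k))),
      ‖Equiv.Perm.sign σ • ∏ i, dxx (r i) (v (σ i))‖ ≤ ∏ i, ‖v i‖ := by
    intro σ _
    have h1 : ‖Equiv.Perm.sign σ • ∏ i, dxx (r i) (v (σ i))‖ = ‖∏ i, dxx (r i) (v (σ i))‖ := by
      rcases Int.units_eq_one_or (Equiv.Perm.sign σ) with hs | hs
      · rw [hs, one_smul]
      · rw [hs, Units.neg_smul, one_smul, norm_neg]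
    rw [h1, norm_prod, ← Equiv.prod_comp σ (fun i => ‖v i‖)]
    refine Finset.prod_le_prod (fun i _ => norm_nonneg _) fun i _ => ?_
    exact PiLp.norm_apply_le (v (σ i)) (r i)
  refine (Finset.sum_le_card_nsmul _ _ _ h).trans ?_
  rw [Finset.card_univ, Fintype.card_perm, Fintype.card_fin, nsmul_eq_mul]

end Pool.Agent.H28.Lusin
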