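import Mathlib

/-!
# Currents, decomposability bundles and the Lusin property for `k`-forms
-/

open MeasureTheory Set Filter
open scoped ContDiff Topology ENNReal

namespace Pool.Agent.H28.Lusin

/-- Euclidean space `ℝⁿ`. -/
abbrev Eu (n : ℕ) := EuclideanSpace ℝ (Fin n)

/-- `k`-covectors of `ℝⁿ` (alternating `k`-linear forms); their operator norm is the comass. -/
abbrev Cov (n k : ℕ) := Eu n [⋀^Fin k]→L[ℝ] ℝ

/-- `k`-vectors of `ℝⁿ`, as the dual space of the `k`-covectors. -/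
abbrev KVec (n k : ℕ) := Cov n k →L[ℝ] ℝ

/-- Smooth compactly supported `k`-forms on `ℝⁿ`. -/
def TestForm (n k : ℕ) : Submodule ℝ (Eu n → Cov n k) where
  carrier := {α | ContDiff ℝ ∞ α ∧ HasCompactSupport α}
  add_mem' := fun h1 h2 => ⟨h1.1.add h2.1, h1.2.add h2.2⟩
  zero_mem' := ⟨contDiff_const, HasCompactSupport.zero⟩
  smul_mem' := fun c _ h => ⟨contDiff_const.smul h.1, h.2.smul_left (f := fun _ => c)⟩

/-- Exterior derivative of a test form. -/
noncomputable def dTest {n k : ℕ} (η : TestForm n k) : TestForm n (k + 1) :=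
  ⟨extDeriv (η : Eu n → Cov n k), by
    refine ⟨?_, ?_⟩
    · have h1 : ContDiff ℝ ∞ (fderiv ℝ (η : Eu n → Cov n k)) :=
        η.2.1.fderiv_right (m := ∞) (by norm_num)
      exact (ContinuousAlternatingMap.alternatizeUncurryFinCLM ℝ (Eu n) ℝ).contDiff.comp h1
    · refine (η.2.2.fderiv (𝕜 := ℝ)).comp_left (g := fun L : Eu n →L[ℝ] Cov n k =>
        ContinuousAlternatingMap.alternatizeUncurryFin L) ?_
      exact map_zero (ContinuousAlternatingMap.alternatizeUncurryFinCLM ℝ (Eu n) ℝ)⟩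

/-- Linear functionals on the test forms of degree `k`. A functional of finite mass is continuous,
i.e. it is a current. -/
abbrev Cur (n k : ℕ) := TestForm n k →ₗ[ℝ] ℝ

/-- The mass of `T` in the open set `U`. -/
noncomputable def massOn {n k : ℕ} (T : Cur n k) (U : Set (Eu n)) : ℝ≥0∞ :=
  ⨆ α : {α : TestForm n k // tsupport (α : Eu n → Cov n k) ⊆ U ∧
    ∀ x, ‖(α : Eu n → Cov n k) x‖ ≤ 1}, ENNReal.ofReal (T α)

/-- The current `v μ`. -/
noncomputable def vecCur {n k : ℕ} (v : KVec n k) (μ : Measure (Eu n))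
    [IsLocallyFiniteMeasure μ] : Cur n k where
  toFun := fun α => ∫ x, v ((α : Eu n → Cov n k) x) ∂μ
  map_add' := fun α η => by
    have h : ∀ α : TestForm n k, Integrable (fun x => v ((α : Eu n → Cov n k) x)) μ := fun α =>
      (v.continuous.comp α.2.1.continuous).integrable_of_hasCompactSupport
        (α.2.2.comp_left (map_zero v))
    have h2 := integral_add (h α) (h η)
    rw [← h2]
    congr 1
    funext x
    show v (((α : Eu n → Cov n k) + (η : Eu n → Cov n k)) x) = _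
    rw [Pi.add_apply, map_add]
  map_smul' := fun c α => by
    show ∫ x, v ((c • (α : Eu n → Cov n k)) x) ∂μ = c • ∫ x, v ((α : Eu n → Cov n k) x) ∂μ
    rw [← integral_smul]
    congr 1
    funext x
    rw [Pi.smul_apply, map_smul]

/-- The `k`-dimensional decomposability bundle of `μ` at `x`, with `k = m + 1`: the `k`-vectors `v`
for which there is a normal `k`-current `N` with `∂N = 0` such that the mass of `N - vμ` in the
ball `B(x,r)` is `o(μ(B(x,r)))`. -/
def Vk {n : ℕ} (m : ℕ) (μ : Measure (Eu n)) [IsLocallyFiniteMeasure μ] (x : Eu n) :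
    Set (KVec n (m + 1)) :=
  {v | ∃ N : Cur n (m + 1), massOn N univ < ⊤ ∧ (∀ η : TestForm n m, N (dTest η) = 0) ∧
    Tendsto (fun r : ℝ => massOn (N - vecCur v μ) (Metric.ball x r) / μ (Metric.ball x r))
      (𝓝[>] 0) (𝓝 0)}

/-- The Lusin property for `k`-forms on `ℝⁿ` asked for in Q1, with `k = m + 1`. -/
def LusinProperty (n m : ℕ) : Prop :=
  ∃ C : ℝ, ∀ (μ : Measure (Eu n)) [IsLocallyFiniteMeasure μ] (Ω : Set (Eu n)),
    IsOpen Ω → μ Ω < ⊤ → ∀ α : Eu n → Cov n (m + 1),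
    (∀ v : Fin (m + 1) → Eu n, Measurable fun x => α x v) →
    (∀ᵐ x ∂(μ.restrict Ω), ∀ τ ∈ Vk m μ x, τ (α x) = 0) →
    ∀ ε : ℝ, 0 < ε → ∃ (φ : Eu n → Cov n m) (K : Set (Eu n)),
      ContDiffOn ℝ 1 φ Ω ∧ K ⊆ Ω ∧ IsCompact K ∧ μ (Ω \ K) < ENNReal.ofReal ε ∧
      (∀ x ∈ K, extDeriv φ x = α x) ∧
      ∀ I : Fin m → Fin n, ∀ x ∈ Ω, ∀ y ∈ Ω,
        edist (φ x fun i => EuclideanSpace.single (I i) (1 : ℝ))
            (φ y fun i => EuclideanSpace.single (I i) (1 : ℝ))
          ≤ ENNReal.ofReal C * eLpNormEssSup α (μ.restrict Ω) * edist x y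

/-! ### Wedge products of covectors -/

/-- Coordinate covector. -/
noncomputable def dxx {n : ℕ} (a : Fin n) : Eu n →L[ℝ] ℝ := EuclideanSpace.proj a

/-- The wedge product of `k` covectors, `v ↦ det (r j (v i))`. -/
noncomputable def wedgeC {n k : ℕ} (r : Fin k → (Eu n →L[ℝ] ℝ)) : Cov n k :=
  { (Matrix.detRowAlternating (n := Fin k) (R := ℝ)).compLinearMap
      (LinearMap.pi fun j => (r j : Eu n →ₗ[ℝ] ℝ)) with
    cont := by
      show Continuous fun v : Fin k → Eu n => Matrix.det (fun i j => r j (v i))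
      exact Continuous.matrix_det (by fun_prop) }

theorem wedgeC_apply {n k : ℕ} (r : Fin k → (Eu n →L[ℝ] ℝ)) (v : Fin k → Eu n) :
    wedgeC r v = Matrix.det (fun i j => r j (v i)) := rfl

end Pool.Agent.H28.Lusin
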