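import Pool.Agent.H28.Lusin.Cons

open MeasureTheory Set Real Filter
open scoped ContDiff Topology ENNReal ComplexConjugate

namespace Pool.Agent.H28.Lusin

variable {m0 Pst : ℕ} {s : ℕ → Lev}

theorem uN_apply (N : ℕ) (t : Set ℕ) :
    uN N t = (N : ℝ≥0∞)⁻¹ * ∑ i ∈ Finset.range N, t.indicator 1 i := by
  simp [uN, Measure.smul_apply, Measure.finsetSum_apply]

theorem isProbabilityMeasure_uN {N : ℕ} (hN : 0 < N) : IsProbabilityMeasure (uN N) := by
  refine ⟨?_⟩
  rw [uN_apply]
  simp only [indicator_univ, Pi.one_apply, Finset.sum_const, Finset.card_range, nsmul_eq_mul,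
    mul_one]
  exact ENNReal.inv_mul_cancel (by exact_mod_cast hN.ne') (ENNReal.natCast_ne_top N)

instance instProbuN (m0 j : ℕ) : IsProbabilityMeasure (uN (NN m0 j)) :=
  isProbabilityMeasure_uN (NN_pos m0 j)

instance instProbdigs (m0 : ℕ) : IsProbabilityMeasure (digs m0) := by
  unfold digs; infer_instance

theorem digs_eval (m0 j : ℕ) (t : Set ℕ) :
    digs m0 {l | l j ∈ t} = uN (NN m0 j) t := by
  have h : (digs m0).map (fun l => l j) = uN (NN m0 j) := by
    unfold digs
    exact Measure.infinitePi_map_eval _ j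
  rw [← h, Measure.map_apply (measurable_pi_apply j) MeasurableSet.of_discrete]
  rfl

theorem ae_digs_lt (m0 : ℕ) : ∀ᵐ l ∂digs m0, ∀ j, l j < NN m0 j := by
  rw [ae_all_iff]
  intro j
  rw [ae_iff]
  have h := digs_eval m0 j {n | ¬ n < NN m0 j}
  refine h.trans ?_
  rw [uN_apply]
  have h0 : ∑ i ∈ Finset.range (NN m0 j), ({n | ¬ n < NN m0 j} : Set ℕ).indicator
      (1 : ℕ → ℝ≥0∞) i = 0 := by
    refine Finset.sum_eq_zero fun i hi => ?_
    rw [Finset.mem_range] at hi
    exact indicator_of_notMem (by simpa using hi) _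
  rw [h0, mul_zero]

theorem pj_nonneg (j : ℕ) : 0 ≤ pj m0 Pst s j := by unfold pj; positivity

theorem measurable_cd : Measurable (cd m0 Pst s) := by
  have h : cd m0 Pst s = fun l : ℕ → ℕ =>
      ((∑' j, NNReal.mk (pj m0 Pst s j) (pj_nonneg j) * (l j : NNReal) : NNReal) : ℝ) := by
    funext l
    rw [NNReal.coe_tsum]
    rfl
  rw [h]
  refine measurable_coe_nnreal_real.comp ?_
  refine Measurable.tsum fun j => ?_
  refine measurable_const.mul ?_
  exact (measurable_from_top (f := fun n : ℕ => (n : NNReal))).comp (measurable_pi_apply j)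

theorem summable_cd (hP : 0 < Pst) (hs : ∀ j, Good m0 Pst j s) {l : ℕ → ℕ}
    (hl : ∀ j, l j < NN m0 j) : Summable fun j => pj m0 Pst s j * (l j : ℝ) := by
  refine Summable.of_nonneg_of_le (fun j => mul_nonneg (pj_nonneg j) (Nat.cast_nonneg _))
    (fun j => ?_) (summable_pj_NN hP hs)
  refine mul_le_mul_of_nonneg_left ?_ (pj_nonneg j)
  exact_mod_cast (hl j).le

theorem cd_nonneg (hP : 0 < Pst) (hs : ∀ j, Good m0 Pst j s) (l : ℕ → ℕ) :
    0 ≤ cd m0 Pst s l :=
  tsum_nonneg fun j => mul_nonneg (pj_nonneg j) (Nat.cast_nonneg _)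

theorem uN_map {N k : ℕ} (hN : 0 < N) (hk : k ≤ 1) :
    (uN N).map (fun x => (x + k) % N) = uN N := by
  ext t ht
  rw [Measure.map_apply (measurable_of_countable _) ht, uN_apply, uN_apply]
  congr 1
  obtain ⟨n, rfl⟩ : ∃ n, N = n + 1 := ⟨N - 1, by omega⟩
  have h : ∀ i, ((fun x => (x + k) % (n + 1)) ⁻¹' t).indicator (1 : ℕ → ℝ≥0∞) i
      = t.indicator 1 ((i + k) % (n + 1)) := fun i => rfl
  simp only [h]
  rcases Nat.le_one_iff_eq_zero_or_eq_one.mp hk with rfl | rfl
  · refine Finset.sum_congr rfl fun i hi => ?_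
    rw [Finset.mem_range] at hi
    rw [add_zero, Nat.mod_eq_of_lt hi]
  · rw [Finset.sum_range_succ, Finset.sum_range_succ', Nat.mod_self]
    congr 1
    refine Finset.sum_congr rfl fun i hi => ?_
    rw [Finset.mem_range] at hi
    rw [Nat.mod_eq_of_lt (by omega)]

theorem digs_map {k : ℕ → ℕ} (hk : ∀ j, k j ≤ 1) :
    (digs m0).map (fun l j => (l j + k j) % NN m0 j) = digs m0 := by
  unfold digs
  have h := Measure.infinitePi_map_pi (μ := fun j => uN (NN m0 j))
    (f := fun j x => (x + k j) % NN m0 j) (fun j => measurable_of_countable _)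
  rw [h]
  congr 1
  funext j
  exact uN_map (NN_pos m0 j) (hk j)

theorem digs_bad (m0 : ℕ) :
    digs m0 {l | ∃ j, l j = NN m0 j - 1} ≤ ENNReal.ofReal ((1 / 2) ^ m0) := by
  have h1 : {l : ℕ → ℕ | ∃ j, l j = NN m0 j - 1} = ⋃ j, {l | l j ∈ ({NN m0 j - 1} : Set ℕ)} := by
    ext l; simp
  rw [h1]
  refine (measure_iUnion_le _).trans ?_
  have h2 : ∀ j, digs m0 {l | l j ∈ ({NN m0 j - 1} : Set ℕ)}
      = ENNReal.ofReal ((1 / 2) ^ (m0 + 1) * (1 / 2) ^ j) := by
    intro j
    rw [digs_eval, uN_apply, Finset.sum_eq_single (NN m0 j - 1)]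
    · rw [indicator_of_mem (mem_singleton _), Pi.one_apply, mul_one]
      have hN : ((NN m0 j : ℕ) : ℝ≥0∞) = ENNReal.ofReal (2 ^ (j + m0 + 1)) := by
        rw [← NN_eq, ENNReal.ofReal_natCast]
      rw [hN, ← ENNReal.ofReal_inv_of_pos (by positivity)]
      congr 1
      rw [← pow_add, one_div, inv_pow]
      congr 2
      ring
    · intro i _ hi
      exact indicator_of_notMem (by simpa using hi) _
    · intro h
      exfalso
      apply h
      rw [Finset.mem_range]
      have := NN_pos m0 j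
      omega
  simp_rw [h2]
  rw [← ENNReal.ofReal_tsum_of_nonneg (fun j => by positivity)
    (summable_geometric_two.mul_left _), tsum_mul_left, tsum_geometric_two]
  apply ENNReal.ofReal_le_ofReal
  rw [pow_succ]
  linarith

/-- Shifting the digits by `0` or `1` hardly changes the law of `cd`: replace `l j` by
`(l j + k j) % NN m0 j`, which preserves `digs m0` (`Measure.infinitePi_map_pi`); outside the event
`∃ j, l j = NN m0 j - 1`, of probability at most `∑ 1 / NN m0 j = (1/2)^m0`, this is `l j + k j`. -/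
theorem digs_shift (hP : 0 < Pst) (hs : ∀ j, Good m0 Pst j s) {k : ℕ → ℕ} (hk : ∀ j, k j ≤ 1)
    {F : ℝ → ℝ} (hF : Measurable F) {M : ℝ} (hM : ∀ x, |F x| ≤ M) :
    |∫ l, F (cd m0 Pst s l + ∑' j, pj m0 Pst s j * (k j : ℝ)) ∂digs m0
      - ∫ l, F (cd m0 Pst s l) ∂digs m0| ≤ 2 * M * (1 / 2) ^ m0 := by
  have hM0 : 0 ≤ M := (abs_nonneg _).trans (hM 0)
  set T : (ℕ → ℕ) → (ℕ → ℕ) := fun l j => (l j + k j) % NN m0 j with hT
  have hTm : Measurable T := measurable_pi_lambda _ fun j =>
    (measurable_of_countable (fun x : ℕ => (x + k j) % NN m0 j)).comp (measurable_pi_apply j)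
  have hmap : (digs m0).map T = digs m0 := digs_map hk
  have hFc : Measurable fun l => F (cd m0 Pst s l) := hF.comp measurable_cd
  have h1 : ∫ l, F (cd m0 Pst s l) ∂digs m0 = ∫ l, F (cd m0 Pst s (T l)) ∂digs m0 := by
    conv_lhs => rw [← hmap]
    exact integral_map hTm.aemeasurable hFc.aestronglyMeasurable
  have hFs : Measurable fun l => F (cd m0 Pst s l + ∑' j, pj m0 Pst s j * (k j : ℝ)) :=
    hF.comp (measurable_cd.add measurable_const)
  have hi1 : Integrable (fun l => F (cd m0 Pst s l + ∑' j, pj m0 Pst s j * (k j : ℝ))) (digs m0) :=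
    Integrable.of_bound hFs.aestronglyMeasurable M (Eventually.of_forall fun _ => hM _)
  have hi2 : Integrable (fun l => F (cd m0 Pst s (T l))) (digs m0) :=
    Integrable.of_bound (hFc.comp hTm).aestronglyMeasurable M (Eventually.of_forall fun _ => hM _)
  set Bd : Set (ℕ → ℕ) := {l | ∃ j, l j = NN m0 j - 1} with hBd
  have hBm : MeasurableSet Bd := by
    have : Bd = ⋃ j, (fun l : ℕ → ℕ => l j) ⁻¹' {NN m0 j - 1} := by
      ext l; simp [hBd]
    rw [this]
    exact MeasurableSet.iUnion fun j => measurable_pi_apply j (MeasurableSet.of_discrete)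
  rw [h1, ← integral_sub hi1 hi2, ← Real.norm_eq_abs]
  have hind : Integrable (Bd.indicator fun _ => 2 * M) (digs m0) :=
    (integrable_const _).indicator hBm
  refine (norm_integral_le_of_norm_le hind ?_).trans ?_
  · filter_upwards [ae_digs_lt m0] with l hl
    by_cases hb : l ∈ Bd
    · rw [indicator_of_mem hb]
      refine (norm_sub_le _ _).trans ?_
      rw [Real.norm_eq_abs, Real.norm_eq_abs]
      linarith [hM (cd m0 Pst s l + ∑' j, pj m0 Pst s j * (k j : ℝ)), hM (cd m0 Pst s (T l))]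
    · rw [indicator_of_notMem hb]
      have hTl : ∀ j, T l j = l j + k j := by
        intro j
        have h2 := hl j
        have h3 : l j ≠ NN m0 j - 1 := fun h => hb ⟨j, h⟩
        have h4 := hk j
        exact Nat.mod_eq_of_lt (by omega)
      have hks : Summable fun j => pj m0 Pst s j * (k j : ℝ) := by
        refine summable_cd hP hs fun j => ?_
        have h4 := hk j
        have h5 : 2 ≤ NN m0 j := by
          unfold NN
          calc 2 = 2 ^ 1 := rfl
            _ ≤ 2 ^ (j + m0 + 1) := Nat.pow_le_pow_right (by norm_num) (by omega)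
        omega
      have h5 : cd m0 Pst s (T l) = cd m0 Pst s l + ∑' j, pj m0 Pst s j * (k j : ℝ) := by
        unfold cd
        rw [← (summable_cd hP hs hl).tsum_add hks]
        refine tsum_congr fun j => ?_
        rw [hTl j]
        push_cast
        ring
      rw [h5, sub_self, norm_zero]
  · rw [integral_indicator_const _ hBm, smul_eq_mul, mul_comm]
    have h6 : (digs m0).real Bd ≤ (1 / 2) ^ m0 :=
      ENNReal.toReal_le_of_le_ofReal (by positivity) (digs_bad m0)
    exact mul_le_mul_of_nonneg_left h6 (by positivity)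

end Pool.Agent.H28.Lusin
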