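import Pool.Agent.H28.Lusin.TopDefs

open MeasureTheory Set Filter
open scoped ContDiff Topology ENNReal

namespace Pool.Agent.H28.Lusin

variable {q : ℕ}

private lemma de_norm_le {x : Eu (q + 2)} (hx : x ∈ Qn q) : ‖x‖ ≤ √(q + 2 : ℝ) := by
  rw [EuclideanSpace.norm_eq]
  apply Real.sqrt_le_sqrt
  have h : ∀ i ∈ (Finset.univ : Finset (Fin (q + 2))), ‖x i‖ ^ 2 ≤ (1 : ℝ) := by
    intro i _
    have := hx i
    rw [Real.norm_eq_abs, abs_of_nonneg this.1]
    exact pow_le_one₀ this.1 this.2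
  refine (Finset.sum_le_card_nsmul _ _ _ h).trans ?_
  simp

private lemma de_cpt : IsCompact (Qn q) := by
  apply Metric.isCompact_of_isClosed_isBounded
  · have : Qn q = ⋂ i, {x : Eu (q + 2) | x i ∈ Icc (0 : ℝ) 1} := by
      ext x; simp [Qn]
    rw [this]
    refine isClosed_iInter fun i => ?_
    have hc : Continuous fun x : Eu (q + 2) => x i := by fun_prop
    exact isClosed_Icc.preimage hc
  · rw [isBounded_iff_forall_norm_le]
    exact ⟨_, fun x hx => de_norm_le hx⟩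

private lemma de_ee (r : Fin (q + 2)) : ‖ee q r‖ = 1 := by
  simp [ee]

private lemma de_apply_le (L : Eu (q + 2) →L[ℝ] ℝ) (r : Fin (q + 2)) : |L (ee q r)| ≤ ‖L‖ := by
  have := L.le_opNorm (ee q r)
  rwa [de_ee, mul_one, Real.norm_eq_abs] at this

private lemma de_ibp {f g : Eu (q + 2) → ℝ} (hf : ContDiff ℝ 1 f) (hg : ContDiff ℝ 1 g)
    (hgs : HasCompactSupport g) (v : Eu (q + 2)) :
    ∫ x, fderiv ℝ f x v * g x = - ∫ x, f x * fderiv ℝ g x v := by
  have c1 : Continuous fun x => fderiv ℝ f x v :=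
    (hf.continuous_fderiv one_ne_zero).clm_apply continuous_const
  have c2 : Continuous fun x => fderiv ℝ g x v :=
    (hg.continuous_fderiv one_ne_zero).clm_apply continuous_const
  have i1 : Integrable (fun x => fderiv ℝ f x v * g x) :=
    (c1.mul hg.continuous).integrable_of_hasCompactSupport hgs.mul_left
  have i2 : Integrable (fun x => f x * fderiv ℝ g x v) :=
    (hf.continuous.mul c2).integrable_of_hasCompactSupport (hgs.fderiv_apply (𝕜 := ℝ) v).mul_left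
  have i3 : Integrable (fun x => f x * g x) :=
    (hf.continuous.mul hg.continuous).integrable_of_hasCompactSupport hgs.mul_left
  have := integral_mul_fderiv_eq_neg_fderiv_mul_of_integrable (μ := volume) i1 i2 i3
    (fun x _ => (hf.differentiable one_ne_zero) x) (fun x _ => (hg.differentiable one_ne_zero) x)
  linarith

private lemma de_smooth {f : Eu (q + 2) → ℝ} (hf : ContDiff ℝ ∞ f) (v : Eu (q + 2)) :
    ContDiff ℝ ∞ fun y => fderiv ℝ f y v :=
  (hf.fderiv_right (m := ∞) (by norm_num)).clm_apply contDiff_const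

private lemma de_smooth2 {f : Eu (q + 2) → ℝ} (hf : ContDiff ℝ ∞ f) (a b : Eu (q + 2)) :
    ContDiff ℝ ∞ fun y => dd f a b y :=
  de_smooth (de_smooth hf b) a

private lemma de_dd_eq {f : Eu (q + 2) → ℝ} (hf : ContDiff ℝ ∞ f) (a b x : Eu (q + 2)) :
    dd f a b x = fderiv ℝ (fderiv ℝ f) x a b := by
  have hdiff : DifferentiableAt ℝ (fderiv ℝ f) x :=
    ((hf.fderiv_right (m := ∞) (by norm_num)).differentiable (by norm_num)) x
  unfold dd
  rw [(hdiff.hasFDerivAt.clm_apply (hasFDerivAt_const b x)).fderiv]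
  simp

private lemma de_symm {f : Eu (q + 2) → ℝ} (hf : ContDiff ℝ ∞ f) (a b x : Eu (q + 2)) :
    dd f a b x = dd f b a x := by
  rw [de_dd_eq hf, de_dd_eq hf]
  have h2 : minSmoothness ℝ 2 ≤ (∞ : WithTop ℕ∞) := by
    rw [minSmoothness_of_isRCLikeNormedField]
    exact WithTop.coe_le_coe.2 le_top
  exact (hf.contDiffAt.isSymmSndFDerivAt h2) a b

private lemma de_swap {U Y : Eu (q + 2) → ℝ} (hU : ContDiff ℝ ∞ U) (hY : ContDiff ℝ 1 Y)
    (hYs : HasCompactSupport Y) (a b : Eu (q + 2)) :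
    ∫ x, dd U a a x * fderiv ℝ Y x b = ∫ x, dd U a b x * fderiv ℝ Y x a := by
  have h1 := de_ibp ((de_smooth2 hU a a).of_le (by norm_num)) hY hYs b
  have h2 := de_ibp ((de_smooth2 hU a b).of_le (by norm_num)) hY hYs a
  have h3 : ∀ x, fderiv ℝ (fun y => dd U a a y) x b = fderiv ℝ (fun y => dd U a b y) x a := by
    intro x
    have h4 : fderiv ℝ (fun y => dd U a a y) x b = dd (fun y => fderiv ℝ U y a) b a x := rfl
    rw [h4, de_symm (de_smooth hU a)]
    have h5 : (fun y => dd U a b y) = fun y => fderiv ℝ (fun z => fderiv ℝ U z a) y b := by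
      funext y
      rw [de_symm hU]
      rfl
    rw [h5]
    rfl
  simp only [h3] at h1
  linarith

private lemma de_bound {F : Type*} [NormedAddCommGroup F] {g : Eu (q + 2) → F}
    (hs : HasCompactSupport g) (hc : Continuous g) : ∃ c, ∀ x, ‖g x‖ ≤ c :=
  hs.exists_bound_of_continuous hc

private lemma de_int4 {f1 f2 f3 f4 : Eu (q + 2) → ℝ} (h1 : Integrable f1) (h2 : Integrable f2)
    (h3 : Integrable f3) (h4 : Integrable f4) :
    ∫ x, (f1 x - f2 x - f3 x + f4 x) = (∫ x, f1 x) - (∫ x, f2 x) - (∫ x, f3 x) + ∫ x, f4 x := by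
  have e1 : ∫ x, (f1 x - f2 x - f3 x + f4 x) = (∫ x, (f1 x - f2 x - f3 x)) + ∫ x, f4 x :=
    integral_add ((h1.sub h2).sub h3) h4
  have e2 : ∫ x, (f1 x - f2 x - f3 x) = (∫ x, (f1 x - f2 x)) - ∫ x, f3 x :=
    integral_sub (h1.sub h2) h3
  have e3 : ∫ x, (f1 x - f2 x) = (∫ x, f1 x) - ∫ x, f2 x := integral_sub h1 h2
  rw [e1, e2, e3]

/-- The estimate of the main term and of the error term. -/
private lemma de_core {U : Eu (q + 2) → ℝ} (hU : OscU q U) (Y W : Fin (q + 2) → Eu (q + 2) → ℝ)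
    (K G : ℝ) (hK0 : 0 ≤ K) (hY1 : ∀ r, ContDiff ℝ 1 (Y r)) (hYs : ∀ r, HasCompactSupport (Y r))
    (hYb : ∀ r s, ∀ x ∈ Qn q, |fderiv ℝ (Y r) x (ee q s)| ≤ K)
    (hYz : ∀ r s x, x ∉ Qn q → fderiv ℝ (Y r) x (ee q s) = 0)
    (hW1 : ∀ r, ContDiff ℝ 1 (W r)) (hWs : ∀ r, HasCompactSupport (W r))
    (hWb : ∀ r s, ∀ x ∈ Qn q, |fderiv ℝ (W r) x (ee q s)| ≤ G)
    (hWz : ∀ r s x, x ∉ Qn q → fderiv ℝ (W r) x (ee q s) = 0)
    (P : Eu (q + 2) → ℝ)
    (hP : ∀ x, P x = (∑ r, (dd U (ee q 0) (ee q 0) x * fderiv ℝ (Y r) x (ee q r) +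
          dd U (ee q 1) (ee q 1) x * fderiv ℝ (Y r) x (ee q r))) -
        ∑ r, (dd U (ee q 0) (ee q 0) x * W r x + dd U (ee q 1) (ee q 1) x * W r x)) :
    |∫ x, P x| ≤ (2 * K * (2 * (volume : Measure (Eu (q + 2))).real (Qn q) + 1) +
      2 * (2 * K * (volume : Measure (Eu (q + 2))).real (Qn q))) +
      (q + 2) * (2 * (G * (volume : Measure (Eu (q + 2))).real (Qn q))) := by
  obtain ⟨V, hV⟩ : ∃ V, V = (volume : Measure (Eu (q + 2))).real (Qn q) := ⟨_, rfl⟩
  rw [← hV]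
  have hVfin : (volume : Measure (Eu (q + 2))) (Qn q) < ⊤ := de_cpt.measure_lt_top
  have hUc : ∀ a b : Eu (q + 2), Continuous fun x => dd U a b x := fun a b =>
    (de_smooth2 hU.hU a b).continuous
  have hYc : ∀ r s, Continuous fun x => fderiv ℝ (Y r) x (ee q s) := fun r s =>
    ((hY1 r).continuous_fderiv one_ne_zero).clm_apply continuous_const
  have hYcs : ∀ r s, HasCompactSupport fun x => fderiv ℝ (Y r) x (ee q s) := fun r s =>
    (hYs r).fderiv_apply (𝕜 := ℝ) _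
  have hint : ∀ a b : Eu (q + 2), ∀ r s,
      Integrable fun x => dd U a b x * fderiv ℝ (Y r) x (ee q s) := fun a b r s =>
    ((hUc a b).mul (hYc r s)).integrable_of_hasCompactSupport (hYcs r s).mul_left
  -- the error term
  have hA : ∀ r (i : Fin (q + 2)), (∀ x ∈ Qn q, |fderiv ℝ U x (ee q i)| ≤ 1) →
      |∫ x, dd U (ee q i) (ee q i) x * W r x| ≤ G * V := by
    intro r i hi
    have h1 := de_ibp ((de_smooth hU.hU (ee q i)).of_le (by norm_num)) (hW1 r) (hWs r) (ee q i)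
    have h2 : ∫ x, dd U (ee q i) (ee q i) x * W r x =
        -∫ x, fderiv ℝ U x (ee q i) * fderiv ℝ (W r) x (ee q i) := h1
    rw [h2, abs_neg, ← setIntegral_eq_integral_of_forall_compl_eq_zero (s := Qn q)
      (fun x hx => by rw [hWz r i x hx, mul_zero]), hV, ← Real.norm_eq_abs]
    refine norm_setIntegral_le_of_norm_le_const hVfin ?_
    intro x hx
    rw [Real.norm_eq_abs, abs_mul]
    have := mul_le_mul (hi x hx) (hWb r i x hx) (abs_nonneg _) zero_le_one
    linarith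
  have hWint : ∀ r (i : Fin (q + 2)), Integrable fun x => dd U (ee q i) (ee q i) x * W r x :=
    fun r i => ((hUc _ _).mul (hW1 r).continuous).integrable_of_hasCompactSupport (hWs r).mul_left
  -- splitting of the integral
  have hsplit : ∫ x, P x =
      (∑ r, ((∫ x, dd U (ee q 0) (ee q 0) x * fderiv ℝ (Y r) x (ee q r)) +
        ∫ x, dd U (ee q 1) (ee q 1) x * fderiv ℝ (Y r) x (ee q r))) -
      ∑ r, ((∫ x, dd U (ee q 0) (ee q 0) x * W r x) + ∫ x, dd U (ee q 1) (ee q 1) x * W r x) := by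
    simp only [hP]
    have i1 : ∀ r ∈ (Finset.univ : Finset (Fin (q + 2))), Integrable fun x =>
        (dd U (ee q 0) (ee q 0) x * fderiv ℝ (Y r) x (ee q r) +
          dd U (ee q 1) (ee q 1) x * fderiv ℝ (Y r) x (ee q r)) :=
      fun r _ => (hint _ _ r r).add (hint _ _ r r)
    have i2 : ∀ r ∈ (Finset.univ : Finset (Fin (q + 2))), Integrable fun x =>
        (dd U (ee q 0) (ee q 0) x * W r x + dd U (ee q 1) (ee q 1) x * W r x) :=
      fun r _ => (hWint r _).add (hWint r _)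
    rw [integral_sub (integrable_finsetSum _ i1) (integrable_finsetSum _ i2),
      integral_finsetSum _ i1, integral_finsetSum _ i2]
    congr 1
    · exact Finset.sum_congr rfl fun r _ => integral_add (hint _ _ r r) (hint _ _ r r)
    · exact Finset.sum_congr rfl fun r _ => integral_add (hWint r _) (hWint r _)
  rw [hsplit]
  -- the error terms
  have hErr : |∑ r, ((∫ x, dd U (ee q 0) (ee q 0) x * W r x) +
      ∫ x, dd U (ee q 1) (ee q 1) x * W r x)| ≤ (q + 2) * (2 * (G * V)) := by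
    refine (Finset.abs_sum_le_sum_abs _ _).trans ?_
    have h1 : ∀ r ∈ (Finset.univ : Finset (Fin (q + 2))),
        |(∫ x, dd U (ee q 0) (ee q 0) x * W r x) + ∫ x, dd U (ee q 1) (ee q 1) x * W r x| ≤
          2 * (G * V) := by
      intro r _
      refine (abs_add_le _ _).trans ?_
      have := hA r 0 (fun x hx => (hU.hgrad x hx).1)
      have := hA r 1 (fun x hx => (hU.hgrad x hx).2)
      linarith
    refine (Finset.sum_le_card_nsmul _ _ _ h1).trans ?_
    simp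
  -- the directions `r ≥ 2`
  have hzero : ∀ (a : Eu (q + 2)) (r : Fin (q + 2)), 2 ≤ (r : ℕ) →
      ∫ x, dd U a a x * fderiv ℝ (Y r) x (ee q r) = 0 := by
    intro a r hr
    rw [de_swap hU.hU (hY1 r) (hYs r) a (ee q r)]
    have h1 : ∀ x, dd U a (ee q r) x = 0 := by
      intro x
      unfold dd
      have : (fun y => fderiv ℝ U y (ee q r)) = fun _ => 0 := by
        funext y; exact hU.hU2 y r hr
      rw [this]
      simp
    simp [h1]
  have hmain : ∑ r, ((∫ x, dd U (ee q 0) (ee q 0) x * fderiv ℝ (Y r) x (ee q r)) +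
        ∫ x, dd U (ee q 1) (ee q 1) x * fderiv ℝ (Y r) x (ee q r)) =
      ((∫ x, dd U (ee q 0) (ee q 0) x * fderiv ℝ (Y 0) x (ee q 0)) +
        ∫ x, dd U (ee q 1) (ee q 1) x * fderiv ℝ (Y 0) x (ee q 0)) +
      ((∫ x, dd U (ee q 0) (ee q 0) x * fderiv ℝ (Y 1) x (ee q 1)) +
        ∫ x, dd U (ee q 1) (ee q 1) x * fderiv ℝ (Y 1) x (ee q 1)) := by
    rw [Fin.sum_univ_succ, Fin.sum_univ_succ, Finset.sum_eq_zero, add_zero]
    · rfl
    · intro r _
      have h2 : 2 ≤ ((r.succ.succ : Fin (q + 2)) : ℕ) := by simp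
      rw [hzero _ _ h2, hzero _ _ h2, add_zero]
  rw [hmain]
  -- rewriting of the main term
  have e1 := de_swap hU.hU (hY1 1) (hYs 1) (ee q 0) (ee q 1)
  have e2 := de_swap hU.hU (hY1 0) (hYs 0) (ee q 1) (ee q 0)
  have e3 : ∀ x, dd U (ee q 1) (ee q 0) x = dd U (ee q 0) (ee q 1) x := fun x => de_symm hU.hU _ _ _
  simp only [e3] at e2
  have hsub : ∫ x, (dd U (ee q 0) (ee q 0) x - dd U (ee q 1) (ee q 1) x) *
      (fderiv ℝ (Y 0) x (ee q 0) - fderiv ℝ (Y 1) x (ee q 1)) =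
      (∫ x, dd U (ee q 0) (ee q 0) x * fderiv ℝ (Y 0) x (ee q 0)) -
      (∫ x, dd U (ee q 0) (ee q 0) x * fderiv ℝ (Y 1) x (ee q 1)) -
      (∫ x, dd U (ee q 1) (ee q 1) x * fderiv ℝ (Y 0) x (ee q 0)) +
      (∫ x, dd U (ee q 1) (ee q 1) x * fderiv ℝ (Y 1) x (ee q 1)) := by
    have j1 := hint (ee q 0) (ee q 0) 0 0
    have j2 := hint (ee q 0) (ee q 0) 1 1
    have j3 := hint (ee q 1) (ee q 1) 0 0
    have j4 := hint (ee q 1) (ee q 1) 1 1
    have h1 : (fun x => (dd U (ee q 0) (ee q 0) x - dd U (ee q 1) (ee q 1) x) *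
      (fderiv ℝ (Y 0) x (ee q 0) - fderiv ℝ (Y 1) x (ee q 1))) = fun x =>
        dd U (ee q 0) (ee q 0) x * fderiv ℝ (Y 0) x (ee q 0) -
        dd U (ee q 0) (ee q 0) x * fderiv ℝ (Y 1) x (ee q 1) -
        dd U (ee q 1) (ee q 1) x * fderiv ℝ (Y 0) x (ee q 0) +
        dd U (ee q 1) (ee q 1) x * fderiv ℝ (Y 1) x (ee q 1) := by
      funext x; ring
    rw [h1]
    exact de_int4 j1 j2 j3 j4
  have hsubb : |∫ x, (dd U (ee q 0) (ee q 0) x - dd U (ee q 1) (ee q 1) x) *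
      (fderiv ℝ (Y 0) x (ee q 0) - fderiv ℝ (Y 1) x (ee q 1))| ≤ 2 * K * (2 * V + 1) := by
    rw [← setIntegral_eq_integral_of_forall_compl_eq_zero (s := Qn q)
      (fun x hx => by rw [hYz 0 0 x hx, hYz 1 1 x hx, sub_zero, mul_zero])]
    have h1 : ∀ x ∈ Qn q, ‖(dd U (ee q 0) (ee q 0) x - dd U (ee q 1) (ee q 1) x) *
      (fderiv ℝ (Y 0) x (ee q 0) - fderiv ℝ (Y 1) x (ee q 1))‖ ≤
        2 * K * |dd U (ee q 0) (ee q 0) x - dd U (ee q 1) (ee q 1) x| := by
      intro x hx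
      rw [Real.norm_eq_abs, abs_mul, mul_comm]
      refine mul_le_mul_of_nonneg_right ?_ (abs_nonneg _)
      refine (abs_sub _ _).trans ?_
      have := hYb 0 0 x hx
      have := hYb 1 1 x hx
      linarith
    have hci : Continuous fun x => 2 * K * |dd U (ee q 0) (ee q 0) x - dd U (ee q 1) (ee q 1) x| :=
      continuous_const.mul ((hUc _ _).sub (hUc _ _)).abs
    have h2 : ‖∫ x in Qn q, (dd U (ee q 0) (ee q 0) x - dd U (ee q 1) (ee q 1) x) *
      (fderiv ℝ (Y 0) x (ee q 0) - fderiv ℝ (Y 1) x (ee q 1))‖ ≤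
        ∫ x in Qn q, 2 * K * |dd U (ee q 0) (ee q 0) x - dd U (ee q 1) (ee q 1) x| := by
      refine norm_integral_le_of_norm_le (hci.continuousOn.integrableOn_compact de_cpt) ?_
      exact (ae_restrict_iff' de_cpt.measurableSet).2 (Eventually.of_forall h1)
    rw [Real.norm_eq_abs] at h2
    refine h2.trans ?_
    rw [integral_const_mul]
    refine mul_le_mul_of_nonneg_left ?_ (by positivity)
    rw [hV]
    exact hU.hsub
  have hmixb : ∀ r s, |∫ x, dd U (ee q 0) (ee q 1) x * fderiv ℝ (Y r) x (ee q s)| ≤ K * V := by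
    intro r s
    rw [← setIntegral_eq_integral_of_forall_compl_eq_zero (s := Qn q)
      (fun x hx => by rw [hYz r s x hx, mul_zero]), hV, ← Real.norm_eq_abs]
    refine norm_setIntegral_le_of_norm_le_const hVfin ?_
    intro x hx
    rw [Real.norm_eq_abs, abs_mul]
    have := mul_le_mul (hU.hmix x hx) (hYb r s x hx) (abs_nonneg _) zero_le_one
    linarith
  have m1 := hmixb 1 0
  have m2 := hmixb 0 1
  rw [abs_le] at hsubb hErr m1 m2 ⊢
  rw [hsub] at hsubb
  constructor <;> linarith [hsubb.1, hsubb.2, hErr.1, hErr.2, m1.1, m1.2, m2.1, m2.2]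

/-- The divergence estimate. -/
theorem div_estimate {χ : Eu (q + 2) → ℝ} (hχ : ContDiff ℝ ∞ χ) (hχs : tsupport χ ⊆ Qn q)
    (hχ0 : ∀ x, 0 ≤ χ x) (hχ1 : ∀ x, χ x ≤ 1) (C : ℝ) (hC : 0 ≤ C) :
    ∃ B : ℝ, ∀ U : Eu (q + 2) → ℝ, OscU q U → ∀ X : Fin (q + 2) → Eu (q + 2) → ℝ,
      (∀ r, ContDiff ℝ 1 (X r)) → (∀ r x y, |X r x - X r y| ≤ C * ‖x - y‖) →
      |∫ x, χ x * (dd U (ee q 0) (ee q 0) x + dd U (ee q 1) (ee q 1) x)
        * ∑ r : Fin (q + 2), fderiv ℝ (X r) x (ee q r)| ≤ B := by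
  have hcs : HasCompactSupport χ := de_cpt.of_isClosed_subset (isClosed_tsupport χ) hχs
  have hd1 : ContDiff ℝ ∞ (fderiv ℝ χ) := hχ.fderiv_right (m := ∞) (by norm_num)
  have hs1 : HasCompactSupport (fderiv ℝ χ) := hcs.fderiv (𝕜 := ℝ)
  have hk1 : Continuous (fderiv ℝ χ) := hd1.continuous
  obtain ⟨c1, hc1⟩ : ∃ c, ∀ x, ‖fderiv ℝ χ x‖ ≤ c := hs1.exists_bound_of_continuous hk1
  have hdd : ∀ s r : Fin (q + 2), ∃ c, ∀ x, ‖dd χ (ee q s) (ee q r) x‖ ≤ c := by
    intro s r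
    refine de_bound ?_ (de_smooth2 hχ _ _).continuous
    exact (hcs.fderiv_apply (𝕜 := ℝ) (ee q r)).fderiv_apply (𝕜 := ℝ) (ee q s)
  choose cc hcc using hdd
  have hcc0 : ∀ s r, 0 ≤ cc s r := fun s r => (norm_nonneg _).trans (hcc s r 0)
  obtain ⟨c2, hc2d⟩ : ∃ c2, c2 = ∑ s, ∑ r, cc s r := ⟨_, rfl⟩
  have hc1' : 0 ≤ c1 := (norm_nonneg _).trans (hc1 0)
  have hc2' : 0 ≤ c2 := by
    rw [hc2d]; exact Finset.sum_nonneg fun s _ => Finset.sum_nonneg fun r _ => hcc0 s r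
  have hc2 : ∀ s r x, |dd χ (ee q s) (ee q r) x| ≤ c2 := by
    intro s r x
    refine (hcc s r x).trans ?_
    rw [hc2d]
    refine (Finset.single_le_sum (f := fun r => cc s r) (fun r _ => hcc0 s r)
      (Finset.mem_univ r)).trans ?_
    exact Finset.single_le_sum (f := fun s => ∑ r, cc s r)
      (fun s _ => Finset.sum_nonneg fun r _ => hcc0 s r) (Finset.mem_univ s)
  obtain ⟨R, hR⟩ : ∃ R, R = √(q + 2 : ℝ) := ⟨_, rfl⟩
  have hR0 : 0 ≤ R := hR ▸ Real.sqrt_nonneg _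
  obtain ⟨K, hK⟩ : ∃ K, K = C * R * c1 + C := ⟨_, rfl⟩
  obtain ⟨G, hG⟩ : ∃ G, G = C * c1 + C * R * c2 := ⟨_, rfl⟩
  have hK0 : 0 ≤ K := by rw [hK]; positivity
  refine ⟨(2 * K * (2 * (volume : Measure (Eu (q + 2))).real (Qn q) + 1) +
      2 * (2 * K * (volume : Measure (Eu (q + 2))).real (Qn q))) +
      (q + 2) * (2 * (G * (volume : Measure (Eu (q + 2))).real (Qn q))),
    fun U hU X hX1 hX2 => ?_⟩
  -- facts on `X`
  have hXf : ∀ r x, ‖fderiv ℝ (X r) x‖ ≤ C := by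
    intro r x
    have hL : LipschitzWith C.toNNReal (X r) := by
      apply LipschitzWith.of_dist_le_mul
      intro x y
      rw [Real.dist_eq, dist_eq_norm, Real.coe_toNNReal C hC]
      exact hX2 r x y
    have := norm_fderiv_le_of_lipschitz ℝ (x₀ := x) hL
    rwa [Real.coe_toNNReal C hC] at this
  obtain ⟨Z, hZ⟩ : ∃ Z : Fin (q + 2) → Eu (q + 2) → ℝ, ∀ r, Z r = fun x => X r x - X r 0 :=
    ⟨fun r x => X r x - X r 0, fun _ => rfl⟩
  have hZ1 : ∀ r, ContDiff ℝ 1 (Z r) := fun r => by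
    rw [hZ]; exact (hX1 r).sub contDiff_const
  have hZf : ∀ r x, fderiv ℝ (Z r) x = fderiv ℝ (X r) x := fun r x => by
    rw [hZ]; exact fderiv_sub_const _
  have hZb : ∀ r, ∀ x ∈ Qn q, |Z r x| ≤ C * R := by
    intro r x hx
    rw [hZ]
    refine (hX2 r x 0).trans ?_
    rw [sub_zero, hR]
    exact mul_le_mul_of_nonneg_left (de_norm_le hx) hC
  have hχ' : ContDiff ℝ 1 χ := hχ.of_le (by norm_num)
  have hDχ : ∀ r, ContDiff ℝ 1 fun x => fderiv ℝ χ x (ee q r) := fun r =>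
    (de_smooth hχ (ee q r)).of_le (by norm_num)
  have hYf : ∀ r x v, fderiv ℝ (fun x => χ x * Z r x) x v =
      χ x * fderiv ℝ (X r) x v + Z r x * fderiv ℝ χ x v := by
    intro r x v
    have := fderiv_mul (𝕜 := ℝ) (x := x) (c := χ) (d := Z r) ((hχ'.differentiable one_ne_zero) x)
      (((hZ1 r).differentiable one_ne_zero) x)
    show fderiv ℝ (χ * Z r) x v = _
    rw [this, hZf]
    simp
  have hYb : ∀ r s, ∀ x ∈ Qn q, |fderiv ℝ (fun x => χ x * Z r x) x (ee q s)| ≤ K := by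
    intro r s x hx
    rw [hYf]
    refine (abs_add_le _ _).trans ?_
    rw [abs_mul, abs_mul, abs_of_nonneg (hχ0 x), hK]
    have e1 : χ x * |fderiv ℝ (X r) x (ee q s)| ≤ 1 * C :=
      mul_le_mul (hχ1 x) ((de_apply_le _ _).trans (hXf r x)) (abs_nonneg _) zero_le_one
    have e2 : |Z r x| * |fderiv ℝ χ x (ee q s)| ≤ (C * R) * c1 :=
      mul_le_mul (hZb r x hx) ((de_apply_le _ _).trans (hc1 x)) (abs_nonneg _)
        (mul_nonneg hC hR0)
    linarith
  have hYz : ∀ r s x, x ∉ Qn q → fderiv ℝ (fun x => χ x * Z r x) x (ee q s) = 0 := by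
    intro r s x hx
    have h1 : tsupport (fun x => χ x * Z r x) ⊆ tsupport χ :=
      closure_mono (Function.support_mul_subset_left _ _)
    have h2 : x ∉ tsupport (fderiv ℝ (fun x => χ x * Z r x)) :=
      fun h => hx (hχs (h1 (tsupport_fderiv_subset ℝ h)))
    rw [image_eq_zero_of_notMem_tsupport h2]
    rfl
  have hWb : ∀ r s, ∀ x ∈ Qn q,
      |fderiv ℝ (fun x => Z r x * fderiv ℝ χ x (ee q r)) x (ee q s)| ≤ G := by
    intro r s x hx
    have h1 := fderiv_mul (𝕜 := ℝ) (x := x) (c := Z r) (d := fun x => fderiv ℝ χ x (ee q r))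
      (((hZ1 r).differentiable one_ne_zero) x) (((hDχ r).differentiable one_ne_zero) x)
    have h2 : fderiv ℝ (fun x => Z r x * fderiv ℝ χ x (ee q r)) x (ee q s) =
        Z r x * dd χ (ee q s) (ee q r) x +
        fderiv ℝ χ x (ee q r) * fderiv ℝ (X r) x (ee q s) := by
      show fderiv ℝ (Z r * fun x => fderiv ℝ χ x (ee q r)) x (ee q s) = _
      rw [h1, hZf]
      simp [dd]
    rw [h2]
    refine (abs_add_le _ _).trans ?_
    rw [abs_mul, abs_mul, hG]
    have e3 : |dd χ (ee q s) (ee q r) x| ≤ c2 := hc2 s r x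
    have e1 : |Z r x| * |dd χ (ee q s) (ee q r) x| ≤ (C * R) * c2 :=
      mul_le_mul (hZb r x hx) e3 (abs_nonneg _) (mul_nonneg hC hR0)
    have e2 : |fderiv ℝ χ x (ee q r)| * |fderiv ℝ (X r) x (ee q s)| ≤ c1 * C :=
      mul_le_mul ((de_apply_le _ _).trans (hc1 x)) ((de_apply_le _ _).trans (hXf r x))
        (abs_nonneg _) hc1'
    linarith
  have hWz : ∀ r s x, x ∉ Qn q →
      fderiv ℝ (fun x => Z r x * fderiv ℝ χ x (ee q r)) x (ee q s) = 0 := by
    intro r s x hx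
    have h1 : tsupport (fun x => Z r x * fderiv ℝ χ x (ee q r)) ⊆ tsupport (fderiv ℝ χ) := by
      apply closure_mono
      intro y hy
      rw [Function.mem_support] at hy ⊢
      intro h0
      apply hy
      rw [h0]
      simp
    have h2 : x ∉ tsupport (fderiv ℝ (fun x => Z r x * fderiv ℝ χ x (ee q r))) := fun h =>
      hx (hχs (tsupport_fderiv_subset ℝ (h1 (tsupport_fderiv_subset ℝ h))))
    rw [image_eq_zero_of_notMem_tsupport h2]
    rfl
  refine de_core hU (fun r x => χ x * Z r x) (fun r x => Z r x * fderiv ℝ χ x (ee q r)) K G hK0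
    (fun r => hχ'.mul (hZ1 r)) (fun r => hcs.mul_right) hYb hYz (fun r => (hZ1 r).mul (hDχ r))
    (fun r => (hcs.fderiv_apply (𝕜 := ℝ) _).mul_left) hWb hWz _ ?_
  intro x
  rw [Finset.mul_sum, ← Finset.sum_sub_distrib]
  refine Finset.sum_congr rfl fun r _ => ?_
  rw [hYf]
  ring

end Pool.Agent.H28.Lusin
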