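import Pool.Agent.H28.Lusin.FormD

open MeasureTheory Set Real Filter
open scoped ContDiff Topology ENNReal ComplexConjugate

namespace Pool.Agent.H28.Lusin

variable {m0 Pst : ℕ} {s : ℕ → Lev}

theorem sum_half_Ico_le (a b : ℕ) : ∑ j ∈ Finset.Ico a b, ((1 : ℝ) / 2) ^ j ≤ 2 * (1 / 2) ^ a := by
  rcases Nat.lt_or_ge b a with h | h
  · rw [Finset.Ico_eq_empty (by omega), Finset.sum_empty]; positivity
  · have : ∀ k : ℕ, ∑ j ∈ Finset.Ico a (a + k), ((1 : ℝ) / 2) ^ j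
        = 2 * (1 / 2) ^ a - 2 * (1 / 2) ^ (a + k) := by
      intro k
      induction k with
      | zero => simp
      | succ k ih =>
        rw [← add_assoc, Finset.sum_Ico_succ_top (by omega), ih]
        ring
    obtain ⟨k, rfl⟩ := Nat.exists_eq_add_of_le h
    rw [this k]
    have : (0 : ℝ) ≤ 2 * (1 / 2) ^ (a + k) := by positivity
    linarith

theorem sum_tel_Ico {F : ℕ → ℝ} {a b : ℕ} (h : a ≤ b) :
    ∑ j ∈ Finset.Ico a b, (F j - F (j + 1)) = F a - F b := by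
  obtain ⟨k, rfl⟩ := Nat.exists_eq_add_of_le h
  induction k with
  | zero => simp
  | succ k ih =>
    rw [← add_assoc, Finset.sum_Ico_succ_top (by omega), ih (by omega)]
    ring

theorem two_pow_le_Pp (hP : 0 < Pst) (hs : ∀ j, Good m0 Pst j s) (j : ℕ) :
    (2 : ℝ) ^ j ≤ Pp m0 Pst s j := by
  induction j with
  | zero => simpa using one_le_Pp hP hs 0
  | succ j ih =>
    have h1 := Pp_le_succ hP hs j
    have h2 : ((1 : ℝ) / 2) ^ (j + 10) ≤ 1 / 2 := by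
      calc ((1 : ℝ) / 2) ^ (j + 10) ≤ (1 / 2) ^ 1 :=
            pow_le_pow_of_le_one (by norm_num) (by norm_num) (by omega)
        _ = _ := pow_one _
    have h3 : (0 : ℝ) ≤ Pp m0 Pst s (j + 1) := by positivity
    rw [pow_succ]
    nlinarith

theorem inv_Pp_le (hP : 0 < Pst) (hs : ∀ j, Good m0 Pst j s) (j : ℕ) :
    1 / (2 * π * Pp m0 Pst s j) ≤ (1 / 2) ^ j := by
  have h1 := two_pow_le_Pp hP hs j
  have h2 : (0 : ℝ) < 2 ^ j := by positivity
  have hpi : (1 : ℝ) ≤ 2 * π := by linarith [Real.pi_gt_three]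
  rw [one_div_pow]
  apply one_div_le_one_div_of_le h2
  calc (2 : ℝ) ^ j ≤ Pp m0 Pst s j := h1
    _ = 1 * Pp m0 Pst s j := (one_mul _).symm
    _ ≤ _ := by gcongr

theorem abs_fderiv_cutka_le (hP : 0 < Pst) (hs : ∀ j, Good m0 Pst j s) (j : ℕ) (u : ℝ × ℝ)
    {f : ℝ × ℝ} (hf : ‖f‖ ≤ 1) :
    |fderiv ℝ (fun u => cut m0 s j u * ka s j u) u f| ≤ Kk + 1 := by
  have h1 : |f.1| ≤ 1 := (norm_fst_le f).trans hf
  have h2 : |f.2| ≤ 1 := (norm_snd_le f).trans hf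
  have hD : (0 : ℝ) < (s j).D := by exact_mod_cast D_pos hs j
  have hκ := abs_ka_le (s := s) j u
  have hcD := cutL_div_D_le hP hs j
  have hce : |fderiv ℝ (cut m0 s j) u f| ≤ cutL m0 s j := by
    calc _ ≤ ‖fderiv ℝ (cut m0 s j) u‖ * ‖f‖ := ContinuousLinearMap.le_opNorm _ _
      _ ≤ cutL m0 s j * 1 := by
        have := cutL_nonneg m0 s j
        gcongr
        exact norm_fderiv_cut_le m0 s j u
      _ = _ := mul_one _
  rw [fderiv_cutka]
  refine (abs_add_le _ _).trans ?_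
  have e1 : |cut m0 s j u * fderiv ℝ (ka s j) u f| ≤ 1 * Kk := by
    rw [abs_mul, abs_of_nonneg (cut_nonneg m0 s j u)]
    have := abs_fderiv_ka_le hs j u h1 h2
    have := cut_le_one m0 s j u
    gcongr
  have e2 : |ka s j u * fderiv ℝ (cut m0 s j) u f| ≤ 1 := by
    rw [abs_mul]
    calc |ka s j u| * |fderiv ℝ (cut m0 s j) u f|
        ≤ 1 / ((s j).D : ℝ) * ((1 / 2) ^ j * ((s j).D : ℝ)) :=
          mul_le_mul hκ (hce.trans hcD) (abs_nonneg _) (by positivity)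
      _ = (1 / 2) ^ j := by field_simp
      _ ≤ 1 := pow_le_one₀ (by norm_num) (by norm_num)
  linarith

theorem exists_Af_bound (hP : 0 < Pst) (hs : ∀ j, Good m0 Pst j s) :
    ∃ C : ℝ, ∀ (a b : ℕ) (f : ℝ × ℝ) (p : (ℝ × ℝ) × ℝ), ‖f‖ ≤ 1 →
      |Af m0 Pst s a b f p| ≤ C * (1 / 2) ^ a := by
  refine ⟨2 * (2 * (Kk + 1)), fun a b f p hf => ?_⟩
  have hKk := Kk_pos
  have h1 : |f.1| ≤ 1 := (norm_fst_le f).trans hf
  have h2 : |f.2| ≤ 1 := (norm_snd_le f).trans hf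
  rw [Af_eq]
  have hterm : ∀ j ∈ Finset.Ico a b, |aj m0 Pst s a j p
      * fderiv ℝ (fun u => cut m0 s j u * ka s j u) p.1 f
      - bj m0 Pst s a j p * fderiv ℝ (ka s j) p.1 f| ≤ 2 * (Kk + 1) * (1 / 2) ^ j := by
    intro j _
    have hM := Mq_nonneg (m0 := m0) (Pst := Pst) (s := s) a (j + 1) p
    have hM1 := Mq_le_one (m0 := m0) (Pst := Pst) (s := s) a (j + 1) p
    have hR := (abs_Rr_le (m0 := m0) (Pst := Pst) (s := s) j p).trans (inv_Pp_le hP hs j)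
    have hR' := (abs_Rr_le (m0 := m0) (Pst := Pst) (s := s) (j + 1) p).trans
      (inv_Pp_le hP hs (j + 1))
    have hc0 := cut_nonneg m0 s j p.1
    have hc1 := cut_le_one m0 s j p.1
    have hpow : ((1 : ℝ) / 2) ^ (j + 1) ≤ (1 / 2) ^ j :=
      pow_le_pow_of_le_one (by norm_num) (by norm_num) (by omega)
    have ha : |aj m0 Pst s a j p| ≤ (1 / 2) ^ j := by
      unfold aj
      rw [abs_mul, abs_of_nonneg hM]
      calc _ ≤ 1 * (1 / 2 : ℝ) ^ j := by gcongr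
        _ = _ := one_mul _
    have hb : |bj m0 Pst s a j p| ≤ (1 / 2) ^ j := by
      unfold bj
      rw [abs_mul, abs_mul, abs_of_nonneg hM, abs_of_nonneg hc0]
      calc _ ≤ 1 * (1 / 2 : ℝ) ^ j * 1 := by
            gcongr
            exact hR'.trans hpow
        _ = _ := by ring
    have hφ := abs_fderiv_cutka_le hP hs j p.1 hf
    have hk : |fderiv ℝ (ka s j) p.1 f| ≤ Kk + 1 :=
      (abs_fderiv_ka_le hs j p.1 h1 h2).trans (by linarith)
    calc _ ≤ 2 * (1 / 2) ^ j * (Kk + 1) := abs_pair_le ha hφ hb hk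
      _ = _ := by ring
  calc |∑ j ∈ Finset.Ico a b, (aj m0 Pst s a j p
      * fderiv ℝ (fun u => cut m0 s j u * ka s j u) p.1 f
      - bj m0 Pst s a j p * fderiv ℝ (ka s j) p.1 f)|
      ≤ ∑ j ∈ Finset.Ico a b, 2 * (Kk + 1) * (1 / 2) ^ j :=
        (Finset.abs_sum_le_sum_abs _ _).trans (Finset.sum_le_sum hterm)
    _ = 2 * (Kk + 1) * ∑ j ∈ Finset.Ico a b, ((1 : ℝ) / 2) ^ j := by rw [Finset.mul_sum]
    _ ≤ 2 * (Kk + 1) * (2 * (1 / 2) ^ a) := by
        gcongr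
        exact sum_half_Ico_le a b
    _ = _ := by ring

/-- Principal part of the contribution of a level. -/
noncomputable def mnj (m0 Pst : ℕ) (s : ℕ → Lev) (a j : ℕ) (e f p : (ℝ × ℝ) × ℝ) : ℝ :=
  Mq m0 Pst s a (j + 1) p * cut m0 s j p.1 * Cc m0 Pst s (j + 1) p *
    (rho m0 j * qt ((s j).X p.1) ((s j).Y p.1) * (e.1.1 * f.1.2 - e.1.2 * f.1.1))

theorem abs_wedge_le {e f : (ℝ × ℝ) × ℝ} (he : ‖e‖ ≤ 1) (hf : ‖f‖ ≤ 1) :
    |e.1.1 * f.1.2 - e.1.2 * f.1.1| ≤ 2 := by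
  obtain ⟨hea, heb, hec, hen⟩ := norm_coords he
  obtain ⟨hfa, hfb, hfc, hfn⟩ := norm_coords hf
  calc _ ≤ 2 * 1 * 1 := abs_pair_le hea hfb heb hfa
    _ = _ := by norm_num

theorem abs_rqw_le {j : ℕ} {u : ℝ × ℝ} {e f : (ℝ × ℝ) × ℝ} (he : ‖e‖ ≤ 1) (hf : ‖f‖ ≤ 1) :
    |rho m0 j * qt ((s j).X u) ((s j).Y u) * (e.1.1 * f.1.2 - e.1.2 * f.1.1)|
      ≤ rho m0 j * Kk := by
  have hr := rho_pos m0 j
  rw [abs_mul, abs_mul, abs_of_pos hr, abs_of_nonneg (qt_nonneg _ _)]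
  have h1 := qt_le ((s j).X u) ((s j).Y u)
  have h2 := abs_wedge_le he hf
  have h3 := qt_nonneg ((s j).X u) ((s j).Y u)
  have h4 := lamB_pos
  have hpi := Real.pi_pos
  calc _ ≤ rho m0 j * (lamB * (2 * π)) * 2 := by gcongr
    _ = _ := by unfold Kk; ring

/-- Sum of the contributions of the levels against their principal parts. -/
theorem Ff_sub_mnj (hP : 0 < Pst) (hs : ∀ j, Good m0 Pst j s) (a b : ℕ)
    {e f p : (ℝ × ℝ) × ℝ} (he : ‖e‖ ≤ 1) (hf : ‖f‖ ≤ 1) :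
    |Ff m0 Pst s a b e f p - ∑ j ∈ Finset.Ico a b, mnj m0 Pst s a j e f p|
      ≤ KT * ∑ j ∈ Finset.Ico a b, ((1 / 2) ^ j
        + Mq m0 Pst s a (j + 1) p * |Cc m0 Pst s j p - Cc m0 Pst s (j + 1) p|
        + Mq m0 Pst s a j p * (ph m0 Pst s j p).im ^ 2) := by
  rw [Ff_eq_sum, ← Finset.sum_sub_distrib, Finset.mul_sum]
  refine (Finset.abs_sum_le_sum_abs _ _).trans (Finset.sum_le_sum fun j hj => ?_)
  exact Tj_bound hP hs (Finset.mem_Ico.1 hj).1 he hf

theorem im_term_le {a j : ℕ} (haj : a ≤ j) (p : (ℝ × ℝ) × ℝ) :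
    Mq m0 Pst s a j p * (ph m0 Pst s j p).im ^ 2
      ≤ 4 * (Mq m0 Pst s a j p - Mq m0 Pst s a (j + 1) p) := by
  have h1 := im_sq_le (m0 := m0) (Pst := Pst) (s := s) j p
  have h2 := Mq_nonneg (m0 := m0) (Pst := Pst) (s := s) a j p
  rw [Mq_succ haj]
  nlinarith

theorem Cc_term_le {a j : ℕ} (haj : a ≤ j) (p : (ℝ × ℝ) × ℝ) :
    Mq m0 Pst s a (j + 1) p * |Cc m0 Pst s j p - Cc m0 Pst s (j + 1) p|
      ≤ 2 * (Mq m0 Pst s a j p - Mq m0 Pst s a (j + 1) p)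
        + 2 * (Mq m0 Pst s a (j + 1) p - Mq m0 Pst s a (j + 2) p) := by
  have h1 := Mq_nonneg (m0 := m0) (Pst := Pst) (s := s) a j p
  have h2 := mm_nonneg (m0 := m0) (Pst := Pst) (s := s) j p
  have h3 := mm_le_one (m0 := m0) (Pst := Pst) (s := s) j p
  have h5 := mm_le_one (m0 := m0) (Pst := Pst) (s := s) (j + 1) p
  have h6 : |Cc m0 Pst s j p - Cc m0 Pst s (j + 1) p|
      ≤ 2 * (1 - mm m0 Pst s j p) + 2 * (1 - mm m0 Pst s (j + 1) p) := by
    unfold mm at *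
    rw [abs_le]
    constructor <;> linarith
  have h7 := Mq_nonneg (m0 := m0) (Pst := Pst) (s := s) a (j + 1) p
  have h8 : Mq m0 Pst s a (j + 2) p = Mq m0 Pst s a (j + 1) p * mm m0 Pst s (j + 1) p :=
    Mq_succ (by omega) p
  have h9 := Mq_succ (m0 := m0) (Pst := Pst) (s := s) haj p
  rw [h8]
  have h10 : Mq m0 Pst s a (j + 1) p ≤ Mq m0 Pst s a j p := by rw [h9]; nlinarith
  calc _ ≤ Mq m0 Pst s a (j + 1) p * (2 * (1 - mm m0 Pst s j p) + 2 * (1 - mm m0 Pst s (j + 1) p))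
        := by gcongr
    _ = 2 * (Mq m0 Pst s a (j + 1) p * (1 - mm m0 Pst s j p))
        + 2 * (Mq m0 Pst s a (j + 1) p - Mq m0 Pst s a (j + 1) p * mm m0 Pst s (j + 1) p) := by
        ring
    _ ≤ 2 * (Mq m0 Pst s a j p * (1 - mm m0 Pst s j p))
        + 2 * (Mq m0 Pst s a (j + 1) p - Mq m0 Pst s a (j + 1) p * mm m0 Pst s (j + 1) p) := by
        have : 0 ≤ 1 - mm m0 Pst s j p := by linarith
        gcongr
    _ = _ := by rw [h9]; ring

theorem exists_Ff_bound (hP : 0 < Pst) (hs : ∀ j, Good m0 Pst j s) :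
    ∃ C : ℝ, ∀ m, m0 ≤ m → ∀ (e f p : (ℝ × ℝ) × ℝ), ‖e‖ ≤ 1 → ‖f‖ ≤ 1 →
      |Ff m0 Pst s (bS m0 m) (bS m0 (m + 1)) e f p| ≤ C := by
  refine ⟨KT * 10 + 15 * Kk, fun m hm e f p he hf => ?_⟩
  set a := bS m0 m with ha
  set b := bS m0 (m + 1) with hb
  have hab : a ≤ b := bS_mono (Nat.le_succ m)
  have hKT := KT_pos
  have hKk := Kk_pos
  have h1 := Ff_sub_mnj hP hs a b (p := p) he hf
  have h2 : |∑ j ∈ Finset.Ico a b, mnj m0 Pst s a j e f p| ≤ 15 * Kk := by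
    calc _ ≤ ∑ j ∈ Finset.Ico a b, rho m0 j * Kk := by
          refine (Finset.abs_sum_le_sum_abs _ _).trans (Finset.sum_le_sum fun j _ => ?_)
          unfold mnj
          have hM := Mq_nonneg (m0 := m0) (Pst := Pst) (s := s) a (j + 1) p
          have hM1 := Mq_le_one (m0 := m0) (Pst := Pst) (s := s) a (j + 1) p
          have hc0 := cut_nonneg m0 s j p.1
          have hc1 := cut_le_one m0 s j p.1
          have hC := abs_Cc_le (m0 := m0) (Pst := Pst) (s := s) (j + 1) p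
          have hw := abs_rqw_le (m0 := m0) (s := s) (j := j) (u := p.1) he hf
          have hr := rho_pos m0 j
          rw [abs_mul, abs_mul, abs_mul, abs_of_nonneg hM, abs_of_nonneg hc0]
          calc _ ≤ 1 * 1 * 1 * (rho m0 j * Kk) := by gcongr
            _ = _ := by ring
      _ = (∑ j ∈ Finset.Ico a b, rho m0 j) * Kk := by rw [Finset.sum_mul]
      _ = _ := by rw [sum_rho_block hm]
  have h3 : ∑ j ∈ Finset.Ico a b, (((1 : ℝ) / 2) ^ j
        + Mq m0 Pst s a (j + 1) p * |Cc m0 Pst s j p - Cc m0 Pst s (j + 1) p|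
        + Mq m0 Pst s a j p * (ph m0 Pst s j p).im ^ 2) ≤ 10 := by
    have hM : ∀ j, 0 ≤ Mq m0 Pst s a j p ∧ Mq m0 Pst s a j p ≤ 1 := fun j =>
      ⟨Mq_nonneg a j p, Mq_le_one a j p⟩
    calc _ ≤ ∑ j ∈ Finset.Ico a b, (((1 : ℝ) / 2) ^ j
          + (6 * (Mq m0 Pst s a j p - Mq m0 Pst s a (j + 1) p)
          + 2 * (Mq m0 Pst s a (j + 1) p - Mq m0 Pst s a (j + 2) p))) := by
          refine Finset.sum_le_sum fun j hj => ?_
          have e1 := im_term_le (m0 := m0) (Pst := Pst) (s := s) (Finset.mem_Ico.1 hj).1 p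
          have e2 := Cc_term_le (m0 := m0) (Pst := Pst) (s := s) (Finset.mem_Ico.1 hj).1 p
          linarith
      _ = ∑ j ∈ Finset.Ico a b, ((1 : ℝ) / 2) ^ j
          + (6 * ∑ j ∈ Finset.Ico a b, (Mq m0 Pst s a j p - Mq m0 Pst s a (j + 1) p)
          + 2 * ∑ j ∈ Finset.Ico a b, (Mq m0 Pst s a (j + 1) p - Mq m0 Pst s a (j + 2) p)) := by
          rw [Finset.sum_add_distrib, Finset.sum_add_distrib, Finset.mul_sum, Finset.mul_sum]
      _ ≤ 10 := by
          rw [sum_tel_Ico (F := fun j => Mq m0 Pst s a j p) hab,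
            sum_tel_Ico (F := fun j => Mq m0 Pst s a (j + 1) p) hab]
          have e1 := sum_half_Ico_le a b
          have e2 : ((1 : ℝ) / 2) ^ a ≤ 1 := pow_le_one₀ (by norm_num) (by norm_num)
          have e3 := hM a
          have e4 := hM b
          have e5 := hM (a + 1)
          have e6 := hM (b + 1)
          linarith [e3.1, e3.2, e4.1, e4.2, e5.1, e5.2, e6.1, e6.2]
  have h4 : |Ff m0 Pst s a b e f p| ≤ |Ff m0 Pst s a b e f p
      - ∑ j ∈ Finset.Ico a b, mnj m0 Pst s a j e f p|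
      + |∑ j ∈ Finset.Ico a b, mnj m0 Pst s a j e f p| := by
    have := abs_add_le (Ff m0 Pst s a b e f p - ∑ j ∈ Finset.Ico a b, mnj m0 Pst s a j e f p)
      (∑ j ∈ Finset.Ico a b, mnj m0 Pst s a j e f p)
    rwa [sub_add_cancel] at this
  have h5 := mul_le_mul_of_nonneg_left h3 hKT.le
  linarith

theorem one_sub_Mq_le (a j : ℕ) (p : (ℝ × ℝ) × ℝ) :
    1 - Mq m0 Pst s a j p ≤ ∑ i ∈ Finset.Ico a j, (1 - mm m0 Pst s i p) := by
  rcases Nat.lt_or_ge j a with h | h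
  · unfold Mq
    rw [Finset.Ico_eq_empty (by omega)]
    simp
  · obtain ⟨k, rfl⟩ := Nat.exists_eq_add_of_le h
    induction k with
    | zero => simp [Mq]
    | succ k ih =>
      rw [← add_assoc, Finset.sum_Ico_succ_top (by omega), Mq_succ (by omega)]
      have h1 := ih (by omega)
      have h2 := Mq_nonneg (m0 := m0) (Pst := Pst) (s := s) a (a + k) p
      have h3 := Mq_le_one (m0 := m0) (Pst := Pst) (s := s) a (a + k) p
      have h4 := mm_le_one (m0 := m0) (Pst := Pst) (s := s) (a + k) p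
      nlinarith

theorem exists_Ff_near (hP : 0 < Pst) (hs : ∀ j, Good m0 Pst j s) :
    ∃ C : ℝ, ∀ m, m0 ≤ m → ∀ (e f p : (ℝ × ℝ) × ℝ), ‖e‖ ≤ 1 → ‖f‖ ≤ 1 →
      (∀ j, ‖ph m0 Pst s j p - 1‖ ≤ (1 / 2) ^ j) →
      |Ff m0 Pst s (bS m0 m) (bS m0 (m + 1)) e f p
        - Mn m0 s (bS m0 m) (bS m0 (m + 1)) p.1 * (e.1.1 * f.1.2 - e.1.2 * f.1.1)|
        ≤ C * (1 / 2) ^ (bS m0 m) := by
  refine ⟨KT * 8 + 30 * Kk, fun m hm e f p he hf hph => ?_⟩
  set a := bS m0 m with ha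
  set b := bS m0 (m + 1) with hb
  have hab : a ≤ b := bS_mono (Nat.le_succ m)
  have hKT := KT_pos
  have hKk := Kk_pos
  have h1 := Ff_sub_mnj hP hs a b (p := p) he hf
  have hC : ∀ j, 1 - Cc m0 Pst s j p ≤ (1 / 2) ^ j := by
    intro j
    have e1 : |(ph m0 Pst s j p - 1).re| ≤ (1 / 2) ^ j :=
      (Complex.abs_re_le_norm _).trans (hph j)
    rw [Complex.sub_re, Complex.one_re] at e1
    have := (abs_le.1 e1).1
    unfold Cc
    linarith
  have hC1 : ∀ j, Cc m0 Pst s j p ≤ 1 := fun j => (abs_le.1 (abs_Cc_le j p)).2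
  have hI : ∀ j, (ph m0 Pst s j p).im ^ 2 ≤ (1 / 2) ^ j := by
    intro j
    have e1 : |(ph m0 Pst s j p - 1).im| ≤ (1 / 2) ^ j :=
      (Complex.abs_im_le_norm _).trans (hph j)
    rw [Complex.sub_im, Complex.one_im, sub_zero] at e1
    have e2 : ((1 : ℝ) / 2) ^ j ≤ 1 := pow_le_one₀ (by norm_num) (by norm_num)
    rw [← sq_abs]
    nlinarith [abs_nonneg (ph m0 Pst s j p).im]
  have h3 : ∑ j ∈ Finset.Ico a b, (((1 : ℝ) / 2) ^ j
        + Mq m0 Pst s a (j + 1) p * |Cc m0 Pst s j p - Cc m0 Pst s (j + 1) p|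
        + Mq m0 Pst s a j p * (ph m0 Pst s j p).im ^ 2) ≤ 8 * (1 / 2) ^ a := by
    calc _ ≤ ∑ j ∈ Finset.Ico a b, 4 * ((1 : ℝ) / 2) ^ j := by
          refine Finset.sum_le_sum fun j _ => ?_
          have e1 := hC j
          have e2 := hC (j + 1)
          have e3 := hC1 j
          have e4 := hC1 (j + 1)
          have e5 : ((1 : ℝ) / 2) ^ (j + 1) ≤ (1 / 2) ^ j :=
            pow_le_pow_of_le_one (by norm_num) (by norm_num) (by omega)
          have e6 : |Cc m0 Pst s j p - Cc m0 Pst s (j + 1) p| ≤ 2 * (1 / 2) ^ j := by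
            rw [abs_le]
            constructor <;> linarith
          have hM := Mq_nonneg (m0 := m0) (Pst := Pst) (s := s) a (j + 1) p
          have hM1 := Mq_le_one (m0 := m0) (Pst := Pst) (s := s) a (j + 1) p
          have hM' := Mq_nonneg (m0 := m0) (Pst := Pst) (s := s) a j p
          have hM1' := Mq_le_one (m0 := m0) (Pst := Pst) (s := s) a j p
          have e7 : Mq m0 Pst s a (j + 1) p * |Cc m0 Pst s j p - Cc m0 Pst s (j + 1) p|
              ≤ 1 * (2 * (1 / 2) ^ j) := by gcongr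
          have e8 : Mq m0 Pst s a j p * (ph m0 Pst s j p).im ^ 2 ≤ 1 * (1 / 2) ^ j := by
            have := hI j
            gcongr
          linarith
      _ = 4 * ∑ j ∈ Finset.Ico a b, ((1 : ℝ) / 2) ^ j := by rw [Finset.mul_sum]
      _ ≤ 8 * (1 / 2) ^ a := by
          have := sum_half_Ico_le a b
          linarith
  have h6 : ∀ j ∈ Finset.Ico a b, |Mq m0 Pst s a (j + 1) p * Cc m0 Pst s (j + 1) p - 1|
      ≤ 2 * (1 / 2) ^ a := by
    intro j hj
    rw [Finset.mem_Ico] at hj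
    have e1 := one_sub_Mq_le (m0 := m0) (Pst := Pst) (s := s) a (j + 1) p
    have e2 : ∑ i ∈ Finset.Ico a (j + 1), (1 - mm m0 Pst s i p) ≤ (1 / 2) ^ a := by
      calc _ ≤ ∑ i ∈ Finset.Ico a (j + 1), (1 / 2) * ((1 : ℝ) / 2) ^ i := by
            refine Finset.sum_le_sum fun i _ => ?_
            have := hC i
            unfold mm
            linarith
        _ = (1 / 2) * ∑ i ∈ Finset.Ico a (j + 1), ((1 : ℝ) / 2) ^ i := by rw [Finset.mul_sum]
        _ ≤ _ := by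
            have := sum_half_Ico_le a (j + 1)
            linarith
    have e3 := hC (j + 1)
    have e4 := hC1 (j + 1)
    have e5 : ((1 : ℝ) / 2) ^ (j + 1) ≤ (1 / 2) ^ a :=
      pow_le_pow_of_le_one (by norm_num) (by norm_num) (by omega)
    have hM := Mq_nonneg (m0 := m0) (Pst := Pst) (s := s) a (j + 1) p
    have hM1 := Mq_le_one (m0 := m0) (Pst := Pst) (s := s) a (j + 1) p
    rw [abs_le]
    constructor <;> nlinarith
  have h2 : |∑ j ∈ Finset.Ico a b, mnj m0 Pst s a j e f p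
      - Mn m0 s a b p.1 * (e.1.1 * f.1.2 - e.1.2 * f.1.1)| ≤ 30 * Kk * (1 / 2) ^ a := by
    unfold Mn
    rw [Finset.sum_mul, ← Finset.sum_sub_distrib]
    calc _ ≤ ∑ j ∈ Finset.Ico a b, 2 * (1 / 2) ^ a * (rho m0 j * Kk) := by
          refine (Finset.abs_sum_le_sum_abs _ _).trans (Finset.sum_le_sum fun j hj => ?_)
          have e1 : mnj m0 Pst s a j e f p - rho m0 j * qt ((s j).X p.1) ((s j).Y p.1)
              * cut m0 s j p.1 * (e.1.1 * f.1.2 - e.1.2 * f.1.1)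
              = (Mq m0 Pst s a (j + 1) p * Cc m0 Pst s (j + 1) p - 1) * cut m0 s j p.1
                * (rho m0 j * qt ((s j).X p.1) ((s j).Y p.1)
                * (e.1.1 * f.1.2 - e.1.2 * f.1.1)) := by
            unfold mnj; ring
          have hc0 := cut_nonneg m0 s j p.1
          have hc1 := cut_le_one m0 s j p.1
          have hw := abs_rqw_le (m0 := m0) (s := s) (j := j) (u := p.1) he hf
          have h6j := h6 j hj
          rw [e1, abs_mul, abs_mul, abs_of_nonneg hc0]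
          calc _ ≤ 2 * (1 / 2) ^ a * 1 * (rho m0 j * Kk) := by gcongr
            _ = _ := by ring
      _ = 2 * (1 / 2) ^ a * ((∑ j ∈ Finset.Ico a b, rho m0 j) * Kk) := by
          rw [Finset.sum_mul, Finset.mul_sum]
      _ = _ := by rw [sum_rho_block hm]; ring
  have h5 := mul_le_mul_of_nonneg_left h3 hKT.le
  have h7 := abs_add_le (Ff m0 Pst s a b e f p - ∑ j ∈ Finset.Ico a b, mnj m0 Pst s a j e f p)
    (∑ j ∈ Finset.Ico a b, mnj m0 Pst s a j e f p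
      - Mn m0 s a b p.1 * (e.1.1 * f.1.2 - e.1.2 * f.1.1))
  rw [sub_add_sub_cancel] at h7
  linarith

end Pool.Agent.H28.Lusin
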