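import Pool.Agent.H28.Lusin.Cons

open MeasureTheory Set Real Filter
open scoped ContDiff Topology ENNReal ComplexConjugate

namespace Pool.Agent.H28.Lusin

variable {m0 Pst : ℕ} {s : ℕ → Lev}

theorem ph_norm_unit_le (w : ℂ) : ‖w / (‖w‖ : ℂ)‖ ≤ 1 := by
  rw [norm_div, Complex.norm_real, norm_norm]
  exact div_self_le_one _

theorem contDiff_Esm {ε : ℝ} (hε : 0 < ε) : ContDiff ℝ ∞ (Esm ε) := by
  rw [contDiff_iff_contDiffAt]
  intro w
  by_cases hw : w = 0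
  · subst hw
    have h1 : ∀ᶠ z : ℂ in 𝓝 0, Esm ε z = 0 := by
      have h2 : ∀ᶠ z : ℂ in 𝓝 0, ‖z‖ < ε / 4 := by
        have := Metric.ball_mem_nhds (0 : ℂ) (show 0 < ε / 4 by positivity)
        filter_upwards [this] with z hz
        simpa using hz
      filter_upwards [h2] with z hz
      unfold Esm
      rw [Real.smoothTransition.zero_of_nonpos]
      · simp
      · apply div_nonpos_of_nonpos_of_nonneg _ (by positivity)
        have h3 := norm_nonneg z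
        nlinarith
    have h4 : ContDiffAt ℝ ∞ (fun _ : ℂ => (0 : ℂ)) 0 := contDiffAt_const
    exact h4.congr_of_eventuallyEq h1
  · have h1 : ContDiffAt ℝ ∞ (fun z : ℂ => ‖z‖) w := contDiffAt_norm ℝ hw
    have h2 : ContDiffAt ℝ ∞ (fun z : ℂ => (‖z‖ ^ 2 - ε ^ 2 / 16) / (ε ^ 2 / 8)) w :=
      ((h1.pow 2).sub contDiffAt_const).div_const _
    have h3 : ContDiffAt ℝ ∞ (fun z : ℂ =>
        Real.smoothTransition ((‖z‖ ^ 2 - ε ^ 2 / 16) / (ε ^ 2 / 8))) w :=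
      (Real.smoothTransition.contDiffAt (n := ⊤)).comp w h2
    have h4 : ContDiffAt ℝ ∞ (fun z : ℂ =>
        ((Real.smoothTransition ((‖z‖ ^ 2 - ε ^ 2 / 16) / (ε ^ 2 / 8)) : ℝ) : ℂ)) w :=
      (Complex.ofRealCLM.contDiff.contDiffAt).comp w h3
    have h5 : ContDiffAt ℝ ∞ (fun z : ℂ => ((‖z‖ : ℝ) : ℂ)) w :=
      (Complex.ofRealCLM.contDiff.contDiffAt).comp w h1
    have h6 : ((‖w‖ : ℝ) : ℂ) ≠ 0 := by
      rw [Complex.ofReal_ne_zero]; exact norm_ne_zero_iff.2 hw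
    have h7 : ContDiffAt ℝ ∞ (fun z : ℂ => z / ((‖z‖ : ℝ) : ℂ)) w := by
      have h8 : ContDiffAt ℝ ∞ (fun z : ℂ => z * ((‖z‖ : ℝ) : ℂ)⁻¹) w :=
        contDiffAt_id.mul (h5.inv h6)
      simpa only [div_eq_mul_inv] using h8
    unfold Esm
    exact h4.mul h7

theorem norm_Esm_le (ε : ℝ) (w : ℂ) : ‖Esm ε w‖ ≤ 1 := by
  unfold Esm
  rw [norm_mul, Complex.norm_real, Real.norm_eq_abs,
    abs_of_nonneg (Real.smoothTransition.nonneg _)]
  exact mul_le_one₀ (Real.smoothTransition.le_one _) (norm_nonneg _) (ph_norm_unit_le w)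

theorem Esm_eq {ε : ℝ} (hε : 0 < ε) {w : ℂ} (hw : ε / 2 ≤ ‖w‖) : Esm ε w = w / (‖w‖ : ℂ) := by
  unfold Esm
  rw [Real.smoothTransition.one_of_one_le]
  · simp
  · rw [le_div_iff₀ (by positivity)]
    nlinarith

theorem ph_Wl_eq (l : ℕ) (u : ℝ × ℝ) :
    Wl s l u = ((fa ((s l).X u) : ℝ) : ℂ) + ((fa ((s l).Y u) : ℝ) : ℂ) * Complex.I := by
  unfold Wl
  apply Complex.ext <;> simp

theorem ph_contDiff_fa : ContDiff ℝ ∞ fa := by
  unfold fa
  exact Real.contDiff_sin.comp (contDiff_const.mul contDiff_id)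

theorem ph_contDiff_Wl (l : ℕ) : ContDiff ℝ ∞ (Wl s l) := by
  have h : Wl s l = fun u => ((fa ((s l).X u) : ℝ) : ℂ) + ((fa ((s l).Y u) : ℝ) : ℂ) * Complex.I :=
    funext fun u => ph_Wl_eq l u
  rw [h]
  have hX : ContDiff ℝ ∞ (s l).X := by
    unfold Lev.X
    exact (contDiff_const.mul contDiff_fst).add contDiff_const
  have hY : ContDiff ℝ ∞ (s l).Y := by
    unfold Lev.Y
    exact (contDiff_const.mul contDiff_snd).add contDiff_const
  exact (Complex.ofRealCLM.contDiff.comp (ph_contDiff_fa.comp hX)).add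
    ((Complex.ofRealCLM.contDiff.comp (ph_contDiff_fa.comp hY)).mul contDiff_const)

theorem contDiff_El (l : ℕ) : ContDiff ℝ ∞ (El m0 s l) :=
  (contDiff_Esm (ep_pos m0 l)).comp (ph_contDiff_Wl l)

theorem ph_contDiff_conj {E : Type*} [NormedAddCommGroup E] [NormedSpace ℝ E] {f : E → ℂ}
    (hf : ContDiff ℝ ∞ f) : ContDiff ℝ ∞ (fun x => conj (f x)) :=
  (Complex.conjCLE : ℂ ≃L[ℝ] ℂ).contDiff.comp hf

theorem contDiff_ph (j : ℕ) : ContDiff ℝ ∞ (ph m0 Pst s j) := by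
  unfold ph
  apply ContDiff.mul
  · have h1 : ContDiff ℝ ∞ (fun p : (ℝ × ℝ) × ℝ => ((p.2 : ℝ) : ℂ)) :=
      Complex.ofRealCLM.contDiff.comp contDiff_snd
    exact ((contDiff_const.mul h1).mul contDiff_const).cexp
  · apply contDiff_prod
    intro l _
    exact (ph_contDiff_conj ((contDiff_El l).comp contDiff_fst)).pow _

theorem norm_ph_le (j : ℕ) (p : (ℝ × ℝ) × ℝ) : ‖ph m0 Pst s j p‖ ≤ 1 := by
  unfold ph
  rw [norm_mul]
  have h1 : ‖Complex.exp (2 * π * (Pp m0 Pst s j : ℂ) * (p.2 : ℂ) * Complex.I)‖ = 1 := by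
    have : (2 * π * (Pp m0 Pst s j : ℂ) * (p.2 : ℂ) * Complex.I)
        = ((2 * π * (Pp m0 Pst s j : ℝ) * p.2 : ℝ) : ℂ) * Complex.I := by
      push_cast; ring
    rw [this, Complex.norm_exp_ofReal_mul_I]
  rw [h1, one_mul, norm_prod]
  apply Finset.prod_le_one
  · intro i _; positivity
  · intro i _
    rw [norm_pow]
    apply pow_le_one₀ (norm_nonneg _)
    rw [RCLike.norm_conj]
    exact norm_Esm_le _ _

/-! ### The derivative -/

theorem ph_hasDerivAt_prod {ι : Type*} (S : Finset ι) (f : ι → ℝ → ℂ) (c : ι → ℂ) (x : ℝ)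
    (h : ∀ i ∈ S, HasDerivAt (f i) (c i * f i x) x) :
    HasDerivAt (fun t => ∏ i ∈ S, f i t) ((∑ i ∈ S, c i) * ∏ i ∈ S, f i x) x := by
  classical
  induction S using Finset.induction_on with
  | empty => simpa using hasDerivAt_const x (1 : ℂ)
  | insert a S ha ih =>
    have h1 := h a (Finset.mem_insert_self a S)
    have h2 := ih fun i hi => h i (Finset.mem_insert_of_mem hi)
    have h3 := h1.mul h2
    simp only [Finset.prod_insert ha, Finset.sum_insert ha]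
    have h4 : HasDerivAt (fun t => f a t * ∏ i ∈ S, f i t) _ x := h3
    refine h4.congr_deriv ?_
    ring

theorem ph_hasDerivAt_pow {f : ℝ → ℂ} {c : ℂ} {x : ℝ} (h : HasDerivAt f (c * f x) x) (n : ℕ) :
    HasDerivAt (fun t => f t ^ n) ((n * c) * f x ^ n) x := by
  have h1 := ph_hasDerivAt_prod (Finset.range n) (fun _ => f) (fun _ => c) x fun _ _ => h
  simpa only [Finset.prod_const, Finset.card_range, Finset.sum_const, nsmul_eq_mul] using h1

theorem ph_hasDerivAt_unit {a b : ℝ → ℝ} {a' b' x : ℝ} (ha : HasDerivAt a a' x)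
    (hb : HasDerivAt b b' x) (hpos : 0 < a x ^ 2 + b x ^ 2) :
    HasDerivAt (fun t => (⟨a t, b t⟩ : ℂ) / ((‖(⟨a t, b t⟩ : ℂ)‖ : ℝ) : ℂ))
      ((((a x * b' - b x * a') / (a x ^ 2 + b x ^ 2) : ℝ) : ℂ) * Complex.I
        * ((⟨a x, b x⟩ : ℂ) / ((‖(⟨a x, b x⟩ : ℂ)‖ : ℝ) : ℂ))) x := by
  have hn : ∀ t, ‖(⟨a t, b t⟩ : ℂ)‖ = √(a t ^ 2 + b t ^ 2) := by
    intro t
    rw [Complex.norm_eq_sqrt_sq_add_sq]
  have hw : ∀ t, (⟨a t, b t⟩ : ℂ) = ((a t : ℝ) : ℂ) + ((b t : ℝ) : ℂ) * Complex.I := by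
    intro t
    apply Complex.ext <;> simp
  have h1 : HasDerivAt (fun t => a t ^ 2 + b t ^ 2) (2 * a x * a' + 2 * b x * b') x := by
    have h0 : HasDerivAt (fun t => a t ^ 2 + b t ^ 2) _ x := (ha.pow 2).add (hb.pow 2)
    refine h0.congr_deriv ?_
    norm_num
  have h2 : HasDerivAt (fun t => √(a t ^ 2 + b t ^ 2))
      ((2 * a x * a' + 2 * b x * b') / (2 * √(a x ^ 2 + b x ^ 2))) x := h1.sqrt hpos.ne'
  have hr : √(a x ^ 2 + b x ^ 2) ≠ 0 := (Real.sqrt_pos.2 hpos).ne'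
  have h3 : HasDerivAt (fun t => (√(a t ^ 2 + b t ^ 2))⁻¹)
      (-((2 * a x * a' + 2 * b x * b') / (2 * √(a x ^ 2 + b x ^ 2)))
        / (√(a x ^ 2 + b x ^ 2)) ^ 2) x := h2.inv hr
  have h4 := h3.ofReal_comp
  have h5 : HasDerivAt (fun t => ((a t : ℝ) : ℂ) + ((b t : ℝ) : ℂ) * Complex.I)
      ((a' : ℂ) + (b' : ℂ) * Complex.I) x :=
    ha.ofReal_comp.add (hb.ofReal_comp.mul_const _)
  have h6 := h5.mul h4
  have e1 : (fun t => (⟨a t, b t⟩ : ℂ) / ((‖(⟨a t, b t⟩ : ℂ)‖ : ℝ) : ℂ))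
      = fun t => (((a t : ℝ) : ℂ) + ((b t : ℝ) : ℂ) * Complex.I)
        * (((√(a t ^ 2 + b t ^ 2))⁻¹ : ℝ) : ℂ) := by
    funext t
    rw [hn, hw, div_eq_mul_inv, Complex.ofReal_inv]
  rw [e1]
  have h7 : HasDerivAt (fun t => (((a t : ℝ) : ℂ) + ((b t : ℝ) : ℂ) * Complex.I)
        * (((√(a t ^ 2 + b t ^ 2))⁻¹ : ℝ) : ℂ)) _ x := h6
  refine h7.congr_deriv ?_
  rw [hn, hw]
  set r := √(a x ^ 2 + b x ^ 2) with hrdef
  have hr2 : r ^ 2 = a x ^ 2 + b x ^ 2 := Real.sq_sqrt hpos.le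
  rw [← hr2]
  have hrc : (r : ℂ) ≠ 0 := by exact_mod_cast hr
  have hr2c : (r : ℂ) ^ 2 = (a x : ℂ) ^ 2 + (b x : ℂ) ^ 2 := by exact_mod_cast hr2
  have hI : Complex.I ^ 2 = -1 := Complex.I_sq
  push_cast
  field_simp
  have e2 : (r : ℂ) ^ 2 * ((a' : ℂ) + (b' : ℂ) * Complex.I)
      = ((a x : ℂ) ^ 2 + (b x : ℂ) ^ 2) * ((a' : ℂ) + (b' : ℂ) * Complex.I) := by rw [hr2c]
  linear_combination (exp := 1) e2 - ((a x : ℂ) * b' - b x * a') * b x * hI

/-- The rotation speed of level `l` in the direction `e`. -/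
noncomputable def ph_sp (ℓ : Lev) (e u : ℝ × ℝ) : ℝ :=
  ℓ.D * (thX (ℓ.X u) (ℓ.Y u) * e.1 + thY (ℓ.X u) (ℓ.Y u) * e.2)

theorem ph_hasDerivAt_El (l : ℕ) {u : ℝ × ℝ} (h : (ep m0 l / 2) ^ 2 < (s l).sq u) (e : ℝ × ℝ) :
    HasDerivAt (fun t : ℝ => El m0 s l (u + t • e))
      (((2 * π * ph_sp (s l) e u : ℝ) : ℂ) * Complex.I * El m0 s l u) 0 := by
  have hep := ep_pos m0 l
  have hsq : ∀ v, (s l).sq v = ‖Wl s l v‖ ^ 2 := by
    intro v
    unfold Lev.sq Wl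
    rw [Complex.norm_eq_sqrt_sq_add_sq, Real.sq_sqrt (by positivity)]
  have hpos : 0 < fa ((s l).X u) ^ 2 + fa ((s l).Y u) ^ 2 := by
    have : (s l).sq u = fa ((s l).X u) ^ 2 + fa ((s l).Y u) ^ 2 := rfl
    rw [← this]
    exact lt_of_le_of_lt (sq_nonneg _) h
  have hreg : ∀ v, (ep m0 l / 2) ^ 2 < (s l).sq v → El m0 s l v = Wl s l v / (‖Wl s l v‖ : ℂ) := by
    intro v hv
    unfold El
    apply Esm_eq hep
    rw [hsq] at hv
    exact (abs_le_of_sq_le_sq' hv.le (norm_nonneg _)).2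
  have hu0 : u + (0 : ℝ) • e = u := by simp
  have hcont : Continuous fun t : ℝ => u + t • e := by fun_prop
  have hev : ∀ᶠ t : ℝ in 𝓝 0, (ep m0 l / 2) ^ 2 < (s l).sq (u + t • e) := by
    have h1 : Continuous fun t : ℝ => (s l).sq (u + t • e) := (s l).continuous_sq.comp hcont
    have h2 : (ep m0 l / 2) ^ 2 < (s l).sq (u + (0 : ℝ) • e) := by rw [hu0]; exact h
    exact h1.continuousAt.eventually (lt_mem_nhds h2)
  have hX : HasDerivAt (fun t : ℝ => (s l).X (u + t • e)) ((s l).D * e.1) 0 := by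
    unfold Lev.X
    have h1 : HasDerivAt (fun t : ℝ => ((s l).D : ℝ) * (u.1 + t * e.1) + (s l).t1)
        ((s l).D * (1 * e.1)) 0 :=
      ((((hasDerivAt_id (0 : ℝ)).mul_const e.1).const_add u.1).const_mul _).add_const _
    rw [one_mul] at h1
    exact h1
  have hY : HasDerivAt (fun t : ℝ => (s l).Y (u + t • e)) ((s l).D * e.2) 0 := by
    unfold Lev.Y
    have h1 : HasDerivAt (fun t : ℝ => ((s l).D : ℝ) * (u.2 + t * e.2) + (s l).t2)
        ((s l).D * (1 * e.2)) 0 :=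
      ((((hasDerivAt_id (0 : ℝ)).mul_const e.2).const_add u.2).const_mul _).add_const _
    rw [one_mul] at h1
    exact h1
  have hfX : HasDerivAt (fun t : ℝ => fa ((s l).X (u + t • e)))
      (2 * π * fc ((s l).X u) * ((s l).D * e.1)) 0 := by
    have h1 := (hasDerivAt_fa ((s l).X (u + (0 : ℝ) • e))).comp (0 : ℝ) hX
    rw [hu0] at h1
    exact h1
  have hfY : HasDerivAt (fun t : ℝ => fa ((s l).Y (u + t • e)))
      (2 * π * fc ((s l).Y u) * ((s l).D * e.2)) 0 := by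
    have h1 := (hasDerivAt_fa ((s l).Y (u + (0 : ℝ) • e))).comp (0 : ℝ) hY
    rw [hu0] at h1
    exact h1
  have h5 := ph_hasDerivAt_unit hfX hfY (by rw [hu0]; exact hpos)
  rw [hu0] at h5
  have h6 : (fun t : ℝ => El m0 s l (u + t • e)) =ᶠ[𝓝 0] fun t : ℝ =>
      (⟨fa ((s l).X (u + t • e)), fa ((s l).Y (u + t • e))⟩ : ℂ)
        / ((‖(⟨fa ((s l).X (u + t • e)), fa ((s l).Y (u + t • e))⟩ : ℂ)‖ : ℝ) : ℂ) := by
    filter_upwards [hev] with t ht
    rw [hreg _ ht]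
    rfl
  have h7 := h5.congr_of_eventuallyEq h6
  refine h7.congr_deriv ?_
  rw [hreg u h]
  unfold Wl ph_sp thX thY
  congr 3
  field_simp
  ring

theorem ph_hasDerivAt_conj {f : ℝ → ℂ} {c : ℝ} {x : ℝ}
    (h : HasDerivAt f ((c : ℂ) * Complex.I * f x) x) :
    HasDerivAt (fun t => conj (f t)) ((-(c : ℂ) * Complex.I) * conj (f x)) x := by
  have h1 := h.star
  have e1 : star ((c : ℂ) * Complex.I * f x) = (-(c : ℂ) * Complex.I) * conj (f x) := by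
    change conj ((c : ℂ) * Complex.I * f x) = _
    rw [map_mul, map_mul, Complex.conj_ofReal, Complex.conj_I]
    ring
  rw [e1] at h1
  exact h1

theorem ph_div (hP : 0 < Pst) (hs : ∀ j, Good m0 Pst j s) {l j : ℕ} (h : l < j) :
    ((Pp m0 Pst s j / Pp m0 Pst s (l + 1) : ℕ) : ℝ) * (s l).D = Pp m0 Pst s j * rho m0 l := by
  have hd : Pp m0 Pst s (l + 1) ∣ Pp m0 Pst s j := Pp_dvd hs h
  have hp : (0 : ℝ) < Pp m0 Pst s (l + 1) := by exact_mod_cast Pp_pos' hP hs (l + 1)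
  rw [Nat.cast_div hd hp.ne']
  have h1 : (Pp m0 Pst s (l + 1) : ℝ) = JJ m0 l * (s l).D := by
    have : Pp m0 Pst s (l + 1) = JJ m0 l * (s l).D := rfl
    rw [this]; push_cast; rfl
  have hJ : (0 : ℝ) < JJ m0 l := by exact_mod_cast JJ_pos m0 l
  have hD : (0 : ℝ) < (s l).D := by exact_mod_cast D_pos hs l
  rw [h1]
  unfold rho
  field_simp

/-- Derivative of the phase at a point where the levels below `j` are regular. -/
theorem fderiv_ph (hP : 0 < Pst) (hs : ∀ j, Good m0 Pst j s) {j : ℕ} {p : (ℝ × ℝ) × ℝ}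
    (h : ∀ l < j, (ep m0 l / 2) ^ 2 < (s l).sq p.1) (e : (ℝ × ℝ) × ℝ) :
    fderiv ℝ (ph m0 Pst s j) p e
      = (2 * π * (Pp m0 Pst s j : ℝ) * Tt m0 s j e p.1 : ℝ) * Complex.I * ph m0 Pst s j p := by
  have hdiff : DifferentiableAt ℝ (ph m0 Pst s j) p :=
    ((contDiff_ph j).differentiable (by norm_num)) p
  rw [← hdiff.lineDeriv_eq_fderiv]
  have hz : HasDerivAt (fun t : ℝ =>
      Complex.exp (2 * π * (Pp m0 Pst s j : ℂ) * (((p + t • e).2 : ℝ) : ℂ) * Complex.I))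
      ((2 * π * (Pp m0 Pst s j : ℂ) * ((e.2 : ℝ) : ℂ) * Complex.I)
        * Complex.exp (2 * π * (Pp m0 Pst s j : ℂ) * ((p.2 : ℝ) : ℂ) * Complex.I)) 0 := by
    have h1 : HasDerivAt (fun t : ℝ => p.2 + t * e.2) (1 * e.2) 0 :=
      ((hasDerivAt_id (0 : ℝ)).mul_const e.2).const_add p.2
    rw [one_mul] at h1
    have h2 : HasDerivAt (fun t : ℝ => (((p.2 + t * e.2 : ℝ)) : ℂ)) ((e.2 : ℝ) : ℂ) 0 :=
      h1.ofReal_comp
    have h3 := ((h2.const_mul (2 * π * (Pp m0 Pst s j : ℂ))).mul_const Complex.I).cexp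
    simp only [zero_mul, add_zero] at h3
    refine HasDerivAt.congr_deriv h3 ?_
    exact mul_comm _ _
  have hE : HasDerivAt (fun t : ℝ => ∏ l ∈ Finset.range j,
      (conj (El m0 s l (p + t • e).1)) ^ (Pp m0 Pst s j / Pp m0 Pst s (l + 1)))
      ((∑ l ∈ Finset.range j, ((Pp m0 Pst s j / Pp m0 Pst s (l + 1) : ℕ) : ℂ)
        * (-((2 * π * ph_sp (s l) e.1 p.1 : ℝ) : ℂ) * Complex.I))
        * ∏ l ∈ Finset.range j,
          (conj (El m0 s l p.1)) ^ (Pp m0 Pst s j / Pp m0 Pst s (l + 1))) 0 := by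
    have h1 := ph_hasDerivAt_prod (Finset.range j)
      (fun l t => (conj (El m0 s l (p.1 + t • e.1))) ^ (Pp m0 Pst s j / Pp m0 Pst s (l + 1)))
      (fun l => ((Pp m0 Pst s j / Pp m0 Pst s (l + 1) : ℕ) : ℂ)
        * (-((2 * π * ph_sp (s l) e.1 p.1 : ℝ) : ℂ) * Complex.I)) 0 (by
        intro l hl
        rw [Finset.mem_range] at hl
        have h2 := ph_hasDerivAt_El l (h l hl) e.1
        have hu0 : p.1 + (0 : ℝ) • e.1 = p.1 := by simp
        have h3 : HasDerivAt (fun t : ℝ => El m0 s l (p.1 + t • e.1))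
            (((2 * π * ph_sp (s l) e.1 p.1 : ℝ) : ℂ) * Complex.I
              * El m0 s l (p.1 + (0 : ℝ) • e.1)) 0 := by rw [hu0]; exact h2
        exact ph_hasDerivAt_pow (ph_hasDerivAt_conj h3) _)
    have hu0 : p.1 + (0 : ℝ) • e.1 = p.1 := by simp
    simp only [hu0] at h1
    exact h1
  have hmul := hz.mul hE
  have hfun : HasDerivAt (fun t : ℝ => ph m0 Pst s j (p + t • e)) _ 0 := hmul
  rw [show lineDeriv ℝ (ph m0 Pst s j) p e = _ from hfun.deriv]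
  have hp0 : ((p + (0 : ℝ) • e).1, (p + (0 : ℝ) • e).2) = (p.1, p.2) := by simp
  have hp1 : (p + (0 : ℝ) • e).1 = p.1 := by simp
  have hp2 : (p + (0 : ℝ) • e).2 = p.2 := by simp
  have hsum : ∑ l ∈ Finset.range j, ((Pp m0 Pst s j / Pp m0 Pst s (l + 1) : ℕ) : ℂ)
        * (-((2 * π * ph_sp (s l) e.1 p.1 : ℝ) : ℂ) * Complex.I)
      = ((-(2 * π * (Pp m0 Pst s j : ℝ) * (VV1 m0 s j p.1 * e.1.1 + VV2 m0 s j p.1 * e.1.2)) : ℝ)
        : ℂ) * Complex.I := by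
    have h1 : ∀ l ∈ Finset.range j, ((Pp m0 Pst s j / Pp m0 Pst s (l + 1) : ℕ) : ℂ)
        * (-((2 * π * ph_sp (s l) e.1 p.1 : ℝ) : ℂ) * Complex.I)
        = ((-(2 * π * (Pp m0 Pst s j : ℝ)) * (V1 m0 s l p.1 * e.1.1 + V2 m0 s l p.1 * e.1.2) : ℝ)
          : ℂ) * Complex.I := by
      intro l hl
      rw [Finset.mem_range] at hl
      have h2 := ph_div hP hs hl
      have h3 : ((Pp m0 Pst s j / Pp m0 Pst s (l + 1) : ℕ) : ℝ) * (2 * π * ph_sp (s l) e.1 p.1)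
          = 2 * π * (Pp m0 Pst s j : ℝ) * (V1 m0 s l p.1 * e.1.1 + V2 m0 s l p.1 * e.1.2) := by
        unfold ph_sp V1 V2
        calc _ = (((Pp m0 Pst s j / Pp m0 Pst s (l + 1) : ℕ) : ℝ) * (s l).D) * (2 * π *
              (thX ((s l).X p.1) ((s l).Y p.1) * e.1.1
                + thY ((s l).X p.1) ((s l).Y p.1) * e.1.2)) := by ring
          _ = _ := by rw [h2]; ring
      have h4 : (((Pp m0 Pst s j / Pp m0 Pst s (l + 1) : ℕ) : ℂ))
          = ((((Pp m0 Pst s j / Pp m0 Pst s (l + 1) : ℕ) : ℝ)) : ℂ) := by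
        rw [Complex.ofReal_natCast]
      rw [h4, ← mul_assoc, mul_neg, ← Complex.ofReal_mul, h3, ← Complex.ofReal_neg]
      congr 2
      ring
    rw [Finset.sum_congr rfl h1, ← Finset.sum_mul, ← Complex.ofReal_sum, ← Finset.mul_sum,
      Finset.sum_add_distrib, ← Finset.sum_mul, ← Finset.sum_mul]
    unfold VV1 VV2
    congr 2
    ring
  rw [hsum]
  simp only [hp1, hp2]
  unfold ph Tt
  push_cast
  ring

end Pool.Agent.H28.Lusin
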