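import Pool.Agent.H28.Lusin.Theta
import Pool.Agent.H28.Lusin.Phase
import Pool.Agent.H28.Lusin.Digits

open MeasureTheory Set Real Filter
open scoped ContDiff Topology ENNReal ComplexConjugate

namespace Pool.Agent.H28.Lusin

variable {m0 Pst : ℕ} {s : ℕ → Lev}

theorem El_eq_exp {u : ℝ × ℝ} (hu : u ∈ Gs m0 s) (l : ℕ) :
    El m0 s l u = Complex.exp (2 * π * (th1 (ep m0 l) ((s l).X u) ((s l).Y u) : ℂ) * Complex.I) := by
  have h1 := (hu.2.1 l).2
  have hep : 0 < ep m0 l := ep_pos m0 l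
  have h3 : |fa ((s l).Y u)| ≤ ‖Wl s l u‖ := Complex.abs_im_le_norm (Wl s l u)
  rw [exp_th1 hep h1.le]
  unfold El
  rw [Esm_eq hep (by linarith)]
  rfl

theorem Pp_mul_pj (hP : 0 < Pst) (hs : ∀ j, Good m0 Pst j s) {l j : ℕ} (h : l + 1 ≤ j) :
    (Pp m0 Pst s j : ℝ) * pj m0 Pst s l = ((Pp m0 Pst s j / Pp m0 Pst s (l + 1) : ℕ) : ℝ) := by
  have h1 := Pp_dvd hs h
  have h2 : (0 : ℝ) < Pp m0 Pst s (l + 1) := by exact_mod_cast Pp_pos' hP hs (l + 1)
  rw [Nat.cast_div h1 h2.ne']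
  unfold pj
  ring

/-- The phases are close to one on the support of the measure. -/
theorem ph_near (hP : 0 < Pst) (hs : ∀ j, Good m0 Pst j s) {u : ℝ × ℝ} (hu : u ∈ Gs m0 s)
    {l : ℕ → ℕ} (hl : ∀ j, l j < NN m0 j) (i : ℕ) (j : ℕ) :
    ‖ph m0 Pst s j (u, g1 m0 Pst s u + cd m0 Pst s l + i * (1 / (Pst : ℝ))) - 1‖
      ≤ (1 / 2) ^ j := by
  set t : ℕ → ℝ := fun l => th1 (ep m0 l) ((s l).X u) ((s l).Y u) with ht
  obtain ⟨P, hPdef⟩ : ∃ P : ℝ, P = (Pp m0 Pst s j : ℝ) := ⟨_, rfl⟩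
  have hP0 : 0 < P := by rw [hPdef]; exact_mod_cast Pp_pos' hP hs j
  have hPst0 : (0 : ℝ) < Pst := by exact_mod_cast hP
  have hsg : Summable fun l => pj m0 Pst s l * t l := summable_g1 hP hs u
  have hsc : Summable fun k => pj m0 Pst s k * (l k : ℝ) := summable_cd hP hs hl
  obtain ⟨q, hq⟩ := Pst_dvd hs j
  -- the remainder
  set R : ℝ := P * ∑' k, pj m0 Pst s (k + j) * (t (k + j) + l (k + j)) with hR
  have hsum : Summable fun k => pj m0 Pst s (k + j) * (t (k + j) + l (k + j)) := by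
    have := (summable_nat_add_iff j).2 (hsg.add hsc)
    simpa [mul_add] using this
  -- an integer
  obtain ⟨N, hN⟩ : ∃ N : ℕ, P * (∑ k ∈ Finset.range j, pj m0 Pst s k * (l k : ℝ)) +
      P * (i * (1 / (Pst : ℝ))) = N := by
    refine ⟨∑ k ∈ Finset.range j, (Pp m0 Pst s j / Pp m0 Pst s (k + 1)) * l k + q * i, ?_⟩
    push_cast
    congr 1
    · rw [Finset.mul_sum]
      apply Finset.sum_congr rfl
      intro k hk
      rw [← mul_assoc, hPdef, Pp_mul_pj hP hs (by have := Finset.mem_range.1 hk; omega)]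
    · rw [hPdef, hq]
      push_cast
      field_simp
  have hz : P * (g1 m0 Pst s u + cd m0 Pst s l + i * (1 / (Pst : ℝ))) =
      R + N + P * ∑ k ∈ Finset.range j, pj m0 Pst s k * t k := by
    have h1 : g1 m0 Pst s u = (∑ k ∈ Finset.range j, pj m0 Pst s k * t k) +
        ∑' k, pj m0 Pst s (k + j) * t (k + j) := (hsg.sum_add_tsum_nat_add j).symm
    have h2 : cd m0 Pst s l = (∑ k ∈ Finset.range j, pj m0 Pst s k * (l k : ℝ)) +
        ∑' k, pj m0 Pst s (k + j) * (l (k + j) : ℝ) := (hsc.sum_add_tsum_nat_add j).symm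
    have h3 : ∑' k, pj m0 Pst s (k + j) * (t (k + j) + l (k + j)) =
        ∑' k, pj m0 Pst s (k + j) * t (k + j) + ∑' k, pj m0 Pst s (k + j) * (l (k + j) : ℝ) := by
      rw [← ((summable_nat_add_iff j).2 hsg).tsum_add ((summable_nat_add_iff j).2 hsc)]
      simp [mul_add]
    rw [hR, h3, ← hN, h1, h2]
    ring
  have hph : ph m0 Pst s j (u, g1 m0 Pst s u + cd m0 Pst s l + i * (1 / (Pst : ℝ))) =
      Complex.exp (((2 * π * R : ℝ) : ℂ) * Complex.I) := by
    unfold ph
    simp only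
    have h1 : ∏ k ∈ Finset.range j, (conj (El m0 s k u)) ^ (Pp m0 Pst s j / Pp m0 Pst s (k + 1)) =
        Complex.exp (((-(2 * π) * (P * ∑ k ∈ Finset.range j, pj m0 Pst s k * t k) : ℝ) : ℂ) *
          Complex.I) := by
      have h2 : ∀ k ∈ Finset.range j,
          (conj (El m0 s k u)) ^ (Pp m0 Pst s j / Pp m0 Pst s (k + 1)) =
          Complex.exp (((-(2 * π) * (P * (pj m0 Pst s k * t k)) : ℝ) : ℂ) * Complex.I) := by
        intro k hk
        rw [El_eq_exp hu k, ← Complex.exp_conj, ← Complex.exp_nat_mul]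
        congr 1
        have h3 := Pp_mul_pj hP hs (l := k) (j := j) (by have := Finset.mem_range.1 hk; omega)
        have h4 : ((Pp m0 Pst s j / Pp m0 Pst s (k + 1) : ℕ) : ℂ) =
            ((P * pj m0 Pst s k : ℝ) : ℂ) := by
          rw [hPdef, h3]
          push_cast
          rfl
        rw [h4]
        simp only [map_mul, Complex.conj_I, Complex.conj_ofReal, map_ofNat]
        push_cast
        ring
      rw [Finset.prod_congr rfl h2, ← Complex.exp_sum]
      congr 1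
      rw [← Finset.sum_mul]
      congr 1
      push_cast
      rw [Finset.mul_sum, Finset.mul_sum]
    rw [h1, ← Complex.exp_add]
    have h5 : (2 * π * (Pp m0 Pst s j : ℂ) *
        ((g1 m0 Pst s u + cd m0 Pst s l + i * (1 / (Pst : ℝ)) : ℝ) : ℂ) * Complex.I) +
        ((-(2 * π) * (P * ∑ k ∈ Finset.range j, pj m0 Pst s k * t k) : ℝ) : ℂ) * Complex.I =
        ((2 * π * R : ℝ) : ℂ) * Complex.I + (N : ℤ) * (2 * π * Complex.I) := by
      have h6 : (2 * π * (Pp m0 Pst s j : ℂ) *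
        ((g1 m0 Pst s u + cd m0 Pst s l + i * (1 / (Pst : ℝ)) : ℝ) : ℂ)) =
        ((2 * π * (R + N + P * ∑ k ∈ Finset.range j, pj m0 Pst s k * t k) : ℝ) : ℂ) := by
        rw [← hz]
        push_cast
        rw [hPdef]
        push_cast
        ring
      rw [h6]
      push_cast
      ring
    rw [h5, Complex.exp_add, Complex.exp_int_mul_two_pi_mul_I, mul_one]
  rw [hph]
  have hRle : |R| ≤ (1 / 2) ^ (j + m0 + 9) := by
    refine le_trans ?_ (tail_pj_NN hP hs j)
    rw [hR, abs_mul, abs_of_pos hP0, ← hPdef]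
    refine mul_le_mul_of_nonneg_left ?_ hP0.le
    have hle : ∀ k, |pj m0 Pst s (k + j) * (t (k + j) + l (k + j))| ≤
        pj m0 Pst s (k + j) * NN m0 (k + j) := by
      intro k
      have hp := pj_pos hP hs (k + j)
      rw [abs_mul, abs_of_pos hp]
      gcongr
      have h1 : |t (k + j)| ≤ 1 / 2 := abs_th1_le _ _ _
      have h2 : (l (k + j) : ℝ) + 1 ≤ NN m0 (k + j) := by exact_mod_cast hl (k + j)
      have h3 : (0 : ℝ) ≤ l (k + j) := Nat.cast_nonneg _
      rw [abs_le] at h1 ⊢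
      constructor <;> linarith
    have hs2 : Summable fun k => pj m0 Pst s (k + j) * NN m0 (k + j) :=
      (summable_nat_add_iff j).2 (summable_pj_NN hP hs)
    have hs3 : Summable fun k => |pj m0 Pst s (k + j) * (t (k + j) + l (k + j))| :=
      Summable.of_nonneg_of_le (fun _ => abs_nonneg _) hle hs2
    calc |∑' k, pj m0 Pst s (k + j) * (t (k + j) + l (k + j))|
        ≤ ∑' k, |pj m0 Pst s (k + j) * (t (k + j) + l (k + j))| := by
          have := norm_tsum_le_tsum_norm (f := fun k => pj m0 Pst s (k + j) *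
            (t (k + j) + l (k + j))) (by simpa [Real.norm_eq_abs] using hs3)
          simpa [Real.norm_eq_abs] using this
      _ ≤ _ := hs3.tsum_le_tsum hle hs2
  have h7 := Real.norm_exp_I_mul_ofReal_sub_one_le (x := 2 * π * R)
  rw [mul_comm] at h7
  refine h7.trans ?_
  rw [Real.norm_eq_abs, abs_mul, abs_of_pos (by positivity : (0 : ℝ) < 2 * π)]
  have h8 : ((1 : ℝ) / 2) ^ (j + m0 + 9) ≤ (1 / 2) ^ j * (1 / 2) ^ 9 := by
    rw [← pow_add]
    exact pow_le_pow_of_le_one (by norm_num) (by norm_num) (by omega)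
  have h9 : (0 : ℝ) < (1 / 2) ^ j := by positivity
  have h10 := Real.pi_lt_four
  calc 2 * π * |R| ≤ 2 * 4 * ((1 / 2) ^ j * (1 / 2) ^ 9) := by
        have := hRle.trans h8
        have h11 : 0 ≤ |R| := abs_nonneg R
        have h12 := Real.pi_pos
        nlinarith
    _ ≤ (1 / 2) ^ j := by
        have : ((1 : ℝ) / 2) ^ 9 = 1 / 512 := by norm_num
        rw [this]
        nlinarith

end Pool.Agent.H28.Lusin
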