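import Pool.Agent.H28.Lusin.MeasH
import Pool.Agent.H28.Lusin.Kset
import Pool.Agent.H28.Lusin.Form

open MeasureTheory Set Real Filter
open scoped ContDiff Topology ENNReal ComplexConjugate

namespace Pool.Agent.H28.Lusin

variable {m0 Pst : ℕ} {s : ℕ → Lev} {n q : ℕ}

/-- The vertical translation exchanging the two copies. -/
noncomputable def shf (hn : q + 2 < n) (p : ℝ) (x : Eu n) : Eu n :=
  x + EuclideanSpace.single (⟨q + 2, hn⟩ : Fin n) p

theorem continuous_shf (hn : q + 2 < n) (p : ℝ) : Continuous (shf hn p) := by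
  unfold shf; fun_prop

theorem qq_shf (hn : q + 2 < n) (p : ℝ) (x : Eu n) :
    qq hn (shf hn p x) = ((qq hn x).1, (qq hn x).2 + p) := by
  unfold shf qq dxx
  ext
  · simp
  · simp
  · simp

/-- The sum of the two copies. -/
noncomputable def muT (m0 Pst : ℕ) (s : ℕ → Lev) (hn : q + 2 < n) : Measure (Eu n) :=
  mu0 m0 Pst s n q + (mu0 m0 Pst s n q).map (shf hn (1 / (Pst : ℝ)))

instance instFinmuT (hn : q + 2 < n) : IsFiniteMeasure (muT m0 Pst s hn) := by
  unfold muT; infer_instance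

theorem ae_muT {hn : q + 2 < n} {T : Set (Eu n)} (hT : MeasurableSet T)
    (h1 : ∀ᵐ x ∂(mu0 m0 Pst s n q), x ∈ T)
    (h2 : ∀ᵐ x ∂(mu0 m0 Pst s n q), shf hn (1 / (Pst : ℝ)) x ∈ T) :
    ∀ᵐ x ∂(muT m0 Pst s hn), x ∈ T := by
  unfold muT
  rw [ae_add_measure_iff]
  exact ⟨h1, (ae_map_iff (continuous_shf hn _).measurable.aemeasurable hT).2 h2⟩

/-- On the support of the measure the phases are close to one. -/
theorem near_muT (hP : 0 < Pst) (hs : ∀ j, Good m0 Pst j s) (hn : q + 2 < n) :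
    ∀ᵐ x ∂(muT m0 Pst s hn), ∀ j, ‖ph m0 Pst s j (qq hn x) - 1‖ ≤ (1 / 2) ^ j := by
  have hT : MeasurableSet {x : Eu n | ∀ j, ‖ph m0 Pst s j (qq hn x) - 1‖ ≤ (1 / 2) ^ j} := by
    have : {x : Eu n | ∀ j, ‖ph m0 Pst s j (qq hn x) - 1‖ ≤ (1 / 2) ^ j}
        = ⋂ j, {x : Eu n | ‖ph m0 Pst s j (qq hn x) - 1‖ ≤ (1 / 2) ^ j} := by
      ext x; simp
    rw [this]
    refine MeasurableSet.iInter fun j => ?_
    have hc : Continuous fun x : Eu n => ‖ph m0 Pst s j (qq hn x) - 1‖ :=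
      (((contDiff_ph j).continuous.comp (qq hn).continuous).sub continuous_const).norm
    exact (isClosed_le hc continuous_const).measurableSet
  refine ae_muT hT ?_ ?_
  · refine ae_mu0 hP hs hT fun u hu r l hl => ?_
    intro j
    rw [qq_Fmap hn]
    have h := ph_near hP hs hu hl 0 j
    simpa using h
  · have hT2 : MeasurableSet {x : Eu n | shf hn (1 / (Pst : ℝ)) x ∈
        {x : Eu n | ∀ j, ‖ph m0 Pst s j (qq hn x) - 1‖ ≤ (1 / 2) ^ j}} :=
      (continuous_shf hn _).measurable hT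
    refine ae_mu0 hP hs hT2 fun u hu r l hl => ?_
    intro j
    rw [qq_shf, qq_Fmap hn]
    have h := ph_near hP hs hu hl 1 j
    simpa using h

theorem integral_muT_fst (hP : 0 < Pst) (hs : ∀ j, Good m0 Pst j s) (hn : q + 2 < n)
    {G : ℝ × ℝ → ℝ} (hG : Measurable G) {B : ℝ} (hB : ∀ u, |G u| ≤ B) :
    ∫ x, G (qq hn x).1 ∂(muT m0 Pst s hn) = 2 * ∫ u in Gs m0 s, G u ∂Tor := by
  have hm : Measurable fun x : Eu n => G (qq hn x).1 :=
    hG.comp (measurable_fst.comp (qq hn).continuous.measurable)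
  unfold muT
  rw [integral_add_measure (integrable_of_bdd hm fun x => hB _)
    (integrable_of_bdd hm fun x => hB _),
    integral_map (continuous_shf hn _).measurable.aemeasurable hm.aestronglyMeasurable]
  have : ∀ x : Eu n, G (qq hn (shf hn (1 / (Pst : ℝ)) x)).1 = G (qq hn x).1 := by
    intro x; rw [qq_shf]
  simp_rw [this]
  rw [integral_mu0_fst hP hs hn hG]
  ring

theorem muT_univ_le (hn : q + 2 < n) : (muT m0 Pst s hn).real univ ≤ 2 := by
  unfold muT
  rw [measureReal_add_apply, measureReal_def ((mu0 m0 Pst s n q).map _),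
    Measure.map_apply (continuous_shf hn _).measurable MeasurableSet.univ, preimage_univ,
    ← measureReal_def]
  linarith [mu0_univ_le (m0 := m0) (Pst := Pst) (s := s) (n := n) (q := q)]

theorem le_bS (i : ℕ) : i ≤ bS m0 (m0 + i) := by
  unfold bS
  have h1 : i < 16 ^ i := Nat.lt_pow_self (by norm_num)
  have h2 : 16 ^ m0 * 16 ^ i = 16 ^ (m0 + i) := (pow_add _ _ _).symm
  have h3 : 1 ≤ 16 ^ m0 := Nat.one_le_pow _ _ (by norm_num)
  rw [← h2]
  have h4 : 16 ^ m0 * (1 + i) ≤ 16 ^ m0 * 16 ^ i := Nat.mul_le_mul_left _ (by omega)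
  have h5 : i ≤ 16 ^ m0 * i := Nat.le_mul_of_pos_left _ h3
  have h6 : 16 ^ m0 * (1 + i) = 16 ^ m0 + 16 ^ m0 * i := by ring
  omega

theorem pow_bS_le (i : ℕ) : ((1 : ℝ) / 2) ^ bS m0 (m0 + i) ≤ (1 / 2) ^ i :=
  pow_le_pow_of_le_one (by norm_num) (by norm_num) (le_bS i)

theorem tendsto_half : Tendsto (fun i : ℕ => ((1 : ℝ) / 2) ^ i) atTop (𝓝 0) :=
  tendsto_pow_atTop_nhds_zero_of_lt_one (by norm_num) (by norm_num)

/-- The component `dx_0 ∧ ... ∧ dx_{q+1}` vanishes on the decomposability bundle of the measure. -/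
theorem bundle_muT (hP : 0 < Pst) (hs : ∀ j, Good m0 Pst j s) (hn : q + 2 < n) (x : Eu n)
    (hx : ∀ r : ℝ, 0 < r → 0 < muT m0 Pst s hn (Metric.ball x r)) (v : KVec n (q + 2))
    (hv : v ∈ Vk (q + 1) (muT m0 Pst s hn) x) : v (dxI hn) = 0 := by
  obtain ⟨CA', hCA'⟩ := exists_Af_bound hP hs
  obtain ⟨CF, hCF⟩ := exists_Ff_bound hP hs
  obtain ⟨CN, hCN⟩ := exists_Ff_near hP hs
  obtain ⟨CM, hCM⟩ := exists_Mn_bound m0
  obtain ⟨CL, hCL⟩ := exists_Mn_L1 hs
  set μ := muT m0 Pst s hn with hμ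
  have hea : ‖((1 : ℝ), (0 : ℝ))‖ ≤ 1 := by simp [Prod.norm_def]
  have heb : ‖((0 : ℝ), (1 : ℝ))‖ ≤ 1 := by simp [Prod.norm_def]
  have he1 : ‖(((1 : ℝ), (0 : ℝ)), (0 : ℝ))‖ ≤ 1 := by simp [Prod.norm_def]
  have he2 : ‖(((0 : ℝ), (1 : ℝ)), (0 : ℝ))‖ ≤ 1 := by simp [Prod.norm_def]
  have he3 : ‖(((0 : ℝ), (0 : ℝ)), (1 : ℝ))‖ ≤ 1 := by simp [Prod.norm_def]
  have hzero : ∀ (a b : ℕ) (p f : (ℝ × ℝ) × ℝ),
      fderiv ℝ (Af m0 Pst s a b (0, 0)) p f = 0 := by
    intro a b p f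
    have : Af m0 Pst s a b ((0 : ℝ), (0 : ℝ)) = 0 := Af_zero a b
    rw [this]
    simp
  have hF1 : ∀ (a b : ℕ) (p : (ℝ × ℝ) × ℝ),
      fderiv ℝ (Af m0 Pst s a b (0, 1)) p ((1, 0), 0)
        - fderiv ℝ (Af m0 Pst s a b (1, 0)) p ((0, 1), 0)
        = Ff m0 Pst s a b ((1, 0), 0) ((0, 1), 0) p := fun a b p => rfl
  have hF2 : ∀ (a b : ℕ) (p : (ℝ × ℝ) × ℝ),
      fderiv ℝ (Af m0 Pst s a b (1, 0)) p ((0, 0), 1)
        = Ff m0 Pst s a b ((0, 0), 1) ((1, 0), 0) p := by
    intro a b p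
    show _ = fderiv ℝ (Af m0 Pst s a b (1, 0)) p ((0, 0), 1)
      - fderiv ℝ (Af m0 Pst s a b (0, 0)) p ((1, 0), 0)
    rw [hzero, sub_zero]
  have hF3 : ∀ (a b : ℕ) (p : (ℝ × ℝ) × ℝ),
      fderiv ℝ (Af m0 Pst s a b (0, 1)) p ((0, 0), 1)
        = Ff m0 Pst s a b ((0, 0), 1) ((0, 1), 0) p := by
    intro a b p
    show _ = fderiv ℝ (Af m0 Pst s a b (0, 1)) p ((0, 0), 1)
      - fderiv ℝ (Af m0 Pst s a b (0, 0)) p ((0, 1), 0)
    rw [hzero, sub_zero]
  -- nonnegativity of the constants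
  have hCA0 : 0 ≤ CA' := by
    have := hCA' 0 0 0 0 (by simp)
    have h2 := (abs_nonneg _).trans this
    simpa using h2
  have hCN0 : 0 ≤ CN := by
    -- from a point of the support
    by_contra hneg
    push Not at hneg
    have hne : μ ≠ 0 := by
      intro h0
      have := hx 1 one_pos
      rw [h0] at this
      simp at this
    have hnear := near_muT hP hs hn
    obtain ⟨y, hy⟩ : ∃ y : Eu n, ∀ j, ‖ph m0 Pst s j (qq hn y) - 1‖ ≤ (1 / 2) ^ j := by
      have : NeBot (ae μ) := ae_neBot.2 hne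
      exact hnear.exists
    have := hCN m0 le_rfl ((1, 0), 0) ((0, 1), 0) (qq hn y) he1 he2 hy
    have h2 := (abs_nonneg _).trans this
    have h3 : (0 : ℝ) < (1 / 2) ^ bS m0 m0 := by positivity
    nlinarith
  have hCL0 : 0 ≤ CL := by
    have h1 := hCL m0 le_rfl
    have h2 : 0 ≤ ∫ u in Gs m0 s, |Mn m0 s (bS m0 m0) (bS m0 (m0 + 1)) u - 15 * cbar| ∂Tor :=
      integral_nonneg fun u => abs_nonneg _
    have h3 : (0 : ℝ) < (1 / 2) ^ m0 := by positivity
    by_contra hneg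
    push Not at hneg
    nlinarith
  have hμ2 : μ.real univ ≤ 2 := muT_univ_le hn
  have hnear := near_muT (m0 := m0) (Pst := Pst) (s := s) hP hs hn
  have hFc : ∀ (i : ℕ) (e f : (ℝ × ℝ) × ℝ), Continuous fun x : Eu n =>
      Ff m0 Pst s (bS m0 (m0 + i)) (bS m0 (m0 + i + 1)) e f (qq hn x) := by
    intro i e f
    unfold Ff
    have h1 := ((contDiff_Af (m0 := m0) (Pst := Pst) (s := s) (bS m0 (m0 + i))
      (bS m0 (m0 + i + 1)) f.1).continuous_fderiv (by norm_num))
    have h2 := ((contDiff_Af (m0 := m0) (Pst := Pst) (s := s) (bS m0 (m0 + i))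
      (bS m0 (m0 + i + 1)) e.1).continuous_fderiv (by norm_num))
    exact ((h1.comp (qq hn).continuous).clm_apply continuous_const).sub
      ((h2.comp (qq hn).continuous).clm_apply continuous_const)
  -- vertical components tend to zero
  have hvert : ∀ f : (ℝ × ℝ) × ℝ, ‖f‖ ≤ 1 → Tendsto (fun i : ℕ => ∫ x,
      |Ff m0 Pst s (bS m0 (m0 + i)) (bS m0 (m0 + i + 1)) ((0, 0), 1) f (qq hn x)| ∂μ)
      atTop (𝓝 0) := by
    intro f hf
    refine squeeze_zero (g := fun i : ℕ => CN * (1 / 2) ^ i * 2)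
      (fun i => integral_nonneg fun x => abs_nonneg _) (fun i => ?_) ?_
    · have hb : ∀ᵐ x ∂μ, |Ff m0 Pst s (bS m0 (m0 + i)) (bS m0 (m0 + i + 1)) ((0, 0), 1) f
          (qq hn x)| ≤ CN * (1 / 2) ^ i := by
        filter_upwards [hnear] with x hx
        have h1 := hCN (m0 + i) (Nat.le_add_right _ _) ((0, 0), 1) f (qq hn x) he3 hf hx
        simp only [zero_mul, sub_self, mul_zero, sub_zero] at h1
        refine h1.trans ?_
        have := pow_bS_le (m0 := m0) i
        gcongr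
      have hint : Integrable (fun x => |Ff m0 Pst s (bS m0 (m0 + i)) (bS m0 (m0 + i + 1))
          ((0, 0), 1) f (qq hn x)|) μ :=
        (integrable_of_bdd (hFc i _ _).measurable (C := CF) fun x =>
          hCF (m0 + i) (Nat.le_add_right _ _) _ _ _ he3 hf).abs
      calc _ ≤ ∫ _, CN * (1 / 2) ^ i ∂μ := integral_mono_ae hint (integrable_const _) hb
        _ = μ.real univ * (CN * (1 / 2) ^ i) := by
            rw [integral_const, smul_eq_mul]
        _ ≤ 2 * (CN * (1 / 2) ^ i) := by gcongr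
        _ = _ := by ring
    · have := (tendsto_half.const_mul CN).mul_const 2
      simpa using this
  have hcbar : (15 : ℝ) * cbar ≠ 0 := by
    have := cbar_pos
    positivity
  refine bfin hn μ (fun i => Af m0 Pst s (bS m0 (m0 + i)) (bS m0 (m0 + i + 1)) (1, 0))
    (fun i => Af m0 Pst s (bS m0 (m0 + i)) (bS m0 (m0 + i + 1)) (0, 1))
    (fun i => contDiff_Af _ _ _) (fun i => contDiff_Af _ _ _)
    (fun i => CA' * (1 / 2) ^ i) ?_ ?_ ?_ CF ?_ ?_ ?_ (15 * cbar) hcbar ?_ ?_ ?_ x hx v hv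
  · have := tendsto_half.const_mul CA'
    simpa using this
  · intro i p
    refine (hCA' _ _ _ _ hea).trans ?_
    have := pow_bS_le (m0 := m0) i
    gcongr
  · intro i p
    refine (hCA' _ _ _ _ heb).trans ?_
    have := pow_bS_le (m0 := m0) i
    gcongr
  · intro i p
    rw [hF1]
    exact hCF (m0 + i) (Nat.le_add_right _ _) _ _ _ he1 he2
  · intro i p
    rw [hF2]
    exact hCF (m0 + i) (Nat.le_add_right _ _) _ _ _ he3 he1
  · intro i p
    rw [hF3]
    exact hCF (m0 + i) (Nat.le_add_right _ _) _ _ _ he3 he2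
  · refine squeeze_zero (g := fun i : ℕ => CN * (1 / 2) ^ i * 2 + 2 * (CL * (1 / 2) ^ i))
      (fun i => integral_nonneg fun x => abs_nonneg _) (fun i => ?_) ?_
    · simp only [hF1]
      set mi := m0 + i with hmi
      have hle : m0 ≤ mi := Nat.le_add_right _ _
      have hMm : Measurable fun u => |Mn m0 s (bS m0 mi) (bS m0 (mi + 1)) u - 15 * cbar| :=
        ((measurable_Mn _ _).sub_const _).abs
      have hMb : ∀ u, |(|Mn m0 s (bS m0 mi) (bS m0 (mi + 1)) u - 15 * cbar|)|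
          ≤ CM + |15 * cbar| := by
        intro u
        rw [abs_abs]
        exact (abs_sub _ _).trans (by gcongr; exact hCM s mi hle u)
      have hI1 : Integrable (fun x => |Ff m0 Pst s (bS m0 mi) (bS m0 (mi + 1)) ((1, 0), 0)
          ((0, 1), 0) (qq hn x) - 15 * cbar|) μ := by
        refine Integrable.abs ?_
        exact (integrable_of_bdd (hFc i _ _).measurable (C := CF) fun x =>
          hCF (m0 + i) (Nat.le_add_right _ _) _ _ _ he1 he2).sub (integrable_const _)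
      have hI2 : Integrable (fun x : Eu n =>
          |Mn m0 s (bS m0 mi) (bS m0 (mi + 1)) (qq hn x).1 - 15 * cbar|) μ :=
        integrable_of_bdd (hMm.comp (measurable_fst.comp (qq hn).continuous.measurable))
          fun x => hMb _
      have hb : ∀ᵐ x ∂μ, |Ff m0 Pst s (bS m0 mi) (bS m0 (mi + 1)) ((1, 0), 0) ((0, 1), 0)
          (qq hn x) - 15 * cbar| ≤ CN * (1 / 2) ^ i
            + |Mn m0 s (bS m0 mi) (bS m0 (mi + 1)) (qq hn x).1 - 15 * cbar| := by
        filter_upwards [hnear] with x hx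
        have h1 := hCN mi hle ((1, 0), 0) ((0, 1), 0) (qq hn x) he1 he2 hx
        simp only [mul_one, mul_zero, sub_zero] at h1
        have h2 : CN * (1 / 2) ^ bS m0 mi ≤ CN * (1 / 2) ^ i := by
          have := pow_bS_le (m0 := m0) i
          gcongr
        have h3 := abs_add_le
          (Ff m0 Pst s (bS m0 mi) (bS m0 (mi + 1)) ((1, 0), 0) ((0, 1), 0) (qq hn x)
            - Mn m0 s (bS m0 mi) (bS m0 (mi + 1)) (qq hn x).1)
          (Mn m0 s (bS m0 mi) (bS m0 (mi + 1)) (qq hn x).1 - 15 * cbar)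
        rw [sub_add_sub_cancel] at h3
        linarith
      have hfst := integral_muT_fst (m0 := m0) (Pst := Pst) (s := s) hP hs hn hMm hMb
      have hL := hCL mi hle
      have hpow : ((1 : ℝ) / 2) ^ mi ≤ (1 / 2) ^ i :=
        pow_le_pow_of_le_one (by norm_num) (by norm_num) (by omega)
      calc _ ≤ ∫ x, (CN * (1 / 2) ^ i
            + |Mn m0 s (bS m0 mi) (bS m0 (mi + 1)) (qq hn x).1 - 15 * cbar|) ∂μ :=
            integral_mono_ae hI1 ((integrable_const _).add hI2) hb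
        _ = μ.real univ * (CN * (1 / 2) ^ i) + 2 * ∫ u in Gs m0 s,
            |Mn m0 s (bS m0 mi) (bS m0 (mi + 1)) u - 15 * cbar| ∂Tor := by
            rw [integral_add (integrable_const _) hI2, integral_const, smul_eq_mul, hμ, hfst]
        _ ≤ 2 * (CN * (1 / 2) ^ i) + 2 * (CL * (1 / 2) ^ i) := by
            gcongr
            exact hL.trans (by gcongr)
        _ = _ := by ring
    · have h1 := (tendsto_half.const_mul CN).mul_const 2
      have h2 := (tendsto_half.const_mul CL).const_mul 2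
      simpa using h1.add h2
  · simp only [hF2]
    exact hvert _ he1
  · simp only [hF3]
    exact hvert _ he2

theorem norm_dxI_le (hn : q + 2 < n) : ‖(dxI hn : Cov n (q + 2))‖ ≤ ((q + 2).factorial : ℝ) :=
  norm_wedgeC_le (k := q + 2) fun i => (⟨i, by omega⟩ : Fin n)

/-- The Lusin property fails for `k = q + 2 < n`. -/
theorem not_lusin (hn : q + 2 < n) : ¬ LusinProperty n (q + 1) := by
  rintro ⟨C, hC⟩
  set B : ℝ := ((q + 2).factorial : ℝ) with hB
  have hB0 : 0 ≤ B := by positivity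
  set C' : ℝ := max C 0 * B with hC'
  have hC'0 : 0 ≤ C' := by positivity
  obtain ⟨δ0, hδ0, p0, hp0, ε0, hε0, hA⟩ := afin hn C' hC'0
  -- choice of m0
  have hlim1 : Tendsto (fun m : ℕ => CA * (1 / 2) ^ m) atTop (𝓝 0) := by
    have := tendsto_half.const_mul CA
    simpa using this
  have hlim2 : Tendsto (fun m : ℕ => 66 * Cg * (1 / 8 : ℝ) ^ m) atTop (𝓝 0) := by
    have := (tendsto_pow_atTop_nhds_zero_of_lt_one (r := (1 / 8 : ℝ)) (by norm_num)
      (by norm_num)).const_mul (66 * Cg)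
    simpa using this
  obtain ⟨m0, hm1, hm2⟩ := ((hlim1.eventually (gt_mem_nhds hδ0)).and
    (hlim2.eventually (gt_mem_nhds (by norm_num : (0 : ℝ) < 1 / 8)))).exists
  obtain ⟨k, hk⟩ := exists_nat_gt (1 / p0)
  set Pst : ℕ := k + 1 with hPst
  have hP : 0 < Pst := Nat.succ_pos k
  have hPp : 1 / (Pst : ℝ) ≤ p0 := by
    rw [div_le_comm₀ (by positivity) hp0]
    rw [hPst]
    push_cast
    linarith
  obtain ⟨s, hs⟩ := exists_levels m0 hP
  set μ := muT m0 Pst s hn with hμ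
  set α : Eu n → Cov n (q + 2) := fun x =>
    (if x (⟨q + 2, hn⟩ : Fin n) < (1 / (Pst : ℝ)) / 2 then (1 : ℝ) else -1) • dxI hn with hα
  have hαn : ∀ x, ‖α x‖ ≤ B := by
    intro x
    rw [hα]
    simp only
    rw [norm_smul]
    have h1 : ‖(if x (⟨q + 2, hn⟩ : Fin n) < (1 / (Pst : ℝ)) / 2 then (1 : ℝ) else -1)‖ = 1 := by
      split_ifs <;> simp
    rw [h1, one_mul]
    exact norm_dxI_le hn
  have hαm : ∀ v : Fin (q + 1 + 1) → Eu n, Measurable fun x => α x v := by
    intro v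
    have h1 : (fun x => α x v) = fun x : Eu n =>
        (if x (⟨q + 2, hn⟩ : Fin n) < (1 / (Pst : ℝ)) / 2 then (1 : ℝ) else -1) * dxI hn v := by
      funext x; rfl
    rw [h1]
    refine Measurable.mul_const (Measurable.ite ?_ measurable_const measurable_const) _
    have hc : Continuous fun x : Eu n => x (⟨q + 2, hn⟩ : Fin n) := by fun_prop
    exact (isOpen_lt hc continuous_const).measurableSet
  have hess : eLpNormEssSup α (μ.restrict univ) ≤ ENNReal.ofReal B :=
    eLpNormEssSup_le_of_ae_bound (Filter.Eventually.of_forall hαn)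
  have hbundle : ∀ᵐ x ∂(μ.restrict univ), ∀ τ ∈ Vk (q + 1) μ x, τ (α x) = 0 := by
    rw [Measure.restrict_univ]
    have hsupp : μ.support ∈ ae μ := Measure.support_mem_ae
    filter_upwards [hsupp] with x hx τ hτ
    have hx' : ∀ r : ℝ, 0 < r → 0 < μ (Metric.ball x r) := fun r hr =>
      (Measure.mem_support_iff_forall x).1 hx _ (Metric.ball_mem_nhds x hr)
    have h0 := bundle_muT hP hs hn x hx' τ hτ
    rw [hα]
    simp only
    rw [map_smul, h0, smul_zero]
  obtain ⟨φ, K, hφ, -, hKc, hKμ, hKd, hKL⟩ := hC μ univ isOpen_univ (measure_lt_top _ _) α hαm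
    hbundle ε0 hε0
  refine hA (mu0 m0 Pst s n q) (1 / (Pst : ℝ)) (by positivity) hPp ?_ mu0_univ_le ?_ ?_ φ K
    (contDiffOn_univ.1 hφ) hKc.isClosed ?_ hKd ?_
  · intro Ψ L hL hΨ hlip hvan r hr
    refine (hypA_mu0 hP hs hn Ψ L hL hΨ hlip hvan r hr).trans ?_
    gcongr
  · have hT : MeasurableSet {x : Eu n | |x (⟨q + 2, hn⟩ : Fin n)| ≤ (1 / (Pst : ℝ)) / 4} := by
      have hc : Continuous fun x : Eu n => |x (⟨q + 2, hn⟩ : Fin n)| := by fun_prop
      exact (isClosed_le hc continuous_const).measurableSet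
    refine ae_mu0 hP hs hT fun u hu r l hl => ?_
    have h1 := qq_Fmap (m0 := m0) (Pst := Pst) (s := s) hn (u, r, l)
    have h2 : (Fmap m0 Pst s n q (u, r, l)) (⟨q + 2, hn⟩ : Fin n)
        = g1 m0 Pst s u + cd m0 Pst s l := congrArg Prod.snd h1
    show |(Fmap m0 Pst s n q (u, r, l)) (⟨q + 2, hn⟩ : Fin n)| ≤ (1 / (Pst : ℝ)) / 4
    rw [h2]
    refine (abs_g1_add_cd_le hP hs u hl).trans (le_of_eq ?_)
    ring
  · refine le_trans ?_ (le_mu0_cube (m0 := m0) (Pst := Pst) (s := s) hP hs hn)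
    gcongr
    linarith
  · have h1 : (univ \ K : Set (Eu n)) = Kᶜ := by rw [compl_eq_univ_sdiff]
    rw [h1] at hKμ
    have h2 : μ Kᶜ = (mu0 m0 Pst s n q + (mu0 m0 Pst s n q).map
      fun x => x + EuclideanSpace.single (⟨q + 2, hn⟩ : Fin n) (1 / (Pst : ℝ))) Kᶜ := rfl
    rw [h2] at hKμ
    rw [measureReal_def]
    exact (ENNReal.toReal_lt_of_lt_ofReal hKμ)
  · intro I x y
    have h1 := hKL I x (mem_univ x) y (mem_univ y)
    have h2 : edist (φ x fun i => EuclideanSpace.single (I i) (1 : ℝ))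
            (φ y fun i => EuclideanSpace.single (I i) (1 : ℝ))
          ≤ ENNReal.ofReal (max C 0) * ENNReal.ofReal B * edist x y := by
      refine h1.trans ?_
      gcongr
      exact le_max_left _ _
    rw [edist_dist, edist_dist, ← ENNReal.ofReal_mul (by positivity),
      ← ENNReal.ofReal_mul (by positivity)] at h2
    have h3 := (ENNReal.ofReal_le_ofReal_iff (by positivity)).1 h2
    rw [Real.dist_eq, dist_eq_norm] at h3
    exact h3

end Pool.Agent.H28.Lusin
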