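import Pool.Agent.H28.Lusin.Phase
import Pool.Agent.H28.Lusin.Blocks

open MeasureTheory Set Real Filter
open scoped ContDiff Topology ENNReal ComplexConjugate

namespace Pool.Agent.H28.Lusin

variable {m0 Pst : ℕ} {s : ℕ → Lev}

/-! ### Smoothness -/

theorem contDiff_Cc (j : ℕ) : ContDiff ℝ ∞ (Cc m0 Pst s j) :=
  Complex.reCLM.contDiff.comp (contDiff_ph j)

theorem contDiff_im (j : ℕ) : ContDiff ℝ ∞ fun p => (ph m0 Pst s j p).im :=
  Complex.imCLM.contDiff.comp (contDiff_ph j)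

theorem contDiff_Rr (j : ℕ) : ContDiff ℝ ∞ (Rr m0 Pst s j) := (contDiff_im j).div_const _

theorem contDiff_mm (j : ℕ) : ContDiff ℝ ∞ (mm m0 Pst s j) :=
  (contDiff_const.add (contDiff_Cc j)).div_const _

theorem contDiff_Mq (a j : ℕ) : ContDiff ℝ ∞ (Mq m0 Pst s a j) := by
  unfold Mq
  exact contDiff_prod fun i _ => contDiff_mm i

theorem contDiff_fc : ContDiff ℝ ∞ fc := by
  unfold fc
  exact Real.contDiff_cos.comp (contDiff_const.mul contDiff_id)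

theorem contDiff_X (ℓ : Lev) : ContDiff ℝ ∞ ℓ.X := by
  unfold Lev.X
  exact (contDiff_const.mul contDiff_fst).add contDiff_const

theorem contDiff_Y (ℓ : Lev) : ContDiff ℝ ∞ ℓ.Y := by
  unfold Lev.Y
  exact (contDiff_const.mul contDiff_snd).add contDiff_const

theorem contDiff_ka (j : ℕ) : ContDiff ℝ ∞ (ka s j) := by
  unfold ka
  refine ContDiff.div_const ?_ _
  exact (contDiff_lam (n := ⊤)).comp ((contDiff_fc.comp (contDiff_X (s j))).mul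
    (contDiff_fc.comp (contDiff_Y (s j))))

theorem contDiff_cutka (j : ℕ) : ContDiff ℝ ∞ fun u => cut m0 s j u * ka s j u :=
  (contDiff_cut m0 s j).mul (contDiff_ka j)

theorem contDiff_fderiv_fst {φ : ℝ × ℝ → ℝ} (hφ : ContDiff ℝ ∞ φ) (f : ℝ × ℝ) :
    ContDiff ℝ ∞ fun p : (ℝ × ℝ) × ℝ => fderiv ℝ φ p.1 f := by
  have h1 : ContDiff ℝ ∞ (fderiv ℝ φ) := hφ.fderiv_right (m := ∞) (by norm_num)
  exact (h1.comp contDiff_fst).clm_apply contDiff_const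

theorem contDiff_cut_fst (j : ℕ) : ContDiff ℝ ∞ fun p : (ℝ × ℝ) × ℝ => cut m0 s j p.1 :=
  (contDiff_cut m0 s j).comp contDiff_fst

/-- First coefficient of the level `j`. -/
noncomputable def aj (m0 Pst : ℕ) (s : ℕ → Lev) (a j : ℕ) (p : (ℝ × ℝ) × ℝ) : ℝ :=
  Mq m0 Pst s a (j + 1) p * Rr m0 Pst s j p

/-- Second coefficient of the level `j`. -/
noncomputable def bj (m0 Pst : ℕ) (s : ℕ → Lev) (a j : ℕ) (p : (ℝ × ℝ) × ℝ) : ℝ :=
  Mq m0 Pst s a (j + 1) p * Rr m0 Pst s (j + 1) p * cut m0 s j p.1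

theorem contDiff_aj (a j : ℕ) : ContDiff ℝ ∞ (aj m0 Pst s a j) :=
  (contDiff_Mq a (j + 1)).mul (contDiff_Rr j)

theorem contDiff_bj (a j : ℕ) : ContDiff ℝ ∞ (bj m0 Pst s a j) :=
  ((contDiff_Mq a (j + 1)).mul (contDiff_Rr (j + 1))).mul (contDiff_cut_fst j)

theorem Af_eq (a b : ℕ) (f : ℝ × ℝ) : Af m0 Pst s a b f = fun p => ∑ j ∈ Finset.Ico a b,
    (aj m0 Pst s a j p * fderiv ℝ (fun u => cut m0 s j u * ka s j u) p.1 f
      - bj m0 Pst s a j p * fderiv ℝ (ka s j) p.1 f) := rfl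

theorem contDiff_Af (a b : ℕ) (f : ℝ × ℝ) : ContDiff ℝ ∞ (Af m0 Pst s a b f) := by
  rw [Af_eq]
  refine ContDiff.sum fun j _ => ?_
  exact ((contDiff_aj a j).mul (contDiff_fderiv_fst (contDiff_cutka j) f)).sub
    ((contDiff_bj a j).mul (contDiff_fderiv_fst (contDiff_ka j) f))

theorem Af_zero (a b : ℕ) : Af m0 Pst s a b 0 = 0 := by
  funext p
  simp [Af]

/-! ### Exterior derivative of `a dφ` -/

/-- `d(a dφ)(e,f) = (da ∧ dφ)(e,f)`. -/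
theorem d_mul_fderiv {a : (ℝ × ℝ) × ℝ → ℝ} {φ : ℝ × ℝ → ℝ} (ha : ContDiff ℝ ∞ a)
    (hφ : ContDiff ℝ ∞ φ) (e f p : (ℝ × ℝ) × ℝ) :
    fderiv ℝ (fun p => a p * fderiv ℝ φ p.1 f.1) p e
      - fderiv ℝ (fun p => a p * fderiv ℝ φ p.1 e.1) p f
      = fderiv ℝ a p e * fderiv ℝ φ p.1 f.1 - fderiv ℝ a p f * fderiv ℝ φ p.1 e.1 := by
  have had : DifferentiableAt ℝ a p := ha.differentiable (by norm_num) p
  have hφd : ∀ g : ℝ × ℝ, DifferentiableAt ℝ (fun p : (ℝ × ℝ) × ℝ => fderiv ℝ φ p.1 g) p :=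
    fun g => (contDiff_fderiv_fst hφ g).differentiable (by norm_num) p
  have h2 : DifferentiableAt ℝ (fderiv ℝ φ) p.1 :=
    (hφ.fderiv_right (m := ∞) (by norm_num)).differentiable (by norm_num) p.1
  have h3 : ∀ (g : ℝ × ℝ) (e : (ℝ × ℝ) × ℝ),
      fderiv ℝ (fun p : (ℝ × ℝ) × ℝ => fderiv ℝ φ p.1 g) p e
        = (fderiv ℝ (fderiv ℝ φ) p.1 e.1) g := by
    intro g e
    have h4 : HasFDerivAt (fun p : (ℝ × ℝ) × ℝ => fderiv ℝ φ p.1)
        ((fderiv ℝ (fderiv ℝ φ) p.1).comp (ContinuousLinearMap.fst ℝ (ℝ × ℝ) ℝ)) p :=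
      h2.hasFDerivAt.comp p hasFDerivAt_fst
    have h5 := h4.clm_apply (hasFDerivAt_const g p)
    rw [h5.fderiv]
    simp
  have hsym : ∀ g g' : ℝ × ℝ, (fderiv ℝ (fderiv ℝ φ) p.1 g) g'
      = (fderiv ℝ (fderiv ℝ φ) p.1 g') g := by
    have : IsSymmSndFDerivAt ℝ φ p.1 := by
      apply (hφ.contDiffAt (x := p.1)).isSymmSndFDerivAt
      simp only [minSmoothness_of_isRCLikeNormedField]
      show ((2 : ℕ∞) : WithTop ℕ∞) ≤ ((⊤ : ℕ∞) : WithTop ℕ∞)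
      exact WithTop.coe_le_coe.2 le_top
    exact fun g g' => this.eq g g'
  rw [fderiv_fun_mul had (hφd f.1), fderiv_fun_mul had (hφd e.1)]
  simp only [_root_.add_apply, _root_.smul_apply, smul_eq_mul, h3]
  rw [hsym f.1 e.1]
  ring

/-- The contribution of one level to the two-form. -/
noncomputable def Tj (m0 Pst : ℕ) (s : ℕ → Lev) (a j : ℕ) (e f p : (ℝ × ℝ) × ℝ) : ℝ :=
  fderiv ℝ (aj m0 Pst s a j) p e * fderiv ℝ (fun u => cut m0 s j u * ka s j u) p.1 f.1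
    - fderiv ℝ (aj m0 Pst s a j) p f * fderiv ℝ (fun u => cut m0 s j u * ka s j u) p.1 e.1
    - (fderiv ℝ (bj m0 Pst s a j) p e * fderiv ℝ (ka s j) p.1 f.1
      - fderiv ℝ (bj m0 Pst s a j) p f * fderiv ℝ (ka s j) p.1 e.1)

theorem Ff_eq_sum (a b : ℕ) (e f p : (ℝ × ℝ) × ℝ) :
    Ff m0 Pst s a b e f p = ∑ j ∈ Finset.Ico a b, Tj m0 Pst s a j e f p := by
  have hd1 : ∀ (j : ℕ) (g : ℝ × ℝ), DifferentiableAt ℝ (fun p : (ℝ × ℝ) × ℝ =>
      aj m0 Pst s a j p * fderiv ℝ (fun u => cut m0 s j u * ka s j u) p.1 g) p := fun j g =>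
    ((contDiff_aj a j).mul (contDiff_fderiv_fst (contDiff_cutka j) g)).differentiable
      (by norm_num) p
  have hd2 : ∀ (j : ℕ) (g : ℝ × ℝ), DifferentiableAt ℝ (fun p : (ℝ × ℝ) × ℝ =>
      bj m0 Pst s a j p * fderiv ℝ (ka s j) p.1 g) p := fun j g =>
    ((contDiff_bj a j).mul (contDiff_fderiv_fst (contDiff_ka j) g)).differentiable
      (by norm_num) p
  have hA : ∀ (g : ℝ × ℝ) (v : (ℝ × ℝ) × ℝ), fderiv ℝ (Af m0 Pst s a b g) p v
      = ∑ j ∈ Finset.Ico a b, (fderiv ℝ (fun p : (ℝ × ℝ) × ℝ =>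
        aj m0 Pst s a j p * fderiv ℝ (fun u => cut m0 s j u * ka s j u) p.1 g) p v
        - fderiv ℝ (fun p : (ℝ × ℝ) × ℝ => bj m0 Pst s a j p * fderiv ℝ (ka s j) p.1 g) p v) := by
    intro g v
    rw [Af_eq, fderiv_fun_sum fun j _ => (hd1 j g).fun_sub (hd2 j g)]
    rw [_root_.sum_apply]
    apply Finset.sum_congr rfl
    intro j _
    rw [fderiv_fun_sub (hd1 j g) (hd2 j g)]
    rfl
  unfold Ff
  rw [hA, hA, ← Finset.sum_sub_distrib]
  apply Finset.sum_congr rfl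
  intro j _
  have e1 := d_mul_fderiv (contDiff_aj (m0 := m0) (Pst := Pst) (s := s) a j)
    (contDiff_cutka (m0 := m0) (s := s) j) e f p
  have e2 := d_mul_fderiv (contDiff_bj (m0 := m0) (Pst := Pst) (s := s) a j)
    (contDiff_ka (s := s) j) e f p
  unfold Tj
  rw [← e1, ← e2]
  ring

end Pool.Agent.H28.Lusin
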