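import Pool.Agent.H28.Lusin.FormA

open MeasureTheory Set Real Filter
open scoped ContDiff Topology ENNReal ComplexConjugate

namespace Pool.Agent.H28.Lusin

variable {m0 Pst : ℕ} {s : ℕ → Lev}

/-- The levels below `j` are regular at `u`. -/
def Reg (m0 : ℕ) (s : ℕ → Lev) (j : ℕ) (u : ℝ × ℝ) : Prop :=
  ∀ l < j, (ep m0 l / 2) ^ 2 < (s l).sq u

theorem Reg.mono {i j : ℕ} {u : ℝ × ℝ} (h : Reg m0 s j u) (hij : i ≤ j) : Reg m0 s i u :=
  fun l hl => h l (lt_of_lt_of_le hl hij)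

theorem fderiv_Cc (hP : 0 < Pst) (hs : ∀ j, Good m0 Pst j s) {j : ℕ} {p : (ℝ × ℝ) × ℝ}
    (h : Reg m0 s j p.1) (e : (ℝ × ℝ) × ℝ) :
    fderiv ℝ (Cc m0 Pst s j) p e
      = -(2 * π * Pp m0 Pst s j * (ph m0 Pst s j p).im) * Tt m0 s j e p.1 := by
  have hd : DifferentiableAt ℝ (ph m0 Pst s j) p := (contDiff_ph j).differentiable (by norm_num) p
  have h1 := (Complex.reCLM.hasFDerivAt.comp p hd.hasFDerivAt).fderiv
  have h2 : fderiv ℝ (Cc m0 Pst s j) p e = (fderiv ℝ (ph m0 Pst s j) p e).re := by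
    show fderiv ℝ (Complex.reCLM ∘ ph m0 Pst s j) p e = _
    rw [h1]; rfl
  rw [h2, fderiv_ph hP hs h e]
  simp
  ring

theorem fderiv_Rr (hP : 0 < Pst) (hs : ∀ j, Good m0 Pst j s) {j : ℕ} {p : (ℝ × ℝ) × ℝ}
    (h : Reg m0 s j p.1) (e : (ℝ × ℝ) × ℝ) :
    fderiv ℝ (Rr m0 Pst s j) p e = Cc m0 Pst s j p * Tt m0 s j e p.1 := by
  have hd : DifferentiableAt ℝ (ph m0 Pst s j) p := (contDiff_ph j).differentiable (by norm_num) p
  have h1 := (Complex.imCLM.hasFDerivAt.comp p hd.hasFDerivAt)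
  have h2 : fderiv ℝ (Rr m0 Pst s j) p e
      = (2 * π * Pp m0 Pst s j)⁻¹ * (fderiv ℝ (ph m0 Pst s j) p e).im := by
    have h3 : Rr m0 Pst s j = fun p => (2 * π * Pp m0 Pst s j)⁻¹ *
        (Complex.imCLM ∘ ph m0 Pst s j) p := by
      funext p
      show (ph m0 Pst s j p).im / (2 * π * Pp m0 Pst s j) = (2 * π * Pp m0 Pst s j)⁻¹ *
        (ph m0 Pst s j p).im
      rw [div_eq_inv_mul]
    rw [h3, (h1.const_mul _).fderiv]
    rfl
  have hp : (Pp m0 Pst s j : ℝ) ≠ 0 := by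
    have := Pp_pos' hP hs j
    positivity
  have hpi : π ≠ 0 := Real.pi_ne_zero
  rw [h2, fderiv_ph hP hs h e]
  unfold Cc
  simp
  field_simp

theorem abs_thX_le_of {c X Y : ℝ} (hc : 0 < c) (h : (c / 2) ^ 2 < fa X ^ 2 + fa Y ^ 2) :
    |thX X Y| ≤ 2 / c := by
  have hq : 0 < fa X ^ 2 + fa Y ^ 2 := lt_of_le_of_lt (by positivity) h
  apply abs_le_of_sq_le_sq _ (by positivity)
  unfold thX
  rw [neg_div, neg_sq, div_pow, div_pow, div_le_div_iff₀ (by positivity) (by positivity)]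
  have h1 : (fa Y * fc X) ^ 2 ≤ fa X ^ 2 + fa Y ^ 2 := by
    have : fc X ^ 2 ≤ 1 := by nlinarith [fa_sq_add X, sq_nonneg (fa X)]
    calc (fa Y * fc X) ^ 2 = fa Y ^ 2 * fc X ^ 2 := by ring
      _ ≤ fa Y ^ 2 * 1 := by gcongr
      _ ≤ _ := by nlinarith [sq_nonneg (fa X)]
  have h2 : c ^ 2 ≤ 4 * (fa X ^ 2 + fa Y ^ 2) := by nlinarith
  calc (fa Y * fc X) ^ 2 * c ^ 2
      ≤ (fa X ^ 2 + fa Y ^ 2) * (4 * (fa X ^ 2 + fa Y ^ 2)) := by gcongr
    _ = _ := by ring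

theorem abs_V1_le {l : ℕ} {u : ℝ × ℝ} (h : (ep m0 l / 2) ^ 2 < (s l).sq u) :
    |V1 m0 s l u| ≤ 2 / ep m0 l := by
  unfold V1
  rw [abs_mul, abs_of_pos (rho_pos m0 l)]
  calc _ ≤ 1 * (2 / ep m0 l) := by
        gcongr
        · exact rho_le_one m0 l
        · exact abs_thX_le_of (ep_pos m0 l) h
    _ = _ := one_mul _

theorem abs_V2_le {l : ℕ} {u : ℝ × ℝ} (h : (ep m0 l / 2) ^ 2 < (s l).sq u) :
    |V2 m0 s l u| ≤ 2 / ep m0 l := by
  unfold V2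
  rw [abs_mul, abs_of_pos (rho_pos m0 l), thY_eq, abs_neg]
  calc _ ≤ 1 * (2 / ep m0 l) := by
        gcongr
        · exact rho_le_one m0 l
        · apply abs_thX_le_of (ep_pos m0 l)
          unfold Lev.sq at h
          linarith
    _ = _ := one_mul _

theorem abs_VV1_le {j : ℕ} {u : ℝ × ℝ} (h : Reg m0 s j u) : |VV1 m0 s j u| ≤ Gam m0 j := by
  unfold VV1 Gam
  refine (Finset.abs_sum_le_sum_abs _ _).trans (Finset.sum_le_sum fun l hl => ?_)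
  exact abs_V1_le (h l (Finset.mem_range.1 hl))

theorem abs_VV2_le {j : ℕ} {u : ℝ × ℝ} (h : Reg m0 s j u) : |VV2 m0 s j u| ≤ Gam m0 j := by
  unfold VV2 Gam
  refine (Finset.abs_sum_le_sum_abs _ _).trans (Finset.sum_le_sum fun l hl => ?_)
  exact abs_V2_le (h l (Finset.mem_range.1 hl))

theorem norm_coords {e : (ℝ × ℝ) × ℝ} (he : ‖e‖ ≤ 1) :
    |e.1.1| ≤ 1 ∧ |e.1.2| ≤ 1 ∧ |e.2| ≤ 1 ∧ ‖e.1‖ ≤ 1 := by
  have h1 : ‖e.1‖ ≤ 1 := (norm_fst_le e).trans he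
  have h2 : ‖e.2‖ ≤ 1 := (norm_snd_le e).trans he
  exact ⟨(norm_fst_le e.1).trans h1, (norm_snd_le e.1).trans h1, h2, h1⟩

theorem abs_Tt_le {j : ℕ} {e : (ℝ × ℝ) × ℝ} {u : ℝ × ℝ} (he : ‖e‖ ≤ 1) {B : ℝ}
    (h1 : |VV1 m0 s j u| ≤ B) (h2 : |VV2 m0 s j u| ≤ B) : |Tt m0 s j e u| ≤ 1 + 2 * B := by
  obtain ⟨ha, hb, hc, -⟩ := norm_coords he
  have hB : 0 ≤ B := (abs_nonneg _).trans h1
  unfold Tt
  calc |e.2 - VV1 m0 s j u * e.1.1 - VV2 m0 s j u * e.1.2|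
      ≤ |e.2| + |VV1 m0 s j u * e.1.1| + |VV2 m0 s j u * e.1.2| := by
        refine (abs_sub _ _).trans ?_
        gcongr
        exact abs_sub _ _
    _ ≤ 1 + B * 1 + B * 1 := by
        rw [abs_mul, abs_mul]
        gcongr
    _ = _ := by ring

theorem abs_Cc_le (j : ℕ) (p : (ℝ × ℝ) × ℝ) : |Cc m0 Pst s j p| ≤ 1 :=
  (Complex.abs_re_le_norm _).trans (norm_ph_le j p)

theorem abs_im_le (j : ℕ) (p : (ℝ × ℝ) × ℝ) : |(ph m0 Pst s j p).im| ≤ 1 :=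
  (Complex.abs_im_le_norm _).trans (norm_ph_le j p)

theorem mm_nonneg (j : ℕ) (p : (ℝ × ℝ) × ℝ) : 0 ≤ mm m0 Pst s j p := by
  have := (abs_le.1 (abs_Cc_le (m0 := m0) (Pst := Pst) (s := s) j p)).1
  unfold mm; linarith

theorem mm_le_one (j : ℕ) (p : (ℝ × ℝ) × ℝ) : mm m0 Pst s j p ≤ 1 := by
  have := (abs_le.1 (abs_Cc_le (m0 := m0) (Pst := Pst) (s := s) j p)).2
  unfold mm; linarith

theorem Mq_nonneg (a j : ℕ) (p : (ℝ × ℝ) × ℝ) : 0 ≤ Mq m0 Pst s a j p :=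
  Finset.prod_nonneg fun i _ => mm_nonneg i p

theorem Mq_le_one (a j : ℕ) (p : (ℝ × ℝ) × ℝ) : Mq m0 Pst s a j p ≤ 1 :=
  Finset.prod_le_one (fun i _ => mm_nonneg i p) fun i _ => mm_le_one i p

theorem Mq_succ {a j : ℕ} (h : a ≤ j) (p : (ℝ × ℝ) × ℝ) :
    Mq m0 Pst s a (j + 1) p = Mq m0 Pst s a j p * mm m0 Pst s j p :=
  Finset.prod_Ico_succ_top h _

/-- `(Im π)² ≤ 4 (1 - m)`. -/
theorem im_sq_le (j : ℕ) (p : (ℝ × ℝ) × ℝ) :
    (ph m0 Pst s j p).im ^ 2 ≤ 4 * (1 - mm m0 Pst s j p) := by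
  have h1 := norm_ph_le (m0 := m0) (Pst := Pst) (s := s) j p
  have h2 : ‖ph m0 Pst s j p‖ ^ 2 ≤ 1 := by
    have := norm_nonneg (ph m0 Pst s j p)
    nlinarith
  rw [Complex.sq_norm, Complex.normSq_apply] at h2
  have h3 := abs_le.1 (abs_Cc_le (m0 := m0) (Pst := Pst) (s := s) j p)
  unfold mm Cc at *
  nlinarith [h3.1, h3.2]

theorem fderiv_mm (j : ℕ) (p e : (ℝ × ℝ) × ℝ) :
    fderiv ℝ (mm m0 Pst s j) p e = fderiv ℝ (Cc m0 Pst s j) p e / 2 := by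
  have hd : DifferentiableAt ℝ (Cc m0 Pst s j) p := (contDiff_Cc j).differentiable (by norm_num) p
  have h := ((hd.hasFDerivAt.const_add (1 : ℝ)).const_mul (2 : ℝ)⁻¹)
  have h2 : mm m0 Pst s j = fun p => (2 : ℝ)⁻¹ * (1 + Cc m0 Pst s j p) := by
    funext p; unfold mm; ring
  rw [h2, h.fderiv]
  simp
  ring

/-- Bound for the derivative of the products of multipliers. -/
noncomputable def BM (m0 Pst : ℕ) (s : ℕ → Lev) (j : ℕ) : ℝ :=
  ∑ i ∈ Finset.range j, π * Pp m0 Pst s i * (1 + 2 * Gam m0 i)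

theorem BM_nonneg (j : ℕ) : 0 ≤ BM m0 Pst s j :=
  Finset.sum_nonneg fun i _ => by
    have := Gam_nonneg m0 i
    have := Real.pi_pos
    positivity

theorem abs_fderiv_mm_le (hP : 0 < Pst) (hs : ∀ j, Good m0 Pst j s) {j : ℕ}
    {p e : (ℝ × ℝ) × ℝ} (h : Reg m0 s j p.1) (he : ‖e‖ ≤ 1) {B : ℝ}
    (h1 : |VV1 m0 s j p.1| ≤ B) (h2 : |VV2 m0 s j p.1| ≤ B) :
    |fderiv ℝ (mm m0 Pst s j) p e| ≤ π * Pp m0 Pst s j * (1 + 2 * B) := by
  rw [fderiv_mm, fderiv_Cc hP hs h]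
  have h3 := abs_Tt_le he h1 h2
  have h4 := abs_im_le (m0 := m0) (Pst := Pst) (s := s) j p
  have hpi := Real.pi_pos
  have hp : (0 : ℝ) ≤ Pp m0 Pst s j := by positivity
  have e1 : -(2 * π * Pp m0 Pst s j * (ph m0 Pst s j p).im) * Tt m0 s j e p.1 / 2
      = -(π * Pp m0 Pst s j * ((ph m0 Pst s j p).im * Tt m0 s j e p.1)) := by ring
  rw [e1, abs_neg, abs_mul, abs_mul, abs_mul, abs_of_pos hpi, abs_of_nonneg hp]
  have h5 : |(ph m0 Pst s j p).im| * |Tt m0 s j e p.1| ≤ 1 * (1 + 2 * B) := by gcongr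
  calc _ ≤ π * Pp m0 Pst s j * (1 * (1 + 2 * B)) := by gcongr
    _ = _ := by ring

theorem abs_fderiv_Mq_le (hP : 0 < Pst) (hs : ∀ j, Good m0 Pst j s) {a : ℕ}
    {p e : (ℝ × ℝ) × ℝ} (he : ‖e‖ ≤ 1) : ∀ j : ℕ, Reg m0 s (j - 1) p.1 →
    |fderiv ℝ (Mq m0 Pst s a j) p e| ≤ BM m0 Pst s j := by
  intro j
  induction j with
  | zero =>
    intro _
    have : Mq m0 Pst s a 0 = fun _ => (1 : ℝ) := by funext p; simp [Mq]
    rw [this]
    simp
    exact BM_nonneg 0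
  | succ j ih =>
    intro h
    rcases Nat.lt_or_ge j a with hja | hja
    · have : Mq m0 Pst s a (j + 1) = fun _ => (1 : ℝ) := by
        funext p
        unfold Mq
        rw [Finset.Ico_eq_empty (by omega), Finset.prod_empty]
      rw [this]
      simp
      exact BM_nonneg (j + 1)
    · rw [Nat.add_sub_cancel] at h
      have e1 : Mq m0 Pst s a (j + 1) = fun p => Mq m0 Pst s a j p * mm m0 Pst s j p := by
        funext p; exact Mq_succ hja p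
      rw [e1, fderiv_fun_mul ((contDiff_Mq a j).differentiable (by norm_num) p)
        ((contDiff_mm j).differentiable (by norm_num) p)]
      simp only [_root_.add_apply, _root_.smul_apply, smul_eq_mul]
      have h1 := ih (h.mono (Nat.sub_le j 1))
      have h2 := abs_fderiv_mm_le hP hs h he (abs_VV1_le h) (abs_VV2_le h)
      have h3 := Mq_nonneg (m0 := m0) (Pst := Pst) (s := s) a j p
      have h4 := Mq_le_one (m0 := m0) (Pst := Pst) (s := s) a j p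
      have h5 := mm_nonneg (m0 := m0) (Pst := Pst) (s := s) j p
      have h6 := mm_le_one (m0 := m0) (Pst := Pst) (s := s) j p
      have h7 : BM m0 Pst s (j + 1) = BM m0 Pst s j + π * Pp m0 Pst s j * (1 + 2 * Gam m0 j) :=
        Finset.sum_range_succ _ _
      rw [h7]
      calc _ ≤ |Mq m0 Pst s a j p * fderiv ℝ (mm m0 Pst s j) p e|
            + |mm m0 Pst s j p * fderiv ℝ (Mq m0 Pst s a j) p e| := abs_add_le _ _
        _ ≤ 1 * (π * Pp m0 Pst s j * (1 + 2 * Gam m0 j)) + 1 * BM m0 Pst s j := by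
            rw [abs_mul, abs_mul, abs_of_nonneg h3, abs_of_nonneg h5]
            have := abs_nonneg (fderiv ℝ (mm m0 Pst s j) p e)
            have := abs_nonneg (fderiv ℝ (Mq m0 Pst s a j) p e)
            gcongr
        _ = _ := by ring

/-! ### Numerical consequences of the growth conditions -/

theorem Gam_mono {i j : ℕ} (h : i ≤ j) : Gam m0 i ≤ Gam m0 j := by
  unfold Gam
  apply Finset.sum_le_sum_of_subset_of_nonneg (Finset.range_mono h)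
  intro l _ _
  have := ep_pos m0 l
  positivity

theorem pow_half_le (j : ℕ) : 1 / (2 : ℝ) ^ (j + m0 + 10) ≤ (1 / 2) ^ (j + 10) := by
  rw [← one_div_pow]
  exact pow_le_pow_of_le_one (by norm_num) (by norm_num) (by omega)

theorem aux_Bnd (hP : 0 < Pst) (hs : ∀ j, Good m0 Pst j s) (j : ℕ) :
    (1 + j) * (1 + Gam m0 j) * (1 + cutL m0 s j) * Pp m0 Pst s j
      ≤ (1 / 2) ^ (j + 10) * (s j).D := by
  have h0 := Bnd_le_D hs j
  unfold Bnd at h0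
  have h1 : (0 : ℝ) ≤ j := by positivity
  have h2 := Gam_nonneg m0 j
  have h3 := cutL_nonneg m0 s j
  have h4 : (1 : ℝ) ≤ 1 + lamB := by linarith [lamB_pos]
  have h5 := one_le_NN (m0 := m0) j
  have h6 : (0 : ℝ) < 2 ^ (j + m0 + 10) := by positivity
  have h7 : (1 : ℝ) ≤ (1 + lamB) * NN m0 j := one_le_mul_of_one_le_of_one_le h4 h5
  have h8 : 2 ^ (j + m0 + 10) * ((1 + j) * (1 + Gam m0 j) * (1 + cutL m0 s j) * Pp m0 Pst s j)
      ≤ (s j).D := by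
    have hnn : 0 ≤ 2 ^ (j + m0 + 10) * ((1 + (j : ℝ)) * (1 + Gam m0 j) * (1 + cutL m0 s j)
      * Pp m0 Pst s j) := by positivity
    calc _ = 2 ^ (j + m0 + 10) * ((1 + (j : ℝ)) * (1 + Gam m0 j) * (1 + cutL m0 s j)
      * Pp m0 Pst s j) * 1 := (mul_one _).symm
      _ ≤ 2 ^ (j + m0 + 10) * ((1 + (j : ℝ)) * (1 + Gam m0 j) * (1 + cutL m0 s j)
      * Pp m0 Pst s j) * ((1 + lamB) * NN m0 j) := by gcongr
      _ = 2 ^ (j + m0 + 10) * (1 + j) * (1 + Gam m0 j) * (1 + cutL m0 s j) * (1 + lamB)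
          * NN m0 j * Pp m0 Pst s j := by ring
      _ ≤ _ := h0
  calc _ = 1 / (2 : ℝ) ^ (j + m0 + 10) * (2 ^ (j + m0 + 10) *
      ((1 + j) * (1 + Gam m0 j) * (1 + cutL m0 s j) * Pp m0 Pst s j)) := by
        field_simp
    _ ≤ (1 / 2) ^ (j + 10) * (s j).D := by
        gcongr
        exact pow_half_le j

theorem BM_le (hP : 0 < Pst) (hs : ∀ j, Good m0 Pst j s) (j : ℕ) :
    BM m0 Pst s j ≤ 2 * π * Pp m0 Pst s j * (1 / 2) ^ (j + 1) := by
  have hpi := Real.pi_pos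
  cases j with
  | zero => simp [BM]; positivity
  | succ j =>
    have h1 : BM m0 Pst s (j + 1) ≤ ∑ _i ∈ Finset.range (j + 1),
        π * Pp m0 Pst s j * (1 + 2 * Gam m0 j) := by
      unfold BM
      apply Finset.sum_le_sum
      intro i hi
      have hi' : i ≤ j := Nat.lt_succ_iff.1 (Finset.mem_range.1 hi)
      have e1 := Pp_mono hP hs hi'
      have e2 := Gam_mono (m0 := m0) hi'
      have e3 := Gam_nonneg m0 i
      gcongr
    rw [Finset.sum_const, Finset.card_range, nsmul_eq_mul] at h1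
    push_cast at h1
    have h2 := aux_Bnd hP hs j
    have h3 := D_le_Pp (m0 := m0) (Pst := Pst) (s := s) j
    have h4 := Gam_nonneg m0 j
    have h5 := cutL_nonneg m0 s j
    have hj : (0 : ℝ) ≤ j := by positivity
    have hp : (0 : ℝ) ≤ Pp m0 Pst s j := by positivity
    have h6 : (1 + (j : ℝ)) * (1 + Gam m0 j) * Pp m0 Pst s j
        ≤ (1 + j) * (1 + Gam m0 j) * (1 + cutL m0 s j) * Pp m0 Pst s j := by
      have : (1 + (j : ℝ)) * (1 + Gam m0 j) * 1 ≤ (1 + j) * (1 + Gam m0 j) * (1 + cutL m0 s j) := by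
        gcongr
        linarith
      nlinarith
    calc BM m0 Pst s (j + 1) ≤ (j + 1) * (π * Pp m0 Pst s j * (1 + 2 * Gam m0 j)) := h1
      _ ≤ 2 * π * ((1 + (j : ℝ)) * (1 + Gam m0 j) * Pp m0 Pst s j) := by
          have : 0 ≤ π * ((j : ℝ) + 1) * Pp m0 Pst s j := by positivity
          nlinarith
      _ ≤ 2 * π * ((1 / 2) ^ (j + 10) * (s j).D) := by
          have := h6.trans h2
          gcongr
      _ ≤ 2 * π * ((1 / 2) ^ (j + 1 + 1) * Pp m0 Pst s (j + 1)) := by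
          have : ((1 : ℝ) / 2) ^ (j + 10) ≤ (1 / 2) ^ (j + 1 + 1) :=
            pow_le_pow_of_le_one (by norm_num) (by norm_num) (by omega)
          gcongr
      _ = _ := by ring

theorem cutL_div_D_le (hP : 0 < Pst) (hs : ∀ j, Good m0 Pst j s) (j : ℕ) :
    cutL m0 s j ≤ (1 / 2) ^ j * (s j).D := by
  have h2 := aux_Bnd hP hs j
  have h4 := Gam_nonneg m0 j
  have h5 := cutL_nonneg m0 s j
  have hj : (0 : ℝ) ≤ j := by positivity
  have hp := one_le_Pp hP hs j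
  have h6 : cutL m0 s j ≤ (1 + j) * (1 + Gam m0 j) * (1 + cutL m0 s j) * Pp m0 Pst s j := by
    have h7 : (1 : ℝ) ≤ (1 + j) * (1 + Gam m0 j) :=
      one_le_mul_of_one_le_of_one_le (by linarith) (by linarith)
    calc cutL m0 s j ≤ 1 * (1 + cutL m0 s j) * 1 := by linarith
      _ ≤ _ := by gcongr
  refine h6.trans (h2.trans ?_)
  have : ((1 : ℝ) / 2) ^ (j + 10) ≤ (1 / 2) ^ j :=
    pow_le_pow_of_le_one (by norm_num) (by norm_num) (by omega)
  gcongr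

theorem Pp_le_succ (hP : 0 < Pst) (hs : ∀ j, Good m0 Pst j s) (j : ℕ) :
    (Pp m0 Pst s j : ℝ) ≤ (1 / 2) ^ (j + 10) * Pp m0 Pst s (j + 1) := by
  have h2 := aux_Bnd hP hs j
  have h3 := D_le_Pp (m0 := m0) (Pst := Pst) (s := s) j
  have h4 := Gam_nonneg m0 j
  have h5 := cutL_nonneg m0 s j
  have hj : (0 : ℝ) ≤ j := by positivity
  have hp := one_le_Pp hP hs j
  have h6 : (Pp m0 Pst s j : ℝ) ≤ (1 + j) * (1 + Gam m0 j) * (1 + cutL m0 s j) * Pp m0 Pst s j := by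
    have h7 : (1 : ℝ) ≤ (1 + j) * (1 + Gam m0 j) * (1 + cutL m0 s j) :=
      one_le_mul_of_one_le_of_one_le (one_le_mul_of_one_le_of_one_le (by linarith) (by linarith))
        (by linarith)
    nlinarith
  calc (Pp m0 Pst s j : ℝ) ≤ _ := h6.trans h2
    _ ≤ _ := by gcongr

end Pool.Agent.H28.Lusin
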