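import Pool.Agent.H28.Lusin.FormB

open MeasureTheory Set Real Filter
open scoped ContDiff Topology ENNReal ComplexConjugate

namespace Pool.Agent.H28.Lusin

variable {m0 Pst : ℕ} {s : ℕ → Lev}

/-- Derivative of the horizontal function. -/
theorem fderiv_ka (hs : ∀ j, Good m0 Pst j s) (j : ℕ) (u f : ℝ × ℝ) :
    fderiv ℝ (ka s j) u f = deriv lam (fc ((s j).X u) * fc ((s j).Y u)) *
      (-(2 * π) * (fa ((s j).X u) * fc ((s j).Y u) * f.1
        + fc ((s j).X u) * fa ((s j).Y u) * f.2)) := by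
  have hD : ((s j).D : ℝ) ≠ 0 := by
    have := D_pos hs j
    positivity
  have hX : HasFDerivAt (s j).X (((s j).D : ℝ) • ContinuousLinearMap.fst ℝ ℝ ℝ) u :=
    (hasFDerivAt_fst.const_mul ((s j).D : ℝ)).add_const _
  have hY : HasFDerivAt (s j).Y (((s j).D : ℝ) • ContinuousLinearMap.snd ℝ ℝ ℝ) u :=
    (hasFDerivAt_snd.const_mul ((s j).D : ℝ)).add_const _
  have h1 := (hasDerivAt_fc ((s j).X u)).comp_hasFDerivAt u hX
  have h2 := (hasDerivAt_fc ((s j).Y u)).comp_hasFDerivAt u hY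
  have h3 := h1.mul h2
  have hl : HasDerivAt lam (deriv lam (fc ((s j).X u) * fc ((s j).Y u)))
      (fc ((s j).X u) * fc ((s j).Y u)) :=
    ((contDiff_lam (n := 1)).differentiable (by norm_num) _).hasDerivAt
  have h4 := hl.comp_hasFDerivAt u h3
  have h5 := h4.const_mul (((s j).D : ℝ)⁻¹)
  have h6 : ka s j = fun u => ((s j).D : ℝ)⁻¹ *
      (lam ∘ ((fc ∘ (s j).X) * (fc ∘ (s j).Y))) u := by
    funext u
    show lam (fc ((s j).X u) * fc ((s j).Y u)) / (s j).D = _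
    rw [div_eq_inv_mul]
    rfl
  rw [h6, h5.fderiv]
  simp
  field_simp
  ring

theorem fderiv_ka_eq_zero (hs : ∀ j, Good m0 Pst j s) {j : ℕ} {u : ℝ × ℝ}
    (h : deriv lam (fc ((s j).X u) * fc ((s j).Y u)) = 0) (f : ℝ × ℝ) :
    fderiv ℝ (ka s j) u f = 0 := by
  rw [fderiv_ka hs, h, zero_mul]

/-- Bound for the derivative of the horizontal functions. -/
noncomputable def Kk : ℝ := 4 * π * lamB

theorem Kk_pos : 0 < Kk := by unfold Kk; have := lamB_pos; positivity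

theorem abs_fderiv_ka_le (hs : ∀ j, Good m0 Pst j s) (j : ℕ) (u : ℝ × ℝ) {f : ℝ × ℝ}
    (h1 : |f.1| ≤ 1) (h2 : |f.2| ≤ 1) : |fderiv ℝ (ka s j) u f| ≤ Kk := by
  rw [fderiv_ka hs]
  have hl := deriv_lam_le ((s j).X u) ((s j).Y u)
  have hl0 := deriv_lam_nonneg (fc ((s j).X u) * fc ((s j).Y u))
  have hpi := Real.pi_pos
  have hB := lamB_pos
  have e1 : |fa ((s j).X u) * fc ((s j).Y u) * f.1 + fc ((s j).X u) * fa ((s j).Y u) * f.2|
      ≤ 1 * 1 * 1 + 1 * 1 * 1 := by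
    refine (abs_add_le _ _).trans ?_
    rw [abs_mul, abs_mul, abs_mul, abs_mul]
    have a1 := abs_fa_le ((s j).X u)
    have a2 := abs_fa_le ((s j).Y u)
    have a3 := abs_fc_le ((s j).X u)
    have a4 := abs_fc_le ((s j).Y u)
    gcongr
  rw [abs_mul, abs_mul, abs_neg, abs_of_nonneg hl0, abs_of_pos (by positivity : 0 < 2 * π)]
  calc _ ≤ lamB * (2 * π * (1 * 1 * 1 + 1 * 1 * 1)) := by gcongr
    _ = Kk := by unfold Kk; ring

theorem lam_mem (t : ℝ) : 0 ≤ lam t ∧ lam t ≤ 1 :=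
  ⟨Real.smoothTransition.nonneg _, Real.smoothTransition.le_one _⟩

theorem abs_ka_le (j : ℕ) (u : ℝ × ℝ) : |ka s j u| ≤ 1 / (s j).D := by
  unfold ka
  rw [abs_div, Nat.abs_cast, abs_of_nonneg (lam_mem _).1]
  gcongr
  exact (lam_mem _).2

/-- The identity producing the principal term. -/
theorem qt_identity (hs : ∀ j, Good m0 Pst j s) (j : ℕ) (u e f : ℝ × ℝ) :
    (V1 m0 s j u * e.1 + V2 m0 s j u * e.2) * fderiv ℝ (ka s j) u f
      - (V1 m0 s j u * f.1 + V2 m0 s j u * f.2) * fderiv ℝ (ka s j) u e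
      = rho m0 j * qt ((s j).X u) ((s j).Y u) * (e.1 * f.2 - e.2 * f.1) := by
  rw [fderiv_ka hs, fderiv_ka hs]
  unfold V1 V2 thX thY qt
  ring

theorem Tt_succ (j : ℕ) (e : (ℝ × ℝ) × ℝ) (u : ℝ × ℝ) :
    Tt m0 s (j + 1) e u = Tt m0 s j e u - (V1 m0 s j u * e.1.1 + V2 m0 s j u * e.1.2) := by
  unfold Tt VV1 VV2
  rw [Finset.sum_range_succ, Finset.sum_range_succ]
  ring

/-- Where the cutoff vanishes, so does its derivative. -/
theorem fderiv_cut_eq_zero {j : ℕ} {u : ℝ × ℝ} (h : cut m0 s j u = 0) :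
    fderiv ℝ (cut m0 s j) u = 0 := by
  apply IsLocalMin.fderiv_eq_zero
  exact Filter.Eventually.of_forall fun v => by rw [h]; exact cut_nonneg m0 s j v

theorem fderiv_cutka (j : ℕ) (u f : ℝ × ℝ) :
    fderiv ℝ (fun u => cut m0 s j u * ka s j u) u f
      = cut m0 s j u * fderiv ℝ (ka s j) u f + ka s j u * fderiv ℝ (cut m0 s j) u f := by
  rw [fderiv_fun_mul ((contDiff_cut m0 s j).differentiable (by norm_num) u)
    ((contDiff_ka j).differentiable (by norm_num) u)]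
  simp

theorem fderiv_cut_fst (j : ℕ) (p e : (ℝ × ℝ) × ℝ) :
    fderiv ℝ (fun p : (ℝ × ℝ) × ℝ => cut m0 s j p.1) p e = fderiv ℝ (cut m0 s j) p.1 e.1 := by
  have hd : DifferentiableAt ℝ (cut m0 s j) p.1 :=
    (contDiff_cut m0 s j).differentiable (by norm_num) p.1
  have h : HasFDerivAt (fun p : (ℝ × ℝ) × ℝ => cut m0 s j p.1)
      ((fderiv ℝ (cut m0 s j) p.1).comp (ContinuousLinearMap.fst ℝ (ℝ × ℝ) ℝ)) p :=
    hd.hasFDerivAt.comp p hasFDerivAt_fst
  rw [h.fderiv]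
  rfl

theorem fderiv_aj (a j : ℕ) (p e : (ℝ × ℝ) × ℝ) :
    fderiv ℝ (aj m0 Pst s a j) p e
      = Mq m0 Pst s a (j + 1) p * fderiv ℝ (Rr m0 Pst s j) p e
        + Rr m0 Pst s j p * fderiv ℝ (Mq m0 Pst s a (j + 1)) p e := by
  have h := fderiv_fun_mul ((contDiff_Mq (m0 := m0) (Pst := Pst) (s := s) a (j + 1)).differentiable
    (by norm_num) p) ((contDiff_Rr (m0 := m0) (Pst := Pst) (s := s) j).differentiable
    (by norm_num) p)
  show fderiv ℝ (fun p => Mq m0 Pst s a (j + 1) p * Rr m0 Pst s j p) p e = _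
  rw [h]
  simp

theorem fderiv_bj (a j : ℕ) (p e : (ℝ × ℝ) × ℝ) :
    fderiv ℝ (bj m0 Pst s a j) p e
      = Mq m0 Pst s a (j + 1) p * Rr m0 Pst s (j + 1) p * fderiv ℝ (cut m0 s j) p.1 e.1
        + cut m0 s j p.1 * (Mq m0 Pst s a (j + 1) p * fderiv ℝ (Rr m0 Pst s (j + 1)) p e
        + Rr m0 Pst s (j + 1) p * fderiv ℝ (Mq m0 Pst s a (j + 1)) p e) := by
  have hM := (contDiff_Mq (m0 := m0) (Pst := Pst) (s := s) a (j + 1)).differentiable
    (by norm_num) p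
  have hR := (contDiff_Rr (m0 := m0) (Pst := Pst) (s := s) (j + 1)).differentiable
    (by norm_num) p
  have hMR : DifferentiableAt ℝ (fun p => Mq m0 Pst s a (j + 1) p * Rr m0 Pst s (j + 1) p) p :=
    hM.fun_mul hR
  have hc := (contDiff_cut_fst (m0 := m0) (s := s) j).differentiable (by norm_num) p
  show fderiv ℝ (fun p => (Mq m0 Pst s a (j + 1) p * Rr m0 Pst s (j + 1) p)
    * cut m0 s j p.1) p e = _
  rw [fderiv_fun_mul hMR hc, fderiv_fun_mul hM hR]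
  simp only [_root_.add_apply, _root_.smul_apply, smul_eq_mul]
  rw [fderiv_cut_fst]

/-- The explicit formula for the contribution of one level. -/
theorem Tj_formula (hP : 0 < Pst) (hs : ∀ j, Good m0 Pst j s) (a j : ℕ) (e f p : (ℝ × ℝ) × ℝ)
    (hc : cut m0 s j p.1 ≠ 0) :
    Tj m0 Pst s a j e f p =
      Mq m0 Pst s a (j + 1) p * cut m0 s j p.1 * Cc m0 Pst s (j + 1) p *
          (rho m0 j * qt ((s j).X p.1) ((s j).Y p.1) * (e.1.1 * f.1.2 - e.1.2 * f.1.1))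
      + Mq m0 Pst s a (j + 1) p * cut m0 s j p.1 * (Cc m0 Pst s j p - Cc m0 Pst s (j + 1) p) *
          (Tt m0 s j e p.1 * fderiv ℝ (ka s j) p.1 f.1
            - Tt m0 s j f p.1 * fderiv ℝ (ka s j) p.1 e.1)
      + Mq m0 Pst s a (j + 1) p * Cc m0 Pst s j p * ka s j p.1 *
          (Tt m0 s j e p.1 * fderiv ℝ (cut m0 s j) p.1 f.1
            - Tt m0 s j f p.1 * fderiv ℝ (cut m0 s j) p.1 e.1)
      + Rr m0 Pst s j p * (fderiv ℝ (Mq m0 Pst s a (j + 1)) p e *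
            (cut m0 s j p.1 * fderiv ℝ (ka s j) p.1 f.1 + ka s j p.1 * fderiv ℝ (cut m0 s j) p.1 f.1)
          - fderiv ℝ (Mq m0 Pst s a (j + 1)) p f *
            (cut m0 s j p.1 * fderiv ℝ (ka s j) p.1 e.1
              + ka s j p.1 * fderiv ℝ (cut m0 s j) p.1 e.1))
      - Rr m0 Pst s (j + 1) p * cut m0 s j p.1 * (fderiv ℝ (Mq m0 Pst s a (j + 1)) p e *
            fderiv ℝ (ka s j) p.1 f.1
          - fderiv ℝ (Mq m0 Pst s a (j + 1)) p f * fderiv ℝ (ka s j) p.1 e.1)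
      - Mq m0 Pst s a (j + 1) p * Rr m0 Pst s (j + 1) p *
          (fderiv ℝ (cut m0 s j) p.1 e.1 * fderiv ℝ (ka s j) p.1 f.1
            - fderiv ℝ (cut m0 s j) p.1 f.1 * fderiv ℝ (ka s j) p.1 e.1) := by
  obtain ⟨hreg, -, -⟩ := of_cut_ne_zero m0 hc
  have hR : ∀ g, fderiv ℝ (Rr m0 Pst s j) p g = Cc m0 Pst s j p * Tt m0 s j g p.1 :=
    fun g => fderiv_Rr hP hs hreg g
  unfold Tj
  rw [fderiv_aj, fderiv_aj, fderiv_bj, fderiv_bj, fderiv_cutka, fderiv_cutka, hR, hR]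
  have hq := qt_identity hs j p.1 e.1 f.1
  by_cases hl : deriv lam (fc ((s j).X p.1) * fc ((s j).Y p.1)) = 0
  · have hk := fderiv_ka_eq_zero hs hl
    rw [hk, hk] at hq ⊢
    rw [← hq]
    ring
  · have hreg' : Reg m0 s (j + 1) p.1 := by
      intro l hlj
      rcases Nat.lt_succ_iff_lt_or_eq.1 hlj with h1 | h1
      · exact hreg l h1
      · subst h1
        have h2 := sq_ge_of_deriv_ne hl
        have h3 := ep_pos m0 l
        have h4 := ep_le_one m0 l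
        unfold Lev.sq
        nlinarith
    have hR' : ∀ g, fderiv ℝ (Rr m0 Pst s (j + 1)) p g
        = Cc m0 Pst s (j + 1) p * (Tt m0 s j g p.1
          - (V1 m0 s j p.1 * g.1.1 + V2 m0 s j p.1 * g.1.2)) := by
      intro g
      rw [fderiv_Rr hP hs hreg' g, Tt_succ]
    rw [hR', hR', ← hq]
    ring

/-- Where the cutoff vanishes, the level does not contribute. -/
theorem Tj_eq_zero (a j : ℕ) (e f p : (ℝ × ℝ) × ℝ) (hc : cut m0 s j p.1 = 0) :
    Tj m0 Pst s a j e f p = 0 := by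
  unfold Tj
  rw [fderiv_cutka, fderiv_cutka, fderiv_bj, fderiv_bj, hc, fderiv_cut_eq_zero hc]
  simp

end Pool.Agent.H28.Lusin
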