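import Pool.Agent.H28.Lusin.FormC

open MeasureTheory Set Real Filter
open scoped ContDiff Topology ENNReal ComplexConjugate

namespace Pool.Agent.H28.Lusin

variable {m0 Pst : ℕ} {s : ℕ → Lev}

theorem abs_pair_le {x y z w A B : ℝ} (h1 : |x| ≤ A) (h2 : |y| ≤ B) (h3 : |z| ≤ A)
    (h4 : |w| ≤ B) : |x * y - z * w| ≤ 2 * A * B := by
  have hA : 0 ≤ A := (abs_nonneg _).trans h1
  calc |x * y - z * w| ≤ |x * y| + |z * w| := abs_sub _ _
    _ ≤ A * B + A * B := by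
        rw [abs_mul, abs_mul]
        gcongr
    _ = _ := by ring

theorem five_bound {x1 x2 x3 x4 x5 b1 b2 b3 b4 b5 B : ℝ} (h1 : |x1| ≤ b1) (h2 : |x2| ≤ b2)
    (h3 : |x3| ≤ b3) (h4 : |x4| ≤ b4) (h5 : |x5| ≤ b5) (h : b1 + b2 + b3 + b4 + b5 ≤ B) :
    |(x1 + x2 + x3) - x4 - x5| ≤ B := by
  have e1 := abs_le.1 h1
  have e2 := abs_le.1 h2
  have e3 := abs_le.1 h3
  have e4 := abs_le.1 h4
  have e5 := abs_le.1 h5
  rw [abs_le]
  constructor <;> linarith [e1.1, e1.2, e2.1, e2.2, e3.1, e3.2, e4.1, e4.2, e5.1, e5.2]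

theorem abs_Rr_le (j : ℕ) (p : (ℝ × ℝ) × ℝ) :
    |Rr m0 Pst s j p| ≤ 1 / (2 * π * Pp m0 Pst s j) := by
  unfold Rr
  have hpi := Real.pi_pos
  rw [abs_div, abs_of_nonneg (by positivity : (0 : ℝ) ≤ 2 * π * Pp m0 Pst s j)]
  gcongr
  exact abs_im_le j p

/-- `R_j dM` for the product including the multiplier of index `j`. -/
theorem abs_Rr_mul_fderiv_Mq_le (hP : 0 < Pst) (hs : ∀ j, Good m0 Pst j s) {a j : ℕ} (haj : a ≤ j)
    {p e : (ℝ × ℝ) × ℝ} (he : ‖e‖ ≤ 1) (hreg : Reg m0 s j p.1) (h1 : |VV1 m0 s j p.1| ≤ 3)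
    (h2 : |VV2 m0 s j p.1| ≤ 3) :
    |Rr m0 Pst s j p * fderiv ℝ (Mq m0 Pst s a (j + 1)) p e|
      ≤ (1 / 2) ^ j + 4 * (Mq m0 Pst s a j p * (ph m0 Pst s j p).im ^ 2) := by
  have hpi := Real.pi_pos
  have hp : (0 : ℝ) < Pp m0 Pst s j := by exact_mod_cast Pp_pos' hP hs j
  have e1 : Mq m0 Pst s a (j + 1) = fun p => Mq m0 Pst s a j p * mm m0 Pst s j p := by
    funext p; exact Mq_succ haj p
  have e2 : fderiv ℝ (Mq m0 Pst s a (j + 1)) p e
      = Mq m0 Pst s a j p * fderiv ℝ (mm m0 Pst s j) p e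
        + mm m0 Pst s j p * fderiv ℝ (Mq m0 Pst s a j) p e := by
    rw [e1, fderiv_fun_mul ((contDiff_Mq a j).differentiable (by norm_num) p)
      ((contDiff_mm j).differentiable (by norm_num) p)]
    simp
  have e3 : Rr m0 Pst s j p * fderiv ℝ (Mq m0 Pst s a (j + 1)) p e
      = mm m0 Pst s j p * (Rr m0 Pst s j p * fderiv ℝ (Mq m0 Pst s a j) p e)
        - Mq m0 Pst s a j p * ((ph m0 Pst s j p).im ^ 2 * (Tt m0 s j e p.1 / 2)) := by
    rw [e2, fderiv_mm, fderiv_Cc hP hs hreg]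
    unfold Rr
    field_simp
    ring
  have h3 := abs_fderiv_Mq_le hP hs (a := a) he j (hreg.mono (Nat.sub_le j 1))
  have h4 := BM_le hP hs j
  have h5 := abs_Rr_le (m0 := m0) (Pst := Pst) (s := s) j p
  have h6 : |Rr m0 Pst s j p * fderiv ℝ (Mq m0 Pst s a j) p e| ≤ (1 / 2) ^ (j + 1) := by
    rw [abs_mul]
    calc _ ≤ 1 / (2 * π * Pp m0 Pst s j) * (2 * π * Pp m0 Pst s j * (1 / 2) ^ (j + 1)) := by
          gcongr
          exact h3.trans h4
      _ = _ := by field_simp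
  have h7 := mm_nonneg (m0 := m0) (Pst := Pst) (s := s) j p
  have h8 := mm_le_one (m0 := m0) (Pst := Pst) (s := s) j p
  have h9 := Mq_nonneg (m0 := m0) (Pst := Pst) (s := s) a j p
  have h10 := abs_Tt_le he h1 h2
  have h11 : ((1 : ℝ) / 2) ^ (j + 1) ≤ (1 / 2) ^ j :=
    pow_le_pow_of_le_one (by norm_num) (by norm_num) (by omega)
  rw [e3]
  refine (abs_sub _ _).trans ?_
  have h12 : |mm m0 Pst s j p * (Rr m0 Pst s j p * fderiv ℝ (Mq m0 Pst s a j) p e)|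
      ≤ 1 * (1 / 2) ^ j := by
    rw [abs_mul, abs_of_nonneg h7]
    gcongr
    exact h6.trans h11
  have h13 : |Mq m0 Pst s a j p * ((ph m0 Pst s j p).im ^ 2 * (Tt m0 s j e p.1 / 2))|
      ≤ Mq m0 Pst s a j p * ((ph m0 Pst s j p).im ^ 2 * 4) := by
    rw [abs_mul, abs_of_nonneg h9, abs_mul, abs_of_nonneg (sq_nonneg _), abs_div,
      abs_of_pos (by norm_num : (0 : ℝ) < 2)]
    gcongr
    linarith
  linarith

/-- `R_{j+1} dM` is tiny. -/
theorem abs_Rr_succ_mul_fderiv_Mq_le (hP : 0 < Pst) (hs : ∀ j, Good m0 Pst j s) {a j : ℕ}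
    {p e : (ℝ × ℝ) × ℝ} (he : ‖e‖ ≤ 1) (hreg : Reg m0 s j p.1) :
    |Rr m0 Pst s (j + 1) p * fderiv ℝ (Mq m0 Pst s a (j + 1)) p e| ≤ (1 / 2) ^ j := by
  have hpi := Real.pi_pos
  have hp : (0 : ℝ) < Pp m0 Pst s (j + 1) := by exact_mod_cast Pp_pos' hP hs (j + 1)
  have h3 := abs_fderiv_Mq_le hP hs (a := a) he (j + 1) (by rw [Nat.add_sub_cancel]; exact hreg)
  have h4 := BM_le hP hs (j + 1)
  have h5 := abs_Rr_le (m0 := m0) (Pst := Pst) (s := s) (j + 1) p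
  have h11 : ((1 : ℝ) / 2) ^ (j + 1 + 1) ≤ (1 / 2) ^ j :=
    pow_le_pow_of_le_one (by norm_num) (by norm_num) (by omega)
  rw [abs_mul]
  calc _ ≤ 1 / (2 * π * Pp m0 Pst s (j + 1)) *
        (2 * π * Pp m0 Pst s (j + 1) * (1 / 2) ^ (j + 1 + 1)) := by
        gcongr
        exact h3.trans h4
    _ = (1 / 2) ^ (j + 1 + 1) := by field_simp
    _ ≤ _ := h11

/-- Constant of the level bound. -/
noncomputable def KT : ℝ := 25 * (Kk + 1)

theorem KT_pos : 0 < KT := by unfold KT; have := Kk_pos; positivity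

/-- The contribution of a level is its principal part up to a controlled error. -/
theorem Tj_bound (hP : 0 < Pst) (hs : ∀ j, Good m0 Pst j s) {a j : ℕ} (haj : a ≤ j)
    {e f p : (ℝ × ℝ) × ℝ} (he : ‖e‖ ≤ 1) (hf : ‖f‖ ≤ 1) :
    |Tj m0 Pst s a j e f p - Mq m0 Pst s a (j + 1) p * cut m0 s j p.1 * Cc m0 Pst s (j + 1) p *
          (rho m0 j * qt ((s j).X p.1) ((s j).Y p.1) * (e.1.1 * f.1.2 - e.1.2 * f.1.1))|
      ≤ KT * ((1 / 2) ^ j + Mq m0 Pst s a (j + 1) p * |Cc m0 Pst s j p - Cc m0 Pst s (j + 1) p|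
        + Mq m0 Pst s a j p * (ph m0 Pst s j p).im ^ 2) := by
  have hM0 := Mq_nonneg (m0 := m0) (Pst := Pst) (s := s) a j p
  have hM := Mq_nonneg (m0 := m0) (Pst := Pst) (s := s) a (j + 1) p
  have hM1 := Mq_le_one (m0 := m0) (Pst := Pst) (s := s) a (j + 1) p
  have hpow : (0 : ℝ) < (1 / 2) ^ j := by positivity
  have hKk := Kk_pos
  have hpi := Real.pi_pos
  by_cases hc : cut m0 s j p.1 = 0
  · rw [Tj_eq_zero a j e f p hc, hc]
    simp only [mul_zero, zero_mul, sub_zero, abs_zero]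
    have := KT_pos
    positivity
  obtain ⟨hreg, hV1, hV2⟩ := of_cut_ne_zero m0 hc
  rw [Tj_formula hP hs a j e f p hc]
  obtain ⟨hea, heb, hec, hen⟩ := norm_coords he
  obtain ⟨hfa, hfb, hfc, hfn⟩ := norm_coords hf
  have hTe : |Tt m0 s j e p.1| ≤ 7 := (abs_Tt_le he hV1.le hV2.le).trans (by norm_num)
  have hTf : |Tt m0 s j f p.1| ≤ 7 := (abs_Tt_le hf hV1.le hV2.le).trans (by norm_num)
  have hκe := abs_fderiv_ka_le hs j p.1 hea heb
  have hκf := abs_fderiv_ka_le hs j p.1 hfa hfb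
  have hD : (0 : ℝ) < (s j).D := by exact_mod_cast D_pos hs j
  have hcL := cutL_nonneg m0 s j
  have hce : |fderiv ℝ (cut m0 s j) p.1 e.1| ≤ cutL m0 s j := by
    calc _ ≤ ‖fderiv ℝ (cut m0 s j) p.1‖ * ‖e.1‖ := ContinuousLinearMap.le_opNorm _ _
      _ ≤ cutL m0 s j * 1 := by gcongr; exact norm_fderiv_cut_le m0 s j p.1
      _ = _ := mul_one _
  have hcf : |fderiv ℝ (cut m0 s j) p.1 f.1| ≤ cutL m0 s j := by
    calc _ ≤ ‖fderiv ℝ (cut m0 s j) p.1‖ * ‖f.1‖ := ContinuousLinearMap.le_opNorm _ _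
      _ ≤ cutL m0 s j * 1 := by gcongr; exact norm_fderiv_cut_le m0 s j p.1
      _ = _ := mul_one _
  have hκ := abs_ka_le (s := s) j p.1
  have hcD := cutL_div_D_le hP hs j
  have hκc : ∀ g : ℝ, |g| ≤ cutL m0 s j → |ka s j p.1 * g| ≤ (1 / 2) ^ j := by
    intro g hg
    rw [abs_mul]
    calc |ka s j p.1| * |g| ≤ 1 / ((s j).D : ℝ) * ((1 / 2) ^ j * ((s j).D : ℝ)) :=
          mul_le_mul hκ (hg.trans hcD) (abs_nonneg _) (by positivity)
      _ = (1 / 2) ^ j := by field_simp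
  have hc0 := cut_nonneg m0 s j p.1
  have hc1 := cut_le_one m0 s j p.1
  have hpow1 : ((1 : ℝ) / 2) ^ j ≤ 1 := pow_le_one₀ (by norm_num) (by norm_num)
  have hφ : ∀ k g : ℝ, |k| ≤ Kk → |g| ≤ cutL m0 s j →
      |cut m0 s j p.1 * k + ka s j p.1 * g| ≤ Kk + 1 := by
    intro k g hk hg
    refine (abs_add_le _ _).trans ?_
    have h1 : |cut m0 s j p.1 * k| ≤ 1 * Kk := by
      rw [abs_mul, abs_of_nonneg hc0]
      gcongr
    have h2 := hκc g hg
    linarith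
  have hCj := abs_Cc_le (m0 := m0) (Pst := Pst) (s := s) j p
  set M := Mq m0 Pst s a (j + 1) p with hMdef
  set Cj := Cc m0 Pst s j p with hCdef
  set C' := Cc m0 Pst s (j + 1) p with hC'def
  set c := cut m0 s j p.1 with hcdef
  set κ := ka s j p.1 with hκdef
  set Te := Tt m0 s j e p.1 with hTedef
  set Tf := Tt m0 s j f p.1 with hTfdef
  set κe := fderiv ℝ (ka s j) p.1 e.1 with hκedef
  set κf := fderiv ℝ (ka s j) p.1 f.1 with hκfdef
  set ce := fderiv ℝ (cut m0 s j) p.1 e.1 with hcedef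
  set cf := fderiv ℝ (cut m0 s j) p.1 f.1 with hcfdef
  have hRMe := abs_Rr_mul_fderiv_Mq_le hP hs haj he hreg hV1.le hV2.le
  have hRMf := abs_Rr_mul_fderiv_Mq_le hP hs haj hf hreg hV1.le hV2.le
  have hR'Me := abs_Rr_succ_mul_fderiv_Mq_le hP hs (a := a) he hreg
  have hR'Mf := abs_Rr_succ_mul_fderiv_Mq_le hP hs (a := a) hf hreg
  have hR' := abs_Rr_le (m0 := m0) (Pst := Pst) (s := s) (j + 1) p
  set Me := fderiv ℝ (Mq m0 Pst s a (j + 1)) p e with hMedef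
  set Mf := fderiv ℝ (Mq m0 Pst s a (j + 1)) p f with hMfdef
  set R := Rr m0 Pst s j p with hRdef
  set R' := Rr m0 Pst s (j + 1) p with hR'def
  set I2 := Mq m0 Pst s a j p * (ph m0 Pst s j p).im ^ 2 with hI2def
  have hI2 : 0 ≤ I2 := by positivity
  set x := M * |Cj - C'| with hxdef
  have hx : 0 ≤ x := by positivity
  -- the five error terms
  have E1 : |M * c * (Cj - C') * (Te * κf - Tf * κe)| ≤ x * (2 * 7 * Kk) := by
    rw [abs_mul, abs_mul, abs_mul, abs_of_nonneg hM, abs_of_nonneg hc0]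
    have h1 := abs_pair_le hTe hκf hTf hκe
    calc M * c * |Cj - C'| * |Te * κf - Tf * κe| ≤ M * 1 * |Cj - C'| * (2 * 7 * Kk) := by gcongr
      _ = _ := by rw [mul_one]
  have E2 : |M * Cj * κ * (Te * cf - Tf * ce)| ≤ 14 * (1 / 2) ^ j := by
    have e1 : M * Cj * κ * (Te * cf - Tf * ce) = M * Cj * (Te * (κ * cf) - Tf * (κ * ce)) := by
      ring
    rw [e1, abs_mul, abs_mul, abs_of_nonneg hM]
    have h1 := abs_pair_le hTe (hκc cf hcf) hTf (hκc ce hce)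
    calc M * |Cj| * |Te * (κ * cf) - Tf * (κ * ce)| ≤ 1 * 1 * (2 * 7 * (1 / 2) ^ j) := by gcongr
      _ = _ := by ring
  have E3 : |R * (Me * (c * κf + κ * cf) - Mf * (c * κe + κ * ce))|
      ≤ 2 * ((1 / 2) ^ j + 4 * I2) * (Kk + 1) := by
    have e1 : R * (Me * (c * κf + κ * cf) - Mf * (c * κe + κ * ce))
        = (R * Me) * (c * κf + κ * cf) - (R * Mf) * (c * κe + κ * ce) := by ring
    rw [e1]
    exact abs_pair_le hRMe (hφ κf cf hκf hcf) hRMf (hφ κe ce hκe hce)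
  have E4 : |R' * c * (Me * κf - Mf * κe)| ≤ 2 * (1 / 2) ^ j * Kk := by
    have e1 : R' * c * (Me * κf - Mf * κe) = c * ((R' * Me) * κf - (R' * Mf) * κe) := by ring
    rw [e1, abs_mul, abs_of_nonneg hc0]
    have h1 := abs_pair_le hR'Me hκf hR'Mf hκe
    calc c * |R' * Me * κf - R' * Mf * κe| ≤ 1 * (2 * (1 / 2) ^ j * Kk) := by gcongr
      _ = _ := one_mul _
  have E5 : |M * R' * (ce * κf - cf * κe)| ≤ 2 * (1 / 2) ^ j * Kk := by
    have hp : (0 : ℝ) < Pp m0 Pst s (j + 1) := by exact_mod_cast Pp_pos' hP hs (j + 1)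
    have hDP := D_le_Pp (m0 := m0) (Pst := Pst) (s := s) j
    have h0 : ∀ g : ℝ, |g| ≤ cutL m0 s j → |R' * g| ≤ (1 / 2) ^ j := by
      intro g hg
      rw [abs_mul]
      calc |R'| * |g| ≤ 1 / (2 * π * Pp m0 Pst s (j + 1)) *
            ((1 / 2) ^ j * Pp m0 Pst s (j + 1)) := by
            gcongr
            exact hg.trans (hcD.trans (by gcongr))
        _ = (1 / 2) ^ j / (2 * π) := by field_simp
        _ ≤ (1 / 2) ^ j := by
            apply div_le_self hpow.le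
            linarith [Real.pi_gt_three]
    have e1 : M * R' * (ce * κf - cf * κe) = M * ((R' * ce) * κf - (R' * cf) * κe) := by ring
    rw [e1, abs_mul, abs_of_nonneg hM]
    have h1 := abs_pair_le (h0 ce hce) hκf (h0 cf hcf) hκe
    calc M * |R' * ce * κf - R' * cf * κe| ≤ 1 * (2 * (1 / 2) ^ j * Kk) := by gcongr
      _ = _ := one_mul _
  set mn := M * c * C' * (rho m0 j * qt ((s j).X p.1) ((s j).Y p.1)
    * (e.1.1 * f.1.2 - e.1.2 * f.1.1)) with hmn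
  have hsum : mn + M * c * (Cj - C') * (Te * κf - Tf * κe) + M * Cj * κ * (Te * cf - Tf * ce)
      + R * (Me * (c * κf + κ * cf) - Mf * (c * κe + κ * ce))
      - R' * c * (Me * κf - Mf * κe) - M * R' * (ce * κf - cf * κe) - mn
      = (M * c * (Cj - C') * (Te * κf - Tf * κe) + M * Cj * κ * (Te * cf - Tf * ce)
      + R * (Me * (c * κf + κ * cf) - Mf * (c * κe + κ * ce)))
      - R' * c * (Me * κf - Mf * κe) - M * R' * (ce * κf - cf * κe) := by ring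
  rw [hsum]
  have tot : x * (2 * 7 * Kk) + 14 * (1 / 2) ^ j + 2 * ((1 / 2) ^ j + 4 * I2) * (Kk + 1)
      + 2 * (1 / 2) ^ j * Kk + 2 * (1 / 2) ^ j * Kk ≤ KT * ((1 / 2) ^ j + x + I2) := by
    have q1 := mul_nonneg hKk.le hx
    have q2 := mul_nonneg hKk.le hpow.le
    have q3 := mul_nonneg hKk.le hI2
    have q4 : KT * ((1 / 2) ^ j + x + I2) - (x * (2 * 7 * Kk) + 14 * (1 / 2) ^ j
        + 2 * ((1 / 2) ^ j + 4 * I2) * (Kk + 1) + 2 * (1 / 2) ^ j * Kk + 2 * (1 / 2) ^ j * Kk)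
        = 9 * (1 / 2) ^ j + 19 * (Kk * (1 / 2) ^ j) + 25 * x + 11 * (Kk * x) + 17 * I2
          + 17 * (Kk * I2) := by
      unfold KT; ring
    linarith
  exact five_bound E1 E2 E3 E4 E5 tot

end Pool.Agent.H28.Lusin
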