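import Pool.Agent.H28.Lusin.Param

open MeasureTheory Set Real

namespace Pool.Agent.H28.Lusin

theorem integral_three {α : Type*} [MeasurableSpace α] {μ : Measure α} {f g h : α → ℝ}
    (hf : Integrable f μ) (hg : Integrable g μ) (hh : Integrable h μ) :
    ∫ t, (f t + g t + h t) ∂μ = ∫ t, f t ∂μ + ∫ t, g t ∂μ + ∫ t, h t ∂μ := by
  have hfg : Integrable (fun t => f t + g t) μ := hf.add hg
  rw [integral_add hfg hh, integral_add hf hg]

theorem integral_sq_shift {f : ℝ × ℝ → ℝ} (hf : Measurable f) {C : ℝ} (hC : ∀ x, |f x| ≤ C)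
    (h1 : ∀ X Y, f (X + 1, Y) = f (X, Y)) (h2 : ∀ X Y, f (X, Y + 1) = f (X, Y))
    (h0 : ∫ t, f t ∂Tor = 0) {B : ℝ} (hB : ∫ t, f t ^ 2 ∂Tor ≤ B) (a r : ℝ) (c : ℝ × ℝ) :
    Integrable (fun t : ℝ × ℝ => (a + r * f (c.1 + t.1, c.2 + t.2)) ^ 2) Tor ∧
    ∫ t : ℝ × ℝ, (a + r * f (c.1 + t.1, c.2 + t.2)) ^ 2 ∂Tor ≤ a ^ 2 + r ^ 2 * B := by
  have hm : Measurable fun t : ℝ × ℝ => f (c.1 + t.1, c.2 + t.2) :=
    hf.comp ((measurable_fst.const_add c.1).prodMk (measurable_snd.const_add c.2))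
  have hi1 : Integrable (fun t : ℝ × ℝ => f (c.1 + t.1, c.2 + t.2)) Tor :=
    integrable_of_bdd hm fun x => hC _
  have hi2 : Integrable (fun t : ℝ × ℝ => f (c.1 + t.1, c.2 + t.2) ^ 2) Tor := by
    refine integrable_of_bdd (hm.pow_const 2) (C := C ^ 2) fun x => ?_
    rw [abs_pow]
    gcongr
    exact hC _
  have e1 : ∫ t : ℝ × ℝ, f (c.1 + t.1, c.2 + t.2) ∂Tor = 0 := by
    rw [integral_Tor_add hf hC h1 h2, h0]
  have e2 : ∫ t : ℝ × ℝ, f (c.1 + t.1, c.2 + t.2) ^ 2 ∂Tor = ∫ t, f t ^ 2 ∂Tor := by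
    apply integral_Tor_add (f := fun t => f t ^ 2) (hf.pow_const 2) (C := C ^ 2)
    · intro x
      rw [abs_pow]
      gcongr
      exact hC _
    · intro X Y; simp only [h1]
    · intro X Y; simp only [h2]
  have e3 : ∀ t : ℝ × ℝ, (a + r * f (c.1 + t.1, c.2 + t.2)) ^ 2
      = a ^ 2 + (2 * a * r) * f (c.1 + t.1, c.2 + t.2) + r ^ 2 * f (c.1 + t.1, c.2 + t.2) ^ 2 := by
    intro t; ring
  have ha : Integrable (fun _ : ℝ × ℝ => a ^ 2) Tor := integrable_const _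
  have hb : Integrable (fun t : ℝ × ℝ => (2 * a * r) * f (c.1 + t.1, c.2 + t.2)) Tor :=
    hi1.const_mul _
  have hd : Integrable (fun t : ℝ × ℝ => r ^ 2 * f (c.1 + t.1, c.2 + t.2) ^ 2) Tor :=
    hi2.const_mul _
  simp_rw [e3]
  refine ⟨(ha.add hb).add hd, ?_⟩
  rw [integral_three ha hb hd, integral_const_mul, integral_const_mul, e1, e2]
  simp only [integral_const, probReal_univ, one_smul, mul_zero, add_zero]
  gcongr

theorem measurable_joint {f : ℝ × ℝ → ℝ} (hf : Measurable f) (D : ℝ) :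
    Measurable fun p : (ℝ × ℝ) × (ℝ × ℝ) => f (D * p.2.1 + p.1.1, D * p.2.2 + p.1.2) :=
  hf.comp (by fun_prop)

variable (m0 : ℕ)

theorem Fu_update (s : ℕ → Lev) {i j : ℕ} (hij : i ≤ j) (D : ℕ) (t u : ℝ × ℝ) :
    Fu m0 (Function.update s j ⟨D, t.1, t.2⟩) i (j + 1) u =
      (∑ l ∈ Finset.Ico i j, S1 m0 s l u
        + rho m0 j * (fun p : ℝ × ℝ => sX (ep m0 j) p.1 p.2) (D * u.1 + t.1, D * u.2 + t.2)) ^ 2
      + (∑ l ∈ Finset.Ico i j, S2 m0 s l u
        + rho m0 j * (fun p : ℝ × ℝ => sY (ep m0 j) p.1 p.2) (D * u.1 + t.1, D * u.2 + t.2)) ^ 2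
      + (∑ l ∈ Finset.Ico i j, Qc m0 s l u
        + rho m0 j * (fun p : ℝ × ℝ => qt p.1 p.2 - cbar) (D * u.1 + t.1, D * u.2 + t.2)) ^ 2
      + (∑ l ∈ Finset.Ico i j, St m0 s l u
        + (fun p : ℝ × ℝ => strip (ep m0 j) p.1 p.2) (D * u.1 + t.1, D * u.2 + t.2)) := by
  have hne : ∀ l ∈ Finset.Ico i j, Function.update s j (⟨D, t.1, t.2⟩ : Lev) l = s l := by
    intro l hl
    rw [Finset.mem_Ico] at hl
    exact Function.update_of_ne (by omega) _ _
  have hself : Function.update s j (⟨D, t.1, t.2⟩ : Lev) j = ⟨D, t.1, t.2⟩ :=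
    Function.update_self _ _ _
  unfold Fu
  rw [Finset.sum_Ico_succ_top hij, Finset.sum_Ico_succ_top hij, Finset.sum_Ico_succ_top hij,
    Finset.sum_Ico_succ_top hij]
  rw [Finset.sum_congr rfl fun l hl => show S1 m0 (Function.update s j ⟨D, t.1, t.2⟩) l u
        = S1 m0 s l u by unfold S1; rw [hne l hl],
    Finset.sum_congr rfl fun l hl => show S2 m0 (Function.update s j ⟨D, t.1, t.2⟩) l u
        = S2 m0 s l u by unfold S2; rw [hne l hl],
    Finset.sum_congr rfl fun l hl => show Qc m0 (Function.update s j ⟨D, t.1, t.2⟩) l u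
        = Qc m0 s l u by unfold Qc; rw [hne l hl],
    Finset.sum_congr rfl fun l hl => show St m0 (Function.update s j ⟨D, t.1, t.2⟩) l u
        = St m0 s l u by unfold St; rw [hne l hl]]
  simp only [S1, S2, Qc, St, hself, Lev.X, Lev.Y]

theorem measurable_joint_Fu (s : ℕ → Lev) {i j : ℕ} (hij : i ≤ j) (D : ℕ) :
    Measurable fun p : (ℝ × ℝ) × (ℝ × ℝ) =>
      Fu m0 (Function.update s j ⟨D, p.1.1, p.1.2⟩) i (j + 1) p.2 := by
  have a1 : Measurable fun p : (ℝ × ℝ) × (ℝ × ℝ) => ∑ l ∈ Finset.Ico i j, S1 m0 s l p.2 :=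
    Finset.measurable_fun_sum _ fun l _ => (measurable_S1 m0 s l).comp measurable_snd
  have a2 : Measurable fun p : (ℝ × ℝ) × (ℝ × ℝ) => ∑ l ∈ Finset.Ico i j, S2 m0 s l p.2 :=
    Finset.measurable_fun_sum _ fun l _ => (measurable_S2 m0 s l).comp measurable_snd
  have a3 : Measurable fun p : (ℝ × ℝ) × (ℝ × ℝ) => ∑ l ∈ Finset.Ico i j, Qc m0 s l p.2 :=
    Finset.measurable_fun_sum _ fun l _ => (measurable_Qc m0 s l).comp measurable_snd
  have a4 : Measurable fun p : (ℝ × ℝ) × (ℝ × ℝ) => ∑ l ∈ Finset.Ico i j, St m0 s l p.2 :=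
    Finset.measurable_fun_sum _ fun l _ => (measurable_St m0 s l).comp measurable_snd
  have b1 := measurable_joint (measurable_sX (ep m0 j)) D
  have b2 := measurable_joint (measurable_sY (ep m0 j)) D
  have b3 := measurable_joint (f := fun p : ℝ × ℝ => qt p.1 p.2 - cbar)
    (measurable_qt.sub_const _) D
  have b4 := measurable_joint (measurable_strip (ep m0 j)) D
  have h : (fun p : (ℝ × ℝ) × (ℝ × ℝ) =>
      Fu m0 (Function.update s j ⟨D, p.1.1, p.1.2⟩) i (j + 1) p.2) = fun p =>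
      (∑ l ∈ Finset.Ico i j, S1 m0 s l p.2 + rho m0 j *
        (fun p : ℝ × ℝ => sX (ep m0 j) p.1 p.2) (D * p.2.1 + p.1.1, D * p.2.2 + p.1.2)) ^ 2
      + (∑ l ∈ Finset.Ico i j, S2 m0 s l p.2 + rho m0 j *
        (fun p : ℝ × ℝ => sY (ep m0 j) p.1 p.2) (D * p.2.1 + p.1.1, D * p.2.2 + p.1.2)) ^ 2
      + (∑ l ∈ Finset.Ico i j, Qc m0 s l p.2 + rho m0 j *
        (fun p : ℝ × ℝ => qt p.1 p.2 - cbar) (D * p.2.1 + p.1.1, D * p.2.2 + p.1.2)) ^ 2
      + (∑ l ∈ Finset.Ico i j, St m0 s l p.2 +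
        (fun p : ℝ × ℝ => strip (ep m0 j) p.1 p.2) (D * p.2.1 + p.1.1, D * p.2.2 + p.1.2)) := by
    funext p
    exact Fu_update m0 s hij D p.1 p.2
  rw [h]
  exact ((((a1.add (b1.const_mul _)).pow_const 2).add ((a2.add (b2.const_mul _)).pow_const 2)).add
    ((a3.add (b3.const_mul _)).pow_const 2)).add (a4.add b4)

theorem Fu_update_avg (s : ℕ → Lev) {i j : ℕ} (hij : i ≤ j) (D : ℕ) (u : ℝ × ℝ) :
    ∫ t : ℝ × ℝ, Fu m0 (Function.update s j ⟨D, t.1, t.2⟩) i (j + 1) u ∂Tor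
      ≤ Fu m0 s i j u + gain m0 j := by
  have hε : 0 < ep m0 j := ep_pos m0 j
  simp_rw [Fu_update m0 s hij D]
  have q1 := integral_sq_shift (measurable_sX (ep m0 j)) (fun x => abs_sX_le hε x.1 x.2)
    (fun X Y => sX_add_left _ X Y) (fun X Y => sX_add_right _ X Y) (integral_sX hε)
    (integral_sX_sq_le (KK m0 j)) (∑ l ∈ Finset.Ico i j, S1 m0 s l u) (rho m0 j)
    ((D : ℝ) * u.1, (D : ℝ) * u.2)
  have q2 := integral_sq_shift (measurable_sY (ep m0 j)) (fun x => abs_sY_le hε x.1 x.2)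
    (fun X Y => sY_add_left _ X Y) (fun X Y => sY_add_right _ X Y) (integral_sY hε)
    (integral_sY_sq_le (KK m0 j)) (∑ l ∈ Finset.Ico i j, S2 m0 s l u) (rho m0 j)
    ((D : ℝ) * u.1, (D : ℝ) * u.2)
  have hqm : Measurable fun p : ℝ × ℝ => qt p.1 p.2 - cbar := measurable_qt.sub_const _
  have hq0 : ∫ t : ℝ × ℝ, (qt t.1 t.2 - cbar) ∂Tor = 0 := by
    rw [integral_sub (integrable_of_bdd measurable_qt (C := lamB * (2 * π)) fun x => by
          rw [abs_of_nonneg (qt_nonneg _ _)]; exact qt_le _ _) (integrable_const _)]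
    simp [cbar]
  have hq2 : ∫ t : ℝ × ℝ, (qt t.1 t.2 - cbar) ^ 2 ∂Tor ≤ Cq ^ 2 := by
    calc ∫ t : ℝ × ℝ, (qt t.1 t.2 - cbar) ^ 2 ∂Tor ≤ ∫ _, Cq ^ 2 ∂Tor := by
          apply integral_mono
          · refine integrable_of_bdd (hqm.pow_const 2) (C := Cq ^ 2) fun x => ?_
            rw [abs_pow]
            gcongr
            exact abs_qt_sub_le _ _
          · exact integrable_const _
          · intro t
            show (qt t.1 t.2 - cbar) ^ 2 ≤ Cq ^ 2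
            rw [← sq_abs]
            gcongr
            exact abs_qt_sub_le _ _
      _ = _ := by simp
  have q3 := integral_sq_shift hqm (fun x => abs_qt_sub_le x.1 x.2)
    (fun X Y => by simp only [qt_add_left]) (fun X Y => by simp only [qt_add_right]) hq0 hq2
    (∑ l ∈ Finset.Ico i j, Qc m0 s l u) (rho m0 j) ((D : ℝ) * u.1, (D : ℝ) * u.2)
  have q4 := integral_Tor_add (measurable_strip (ep m0 j)) (fun x => abs_strip_le _ x.1 x.2)
    (fun X Y => strip_add_left _ X Y) (fun X Y => strip_add_right _ X Y)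
    ((D : ℝ) * u.1, (D : ℝ) * u.2)
  have q4' := integral_strip_le hε.le
  have hmt : Measurable fun t : ℝ × ℝ => ((D : ℝ) * u.1 + t.1, (D : ℝ) * u.2 + t.2) := by fun_prop
  have i4' : Integrable (fun t : ℝ × ℝ => (fun p : ℝ × ℝ => strip (ep m0 j) p.1 p.2)
      ((D : ℝ) * u.1 + t.1, (D : ℝ) * u.2 + t.2)) Tor := by
    have hmm := (measurable_strip (ep m0 j)).comp hmt
    exact integrable_of_bdd hmm (C := 1) fun x => abs_strip_le _ _ _
  have i4 : Integrable (fun t : ℝ × ℝ => (∑ l ∈ Finset.Ico i j, St m0 s l u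
      + (fun p : ℝ × ℝ => strip (ep m0 j) p.1 p.2)
      ((D : ℝ) * u.1 + t.1, (D : ℝ) * u.2 + t.2))) Tor := (integrable_const _).add i4'
  have i3 : Integrable (fun t : ℝ × ℝ =>
      (∑ l ∈ Finset.Ico i j, S1 m0 s l u
        + rho m0 j * (fun p : ℝ × ℝ => sX (ep m0 j) p.1 p.2) (D * u.1 + t.1, D * u.2 + t.2)) ^ 2
      + (∑ l ∈ Finset.Ico i j, S2 m0 s l u
        + rho m0 j * (fun p : ℝ × ℝ => sY (ep m0 j) p.1 p.2) (D * u.1 + t.1, D * u.2 + t.2)) ^ 2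
      + (∑ l ∈ Finset.Ico i j, Qc m0 s l u
        + rho m0 j * (fun p : ℝ × ℝ => qt p.1 p.2 - cbar) (D * u.1 + t.1, D * u.2 + t.2)) ^ 2)
      Tor := (q1.1.add q2.1).add q3.1
  rw [integral_add i3 i4, integral_three q1.1 q2.1 q3.1, integral_add (integrable_const _) i4']
  have e4 : ∫ t : ℝ × ℝ, (fun p : ℝ × ℝ => strip (ep m0 j) p.1 p.2)
      ((D : ℝ) * u.1 + t.1, (D : ℝ) * u.2 + t.2) ∂Tor ≤ 2 * ep m0 j := by
    rw [q4]; exact q4'
  have e5 : ∫ _ : ℝ × ℝ, (∑ l ∈ Finset.Ico i j, St m0 s l u) ∂Tor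
      = ∑ l ∈ Finset.Ico i j, St m0 s l u := by
    simp only [integral_const, probReal_univ, one_smul]
  rw [e5]
  have hgain : gain m0 j = rho m0 j ^ 2 * (2 * ((KK m0 j : ℝ) + 1))
      + rho m0 j ^ 2 * (2 * ((KK m0 j : ℝ) + 1)) + rho m0 j ^ 2 * Cq ^ 2 + 2 * ep m0 j := by
    unfold gain; ring
  rw [hgain]
  unfold Fu
  linarith [q1.2, q2.2, q3.2, e4]

theorem exists_shift (s : ℕ → Lev) {i j : ℕ} (hij : i ≤ j) (D : ℕ) :
    ∃ t1 t2 : ℝ, FF m0 (Function.update s j ⟨D, t1, t2⟩) i (j + 1) ≤ FF m0 s i j + gain m0 j := by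
  set G : ℝ × ℝ → ℝ × ℝ → ℝ := fun t u => Fu m0 (Function.update s j ⟨D, t.1, t.2⟩) i (j + 1) u
    with hG
  have hGi : Integrable (Function.uncurry G) (Tor.prod Tor) :=
    integrable_of_bdd (measurable_joint_Fu m0 s hij D) fun x => abs_Fu_le m0 _ i (j + 1) x.2
  have hsw : ∫ t, ∫ u, G t u ∂Tor ∂Tor = ∫ u, ∫ t, G t u ∂Tor ∂Tor :=
    integral_integral_swap hGi
  have hle : ∫ t, ∫ u, G t u ∂Tor ∂Tor ≤ FF m0 s i j + gain m0 j := by
    rw [hsw]
    have hiF : Integrable (Fu m0 s i j) Tor :=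
      integrable_of_bdd (measurable_Fu m0 s i j) (abs_Fu_le m0 s i j)
    calc ∫ u, ∫ t, G t u ∂Tor ∂Tor ≤ ∫ u, (Fu m0 s i j u + gain m0 j) ∂Tor := by
          apply integral_mono hGi.integral_prod_right
          · exact hiF.add (integrable_const _)
          · exact Fu_update_avg m0 s hij D
      _ = _ := by
          rw [integral_add hiF (integrable_const _)]
          simp [FF]
  obtain ⟨t, ht⟩ := exists_le_integral (μ := Tor) hGi.integral_prod_left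
  exact ⟨t.1, t.2, ht.trans hle⟩

end Pool.Agent.H28.Lusin
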