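import Pool.Agent.H28.Lusin.Blocks

open MeasureTheory Set Real Filter
open scoped ContDiff Topology ENNReal ComplexConjugate

namespace Pool.Agent.H28.Lusin

variable {m0 Pst : ℕ} {s : ℕ → Lev}

/-! ### Measurability of the slopes -/

theorem measurable_V1 (s : ℕ → Lev) (j : ℕ) : Measurable (V1 m0 s j) := by
  unfold V1
  exact (measurable_comp_XY measurable_thX (s j)).const_mul _

theorem measurable_V2 (s : ℕ → Lev) (j : ℕ) : Measurable (V2 m0 s j) := by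
  unfold V2
  have h : Measurable fun p : ℝ × ℝ => thY p.1 p.2 := by
    have : (fun p : ℝ × ℝ => thY p.1 p.2) = fun p => -(fun q : ℝ × ℝ => thX q.1 q.2) (p.2, p.1) := by
      funext p; exact thY_eq _ _
    rw [this]
    exact ((measurable_thX).comp measurable_swap).neg
  exact (measurable_comp_XY h (s j)).const_mul _

theorem measurableSet_Gs : MeasurableSet (Gs m0 s) := by
  have hX : ∀ l, Measurable fun u : ℝ × ℝ => |fa ((s l).X u)| := fun l =>
    (measurable_fa.comp (s l).continuous_X.measurable).abs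
  have hY : ∀ l, Measurable fun u : ℝ × ℝ => |fa ((s l).Y u)| := fun l =>
    (measurable_fa.comp (s l).continuous_Y.measurable).abs
  have h : Gs m0 s = (Ioc (0 : ℝ) 1 ×ˢ Ioc (0 : ℝ) 1) ∩
      ((⋂ l, ({u | ep m0 l < |fa ((s l).X u)|} ∩ {u | ep m0 l < |fa ((s l).Y u)|})) ∩
      ⋂ m, ⋂ _ : m0 ≤ m,
        ({u | |∑ l ∈ Finset.Ico (bS m0 m) (bS m0 (m + 1)), V1 m0 s l u| ≤ (1 / 2) ^ (m - m0 + 2)} ∩
        {u | |∑ l ∈ Finset.Ico (bS m0 m) (bS m0 (m + 1)), V2 m0 s l u|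
          ≤ (1 / 2) ^ (m - m0 + 2)})) := by
    ext u
    simp only [Gs, mem_ofPred_eq, mem_inter_iff, mem_iInter]
  rw [h]
  refine (measurableSet_Ioc.prod measurableSet_Ioc).inter (MeasurableSet.inter ?_ ?_)
  · exact MeasurableSet.iInter fun l => (measurableSet_lt measurable_const (hX l)).inter
      (measurableSet_lt measurable_const (hY l))
  · refine MeasurableSet.iInter fun m => MeasurableSet.iInter fun _ => MeasurableSet.inter ?_ ?_
    · exact measurableSet_le (Finset.measurable_fun_sum _ fun l _ => measurable_V1 s l).abs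
        measurable_const
    · exact measurableSet_le (Finset.measurable_fun_sum _ fun l _ => measurable_V2 s l).abs
        measurable_const

/-- Away from the strips the truncated slopes agree with the slopes. -/
theorem V1_eq_S1 {l : ℕ} {u : ℝ × ℝ} (h : ep m0 l ≤ |fa ((s l).Y u)|) :
    V1 m0 s l u = S1 m0 s l u := by
  unfold V1 S1 sX
  rw [if_pos h]

theorem V2_eq_S2 {l : ℕ} {u : ℝ × ℝ} (h : ep m0 l ≤ |fa ((s l).X u)|) :
    V2 m0 s l u = S2 m0 s l u := by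
  unfold V2 S2 sY
  rw [if_pos h]

/-! ### Integrability of the block sums -/

theorem integrable_sq_S1 (s : ℕ → Lev) (t : Finset ℕ) (μ : Measure (ℝ × ℝ)) [IsFiniteMeasure μ] :
    Integrable (fun u => (∑ l ∈ t, S1 m0 s l u) ^ 2) μ := by
  refine integrable_of_bdd ((Finset.measurable_fun_sum _ fun l _ => measurable_S1 m0 s l).pow_const 2)
    (C := (∑ l ∈ t, 1 / ep m0 l) ^ 2) fun u => ?_
  rw [abs_pow]
  gcongr
  exact (Finset.abs_sum_le_sum_abs _ _).trans (Finset.sum_le_sum fun l _ => abs_S1_le m0 s l u)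

theorem integrable_sq_S2 (s : ℕ → Lev) (t : Finset ℕ) (μ : Measure (ℝ × ℝ)) [IsFiniteMeasure μ] :
    Integrable (fun u => (∑ l ∈ t, S2 m0 s l u) ^ 2) μ := by
  refine integrable_of_bdd ((Finset.measurable_fun_sum _ fun l _ => measurable_S2 m0 s l).pow_const 2)
    (C := (∑ l ∈ t, 1 / ep m0 l) ^ 2) fun u => ?_
  rw [abs_pow]
  gcongr
  exact (Finset.abs_sum_le_sum_abs _ _).trans (Finset.sum_le_sum fun l _ => abs_S2_le m0 s l u)

theorem integrable_sum_Qc (s : ℕ → Lev) (t : Finset ℕ) (μ : Measure (ℝ × ℝ)) [IsFiniteMeasure μ] :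
    Integrable (fun u => ∑ l ∈ t, Qc m0 s l u) μ := by
  refine integrable_of_bdd (Finset.measurable_fun_sum _ fun l _ => measurable_Qc m0 s l)
    (C := ∑ _l ∈ t, Cq) fun u => ?_
  exact (Finset.abs_sum_le_sum_abs _ _).trans (Finset.sum_le_sum fun l _ => abs_Qc_le m0 s l u)

theorem integrable_sq_Qc (s : ℕ → Lev) (t : Finset ℕ) (μ : Measure (ℝ × ℝ)) [IsFiniteMeasure μ] :
    Integrable (fun u => (∑ l ∈ t, Qc m0 s l u) ^ 2) μ := by
  refine integrable_of_bdd ((Finset.measurable_fun_sum _ fun l _ => measurable_Qc m0 s l).pow_const 2)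
    (C := (∑ _l ∈ t, Cq) ^ 2) fun u => ?_
  rw [abs_pow]
  gcongr
  exact (Finset.abs_sum_le_sum_abs _ _).trans (Finset.sum_le_sum fun l _ => abs_Qc_le m0 s l u)

theorem integrable_sum_St (s : ℕ → Lev) (t : Finset ℕ) (μ : Measure (ℝ × ℝ)) [IsFiniteMeasure μ] :
    Integrable (fun u => ∑ l ∈ t, St m0 s l u) μ := by
  refine integrable_of_bdd (Finset.measurable_fun_sum _ fun l _ => measurable_St m0 s l)
    (C := ∑ _l ∈ t, 1) fun u => ?_
  exact (Finset.abs_sum_le_sum_abs _ _).trans (Finset.sum_le_sum fun l _ => abs_St_le m0 s l u)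

/-! ### Size of the complement of the good set -/

/-- The exceptional set of the block `m`. -/
def Ex (m0 : ℕ) (s : ℕ → Lev) (m : ℕ) : Set (ℝ × ℝ) :=
  {u | 1 ≤ ∑ l ∈ Finset.Ico (bS m0 m) (bS m0 (m + 1)), St m0 s l u} ∪
    ({u | ((1 / 2 : ℝ) ^ (m - m0 + 2)) ^ 2
        ≤ (∑ l ∈ Finset.Ico (bS m0 m) (bS m0 (m + 1)), S1 m0 s l u) ^ 2} ∪
    {u | ((1 / 2 : ℝ) ^ (m - m0 + 2)) ^ 2
        ≤ (∑ l ∈ Finset.Ico (bS m0 m) (bS m0 (m + 1)), S2 m0 s l u) ^ 2})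

theorem compl_Gs_subset :
    (Gs m0 s)ᶜ ⊆ (Ioc (0 : ℝ) 1 ×ˢ Ioc (0 : ℝ) 1)ᶜ ∪ ⋃ i, Ex m0 s (m0 + i) := by
  intro u hu
  by_contra hc
  rw [mem_union, not_or] at hc
  obtain ⟨h1, h2⟩ := hc
  rw [mem_compl_iff, not_not] at h1
  simp only [mem_iUnion, not_exists] at h2
  apply hu
  -- no strip contains the point
  have h3 : ∀ l, ep m0 l < |fa ((s l).X u)| ∧ ep m0 l < |fa ((s l).Y u)| := by
    intro l
    by_contra hl
    have hb := bS_bb_le (m0 := m0) l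
    have hle := le_bb m0 l
    apply h2 (bb m0 l - m0)
    rw [Nat.add_sub_cancel' hle]
    left
    show 1 ≤ ∑ l ∈ Finset.Ico (bS m0 (bb m0 l)) (bS m0 (bb m0 l + 1)), St m0 s l u
    have hSt : St m0 s l u = 1 := by
      unfold St strip
      rw [if_pos]
      rw [not_and_or, not_lt, not_lt] at hl
      exact hl
    calc (1 : ℝ) = St m0 s l u := hSt.symm
      _ ≤ _ := Finset.single_le_sum (f := fun l => St m0 s l u) (fun l _ => strip_nonneg _ _ _)
        (Finset.mem_Ico.2 hb)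
  refine ⟨h1, h3, fun m hm => ?_⟩
  have h4 := h2 (m - m0)
  rw [Nat.add_sub_cancel' hm] at h4
  unfold Ex at h4
  rw [mem_union, mem_union, not_or, not_or] at h4
  obtain ⟨-, h5, h6⟩ := h4
  rw [mem_ofPred_eq, not_le] at h5 h6
  have hp : (0 : ℝ) ≤ (1 / 2) ^ (m - m0 + 2) := by positivity
  constructor
  · rw [Finset.sum_congr rfl fun l _ => V1_eq_S1 (h3 l).2.le]
    exact (abs_lt_of_sq_lt_sq h5 hp).le
  · rw [Finset.sum_congr rfl fun l _ => V2_eq_S2 (h3 l).1.le]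
    exact (abs_lt_of_sq_lt_sq h6 hp).le

theorem markov {f : ℝ × ℝ → ℝ} (h0 : ∀ u, 0 ≤ f u) (hi : Integrable f Tor) {c B : ℝ} (hc : 0 < c)
    (h : ∫ u, f u ∂Tor ≤ B) : Tor.real {u | c ≤ f u} ≤ B / c := by
  have := mul_meas_ge_le_integral_of_nonneg (μ := Tor) (Eventually.of_forall h0) hi c
  rw [le_div_iff₀ hc, mul_comm]
  exact this.trans h

theorem Tor_Ex_le (hs : ∀ j, Good m0 Pst j s) (i : ℕ) :
    Tor.real (Ex m0 s (m0 + i)) ≤ 33 * Cg * (1 / 8) ^ m0 * (1 / 2) ^ i := by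
  have hm : m0 ≤ m0 + i := Nat.le_add_right _ _
  have hmono : bS m0 (m0 + i) ≤ bS m0 (m0 + i + 1) := bS_mono (Nat.le_succ _)
  have h1 := markov (f := fun u => ∑ l ∈ Finset.Ico (bS m0 (m0 + i)) (bS m0 (m0 + i + 1)), St m0 s l u)
    (fun u => Finset.sum_nonneg fun l _ => strip_nonneg _ _ _) (integrable_sum_St s _ _) one_pos
    (integral_St_le hs hm hmono le_rfl)
  have hp : (0 : ℝ) < ((1 / 2) ^ (m0 + i - m0 + 2)) ^ 2 := by positivity
  have h2 := markov (fun u => sq_nonneg _) (integrable_sq_S1 (m0 := m0) s _ _) hp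
    (integral_sq_S1_le hs hm hmono le_rfl)
  have h3 := markov (fun u => sq_nonneg _) (integrable_sq_S2 (m0 := m0) s _ _) hp
    (integral_sq_S2_le hs hm hmono le_rfl)
  have hCg := Cg_pos
  have e1 : Cg * (1 / 8) ^ (m0 + i) / ((1 / 2) ^ (m0 + i - m0 + 2)) ^ 2
      = 16 * Cg * (1 / 8) ^ m0 * (1 / 2) ^ i := by
    rw [Nat.add_sub_cancel_left, div_eq_iff (by positivity)]
    have : ((1 / 8 : ℝ)) ^ (m0 + i) = (1 / 8) ^ m0 * (((1 / 2) ^ i) ^ 2 * (1 / 2) ^ i) := by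
      rw [pow_add]
      congr 1
      rw [← pow_mul, mul_comm i 2, pow_mul, ← mul_pow]
      norm_num
    rw [this, pow_add]
    ring
  have e2 : Cg * (1 / 8) ^ (m0 + i) / 1 ≤ Cg * (1 / 8) ^ m0 * (1 / 2) ^ i := by
    rw [div_one, pow_add, mul_assoc]
    have : ((1 / 8 : ℝ)) ^ i ≤ (1 / 2) ^ i := by gcongr; norm_num
    gcongr
  rw [e1] at h2 h3
  calc Tor.real (Ex m0 s (m0 + i)) ≤ _ + (_ + _) :=
        (measureReal_union_le _ _).trans (add_le_add le_rfl (measureReal_union_le _ _))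
    _ ≤ Cg * (1 / 8) ^ m0 * (1 / 2) ^ i
        + (16 * Cg * (1 / 8) ^ m0 * (1 / 2) ^ i + 16 * Cg * (1 / 8) ^ m0 * (1 / 2) ^ i) :=
        add_le_add (h1.trans e2) (add_le_add h2 h3)
    _ = _ := by ring

theorem Tor_compl_square : Tor (Ioc (0 : ℝ) 1 ×ˢ Ioc (0 : ℝ) 1)ᶜ = 0 := by
  unfold Tor
  rw [Measure.prod_restrict, Measure.restrict_apply
    (measurableSet_Ioc.prod measurableSet_Ioc).compl, compl_inter_self, measure_empty]

/-- The good set has almost full measure. -/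
theorem Tor_compl_Gs_le (hs : ∀ j, Good m0 Pst j s) :
    Tor.real (Gs m0 s)ᶜ ≤ 66 * Cg * (1 / 8) ^ m0 := by
  have hCg := Cg_pos
  have hsum : HasSum (fun i : ℕ => 33 * Cg * (1 / 8) ^ m0 * (1 / 2) ^ i)
      (66 * Cg * (1 / 8) ^ m0) := by
    have := (hasSum_geometric_two).mul_left (33 * Cg * (1 / 8) ^ m0)
    rwa [show 33 * Cg * (1 / 8) ^ m0 * 2 = 66 * Cg * (1 / 8) ^ m0 by ring] at this
  have h1 : Tor (Gs m0 s)ᶜ ≤ ENNReal.ofReal (66 * Cg * (1 / 8) ^ m0) := by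
    calc Tor (Gs m0 s)ᶜ ≤ Tor ((Ioc (0 : ℝ) 1 ×ˢ Ioc (0 : ℝ) 1)ᶜ ∪ ⋃ i, Ex m0 s (m0 + i)) :=
          measure_mono compl_Gs_subset
      _ ≤ Tor (Ioc (0 : ℝ) 1 ×ˢ Ioc (0 : ℝ) 1)ᶜ + Tor (⋃ i, Ex m0 s (m0 + i)) :=
          measure_union_le _ _
      _ = Tor (⋃ i, Ex m0 s (m0 + i)) := by rw [Tor_compl_square, zero_add]
      _ ≤ ∑' i, Tor (Ex m0 s (m0 + i)) := measure_iUnion_le _
      _ ≤ ∑' i, ENNReal.ofReal (33 * Cg * (1 / 8) ^ m0 * (1 / 2) ^ i) := by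
          apply ENNReal.tsum_le_tsum
          intro i
          rw [← ofReal_measureReal]
          exact ENNReal.ofReal_le_ofReal (Tor_Ex_le hs i)
      _ = ENNReal.ofReal (66 * Cg * (1 / 8) ^ m0) := by
          rw [← ENNReal.ofReal_tsum_of_nonneg (fun i => by positivity) hsum.summable,
            hsum.tsum_eq]
  rw [Measure.real]
  exact ENNReal.toReal_le_of_le_ofReal (by positivity) h1

/-! ### The cutoffs on the good set -/

theorem sum_blocks_le {f : ℕ → ℝ} {k : ℕ}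
    (h : ∀ m, m0 ≤ m → |∑ l ∈ Finset.Ico (bS m0 m) (bS m0 (m + 1)), f l| ≤ (1 / 2) ^ (m - m0 + 2)) :
    |∑ l ∈ Finset.range (bS m0 (m0 + k)), f l| ≤ 1 / 2 - (1 / 2) ^ (k + 1) := by
  induction k with
  | zero => simp [bS_self]
  | succ k ih =>
    have hmono : bS m0 (m0 + k) ≤ bS m0 (m0 + k + 1) := bS_mono (Nat.le_succ _)
    have h1 : ∑ l ∈ Finset.range (bS m0 (m0 + (k + 1))), f l
        = ∑ l ∈ Finset.range (bS m0 (m0 + k)), f l
          + ∑ l ∈ Finset.Ico (bS m0 (m0 + k)) (bS m0 (m0 + k + 1)), f l := by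
      rw [Finset.range_eq_Ico, Finset.range_eq_Ico]
      exact (Finset.sum_Ico_consecutive _ (Nat.zero_le _) hmono).symm
    rw [h1]
    have h2 := h (m0 + k) (Nat.le_add_right _ _)
    rw [Nat.add_sub_cancel_left] at h2
    calc _ ≤ _ := abs_add_le _ _
      _ ≤ (1 / 2 - (1 / 2) ^ (k + 1)) + (1 / 2) ^ (k + 2) := add_le_add ih h2
      _ = _ := by ring

theorem sum_range_split {f : ℕ → ℝ} {m j : ℕ} (h1 : bS m0 m ≤ j) :
    ∑ l ∈ Finset.range j, f l
      = ∑ l ∈ Finset.range (bS m0 m), f l + ∑ l ∈ Finset.Ico (bS m0 m) j, f l := by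
  rw [Finset.range_eq_Ico, Finset.range_eq_Ico]
  exact (Finset.sum_Ico_consecutive _ (Nat.zero_le _) h1).symm

theorem one_sub_cut_le {m j : ℕ} (hm : m0 ≤ m) (h1 : bS m0 m ≤ j) {u : ℝ × ℝ}
    (hu : u ∈ Gs m0 s) :
    1 - cut m0 s j u ≤ (∑ l ∈ Finset.Ico (bS m0 m) j, S1 m0 s l u) ^ 2
      + (∑ l ∈ Finset.Ico (bS m0 m) j, S2 m0 s l u) ^ 2 := by
  obtain ⟨hu1, hu2, hu3⟩ := hu
  have hsq1 := sq_nonneg (∑ l ∈ Finset.Ico (bS m0 m) j, S1 m0 s l u)
  have hsq2 := sq_nonneg (∑ l ∈ Finset.Ico (bS m0 m) j, S2 m0 s l u)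
  have hcut0 := cut_nonneg m0 s j u
  have hb1 := sum_blocks_le (f := fun l => V1 m0 s l u) (k := m - m0) fun m hm => (hu3 m hm).1
  have hb2 := sum_blocks_le (f := fun l => V2 m0 s l u) (k := m - m0) fun m hm => (hu3 m hm).2
  rw [Nat.add_sub_cancel' hm] at hb1 hb2
  have hp : (0 : ℝ) < (1 / 2) ^ (m - m0 + 1) := by positivity
  have e1 : ∑ l ∈ Finset.Ico (bS m0 m) j, S1 m0 s l u = ∑ l ∈ Finset.Ico (bS m0 m) j, V1 m0 s l u :=
    (Finset.sum_congr rfl fun l _ => V1_eq_S1 (hu2 l).2.le).symm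
  have e2 : ∑ l ∈ Finset.Ico (bS m0 m) j, S2 m0 s l u = ∑ l ∈ Finset.Ico (bS m0 m) j, V2 m0 s l u :=
    (Finset.sum_congr rfl fun l _ => V2_eq_S2 (hu2 l).1.le).symm
  by_cases hV1 : |VV1 m0 s j u| ≤ 2
  · by_cases hV2 : |VV2 m0 s j u| ≤ 2
    · rw [cut_eq_one m0 ⟨Ioc_subset_Icc_self hu1.1, Ioc_subset_Icc_self hu1.2⟩ (fun l _ => ?_) hV1 hV2]
      · linarith
      · unfold Lev.sq
        have h5 := (hu2 l).1
        have h6 := ep_pos m0 l
        have h7 : ep m0 l ^ 2 ≤ |fa ((s l).X u)| ^ 2 := by gcongr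
        rw [sq_abs] at h7
        nlinarith [sq_nonneg (fa ((s l).Y u))]
    · rw [not_le] at hV2
      unfold VV2 at hV2
      rw [sum_range_split h1] at hV2
      have h8 : 1 < |∑ l ∈ Finset.Ico (bS m0 m) j, V2 m0 s l u| := by
        have := abs_add_le (∑ l ∈ Finset.range (bS m0 m), V2 m0 s l u)
          (∑ l ∈ Finset.Ico (bS m0 m) j, V2 m0 s l u)
        linarith
      rw [← e2] at h8
      have h9 : 1 ≤ (∑ l ∈ Finset.Ico (bS m0 m) j, S2 m0 s l u) ^ 2 := by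
        rw [← sq_abs]
        nlinarith
      linarith
  · rw [not_le] at hV1
    unfold VV1 at hV1
    rw [sum_range_split h1] at hV1
    have h8 : 1 < |∑ l ∈ Finset.Ico (bS m0 m) j, V1 m0 s l u| := by
      have := abs_add_le (∑ l ∈ Finset.range (bS m0 m), V1 m0 s l u)
        (∑ l ∈ Finset.Ico (bS m0 m) j, V1 m0 s l u)
      linarith
    rw [← e1] at h8
    have h9 : 1 ≤ (∑ l ∈ Finset.Ico (bS m0 m) j, S1 m0 s l u) ^ 2 := by
      rw [← sq_abs]
      nlinarith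
    linarith

theorem measurable_cut (s : ℕ → Lev) (j : ℕ) : Measurable (cut m0 s j) :=
  (contDiff_cut m0 s j).continuous.measurable

theorem integrable_cut (s : ℕ → Lev) (j : ℕ) (μ : Measure (ℝ × ℝ)) [IsFiniteMeasure μ] :
    Integrable (cut m0 s j) μ :=
  integrable_of_bdd (measurable_cut s j) (C := 1) fun u => by
    rw [abs_of_nonneg (cut_nonneg m0 s j u)]; exact cut_le_one m0 s j u

/-- On the good set the cutoffs are equal to one up to a small error. -/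
theorem integral_one_sub_cut_le (hs : ∀ j, Good m0 Pst j s) {m j : ℕ} (hm : m0 ≤ m)
    (h1 : bS m0 m ≤ j) (h2 : j < bS m0 (m + 1)) :
    ∫ u in Gs m0 s, (1 - cut m0 s j u) ∂Tor ≤ 2 * Cg * (1 / 8) ^ m := by
  calc ∫ u in Gs m0 s, (1 - cut m0 s j u) ∂Tor
      ≤ ∫ u in Gs m0 s, ((∑ l ∈ Finset.Ico (bS m0 m) j, S1 m0 s l u) ^ 2
      + (∑ l ∈ Finset.Ico (bS m0 m) j, S2 m0 s l u) ^ 2) ∂Tor := by
        apply setIntegral_mono_on ((integrable_const _).sub (integrable_cut s j _))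
          ((integrable_sq_S1 s _ _).add (integrable_sq_S2 s _ _)) measurableSet_Gs
        intro u hu
        exact one_sub_cut_le hm h1 hu
    _ ≤ ∫ u, ((∑ l ∈ Finset.Ico (bS m0 m) j, S1 m0 s l u) ^ 2
      + (∑ l ∈ Finset.Ico (bS m0 m) j, S2 m0 s l u) ^ 2) ∂Tor := by
        apply setIntegral_le_integral ((integrable_sq_S1 s _ _).add (integrable_sq_S2 s _ _))
        exact Eventually.of_forall fun u => add_nonneg (sq_nonneg _) (sq_nonneg _)
    _ = ∫ u, (∑ l ∈ Finset.Ico (bS m0 m) j, S1 m0 s l u) ^ 2 ∂Tor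
      + ∫ u, (∑ l ∈ Finset.Ico (bS m0 m) j, S2 m0 s l u) ^ 2 ∂Tor :=
        integral_add (integrable_sq_S1 s _ _) (integrable_sq_S2 s _ _)
    _ ≤ Cg * (1 / 8) ^ m + Cg * (1 / 8) ^ m :=
        add_le_add (integral_sq_S1_le hs hm h1 h2.le) (integral_sq_S2_le hs hm h1 h2.le)
    _ = _ := by ring

/-! ### The principal coefficient -/

theorem measurable_Mn (a b : ℕ) : Measurable (Mn m0 s a b) := by
  unfold Mn
  exact Finset.measurable_fun_sum _ fun l _ =>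
    ((measurable_comp_XY measurable_qt (s l)).const_mul _).mul (measurable_cut s l)

theorem exists_Mn_bound (m0 : ℕ) : ∃ C : ℝ, ∀ (s : ℕ → Lev) (m : ℕ), m0 ≤ m → ∀ u,
    |Mn m0 s (bS m0 m) (bS m0 (m + 1)) u| ≤ C := by
  refine ⟨15 * Cq, fun s m hm u => ?_⟩
  unfold Mn
  rw [abs_of_nonneg (Finset.sum_nonneg fun l _ => mul_nonneg (mul_nonneg (rho_pos m0 l).le
    (qt_nonneg _ _)) (cut_nonneg _ _ _ _))]
  rw [← sum_rho_block (m0 := m0) hm, Finset.sum_mul]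
  apply Finset.sum_le_sum
  intro l _
  have h1 := rho_pos m0 l
  have h2 : qt ((s l).X u) ((s l).Y u) ≤ Cq := qt_le _ _
  have h3 := qt_nonneg ((s l).X u) ((s l).Y u)
  have h4 := cut_le_one m0 s l u
  have h5 := cut_nonneg m0 s l u
  have h6 := Cq_pos
  calc rho m0 l * qt ((s l).X u) ((s l).Y u) * cut m0 s l u
      ≤ rho m0 l * Cq * 1 := by gcongr
    _ = _ := mul_one _

/-- The error made by inserting the cutoffs. -/
theorem Mn_sub (s : ℕ → Lev) {m : ℕ} (hm : m0 ≤ m) (u : ℝ × ℝ) :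
    |Mn m0 s (bS m0 m) (bS m0 (m + 1)) u - 15 * cbar|
      ≤ |∑ l ∈ Finset.Ico (bS m0 m) (bS m0 (m + 1)), Qc m0 s l u|
        + ∑ l ∈ Finset.Ico (bS m0 m) (bS m0 (m + 1)), rho m0 l * Cq * (1 - cut m0 s l u) := by
  have h1 : Mn m0 s (bS m0 m) (bS m0 (m + 1)) u - 15 * cbar
      = ∑ l ∈ Finset.Ico (bS m0 m) (bS m0 (m + 1)), Qc m0 s l u
        - ∑ l ∈ Finset.Ico (bS m0 m) (bS m0 (m + 1)),
            rho m0 l * qt ((s l).X u) ((s l).Y u) * (1 - cut m0 s l u) := by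
    rw [← sum_rho_block (m0 := m0) hm, Finset.sum_mul]
    unfold Mn Qc
    rw [← Finset.sum_sub_distrib, ← Finset.sum_sub_distrib]
    apply Finset.sum_congr rfl
    intro l _
    ring
  rw [h1]
  refine (abs_sub _ _).trans (add_le_add le_rfl ?_)
  have hnn : ∀ l, 0 ≤ rho m0 l * qt ((s l).X u) ((s l).Y u) * (1 - cut m0 s l u) := fun l =>
    mul_nonneg (mul_nonneg (rho_pos m0 l).le (qt_nonneg _ _))
      (sub_nonneg.2 (cut_le_one _ _ _ _))
  rw [abs_of_nonneg (Finset.sum_nonneg fun l _ => hnn l)]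
  apply Finset.sum_le_sum
  intro l _
  have h2 := rho_pos m0 l
  have h3 : qt ((s l).X u) ((s l).Y u) ≤ Cq := qt_le _ _
  have h4 : 0 ≤ 1 - cut m0 s l u := sub_nonneg.2 (cut_le_one _ _ _ _)
  gcongr

/-- The principal coefficient converges to `15 cbar` in `L¹` of the good set. -/
theorem exists_Mn_L1 (hs : ∀ j, Good m0 Pst j s) : ∃ C : ℝ, ∀ m, m0 ≤ m →
    ∫ u in Gs m0 s, |Mn m0 s (bS m0 m) (bS m0 (m + 1)) u - 15 * cbar| ∂Tor
      ≤ C * (1 / 2) ^ m := by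
  refine ⟨(1 + Cg) / 2 + 30 * Cq * Cg, fun m hm => ?_⟩
  have hCg := Cg_pos
  have hCq := Cq_pos
  have hmono : bS m0 m ≤ bS m0 (m + 1) := bS_mono (Nat.le_succ _)
  set I := Finset.Ico (bS m0 m) (bS m0 (m + 1)) with hI
  obtain ⟨C0, hC0⟩ := exists_Mn_bound m0
  have hiM : Integrable (fun u => |Mn m0 s (bS m0 m) (bS m0 (m + 1)) u - 15 * cbar|)
      (Tor.restrict (Gs m0 s)) :=
    ((integrable_of_bdd (measurable_Mn _ _) (hC0 s m hm)).sub (integrable_const _)).abs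
  have hiQ : Integrable (fun u => |∑ l ∈ I, Qc m0 s l u|) Tor := (integrable_sum_Qc s _ _).abs
  have hic : ∀ l ∈ I, Integrable (fun u => rho m0 l * Cq * (1 - cut m0 s l u))
      (Tor.restrict (Gs m0 s)) := fun l _ =>
    ((integrable_const _).sub (integrable_cut s l _)).const_mul _
  have hpow : (1 / 8 : ℝ) ^ m ≤ (1 / 2) ^ m := by gcongr; norm_num
  -- first term
  have hQ : ∫ u, |∑ l ∈ I, Qc m0 s l u| ∂Tor ≤ (1 + Cg) / 2 * (1 / 2) ^ m := by
    have hp : (0 : ℝ) < (1 / 2) ^ m := by positivity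
    have hle : ∀ u, |∑ l ∈ I, Qc m0 s l u|
        ≤ (1 / 2) ^ m / 2 + (2 : ℝ) ^ m / 2 * (∑ l ∈ I, Qc m0 s l u) ^ 2 := by
      intro u
      have h2 : (2 : ℝ) ^ m = 1 / (1 / 2) ^ m := by
        rw [one_div_pow, one_div_one_div]
      rw [h2, ← sq_abs (∑ l ∈ I, Qc m0 s l u)]
      set x := |∑ l ∈ I, Qc m0 s l u|
      set d := (1 / 2 : ℝ) ^ m
      have : d / 2 + 1 / d / 2 * x ^ 2 - x = (d - x) ^ 2 / (2 * d) := by
        field_simp
        ring
      have h3 : 0 ≤ (d - x) ^ 2 / (2 * d) := by positivity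
      linarith
    calc ∫ u, |∑ l ∈ I, Qc m0 s l u| ∂Tor
        ≤ ∫ u, ((1 / 2) ^ m / 2 + (2 : ℝ) ^ m / 2 * (∑ l ∈ I, Qc m0 s l u) ^ 2) ∂Tor :=
          integral_mono hiQ ((integrable_const _).add ((integrable_sq_Qc s _ _).const_mul _)) hle
      _ = (1 / 2) ^ m / 2 + (2 : ℝ) ^ m / 2 * ∫ u, (∑ l ∈ I, Qc m0 s l u) ^ 2 ∂Tor := by
          rw [integral_add (integrable_const _) ((integrable_sq_Qc s _ _).const_mul _),
            integral_const, integral_const_mul]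
          simp
      _ ≤ (1 / 2) ^ m / 2 + (2 : ℝ) ^ m / 2 * (Cg * (1 / 8) ^ m) := by
          gcongr
          exact integral_sq_Qc_le hs hm hmono le_rfl
      _ = (1 / 2) ^ m / 2 + Cg / 2 * (2 ^ m * (1 / 8) ^ m) := by ring
      _ = (1 / 2) ^ m / 2 + Cg / 2 * (1 / 4) ^ m := by
          rw [← mul_pow]; norm_num
      _ ≤ (1 / 2) ^ m / 2 + Cg / 2 * (1 / 2) ^ m := by
          have : (1 / 4 : ℝ) ^ m ≤ (1 / 2) ^ m := by gcongr; norm_num
          gcongr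
      _ = _ := by ring
  calc ∫ u in Gs m0 s, |Mn m0 s (bS m0 m) (bS m0 (m + 1)) u - 15 * cbar| ∂Tor
      ≤ ∫ u in Gs m0 s, (|∑ l ∈ I, Qc m0 s l u|
          + ∑ l ∈ I, rho m0 l * Cq * (1 - cut m0 s l u)) ∂Tor :=
        integral_mono hiM (hiQ.restrict.add (integrable_finsetSum _ hic)) (Mn_sub s hm)
    _ = ∫ u in Gs m0 s, |∑ l ∈ I, Qc m0 s l u| ∂Tor
          + ∑ l ∈ I, rho m0 l * Cq * ∫ u in Gs m0 s, (1 - cut m0 s l u) ∂Tor := by
        rw [integral_add hiQ.restrict (integrable_finsetSum _ hic), integral_finsetSum _ hic]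
        simp_rw [integral_const_mul]
    _ ≤ ∫ u, |∑ l ∈ I, Qc m0 s l u| ∂Tor
          + ∑ l ∈ I, rho m0 l * Cq * (2 * Cg * (1 / 8) ^ m) := by
        apply add_le_add
        · exact setIntegral_le_integral hiQ (Eventually.of_forall fun u => abs_nonneg _)
        · apply Finset.sum_le_sum
          intro l hl
          rw [hI, Finset.mem_Ico] at hl
          have := rho_pos m0 l
          gcongr
          exact integral_one_sub_cut_le hs hm hl.1 hl.2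
    _ = ∫ u, |∑ l ∈ I, Qc m0 s l u| ∂Tor + 30 * Cq * Cg * (1 / 8) ^ m := by
        simp_rw [mul_assoc]
        rw [← Finset.sum_mul, sum_rho_block hm]
        ring
    _ ≤ (1 + Cg) / 2 * (1 / 2) ^ m + 30 * Cq * Cg * (1 / 2) ^ m := by gcongr
    _ = _ := by ring

end Pool.Agent.H28.Lusin
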