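import Pool.Agent.H28.Lusin.Levels

open MeasureTheory Set Real Filter
open scoped ContDiff Topology ENNReal ComplexConjugate

namespace Pool.Agent.H28.Lusin

variable (m0 Pst : ℕ) (s : ℕ → Lev)

/-! ### Periods, blocks, the good set -/

/-- The vertical period of level `j`. -/
noncomputable def pj (j : ℕ) : ℝ := 1 / (Pp m0 Pst s (j + 1) : ℝ)

/-- First index of the block `m`. -/
def bS (m : ℕ) : ℕ := 16 ^ m - 16 ^ m0

/-- Constant of the block estimates. -/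
noncomputable def Cg : ℝ := 15 * (22 + Cq ^ 2)

/-- The good set. -/
def Gs : Set (ℝ × ℝ) :=
  {u | u ∈ Ioc (0 : ℝ) 1 ×ˢ Ioc (0 : ℝ) 1 ∧
    (∀ l, ep m0 l < |fa ((s l).X u)| ∧ ep m0 l < |fa ((s l).Y u)|) ∧
    ∀ m, m0 ≤ m →
      |∑ l ∈ Finset.Ico (bS m0 m) (bS m0 (m + 1)), V1 m0 s l u| ≤ (1 / 2) ^ (m - m0 + 2) ∧
      |∑ l ∈ Finset.Ico (bS m0 m) (bS m0 (m + 1)), V2 m0 s l u| ≤ (1 / 2) ^ (m - m0 + 2)}

/-! ### Branches of the argument -/

/-- The argument of `fa X + i fa Y` divided by `2π`; smooth in `X` for fixed `Y`. -/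
noncomputable def th1 (ε X Y : ℝ) : ℝ :=
  if ε ≤ |fa Y| then Complex.arg ⟨fa X, fa Y⟩ / (2 * π) else 0

/-- Another branch; smooth in `Y` for fixed `X`. -/
noncomputable def th2 (ε X Y : ℝ) : ℝ :=
  if ε ≤ |fa X| then (if 0 < fa X then Complex.arg ⟨fa X, fa Y⟩ / (2 * π)
    else 1 / 2 + Complex.arg ⟨-fa X, -fa Y⟩ / (2 * π)) else 0

/-- Height function, first branch. -/
noncomputable def g1 (u : ℝ × ℝ) : ℝ :=
  ∑' j, pj m0 Pst s j * th1 (ep m0 j) ((s j).X u) ((s j).Y u)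

/-- Height function, second branch. -/
noncomputable def g2 (u : ℝ × ℝ) : ℝ :=
  ∑' j, pj m0 Pst s j * th2 (ep m0 j) ((s j).X u) ((s j).Y u)

/-! ### Digits -/

/-- Uniform probability on `{0, ..., N-1}`. -/
noncomputable def uN (N : ℕ) : Measure ℕ :=
  ((N : ℝ≥0∞)⁻¹) • ∑ i ∈ Finset.range N, Measure.dirac i

/-- Law of the digits. -/
noncomputable def digs : Measure (ℕ → ℕ) := Measure.infinitePi fun j => uN (NN m0 j)

/-- Vertical displacement of a digit sequence. -/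
noncomputable def cd (l : ℕ → ℕ) : ℝ := ∑' j, pj m0 Pst s j * (l j : ℝ)

/-! ### Phases -/

/-- Smooth version of `w / |w|`. -/
noncomputable def Esm (ε : ℝ) (w : ℂ) : ℂ :=
  ((Real.smoothTransition ((‖w‖ ^ 2 - ε ^ 2 / 16) / (ε ^ 2 / 8)) : ℝ) : ℂ) * (w / (‖w‖ : ℂ))

/-- The complex number whose argument is used at level `j`. -/
noncomputable def Wl (j : ℕ) (u : ℝ × ℝ) : ℂ := ⟨fa ((s j).X u), fa ((s j).Y u)⟩

/-- Smooth unimodular factor of level `j`. -/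
noncomputable def El (j : ℕ) (u : ℝ × ℝ) : ℂ := Esm (ep m0 j) (Wl s j u)

/-- The phase of index `j`; it uses the levels below `j`. -/
noncomputable def ph (j : ℕ) (p : (ℝ × ℝ) × ℝ) : ℂ :=
  Complex.exp (2 * π * (Pp m0 Pst s j : ℂ) * (p.2 : ℂ) * Complex.I) *
    ∏ l ∈ Finset.range j, (conj (El m0 s l p.1)) ^ (Pp m0 Pst s j / Pp m0 Pst s (l + 1))

/-- Normalized imaginary part of the phase. -/
noncomputable def Rr (j : ℕ) (p : (ℝ × ℝ) × ℝ) : ℝ :=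
  (ph m0 Pst s j p).im / (2 * π * Pp m0 Pst s j)

/-- Real part of the phase. -/
noncomputable def Cc (j : ℕ) (p : (ℝ × ℝ) × ℝ) : ℝ := (ph m0 Pst s j p).re

/-- Multiplier of index `j`. -/
noncomputable def mm (j : ℕ) (p : (ℝ × ℝ) × ℝ) : ℝ := (1 + Cc m0 Pst s j p) / 2

/-- Product of multipliers. -/
noncomputable def Mq (a j : ℕ) (p : (ℝ × ℝ) × ℝ) : ℝ := ∏ i ∈ Finset.Ico a j, mm m0 Pst s i p

/-- The horizontal function of level `j`. -/
noncomputable def ka (j : ℕ) (u : ℝ × ℝ) : ℝ :=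
  lam (fc ((s j).X u) * fc ((s j).Y u)) / (s j).D

/-- Slope of the leaf through `p`, evaluated on the direction `e`. -/
noncomputable def Tt (j : ℕ) (e : (ℝ × ℝ) × ℝ) (u : ℝ × ℝ) : ℝ :=
  e.2 - VV1 m0 s j u * e.1.1 - VV2 m0 s j u * e.1.2

/-! ### The forms -/

/-- The one-form `A` of the levels in `[a,b)`, evaluated on the horizontal direction `f`. -/
noncomputable def Af (a b : ℕ) (f : ℝ × ℝ) (p : (ℝ × ℝ) × ℝ) : ℝ :=
  ∑ j ∈ Finset.Ico a b,
    (Mq m0 Pst s a (j + 1) p * Rr m0 Pst s j p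
        * fderiv ℝ (fun u => cut m0 s j u * ka s j u) p.1 f
      - Mq m0 Pst s a (j + 1) p * Rr m0 Pst s (j + 1) p * cut m0 s j p.1
        * fderiv ℝ (ka s j) p.1 f)

/-- The two-form `dA` evaluated on `(e,f)`. -/
noncomputable def Ff (a b : ℕ) (e f : (ℝ × ℝ) × ℝ) (p : (ℝ × ℝ) × ℝ) : ℝ :=
  fderiv ℝ (Af m0 Pst s a b f.1) p e - fderiv ℝ (Af m0 Pst s a b e.1) p f

/-- The principal coefficient of `dA`. -/
noncomputable def Mn (a b : ℕ) (u : ℝ × ℝ) : ℝ :=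
  ∑ j ∈ Finset.Ico a b, rho m0 j * qt ((s j).X u) ((s j).Y u) * cut m0 s j u

end Pool.Agent.H28.Lusin
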