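import Pool.Agent.H28.Lusin.Greedy

open MeasureTheory Set Real
open scoped ContDiff Manifold Topology

namespace Pool.Agent.H28.Lusin

variable (m0 : ℕ)

/-- Total horizontal slope of the levels below `j`. -/
noncomputable def VV1 (s : ℕ → Lev) (j : ℕ) (u : ℝ × ℝ) : ℝ := ∑ l ∈ Finset.range j, V1 m0 s l u

/-- Total vertical slope of the levels below `j`. -/
noncomputable def VV2 (s : ℕ → Lev) (j : ℕ) (u : ℝ × ℝ) : ℝ := ∑ l ∈ Finset.range j, V2 m0 s l u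

/-- The set where the cutoff of level `j` has to vanish. -/
def Zset (s : ℕ → Lev) (j : ℕ) : Set (ℝ × ℝ) :=
  (⋃ l ∈ Finset.range j, {u | (s l).sq u ≤ (ep m0 l / 2) ^ 2}) ∪
    ((Ioo (-1 : ℝ) 2 ×ˢ Ioo (-1 : ℝ) 2)ᶜ ∪
    ((⋂ l ∈ Finset.range j, {u | (ep m0 l / 2) ^ 2 ≤ (s l).sq u}) ∩
      {u | 3 ≤ |VV1 m0 s j u| ∨ 3 ≤ |VV2 m0 s j u|}))

/-- The set where the cutoff of level `j` has to be one. -/
def Oset (s : ℕ → Lev) (j : ℕ) : Set (ℝ × ℝ) :=
  (Icc (0 : ℝ) 1 ×ˢ Icc (0 : ℝ) 1) ∩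
    ((⋂ l ∈ Finset.range j, {u | ep m0 l ^ 2 ≤ (s l).sq u}) ∩
      {u | |VV1 m0 s j u| ≤ 2 ∧ |VV2 m0 s j u| ≤ 2})

theorem continuousOn_V1 (s : ℕ → Lev) (l : ℕ) {c : ℝ} (hc : 0 < c) :
    ContinuousOn (V1 m0 s l) {u | c ≤ (s l).sq u} := by
  unfold V1 thX
  apply ContinuousOn.mul continuousOn_const
  apply ContinuousOn.div
  · exact (((continuous_fa.comp (s l).continuous_Y).mul
      (continuous_fc.comp (s l).continuous_X)).neg).continuousOn
  · exact (s l).continuous_sq.continuousOn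
  · intro u hu; exact (lt_of_lt_of_le hc hu).ne'

theorem continuousOn_V2 (s : ℕ → Lev) (l : ℕ) {c : ℝ} (hc : 0 < c) :
    ContinuousOn (V2 m0 s l) {u | c ≤ (s l).sq u} := by
  unfold V2 thY
  apply ContinuousOn.mul continuousOn_const
  apply ContinuousOn.div
  · exact ((continuous_fa.comp (s l).continuous_X).mul
      (continuous_fc.comp (s l).continuous_Y)).continuousOn
  · exact (s l).continuous_sq.continuousOn
  · intro u hu; exact (lt_of_lt_of_le hc hu).ne'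

theorem isClosed_inter_sq (s : ℕ → Lev) (j : ℕ) (c : ℕ → ℝ) :
    IsClosed (⋂ l ∈ Finset.range j, {u | c l ≤ (s l).sq u}) :=
  isClosed_biInter fun l _ => isClosed_le continuous_const (s l).continuous_sq

theorem continuousOn_VV1 (s : ℕ → Lev) (j : ℕ) {c : ℕ → ℝ} (hc : ∀ l, 0 < c l) :
    ContinuousOn (VV1 m0 s j) (⋂ l ∈ Finset.range j, {u | c l ≤ (s l).sq u}) := by
  unfold VV1
  apply continuousOn_finsetSum
  intro l hl
  exact (continuousOn_V1 m0 s l (hc l)).mono (biInter_subset_of_mem hl)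

theorem continuousOn_VV2 (s : ℕ → Lev) (j : ℕ) {c : ℕ → ℝ} (hc : ∀ l, 0 < c l) :
    ContinuousOn (VV2 m0 s j) (⋂ l ∈ Finset.range j, {u | c l ≤ (s l).sq u}) := by
  unfold VV2
  apply continuousOn_finsetSum
  intro l hl
  exact (continuousOn_V2 m0 s l (hc l)).mono (biInter_subset_of_mem hl)

theorem isClosed_Zset (s : ℕ → Lev) (j : ℕ) : IsClosed (Zset m0 s j) := by
  have hp : ∀ l, 0 < (ep m0 l / 2) ^ 2 := fun l => by have := ep_pos m0 l; positivity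
  unfold Zset
  refine IsClosed.union ?_ (IsClosed.union ?_ ?_)
  · exact Set.Finite.isClosed_biUnion (Finset.finite_toSet _) fun l _ =>
      isClosed_le (s l).continuous_sq continuous_const
  · exact (isOpen_Ioo.prod isOpen_Ioo).isClosed_compl
  · set C := ⋂ l ∈ Finset.range j, {u | (ep m0 l / 2) ^ 2 ≤ (s l).sq u} with hC
    have hCc : IsClosed C := isClosed_inter_sq s j _
    have h1 : IsClosed (C ∩ {u | 3 ≤ |VV1 m0 s j u|}) :=
      ((continuousOn_VV1 m0 s j hp).abs).preimage_isClosed_of_isClosed hCc isClosed_Ici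
    have h2 : IsClosed (C ∩ {u | 3 ≤ |VV2 m0 s j u|}) :=
      ((continuousOn_VV2 m0 s j hp).abs).preimage_isClosed_of_isClosed hCc isClosed_Ici
    have : C ∩ {u | 3 ≤ |VV1 m0 s j u| ∨ 3 ≤ |VV2 m0 s j u|}
        = (C ∩ {u | 3 ≤ |VV1 m0 s j u|}) ∪ (C ∩ {u | 3 ≤ |VV2 m0 s j u|}) := by
      ext u
      simp only [mem_inter_iff, mem_ofPred_eq, mem_union]
      tauto
    rw [this]
    exact h1.union h2

theorem isClosed_Oset (s : ℕ → Lev) (j : ℕ) : IsClosed (Oset m0 s j) := by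
  have hp : ∀ l, 0 < ep m0 l ^ 2 := fun l => by have := ep_pos m0 l; positivity
  unfold Oset
  refine IsClosed.inter (isClosed_Icc.prod isClosed_Icc) ?_
  set C := ⋂ l ∈ Finset.range j, {u | ep m0 l ^ 2 ≤ (s l).sq u} with hC
  have hCc : IsClosed C := isClosed_inter_sq s j _
  have h1 : IsClosed (C ∩ {u | |VV1 m0 s j u| ≤ 2}) :=
    ((continuousOn_VV1 m0 s j hp).abs).preimage_isClosed_of_isClosed hCc isClosed_Iic
  have h2 : IsClosed (C ∩ {u | |VV2 m0 s j u| ≤ 2}) :=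
    ((continuousOn_VV2 m0 s j hp).abs).preimage_isClosed_of_isClosed hCc isClosed_Iic
  have : C ∩ {u | |VV1 m0 s j u| ≤ 2 ∧ |VV2 m0 s j u| ≤ 2}
      = (C ∩ {u | |VV1 m0 s j u| ≤ 2}) ∩ (C ∩ {u | |VV2 m0 s j u| ≤ 2}) := by
    ext u
    simp only [mem_inter_iff, mem_ofPred_eq]
    tauto
  rw [this]
  exact h1.inter h2

theorem disjoint_Z_O (s : ℕ → Lev) (j : ℕ) : Disjoint (Zset m0 s j) (Oset m0 s j) := by
  rw [Set.disjoint_left]
  rintro u hZ ⟨⟨h1, h2⟩, h3, h4, h5⟩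
  rcases hZ with hZ | hZ | ⟨-, hZ⟩
  · obtain ⟨l, hl, hZ⟩ := mem_iUnion₂.1 hZ
    have h6 := mem_iInter₂.1 h3 l hl
    have h7 : (s l).sq u ≤ (ep m0 l / 2) ^ 2 := hZ
    have h8 : ep m0 l ^ 2 ≤ (s l).sq u := h6
    have h9 := ep_pos m0 l
    nlinarith
  · apply hZ
    exact ⟨⟨by linarith [h1.1], by linarith [h1.2]⟩, ⟨by linarith [h2.1], by linarith [h2.2]⟩⟩
  · rcases hZ with hZ | hZ <;> linarith

theorem exists_cut (s : ℕ → Lev) (j : ℕ) : ∃ (c : ℝ × ℝ → ℝ) (L : ℝ), ContDiff ℝ ∞ c ∧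
    (∀ u, 0 ≤ c u ∧ c u ≤ 1) ∧ (∀ u ∈ Zset m0 s j, c u = 0) ∧ (∀ u ∈ Oset m0 s j, c u = 1) ∧
    0 ≤ L ∧ ∀ u, ‖fderiv ℝ c u‖ ≤ L := by
  obtain ⟨f, hf0, hf1, hf⟩ := exists_contMDiffMap_zero_one_of_isClosed (n := ⊤)
    (𝓘(ℝ, ℝ × ℝ)) (isClosed_Zset m0 s j) (isClosed_Oset m0 s j) (disjoint_Z_O m0 s j)
  have hfc : ContDiff ℝ ∞ (f : ℝ × ℝ → ℝ) := f.contMDiff.contDiff
  have hsupp : HasCompactSupport (f : ℝ × ℝ → ℝ) := by
    apply HasCompactSupport.of_support_subset_isCompact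
      ((isCompact_Icc (a := (-1 : ℝ)) (b := 2)).prod (isCompact_Icc (a := (-1 : ℝ)) (b := 2)))
    intro u hu
    by_contra hc
    apply hu
    apply hf0
    right; left
    intro hc2
    exact hc ⟨Ioo_subset_Icc_self hc2.1, Ioo_subset_Icc_self hc2.2⟩
  obtain ⟨L, hL⟩ := (hsupp.fderiv (𝕜 := ℝ)).exists_bound_of_continuous
    (hfc.continuous_fderiv (by norm_num))
  refine ⟨f, max L 0, hfc, fun u => hf u, fun u hu => hf0 hu, fun u hu => hf1 hu,
    le_max_right _ _, fun u => (hL u).trans (le_max_left _ _)⟩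

/-- Truncation of a sequence. -/
def tr (s : ℕ → Lev) (j : ℕ) : ℕ → Lev := fun l => if l < j then s l else default

theorem tr_congr {s s' : ℕ → Lev} {j : ℕ} (h : ∀ i < j, s i = s' i) : tr s j = tr s' j := by
  funext l
  unfold tr
  split_ifs with hl
  · exact h l hl
  · rfl

/-- Auxiliary: a Lipschitz constant of the chosen cutoff. -/
noncomputable def cutLA (s : ℕ → Lev) (j : ℕ) : ℝ := (exists_cut m0 s j).choose_spec.choose

/-- The cutoff of level `j`. -/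
noncomputable def cut (s : ℕ → Lev) (j : ℕ) : ℝ × ℝ → ℝ := (exists_cut m0 (tr s j) j).choose

/-- Lipschitz constant of the cutoff of level `j`. -/
noncomputable def cutL (s : ℕ → Lev) (j : ℕ) : ℝ := cutLA m0 (tr s j) j

theorem VV1_tr (s : ℕ → Lev) (j : ℕ) (u : ℝ × ℝ) : VV1 m0 (tr s j) j u = VV1 m0 s j u := by
  unfold VV1 V1 tr
  apply Finset.sum_congr rfl
  intro l hl
  rw [Finset.mem_range] at hl
  simp only [hl, if_true]

theorem VV2_tr (s : ℕ → Lev) (j : ℕ) (u : ℝ × ℝ) : VV2 m0 (tr s j) j u = VV2 m0 s j u := by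
  unfold VV2 V2 tr
  apply Finset.sum_congr rfl
  intro l hl
  rw [Finset.mem_range] at hl
  simp only [hl, if_true]

theorem contDiff_cut (s : ℕ → Lev) (j : ℕ) : ContDiff ℝ ∞ (cut m0 s j) :=
  (exists_cut m0 (tr s j) j).choose_spec.choose_spec.1

theorem cut_nonneg (s : ℕ → Lev) (j : ℕ) (u : ℝ × ℝ) : 0 ≤ cut m0 s j u :=
  ((exists_cut m0 (tr s j) j).choose_spec.choose_spec.2.1 u).1

theorem cut_le_one (s : ℕ → Lev) (j : ℕ) (u : ℝ × ℝ) : cut m0 s j u ≤ 1 :=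
  ((exists_cut m0 (tr s j) j).choose_spec.choose_spec.2.1 u).2

theorem cutL_nonneg (s : ℕ → Lev) (j : ℕ) : 0 ≤ cutL m0 s j :=
  (exists_cut m0 (tr s j) j).choose_spec.choose_spec.2.2.2.2.1

theorem norm_fderiv_cut_le (s : ℕ → Lev) (j : ℕ) (u : ℝ × ℝ) :
    ‖fderiv ℝ (cut m0 s j) u‖ ≤ cutL m0 s j :=
  (exists_cut m0 (tr s j) j).choose_spec.choose_spec.2.2.2.2.2 u

/-- Where the cutoff does not vanish, the earlier levels are regular. -/
theorem of_cut_ne_zero {s : ℕ → Lev} {j : ℕ} {u : ℝ × ℝ} (h : cut m0 s j u ≠ 0) :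
    (∀ l < j, (ep m0 l / 2) ^ 2 < (s l).sq u) ∧ |VV1 m0 s j u| < 3 ∧ |VV2 m0 s j u| < 3 := by
  have hZ : u ∉ Zset m0 (tr s j) j := fun hc =>
    h ((exists_cut m0 (tr s j) j).choose_spec.choose_spec.2.2.1 u hc)
  have h1 : ∀ l < j, (ep m0 l / 2) ^ 2 < (s l).sq u := by
    intro l hl
    by_contra hc
    push Not at hc
    apply hZ
    left
    refine mem_iUnion₂.2 ⟨l, Finset.mem_range.2 hl, ?_⟩
    show (tr s j l).sq u ≤ _
    unfold tr
    simp only [hl, if_true]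
    exact hc
  have h2 : ¬ (3 ≤ |VV1 m0 s j u| ∨ 3 ≤ |VV2 m0 s j u|) := by
    intro hc
    apply hZ
    right; right
    refine ⟨mem_iInter₂.2 fun l hl => ?_, ?_⟩
    · rw [Finset.mem_range] at hl
      show _ ≤ (tr s j l).sq u
      unfold tr
      simp only [hl, if_true]
      exact (h1 l hl).le
    · show 3 ≤ |VV1 m0 (tr s j) j u| ∨ 3 ≤ |VV2 m0 (tr s j) j u|
      rw [VV1_tr, VV2_tr]
      exact hc
  push Not at h2
  exact ⟨h1, h2.1, h2.2⟩

theorem cut_eq_one {s : ℕ → Lev} {j : ℕ} {u : ℝ × ℝ} (hu : u ∈ Icc (0 : ℝ) 1 ×ˢ Icc (0 : ℝ) 1)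
    (h1 : ∀ l < j, ep m0 l ^ 2 ≤ (s l).sq u) (h2 : |VV1 m0 s j u| ≤ 2)
    (h3 : |VV2 m0 s j u| ≤ 2) : cut m0 s j u = 1 := by
  apply (exists_cut m0 (tr s j) j).choose_spec.choose_spec.2.2.2.1
  refine ⟨hu, mem_iInter₂.2 fun l hl => ?_, ?_⟩
  · rw [Finset.mem_range] at hl
    show _ ≤ (tr s j l).sq u
    unfold tr
    simp only [hl, if_true]
    exact h1 l hl
  · show |VV1 m0 (tr s j) j u| ≤ 2 ∧ |VV2 m0 (tr s j) j u| ≤ 2
    rw [VV1_tr, VV2_tr]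
    exact ⟨h2, h3⟩

/-- Product of inverse gain and frequency of the previous level. -/
def Pp (Pst : ℕ) (s : ℕ → Lev) : ℕ → ℕ
  | 0 => Pst
  | j + 1 => JJ m0 j * (s j).D

/-- Bound for the slopes of the levels below `j`. -/
noncomputable def Gam (j : ℕ) : ℝ := ∑ l ∈ Finset.range j, 2 / ep m0 l

theorem Gam_nonneg (j : ℕ) : 0 ≤ Gam m0 j :=
  Finset.sum_nonneg fun l _ => by have := ep_pos m0 l; positivity

/-- Lower bound imposed on the frequency. -/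
noncomputable def Bnd (Pst : ℕ) (s : ℕ → Lev) (j : ℕ) : ℝ :=
  2 ^ (j + m0 + 10) * (1 + j) * (1 + Gam m0 j) * (1 + cutL m0 s j) * (1 + lamB) * NN m0 j
    * Pp m0 Pst s j

/-- The conditions on the level `j`. -/
def Good (Pst : ℕ) (j : ℕ) (s : ℕ → Lev) : Prop :=
  (Pp m0 Pst s j ∣ (s j).D ∧ 0 < (s j).D ∧ Bnd m0 Pst s j ≤ (s j).D) ∧
    FF m0 s (bs m0 j) (j + 1) ≤ FF m0 s (bs m0 j) j + gain m0 j

theorem Pp_congr {Pst : ℕ} {s s' : ℕ → Lev} {j : ℕ} (h : ∀ i < j, s i = s' i) :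
    Pp m0 Pst s j = Pp m0 Pst s' j := by
  cases j with
  | zero => rfl
  | succ j => simp only [Pp, h j (Nat.lt_succ_self j)]

theorem Good_congr {Pst : ℕ} (j : ℕ) (s s' : ℕ → Lev) (h : ∀ i ≤ j, s i = s' i)
    (hg : Good m0 Pst j s) : Good m0 Pst j s' := by
  have h1 : Pp m0 Pst s j = Pp m0 Pst s' j := Pp_congr m0 fun i hi => h i hi.le
  have h2 : s j = s' j := h j le_rfl
  have h3 : tr s j = tr s' j := tr_congr fun i hi => h i hi.le
  have h4 : cutL m0 s j = cutL m0 s' j := by unfold cutL; rw [h3]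
  have h5 : Bnd m0 Pst s j = Bnd m0 Pst s' j := by unfold Bnd; rw [h4, h1]
  have h6 : FF m0 s (bs m0 j) (j + 1) = FF m0 s' (bs m0 j) (j + 1) :=
    FF_congr m0 fun l _ hl => h l (by omega)
  have h7 : FF m0 s (bs m0 j) j = FF m0 s' (bs m0 j) j :=
    FF_congr m0 fun l _ hl => h l (by omega)
  unfold Good at hg ⊢
  rw [← h1, ← h2, ← h5, ← h6, ← h7]
  exact hg

theorem Pp_pos {Pst : ℕ} (hP : 0 < Pst) {s : ℕ → Lev} {j : ℕ} (h : ∀ i < j, 0 < (s i).D) :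
    0 < Pp m0 Pst s j := by
  cases j with
  | zero => exact hP
  | succ j => exact Nat.mul_pos (JJ_pos m0 j) (h j (Nat.lt_succ_self j))

theorem exists_levels {Pst : ℕ} (hP : 0 < Pst) : ∃ s : ℕ → Lev, ∀ j, Good m0 Pst j s := by
  apply exists_seq (Good m0 Pst) (Good_congr m0)
  intro j s hs
  have hPp : 0 < Pp m0 Pst s j := Pp_pos m0 hP fun i hi => (hs i hi).1.2.1
  obtain ⟨H, hH⟩ := exists_nat_gt (Bnd m0 Pst s j)
  set D := Pp m0 Pst s j * (H + 1) with hD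
  obtain ⟨t1, t2, ht⟩ := exists_shift m0 s (bs_le m0 j) D
  refine ⟨⟨D, t1, t2⟩, ?_⟩
  set s' := Function.update s j (⟨D, t1, t2⟩ : Lev) with hs'
  have hne : ∀ i < j, s' i = s i := fun i hi => Function.update_of_ne (by omega) _ _
  have hself : s' j = ⟨D, t1, t2⟩ := Function.update_self _ _ _
  have h1 : Pp m0 Pst s' j = Pp m0 Pst s j := Pp_congr m0 hne
  have h3 : tr s' j = tr s j := tr_congr hne
  have h4 : cutL m0 s' j = cutL m0 s j := by unfold cutL; rw [h3]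
  have h5 : Bnd m0 Pst s' j = Bnd m0 Pst s j := by unfold Bnd; rw [h4, h1]
  have h7 : FF m0 s' (bs m0 j) j = FF m0 s (bs m0 j) j :=
    FF_congr m0 fun l _ hl => hne l hl
  unfold Good
  rw [h1, h5, h7, hself]
  refine ⟨⟨Dvd.intro _ rfl, Nat.mul_pos hPp (Nat.succ_pos H), ?_⟩, ht⟩
  show Bnd m0 Pst s j ≤ (D : ℝ)
  have hPp1 : (1 : ℝ) ≤ Pp m0 Pst s j := by exact_mod_cast hPp
  rw [hD]
  push_cast
  have hH0 : (0 : ℝ) ≤ H := by positivity
  nlinarith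

end Pool.Agent.H28.Lusin
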