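import Pool.Agent.H28.Lusin.Theta
import Pool.Agent.H28.Lusin.Digits
import Pool.Agent.H28.Lusin.Gset
import Pool.Agent.H28.Lusin.AFin

open MeasureTheory Set Real Filter
open scoped ContDiff Topology ENNReal ComplexConjugate

namespace Pool.Agent.H28.Lusin

/-- The parametrization of the support of the measure. -/
noncomputable def Fmap (m0 Pst : ℕ) (s : ℕ → Lev) (n q : ℕ)
    (x : (ℝ × ℝ) × (Fin n → ℝ) × (ℕ → ℕ)) : Eu n :=
  WithLp.toLp 2 fun i : Fin n =>
    if (i : ℕ) = 0 then x.1.1 else if (i : ℕ) = 1 then x.1.2 else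
      if (i : ℕ) = q + 2 then g1 m0 Pst s x.1 + cd m0 Pst s x.2.2 else x.2.1 i

/-- The measure. -/
noncomputable def mu0 (m0 Pst : ℕ) (s : ℕ → Lev) (n q : ℕ) : Measure (Eu n) :=
  ((Tor.restrict (Gs m0 s)).prod
    ((Measure.pi fun _ : Fin n => volume.restrict (Ioc (0 : ℝ) 1)).prod (digs m0))).map
    (Fmap m0 Pst s n q)

/-- Constant of the invariance estimate. -/
noncomputable def CA : ℝ := 2 * √Cg + 66 * Cg + 2

variable {m0 Pst : ℕ} {s : ℕ → Lev} {n q : ℕ}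

/-- The measure on the parameter space. -/
noncomputable def nuA (m0 : ℕ) (s : ℕ → Lev) (n : ℕ) :
    Measure ((ℝ × ℝ) × (Fin n → ℝ) × (ℕ → ℕ)) :=
  (Tor.restrict (Gs m0 s)).prod
    ((Measure.pi fun _ : Fin n => volume.restrict (Ioc (0 : ℝ) 1)).prod (digs m0))

theorem mu0_eq : mu0 m0 Pst s n q = (nuA m0 s n).map (Fmap m0 Pst s n q) := rfl

instance instFinnuA : IsFiniteMeasure (nuA m0 s n) := by
  unfold nuA; infer_instance

theorem nuA_univ_le : (nuA m0 s n).real univ ≤ 1 := by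
  unfold nuA
  rw [← univ_prod_univ, measureReal_prod_prod, probReal_univ (μ := (Measure.pi fun _ : Fin n =>
    volume.restrict (Ioc (0 : ℝ) 1)).prod (digs m0)), mul_one]
  rw [measureReal_restrict_apply MeasurableSet.univ]
  exact measureReal_le_one

theorem measurable_Fmap (hP : 0 < Pst) (hs : ∀ j, Good m0 Pst j s) :
    Measurable (Fmap m0 Pst s n q) := by
  unfold Fmap
  apply (WithLp.measurable_toLp 2 (Fin n → ℝ)).comp
  rw [measurable_pi_iff]
  intro i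
  by_cases h0 : (i : ℕ) = 0
  · simp only [h0, if_true]
    fun_prop
  by_cases h1 : (i : ℕ) = 1
  · simp only [h1, if_true, one_ne_zero, if_false]
    fun_prop
  by_cases h2 : (i : ℕ) = q + 2
  · simp only [h2, if_true]
    have e0 : ¬ (q + 2 = 0) := by omega
    have e1 : ¬ (q + 2 = 1) := by omega
    simp only [e0, e1, if_false]
    exact ((measurable_g1 hP hs).comp measurable_fst).add
      (measurable_cd.comp (measurable_snd.comp measurable_snd))
  · simp only [h0, h1, h2, if_false]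
    exact (measurable_pi_apply i).comp (measurable_fst.comp measurable_snd)

theorem Fmap_apply (x : (ℝ × ℝ) × (Fin n → ℝ) × (ℕ → ℕ)) (i : Fin n) :
    Fmap m0 Pst s n q x i = if (i : ℕ) = 0 then x.1.1 else if (i : ℕ) = 1 then x.1.2 else
      if (i : ℕ) = q + 2 then g1 m0 Pst s x.1 + cd m0 Pst s x.2.2 else x.2.1 i := rfl

theorem qq_Fmap (hn : q + 2 < n) (x : (ℝ × ℝ) × (Fin n → ℝ) × (ℕ → ℕ)) :
    qq hn (Fmap m0 Pst s n q x) = (x.1, g1 m0 Pst s x.1 + cd m0 Pst s x.2.2) := by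
  have h0 : dxx (⟨0, by omega⟩ : Fin n) (Fmap m0 Pst s n q x) = x.1.1 := rfl
  have h1 : dxx (⟨1, by omega⟩ : Fin n) (Fmap m0 Pst s n q x) = x.1.2 := rfl
  have h2 : dxx (⟨q + 2, hn⟩ : Fin n) (Fmap m0 Pst s n q x)
      = g1 m0 Pst s x.1 + cd m0 Pst s x.2.2 := by
    show Fmap m0 Pst s n q x (⟨q + 2, hn⟩ : Fin n) = _
    rw [Fmap_apply]
    have e0 : ¬ (q + 2 = 0) := by omega
    have e1 : ¬ (q + 2 = 1) := by omega
    simp only [e0, e1, if_false, if_true]
  unfold qq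
  simp only [ContinuousLinearMap.prod_apply, h0, h1, h2]

instance instFinmu0 : IsFiniteMeasure (mu0 m0 Pst s n q) := by
  rw [mu0_eq]; infer_instance

theorem mu0_univ_le : (mu0 m0 Pst s n q).real univ ≤ 1 := by
  rw [mu0_eq]
  by_cases h : AEMeasurable (Fmap m0 Pst s n q) (nuA m0 s n)
  · rw [measureReal_def, Measure.map_apply_of_aemeasurable h MeasurableSet.univ, preimage_univ]
    exact nuA_univ_le
  · rw [Measure.map_of_not_aemeasurable h]
    simp

theorem ae_nuA : ∀ᵐ x ∂(nuA m0 s n), x.1 ∈ Gs m0 s ∧ ∀ j, x.2.2 j < NN m0 j := by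
  have h1 : ∀ᵐ x ∂(nuA m0 s n), x.1 ∈ Gs m0 s := by
    unfold nuA
    exact Measure.quasiMeasurePreserving_fst.ae (ae_restrict_mem measurableSet_Gs)
  have h2 : ∀ᵐ x ∂(nuA m0 s n), ∀ j, x.2.2 j < NN m0 j := by
    unfold nuA
    exact Measure.quasiMeasurePreserving_snd.ae
      (Measure.quasiMeasurePreserving_snd.ae (ae_digs_lt m0))
  exact h1.and h2

/-- Measurable properties of the points of the support hold almost everywhere. -/
theorem ae_mu0 (hP : 0 < Pst) (hs : ∀ j, Good m0 Pst j s) {T : Set (Eu n)} (hT : MeasurableSet T)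
    (h : ∀ u ∈ Gs m0 s, ∀ (r : Fin n → ℝ) (l : ℕ → ℕ), (∀ j, l j < NN m0 j) →
      Fmap m0 Pst s n q (u, r, l) ∈ T) : ∀ᵐ x ∂(mu0 m0 Pst s n q), x ∈ T := by
  rw [mu0_eq]
  have hT' : MeasurableSet {x : Eu n | x ∈ T} := hT
  rw [ae_map_iff (measurable_Fmap hP hs).aemeasurable hT']
  filter_upwards [ae_nuA] with x hx
  exact h x.1 hx.1 x.2.1 x.2.2 hx.2

/-- Integrals of functions of the first two coordinates. -/
theorem integral_mu0_fst (hP : 0 < Pst) (hs : ∀ j, Good m0 Pst j s) (hn : q + 2 < n)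
    {G : ℝ × ℝ → ℝ} (hG : Measurable G) :
    ∫ x, G (qq hn x).1 ∂(mu0 m0 Pst s n q) = ∫ u in Gs m0 s, G u ∂Tor := by
  have hG' : Measurable fun x : Eu n => G (qq hn x).1 :=
    hG.comp (measurable_fst.comp (qq hn).continuous.measurable)
  rw [mu0_eq, integral_map (measurable_Fmap hP hs).aemeasurable hG'.aestronglyMeasurable]
  simp only [qq_Fmap]
  unfold nuA
  rw [integral_fun_fst (μ := Tor.restrict (Gs m0 s))
    (ν := (Measure.pi fun _ : Fin n => volume.restrict (Ioc (0 : ℝ) 1)).prod (digs m0))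
    (f := fun u => G u)]
  simp

/-- One coordinate factor of the cube. -/
def fac (q n : ℕ) (i : Fin n) : Set ℝ :=
  if 2 ≤ (i : ℕ) ∧ (i : ℕ) < q + 2 then Icc (1 / 4 : ℝ) (3 / 4) else univ

theorem measurableSet_fac (i : Fin n) : MeasurableSet (fac q n i) := by
  unfold fac
  split_ifs
  · exact measurableSet_Icc
  · exact MeasurableSet.univ

theorem vol_quarter : (volume.restrict (Ioc (0 : ℝ) 1)).real (Icc (1 / 4 : ℝ) (3 / 4)) = 1 / 2 := by
  rw [measureReal_restrict_apply measurableSet_Icc]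
  have : Icc (1 / 4 : ℝ) (3 / 4) ∩ Ioc 0 1 = Icc (1 / 4 : ℝ) (3 / 4) := by
    apply inter_eq_left.2
    intro x hx
    exact ⟨by linarith [hx.1], by linarith [hx.2]⟩
  rw [this, Real.volume_real_Icc]
  norm_num

theorem real_pi_fac (hn : q + 2 < n) :
    (Measure.pi fun _ : Fin n => volume.restrict (Ioc (0 : ℝ) 1)).real
      (Set.pi univ (fac q n)) = (1 / 2) ^ q := by
  rw [measureReal_def, Measure.pi_pi, ENNReal.toReal_prod]
  have h : ∀ i : Fin n, ((volume.restrict (Ioc (0 : ℝ) 1)) (fac q n i)).toReal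
      = if 2 ≤ (i : ℕ) ∧ (i : ℕ) < q + 2 then (1 / 2 : ℝ) else 1 := by
    intro i
    unfold fac
    split_ifs
    · exact vol_quarter
    · simp
  simp only [h]
  rw [Finset.prod_ite, Finset.prod_const, Finset.prod_const_one, mul_one]
  congr 1
  rw [Finset.card_filter]
  rw [Fin.sum_univ_eq_sum_range (fun i => if 2 ≤ i ∧ i < q + 2 then 1 else 0) n]
  rw [← Finset.card_filter]
  have : (Finset.range n).filter (fun i => 2 ≤ i ∧ i < q + 2) = Finset.Ico 2 (q + 2) := by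
    ext i
    simp only [Finset.mem_filter, Finset.mem_range, Finset.mem_Ico]
    omega
  rw [this]
  simp

theorem le_Tor_sq (hs : ∀ j, Good m0 Pst j s) :
    1 / 4 - 66 * Cg * (1 / 8) ^ m0 ≤ (Tor.restrict (Gs m0 s)).real
      (Icc (1 / 4 : ℝ) (3 / 4) ×ˢ Icc (1 / 4 : ℝ) (3 / 4)) := by
  have hA : MeasurableSet (Icc (1 / 4 : ℝ) (3 / 4) ×ˢ Icc (1 / 4 : ℝ) (3 / 4)) :=
    measurableSet_Icc.prod measurableSet_Icc
  rw [measureReal_restrict_apply hA]
  have h1 : Tor.real (Icc (1 / 4 : ℝ) (3 / 4) ×ˢ Icc (1 / 4 : ℝ) (3 / 4)) = 1 / 4 := by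
    unfold Tor
    rw [measureReal_prod_prod, vol_quarter]
    norm_num
  have h2 := Tor_compl_Gs_le hs
  have h3 : Tor.real (Icc (1 / 4 : ℝ) (3 / 4) ×ˢ Icc (1 / 4 : ℝ) (3 / 4))
      ≤ Tor.real (Icc (1 / 4 : ℝ) (3 / 4) ×ˢ Icc (1 / 4 : ℝ) (3 / 4) ∩ Gs m0 s)
        + Tor.real (Gs m0 s)ᶜ := by
    refine (measureReal_mono ?_).trans (measureReal_union_le _ _)
    intro x hx
    by_cases hg : x ∈ Gs m0 s
    · exact Or.inl ⟨hx, hg⟩
    · exact Or.inr hg
  linarith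

theorem le_mu0_cube (hP : 0 < Pst) (hs : ∀ j, Good m0 Pst j s) (hn : q + 2 < n) :
    (1 / 4 - 66 * Cg * (1 / 8) ^ m0) * (1 / 2) ^ q
      ≤ (mu0 m0 Pst s n q).real
        {x | ∀ i : Fin n, (i : ℕ) ≤ q + 1 → x i ∈ Icc (1 / 4 : ℝ) (3 / 4)} := by
  have hS : MeasurableSet
      {x : Eu n | ∀ i : Fin n, (i : ℕ) ≤ q + 1 → x i ∈ Icc (1 / 4 : ℝ) (3 / 4)} := by
    have : {x : Eu n | ∀ i : Fin n, (i : ℕ) ≤ q + 1 → x i ∈ Icc (1 / 4 : ℝ) (3 / 4)}
        = ⋂ i : Fin n, ⋂ _ : (i : ℕ) ≤ q + 1, {x : Eu n | x i ∈ Icc (1 / 4 : ℝ) (3 / 4)} := by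
      ext x
      simp only [mem_ofPred_eq, mem_iInter]
    rw [this]
    refine MeasurableSet.iInter fun i => MeasurableSet.iInter fun _ => ?_
    exact ((EuclideanSpace.proj i : Eu n →L[ℝ] ℝ).continuous.measurable) measurableSet_Icc
  rw [mu0_eq, measureReal_def, Measure.map_apply (measurable_Fmap hP hs) hS, ← measureReal_def]
  have hsub : (Icc (1 / 4 : ℝ) (3 / 4) ×ˢ Icc (1 / 4 : ℝ) (3 / 4)) ×ˢ
      ((Set.pi univ (fac q n)) ×ˢ (univ : Set (ℕ → ℕ))) ⊆ (Fmap m0 Pst s n q) ⁻¹'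
        {x : Eu n | ∀ i : Fin n, (i : ℕ) ≤ q + 1 → x i ∈ Icc (1 / 4 : ℝ) (3 / 4)} := by
    rintro ⟨u, r, l⟩ ⟨hu, hr, -⟩
    intro i hi
    show Fmap m0 Pst s n q (u, r, l) i ∈ _
    rw [Fmap_apply]
    by_cases h0 : (i : ℕ) = 0
    · rw [if_pos h0]; exact hu.1
    by_cases h1 : (i : ℕ) = 1
    · rw [if_neg h0, if_pos h1]; exact hu.2
    have h2 : ¬ ((i : ℕ) = q + 2) := by omega
    rw [if_neg h0, if_neg h1, if_neg h2]
    have h3 : r i ∈ fac q n i := hr i (mem_univ i)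
    unfold fac at h3
    rw [if_pos (by omega)] at h3
    exact h3
  refine le_trans ?_ (measureReal_mono hsub)
  unfold nuA
  rw [measureReal_prod_prod, measureReal_prod_prod, real_pi_fac hn, probReal_univ, mul_one]
  exact mul_le_mul_of_nonneg_right (le_Tor_sq hs) (by positivity)

end Pool.Agent.H28.Lusin
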