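import Pool.Agent.H28.Lusin.MeasA

open MeasureTheory Set Real Filter
open scoped ContDiff Topology ENNReal ComplexConjugate

namespace Pool.Agent.H28.Lusin

variable {m0 Pst : ℕ} {s : ℕ → Lev} {n q : ℕ}

/-! ### Points -/

/-- The coordinates of a point other than the coordinates `0`, `1` and `q + 2`. -/
noncomputable def MeasH_B (n q : ℕ) (r : Fin n → ℝ) : Eu n :=
  WithLp.toLp 2 fun i : Fin n =>
    if (i : ℕ) = 0 then 0 else if (i : ℕ) = 1 then 0 else if (i : ℕ) = q + 2 then 0 else r i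

/-- The point with horizontal coordinates `u`, height `z` and the other coordinates `r`. -/
noncomputable def MeasH_P (n q : ℕ) (u : ℝ × ℝ) (z : ℝ) (r : Fin n → ℝ) : Eu n :=
  WithLp.toLp 2 fun i : Fin n =>
    if (i : ℕ) = 0 then u.1 else if (i : ℕ) = 1 then u.2 else if (i : ℕ) = q + 2 then z else r i

theorem MeasH_Fmap (x : (ℝ × ℝ) × (Fin n → ℝ) × (ℕ → ℕ)) :
    Fmap m0 Pst s n q x = MeasH_P n q x.1 (g1 m0 Pst s x.1 + cd m0 Pst s x.2.2) x.2.1 := rfl

theorem MeasH_P_eq (hn : q + 2 < n) (u : ℝ × ℝ) (z : ℝ) (r : Fin n → ℝ) :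
    MeasH_P n q u z r = MeasH_B n q r
      + u.1 • EuclideanSpace.single (⟨0, by omega⟩ : Fin n) (1 : ℝ)
      + u.2 • EuclideanSpace.single (⟨1, by omega⟩ : Fin n) (1 : ℝ)
      + z • EuclideanSpace.single (⟨q + 2, hn⟩ : Fin n) (1 : ℝ) := by
  ext i
  simp only [MeasH_P, MeasH_B, PiLp.add_apply, PiLp.smul_apply, PiLp.single_apply,
    Fin.ext_iff, smul_eq_mul]
  by_cases h0 : (i : ℕ) = 0
  · simp [h0]
  · by_cases h1 : (i : ℕ) = 1
    · simp [h1]
    · by_cases h2 : (i : ℕ) = q + 2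
      · simp [h2]
      · simp [h0, h1, h2]

theorem MeasH_P_zero (hn : q + 2 < n) (u : ℝ × ℝ) (z : ℝ) (r : Fin n → ℝ) :
    MeasH_P n q u z r (⟨0, by omega⟩ : Fin n) = u.1 := by simp [MeasH_P]

theorem MeasH_P_one (hn : q + 2 < n) (u : ℝ × ℝ) (z : ℝ) (r : Fin n → ℝ) :
    MeasH_P n q u z r (⟨1, by omega⟩ : Fin n) = u.2 := by simp [MeasH_P]

theorem continuous_MeasH_P (n q : ℕ) :
    Continuous fun p : (ℝ × ℝ) × ℝ × (Fin n → ℝ) => MeasH_P n q p.1 p.2.1 p.2.2 := by
  unfold MeasH_P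
  apply (PiLp.continuous_toLp 2 _).comp
  apply continuous_pi
  intro i
  split_ifs <;> fun_prop

/-! ### The fundamental theorem of calculus along a curve -/

theorem MeasH_line {E : Type*} [NormedAddCommGroup E] [NormedSpace ℝ E] {Ψ : E → ℝ}
    (hΨ : ContDiff ℝ 1 Ψ) {γ : ℝ → E} {e f : E} {V : ℝ → ℝ} (hV : Continuous V)
    (hγ : ∀ t, HasDerivAt γ (e + V t • f) t) (h0 : Ψ (γ 0) = 0) (h1 : Ψ (γ 1) = 0) :
    ∫ t in Ioc (0 : ℝ) 1, fderiv ℝ Ψ (γ t) e = -∫ t in Ioc (0 : ℝ) 1, V t * fderiv ℝ Ψ (γ t) f := by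
  have hγc : Continuous γ := continuous_iff_continuousAt.2 fun t => (hγ t).continuousAt
  have hd : ∀ t, HasDerivAt (fun t => Ψ (γ t)) (fderiv ℝ Ψ (γ t) e + V t * fderiv ℝ Ψ (γ t) f) t := by
    intro t
    have h2 : HasFDerivAt Ψ (fderiv ℝ Ψ (γ t)) (γ t) :=
      ((hΨ.differentiable (by norm_num)) (γ t)).hasFDerivAt
    have h3 := h2.comp_hasDerivAt t (hγ t)
    rw [map_add, map_smul, smul_eq_mul] at h3
    exact h3
  have hfd : Continuous (fderiv ℝ Ψ) := hΨ.continuous_fderiv (by norm_num)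
  have hc1 : Continuous fun t => fderiv ℝ Ψ (γ t) e := (hfd.comp hγc).clm_apply continuous_const
  have hc2 : Continuous fun t => V t * fderiv ℝ Ψ (γ t) f :=
    hV.mul ((hfd.comp hγc).clm_apply continuous_const)
  have h2 := intervalIntegral.integral_eq_sub_of_hasDerivAt (a := 0) (b := 1)
    (fun t _ => hd t) ((hc1.add hc2).intervalIntegrable 0 1)
  rw [h0, h1, sub_zero, intervalIntegral.integral_add (hc1.intervalIntegrable 0 1)
    (hc2.intervalIntegrable 0 1), intervalIntegral.integral_of_le zero_le_one,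
    intervalIntegral.integral_of_le zero_le_one] at h2
  linarith

/-! ### Two-dimensional estimates -/

section

variable {Ψ : Eu n → ℝ} {L : ℝ}

theorem MeasH_bound (hL : 0 ≤ L) (hLip : ∀ x y, |Ψ x - Ψ y| ≤ L * ‖x - y‖) (i : Fin n) (x : Eu n) :
    |fderiv ℝ Ψ x (EuclideanSpace.single i (1 : ℝ))| ≤ L := by
  have h1 : LipschitzWith ⟨L, hL⟩ Ψ := by
    apply LipschitzWith.of_dist_le_mul
    intro x y
    rw [Real.dist_eq, dist_eq_norm]
    exact hLip x y
  have h2 : ‖fderiv ℝ Ψ x‖ ≤ L := norm_fderiv_le_of_lipschitz ℝ h1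
  calc |fderiv ℝ Ψ x (EuclideanSpace.single i (1 : ℝ))|
      ≤ ‖fderiv ℝ Ψ x‖ * ‖EuclideanSpace.single i (1 : ℝ)‖ := (fderiv ℝ Ψ x).le_opNorm _
    _ ≤ L * 1 := by
        gcongr
        simp
    _ = L := mul_one L

theorem MeasH_measurable_comp (hΨ : ContDiff ℝ 1 Ψ) (e : Eu n) {α : Type*} [MeasurableSpace α]
    {u : α → ℝ × ℝ} {z : α → ℝ} {r : α → Fin n → ℝ} (hu : Measurable u) (hz : Measurable z)
    (hr : Measurable r) :
    Measurable fun a => fderiv ℝ Ψ (MeasH_P n q (u a) (z a) (r a)) e := by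
  have hfd : Continuous (fderiv ℝ Ψ) := hΨ.continuous_fderiv (by norm_num)
  have h1 : Continuous fun p : (ℝ × ℝ) × ℝ × (Fin n → ℝ) =>
      fderiv ℝ Ψ (MeasH_P n q p.1 p.2.1 p.2.2) e :=
    (hfd.comp (continuous_MeasH_P n q)).clm_apply continuous_const
  exact h1.measurable.comp (hu.prodMk (hz.prodMk hr))

/-- Horizontal direction. -/
theorem MeasH_core1 (hn : q + 2 < n) (hL : 0 ≤ L) (hΨ : ContDiff ℝ 1 Ψ)
    (hLip : ∀ x y, |Ψ x - Ψ y| ≤ L * ‖x - y‖)
    (hz : ∀ x : Eu n, x (⟨0, by omega⟩ : Fin n) ∉ Ioo (0 : ℝ) 1 → Ψ x = 0)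
    {g V : ℝ × ℝ → ℝ} (hg : Measurable g) (hV : Measurable V) {M : ℝ} (hM : ∀ u, |V u| ≤ M)
    (hgV : ∀ x y, HasDerivAt (fun x => g (x, y)) (V (x, y)) x)
    (hVc : ∀ y, Continuous fun x => V (x, y)) (c : ℝ) (r : Fin n → ℝ) :
    |∫ u, fderiv ℝ Ψ (MeasH_P n q u (g u + c) r)
      (EuclideanSpace.single (⟨0, by omega⟩ : Fin n) (1 : ℝ)) ∂Tor| ≤ L * ∫ u, |V u| ∂Tor := by
  set e0 : Eu n := EuclideanSpace.single (⟨0, by omega⟩ : Fin n) (1 : ℝ) with he0
  set ez : Eu n := EuclideanSpace.single (⟨q + 2, hn⟩ : Fin n) (1 : ℝ) with hez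
  have hm1 : Measurable fun u => fderiv ℝ Ψ (MeasH_P n q u (g u + c) r) e0 :=
    MeasH_measurable_comp hΨ e0 measurable_id (hg.add_const c) measurable_const
  have hm2 : Measurable fun u => V u * fderiv ℝ Ψ (MeasH_P n q u (g u + c) r) ez :=
    hV.mul (MeasH_measurable_comp hΨ ez measurable_id (hg.add_const c) measurable_const)
  have hb1 : ∀ u, |fderiv ℝ Ψ (MeasH_P n q u (g u + c) r) e0| ≤ L := fun u =>
    MeasH_bound hL hLip _ _
  have hb2 : ∀ u, |V u * fderiv ℝ Ψ (MeasH_P n q u (g u + c) r) ez| ≤ |V u| * L := fun u => by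
    rw [abs_mul]
    exact mul_le_mul_of_nonneg_left (MeasH_bound hL hLip _ _) (abs_nonneg _)
  have hb2' : ∀ u, |V u * fderiv ℝ Ψ (MeasH_P n q u (g u + c) r) ez| ≤ M * L := fun u =>
    (hb2 u).trans (mul_le_mul_of_nonneg_right (hM u) hL)
  have hline : ∀ y, ∫ x in Ioc (0 : ℝ) 1, fderiv ℝ Ψ (MeasH_P n q (x, y) (g (x, y) + c) r) e0
      = -∫ x in Ioc (0 : ℝ) 1, V (x, y) * fderiv ℝ Ψ (MeasH_P n q (x, y) (g (x, y) + c) r) ez := by
    intro y
    refine MeasH_line (γ := fun x => MeasH_P n q (x, y) (g (x, y) + c) r) hΨ (hVc y) ?_ ?_ ?_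
    · intro x
      have h1 : (fun x => MeasH_P n q (x, y) (g (x, y) + c) r) = fun x =>
          MeasH_B n q r + x • e0 + y • EuclideanSpace.single (⟨1, by omega⟩ : Fin n) (1 : ℝ)
            + (g (x, y) + c) • ez := by
        funext x
        rw [MeasH_P_eq hn]
      rw [h1]
      have h2 := (((hasDerivAt_id x).smul_const e0).const_add (MeasH_B n q r)).add_const
        (y • EuclideanSpace.single (⟨1, by omega⟩ : Fin n) (1 : ℝ))
      have h3 := ((hgV x y).add_const c).smul_const ez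
      have h4 := h2.add h3
      rw [one_smul] at h4
      exact h4
    · apply hz
      rw [MeasH_P_zero hn]
      simp
    · apply hz
      rw [MeasH_P_zero hn]
      simp
  have hfub : ∫ u, fderiv ℝ Ψ (MeasH_P n q u (g u + c) r) e0 ∂Tor
      = -∫ u, V u * fderiv ℝ Ψ (MeasH_P n q u (g u + c) r) ez ∂Tor := by
    unfold Tor
    rw [integral_prod_symm _ (integrable_of_bdd hm1 hb1),
      integral_prod_symm _ (integrable_of_bdd hm2 hb2'), ← integral_neg]
    congr 1
    funext y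
    exact hline y
  rw [hfub, abs_neg]
  have h5 : ∫ u, |V u| * L ∂Tor = L * ∫ u, |V u| ∂Tor := by
    rw [integral_mul_const, mul_comm]
  rw [← h5]
  refine (abs_integral_le_integral_abs).trans (integral_mono ?_ ?_ hb2)
  · exact (integrable_of_bdd hm2 hb2').abs
  · refine (integrable_of_bdd (C := M) hV.abs ?_).mul_const L
    intro u; rw [abs_abs]; exact hM u

/-- Vertical direction. -/
theorem MeasH_core2 (hn : q + 2 < n) (hL : 0 ≤ L) (hΨ : ContDiff ℝ 1 Ψ)
    (hLip : ∀ x y, |Ψ x - Ψ y| ≤ L * ‖x - y‖)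
    (hz : ∀ x : Eu n, x (⟨1, by omega⟩ : Fin n) ∉ Ioo (0 : ℝ) 1 → Ψ x = 0)
    {g V : ℝ × ℝ → ℝ} (hg : Measurable g) (hV : Measurable V) {M : ℝ} (hM : ∀ u, |V u| ≤ M)
    (hgV : ∀ x y, HasDerivAt (fun y => g (x, y)) (V (x, y)) y)
    (hVc : ∀ x, Continuous fun y => V (x, y)) (c : ℝ) (r : Fin n → ℝ) :
    |∫ u, fderiv ℝ Ψ (MeasH_P n q u (g u + c) r)
      (EuclideanSpace.single (⟨1, by omega⟩ : Fin n) (1 : ℝ)) ∂Tor| ≤ L * ∫ u, |V u| ∂Tor := by
  set e1 : Eu n := EuclideanSpace.single (⟨1, by omega⟩ : Fin n) (1 : ℝ) with he1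
  set ez : Eu n := EuclideanSpace.single (⟨q + 2, hn⟩ : Fin n) (1 : ℝ) with hez
  have hm1 : Measurable fun u => fderiv ℝ Ψ (MeasH_P n q u (g u + c) r) e1 :=
    MeasH_measurable_comp hΨ e1 measurable_id (hg.add_const c) measurable_const
  have hm2 : Measurable fun u => V u * fderiv ℝ Ψ (MeasH_P n q u (g u + c) r) ez :=
    hV.mul (MeasH_measurable_comp hΨ ez measurable_id (hg.add_const c) measurable_const)
  have hb1 : ∀ u, |fderiv ℝ Ψ (MeasH_P n q u (g u + c) r) e1| ≤ L := fun u =>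
    MeasH_bound hL hLip _ _
  have hb2 : ∀ u, |V u * fderiv ℝ Ψ (MeasH_P n q u (g u + c) r) ez| ≤ |V u| * L := fun u => by
    rw [abs_mul]
    exact mul_le_mul_of_nonneg_left (MeasH_bound hL hLip _ _) (abs_nonneg _)
  have hb2' : ∀ u, |V u * fderiv ℝ Ψ (MeasH_P n q u (g u + c) r) ez| ≤ M * L := fun u =>
    (hb2 u).trans (mul_le_mul_of_nonneg_right (hM u) hL)
  have hline : ∀ x, ∫ y in Ioc (0 : ℝ) 1, fderiv ℝ Ψ (MeasH_P n q (x, y) (g (x, y) + c) r) e1
      = -∫ y in Ioc (0 : ℝ) 1, V (x, y) * fderiv ℝ Ψ (MeasH_P n q (x, y) (g (x, y) + c) r) ez := by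
    intro x
    refine MeasH_line (γ := fun y => MeasH_P n q (x, y) (g (x, y) + c) r) hΨ (hVc x) ?_ ?_ ?_
    · intro y
      have h1 : (fun y => MeasH_P n q (x, y) (g (x, y) + c) r) = fun y =>
          MeasH_B n q r + x • EuclideanSpace.single (⟨0, by omega⟩ : Fin n) (1 : ℝ) + y • e1
            + (g (x, y) + c) • ez := by
        funext y
        rw [MeasH_P_eq hn]
      rw [h1]
      have h2 := ((hasDerivAt_id y).smul_const e1).const_add
        (MeasH_B n q r + x • EuclideanSpace.single (⟨0, by omega⟩ : Fin n) (1 : ℝ))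
      have h3 := ((hgV x y).add_const c).smul_const ez
      have h4 := h2.add h3
      rw [one_smul] at h4
      exact h4
    · apply hz
      rw [MeasH_P_one hn]
      simp
    · apply hz
      rw [MeasH_P_one hn]
      simp
  have hfub : ∫ u, fderiv ℝ Ψ (MeasH_P n q u (g u + c) r) e1 ∂Tor
      = -∫ u, V u * fderiv ℝ Ψ (MeasH_P n q u (g u + c) r) ez ∂Tor := by
    unfold Tor
    rw [integral_prod _ (integrable_of_bdd hm1 hb1),
      integral_prod _ (integrable_of_bdd hm2 hb2'), ← integral_neg]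
    congr 1
    funext x
    exact hline x
  rw [hfub, abs_neg]
  have h5 : ∫ u, |V u| * L ∂Tor = L * ∫ u, |V u| ∂Tor := by
    rw [integral_mul_const, mul_comm]
  rw [← h5]
  refine (abs_integral_le_integral_abs).trans (integral_mono ?_ ?_ hb2)
  · exact (integrable_of_bdd hm2 hb2').abs
  · refine (integrable_of_bdd (C := M) hV.abs ?_).mul_const L
    intro u; rw [abs_abs]; exact hM u

end

/-! ### The partial sums of the height functions -/

theorem MeasH_pj_D (hs : ∀ j, Good m0 Pst j s) (j : ℕ) :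
    pj m0 Pst s j * (s j).D = rho m0 j := by
  have h1 : ((s j).D : ℝ) ≠ 0 := by
    have := D_pos hs j
    positivity
  have h2 : (JJ m0 j : ℝ) ≠ 0 := by
    have := JJ_pos m0 j
    positivity
  unfold pj rho
  show 1 / ((JJ m0 j * (s j).D : ℕ) : ℝ) * ((s j).D : ℝ) = 1 / (JJ m0 j : ℝ)
  push_cast
  field_simp

/-- Partial sums of the first height function. -/
noncomputable def MeasH_g1 (m0 Pst : ℕ) (s : ℕ → Lev) (J : ℕ) (u : ℝ × ℝ) : ℝ :=
  ∑ j ∈ Finset.range J, pj m0 Pst s j * th1 (ep m0 j) ((s j).X u) ((s j).Y u)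

/-- Partial sums of the second height function. -/
noncomputable def MeasH_g2 (m0 Pst : ℕ) (s : ℕ → Lev) (J : ℕ) (u : ℝ × ℝ) : ℝ :=
  ∑ j ∈ Finset.range J, pj m0 Pst s j * th2 (ep m0 j) ((s j).X u) ((s j).Y u)

theorem MeasH_measurable_g1 (J : ℕ) : Measurable (MeasH_g1 m0 Pst s J) := by
  unfold MeasH_g1
  exact Finset.measurable_fun_sum _ fun j _ =>
    (measurable_comp_XY (measurable_th1 (ep m0 j)) (s j)).const_mul _

theorem MeasH_measurable_g2 (J : ℕ) : Measurable (MeasH_g2 m0 Pst s J) := by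
  unfold MeasH_g2
  exact Finset.measurable_fun_sum _ fun j _ =>
    (measurable_comp_XY (measurable_th2 (ep m0 j)) (s j)).const_mul _

theorem MeasH_hasDerivAt_g1 (hs : ∀ j, Good m0 Pst j s) (J : ℕ) (x y : ℝ) :
    HasDerivAt (fun x => MeasH_g1 m0 Pst s J (x, y))
      (∑ j ∈ Finset.range J, S1 m0 s j (x, y)) x := by
  unfold MeasH_g1
  apply HasDerivAt.fun_sum
  intro j _
  have h1 : HasDerivAt (fun x : ℝ => (s j).X (x, y)) ((s j).D : ℝ) x := by
    unfold Lev.X
    simpa using ((hasDerivAt_id x).const_mul ((s j).D : ℝ)).add_const (s j).t1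
  have h2 : HasDerivAt (fun X => th1 (ep m0 j) X ((s j).Y (x, y)))
      (sX (ep m0 j) ((s j).X (x, y)) ((s j).Y (x, y))) ((s j).X (x, y)) :=
    hasDerivAt_th1 (ep_pos m0 j) _ _
  have h3 := (h2.comp x h1).const_mul (pj m0 Pst s j)
  have h4 : pj m0 Pst s j * (sX (ep m0 j) ((s j).X (x, y)) ((s j).Y (x, y)) * ((s j).D : ℝ))
      = S1 m0 s j (x, y) := by
    unfold S1
    rw [← MeasH_pj_D hs j]
    ring
  rw [h4] at h3
  exact h3

theorem MeasH_hasDerivAt_g2 (hs : ∀ j, Good m0 Pst j s) (J : ℕ) (x y : ℝ) :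
    HasDerivAt (fun y => MeasH_g2 m0 Pst s J (x, y))
      (∑ j ∈ Finset.range J, S2 m0 s j (x, y)) y := by
  unfold MeasH_g2
  apply HasDerivAt.fun_sum
  intro j _
  have h1 : HasDerivAt (fun y : ℝ => (s j).Y (x, y)) ((s j).D : ℝ) y := by
    unfold Lev.Y
    simpa using ((hasDerivAt_id y).const_mul ((s j).D : ℝ)).add_const (s j).t2
  have h2 : HasDerivAt (fun Y => th2 (ep m0 j) ((s j).X (x, y)) Y)
      (sY (ep m0 j) ((s j).X (x, y)) ((s j).Y (x, y))) ((s j).Y (x, y)) :=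
    hasDerivAt_th2 (ep_pos m0 j) _ _
  have h3 := (h2.comp y h1).const_mul (pj m0 Pst s j)
  have h4 : pj m0 Pst s j * (sY (ep m0 j) ((s j).X (x, y)) ((s j).Y (x, y)) * ((s j).D : ℝ))
      = S2 m0 s j (x, y) := by
    unfold S2
    rw [← MeasH_pj_D hs j]
    ring
  rw [h4] at h3
  exact h3

theorem MeasH_continuous_S1 (J : ℕ) (y : ℝ) :
    Continuous fun x => ∑ j ∈ Finset.range J, S1 m0 s j (x, y) := by
  apply continuous_finsetSum
  intro j _
  unfold S1
  apply Continuous.mul continuous_const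
  have h1 : Continuous fun x : ℝ => (s j).X (x, y) := by unfold Lev.X; fun_prop
  exact (continuous_sX_left (ep_pos m0 j) ((s j).Y (0, y))).comp h1

theorem MeasH_continuous_S2 (J : ℕ) (x : ℝ) :
    Continuous fun y => ∑ j ∈ Finset.range J, S2 m0 s j (x, y) := by
  apply continuous_finsetSum
  intro j _
  unfold S2
  apply Continuous.mul continuous_const
  have h1 : Continuous fun y : ℝ => (s j).Y (x, y) := by unfold Lev.Y; fun_prop
  exact (continuous_sY_right (ep_pos m0 j) ((s j).X (x, 0))).comp h1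

section

variable {Ψ : Eu n → ℝ} {L : ℝ}

/-- Passage to the limit in the partial sums. -/
theorem MeasH_limit (hL : 0 ≤ L) (hΨ : ContDiff ℝ 1 Ψ)
    (hLip : ∀ x y, |Ψ x - Ψ y| ≤ L * ‖x - y‖) (i : Fin n)
    {g : ℕ → ℝ × ℝ → ℝ} {g' : ℝ × ℝ → ℝ} (hg : ∀ J, Measurable (g J))
    (hlim : ∀ u, Tendsto (fun J => g J u) atTop (𝓝 (g' u))) {B : ℝ} (c : ℝ) (r : Fin n → ℝ)
    (hB : ∀ J, |∫ u, fderiv ℝ Ψ (MeasH_P n q u (g J u + c) r)
      (EuclideanSpace.single i (1 : ℝ)) ∂Tor| ≤ B) :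
    |∫ u, fderiv ℝ Ψ (MeasH_P n q u (g' u + c) r)
      (EuclideanSpace.single i (1 : ℝ)) ∂Tor| ≤ B := by
  have h1 : Tendsto (fun J => ∫ u, fderiv ℝ Ψ (MeasH_P n q u (g J u + c) r)
      (EuclideanSpace.single i (1 : ℝ)) ∂Tor) atTop
      (𝓝 (∫ u, fderiv ℝ Ψ (MeasH_P n q u (g' u + c) r)
      (EuclideanSpace.single i (1 : ℝ)) ∂Tor)) := by
    apply tendsto_integral_of_dominated_convergence (fun _ => L)
    · intro J
      exact (MeasH_measurable_comp hΨ _ measurable_id ((hg J).add_const c)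
        measurable_const).aestronglyMeasurable
    · exact integrable_const L
    · intro J
      exact Eventually.of_forall fun u => MeasH_bound hL hLip _ _
    · apply Eventually.of_forall
      intro u
      have hfd : Continuous (fderiv ℝ Ψ) := hΨ.continuous_fderiv (by norm_num)
      have h2 : Continuous fun z : ℝ => fderiv ℝ Ψ (MeasH_P n q u (z + c) r)
          (EuclideanSpace.single i (1 : ℝ)) := by
        have h3 : Continuous fun z : ℝ => MeasH_P n q u (z + c) r :=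
          (continuous_MeasH_P n q).comp (by fun_prop : Continuous fun z : ℝ => (u, z + c, r))
        exact (hfd.comp h3).clm_apply continuous_const
      exact (h2.tendsto (g' u)).comp (hlim u)
  exact le_of_tendsto h1.abs (Eventually.of_forall hB)

/-- Restriction to the good set. -/
theorem MeasH_restrict (hs : ∀ j, Good m0 Pst j s) (hL : 0 ≤ L) {f : ℝ × ℝ → ℝ} (hf : Measurable f)
    (hfL : ∀ u, |f u| ≤ L) {B : ℝ} (hB : |∫ u, f u ∂Tor| ≤ B) :
    |∫ u in Gs m0 s, f u ∂Tor| ≤ B + 66 * Cg * (1 / 2) ^ m0 * L := by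
  have hi : Integrable f Tor := integrable_of_bdd hf hfL
  have h1 := integral_add_compl (measurableSet_Gs (m0 := m0) (s := s)) hi
  have h2 : |∫ u in (Gs m0 s)ᶜ, f u ∂Tor| ≤ L * Tor.real (Gs m0 s)ᶜ := by
    have := norm_setIntegral_le_of_norm_le_const (μ := Tor) (s := (Gs m0 s)ᶜ) (f := f) (C := L)
      (measure_lt_top _ _) (fun u _ => hfL u)
    rwa [Real.norm_eq_abs] at this
  have h3 := Tor_compl_Gs_le (m0 := m0) hs
  have h4 : (66 : ℝ) * Cg * (1 / 8) ^ m0 ≤ 66 * Cg * (1 / 2) ^ m0 := by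
    have := Cg_pos
    gcongr
    norm_num
  have h5 : ∫ u in Gs m0 s, f u ∂Tor = ∫ u, f u ∂Tor - ∫ u in (Gs m0 s)ᶜ, f u ∂Tor := by linarith
  rw [h5]
  calc |∫ u, f u ∂Tor - ∫ u in (Gs m0 s)ᶜ, f u ∂Tor|
      ≤ |∫ u, f u ∂Tor| + |∫ u in (Gs m0 s)ᶜ, f u ∂Tor| := abs_sub _ _
    _ ≤ B + L * (66 * Cg * (1 / 2) ^ m0) := by
        refine add_le_add hB (h2.trans ?_)
        exact mul_le_mul_of_nonneg_left (h3.trans h4) hL
    _ = _ := by ring

theorem MeasH_first (hP : 0 < Pst) (hs : ∀ j, Good m0 Pst j s) (hn : q + 2 < n) (hL : 0 ≤ L)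
    (hΨ : ContDiff ℝ 1 Ψ) (hLip : ∀ x y, |Ψ x - Ψ y| ≤ L * ‖x - y‖)
    (hz : ∀ x : Eu n, x (⟨0, by omega⟩ : Fin n) ∉ Ioo (0 : ℝ) 1 → Ψ x = 0)
    (c : ℝ) (r : Fin n → ℝ) :
    |∫ u in Gs m0 s, fderiv ℝ Ψ (MeasH_P n q u (g1 m0 Pst s u + c) r)
      (EuclideanSpace.single (⟨0, by omega⟩ : Fin n) (1 : ℝ)) ∂Tor|
      ≤ 2 * √Cg * (1 / 2) ^ m0 * L + 66 * Cg * (1 / 2) ^ m0 * L := by
  apply MeasH_restrict hs hL
  · exact MeasH_measurable_comp hΨ _ measurable_id ((measurable_g1 hP hs).add_const c)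
      measurable_const
  · intro u
    exact MeasH_bound hL hLip _ _
  · apply MeasH_limit hL hΨ hLip _ (g := MeasH_g1 m0 Pst s) MeasH_measurable_g1
    · intro u
      exact (summable_g1 hP hs u).hasSum.tendsto_sum_nat
    · intro J
      have hb : ∀ u : ℝ × ℝ, |∑ j ∈ Finset.range J, S1 m0 s j u|
          ≤ ∑ j ∈ Finset.range J, 1 / ep m0 j := fun u =>
        (Finset.abs_sum_le_sum_abs _ _).trans (Finset.sum_le_sum fun l _ => abs_S1_le m0 s l u)
      have h1 := MeasH_core1 hn hL hΨ hLip hz (g := MeasH_g1 m0 Pst s J)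
        (V := fun u => ∑ j ∈ Finset.range J, S1 m0 s j u) (MeasH_measurable_g1 J)
        (Finset.measurable_fun_sum _ fun l _ => measurable_S1 m0 s l) hb
        (fun x y => MeasH_hasDerivAt_g1 hs J x y) (fun y => MeasH_continuous_S1 J y) c r
      refine h1.trans ?_
      calc L * ∫ u, |∑ j ∈ Finset.range J, S1 m0 s j u| ∂Tor
          ≤ L * (2 * √Cg * (1 / 2) ^ m0) :=
            mul_le_mul_of_nonneg_left (integral_abs_sum_S1_le hs J) hL
        _ = _ := by ring

theorem MeasH_second (hP : 0 < Pst) (hs : ∀ j, Good m0 Pst j s) (hn : q + 2 < n) (hL : 0 ≤ L)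
    (hΨ : ContDiff ℝ 1 Ψ) (hLip : ∀ x y, |Ψ x - Ψ y| ≤ L * ‖x - y‖)
    (hz : ∀ x : Eu n, x (⟨1, by omega⟩ : Fin n) ∉ Ioo (0 : ℝ) 1 → Ψ x = 0)
    (c : ℝ) (r : Fin n → ℝ) :
    |∫ u in Gs m0 s, fderiv ℝ Ψ (MeasH_P n q u (g2 m0 Pst s u + c) r)
      (EuclideanSpace.single (⟨1, by omega⟩ : Fin n) (1 : ℝ)) ∂Tor|
      ≤ 2 * √Cg * (1 / 2) ^ m0 * L + 66 * Cg * (1 / 2) ^ m0 * L := by
  apply MeasH_restrict hs hL
  · exact MeasH_measurable_comp hΨ _ measurable_id ((measurable_g2 hP hs).add_const c)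
      measurable_const
  · intro u
    exact MeasH_bound hL hLip _ _
  · apply MeasH_limit hL hΨ hLip _ (g := MeasH_g2 m0 Pst s) MeasH_measurable_g2
    · intro u
      exact (summable_g2 hP hs u).hasSum.tendsto_sum_nat
    · intro J
      have hb : ∀ u : ℝ × ℝ, |∑ j ∈ Finset.range J, S2 m0 s j u|
          ≤ ∑ j ∈ Finset.range J, 1 / ep m0 j := fun u =>
        (Finset.abs_sum_le_sum_abs _ _).trans (Finset.sum_le_sum fun l _ => abs_S2_le m0 s l u)
      have h1 := MeasH_core2 hn hL hΨ hLip hz (g := MeasH_g2 m0 Pst s J)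
        (V := fun u => ∑ j ∈ Finset.range J, S2 m0 s j u) (MeasH_measurable_g2 J)
        (Finset.measurable_fun_sum _ fun l _ => measurable_S2 m0 s l) hb
        (fun x y => MeasH_hasDerivAt_g2 hs J x y) (fun y => MeasH_continuous_S2 J y) c r
      refine h1.trans ?_
      calc L * ∫ u, |∑ j ∈ Finset.range J, S2 m0 s j u| ∂Tor
          ≤ L * (2 * √Cg * (1 / 2) ^ m0) :=
            mul_le_mul_of_nonneg_left (integral_abs_sum_S2_le hs J) hL
        _ = _ := by ring

end

/-! ### The other coordinates -/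

/-- Measure of the other coordinates. -/
noncomputable abbrev MeasH_pi (n : ℕ) : Measure (Fin n → ℝ) :=
  Measure.pi fun _ : Fin n => volume.restrict (Ioc (0 : ℝ) 1)

theorem MeasH_update (i : Fin n) :
    (((volume.restrict (Ioc (0 : ℝ) 1)).prod (MeasH_pi n)).map
      fun p : ℝ × (Fin n → ℝ) => Function.update p.2 i p.1) = MeasH_pi n := by
  symm
  apply Measure.pi_eq
  intro t ht
  have hm : Measurable fun p : ℝ × (Fin n → ℝ) => Function.update p.2 i p.1 := by
    apply measurable_pi_lambda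
    intro j
    by_cases hj : j = i
    · subst hj; simp only [Function.update_self]; exact measurable_fst
    · simp only [Function.update_of_ne hj]; exact (measurable_pi_apply j).comp measurable_snd
  rw [Measure.map_apply hm (MeasurableSet.univ_pi ht)]
  have hset : (fun p : ℝ × (Fin n → ℝ) => Function.update p.2 i p.1) ⁻¹' (Set.pi univ t)
      = t i ×ˢ (Set.pi univ (Function.update t i univ)) := by
    ext p
    simp only [mem_preimage, Set.mem_pi, mem_univ, true_implies, mem_prod]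
    constructor
    · intro h
      refine ⟨by simpa using h i, fun j => ?_⟩
      by_cases hj : j = i
      · subst hj; simp
      · have := h j
        simp only [Function.update_of_ne hj] at this ⊢
        exact this
    · rintro ⟨h1, h2⟩ j
      by_cases hj : j = i
      · subst hj; simpa using h1
      · have := h2 j
        simp only [Function.update_of_ne hj] at this ⊢
        exact this
  rw [hset, Measure.prod_prod, Measure.pi_pi]
  rw [← Finset.mul_prod_erase _ _ (Finset.mem_univ i), ← Finset.mul_prod_erase _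
    (fun j => (volume.restrict (Ioc (0 : ℝ) 1)) (t j)) (Finset.mem_univ i)]
  rw [Function.update_self, measure_univ, one_mul]
  congr 1
  apply Finset.prod_congr rfl
  intro j hj
  rw [Function.update_of_ne (Finset.ne_of_mem_erase hj)]

theorem MeasH_integral_update (i : Fin n) {f : (Fin n → ℝ) → ℝ} (hf : Measurable f) {C : ℝ}
    (hC : ∀ r, |f r| ≤ C) (h0 : ∀ r, ∫ t in Ioc (0 : ℝ) 1, f (Function.update r i t) = 0) :
    ∫ r, f r ∂(MeasH_pi n) = 0 := by
  have hm : Measurable fun p : ℝ × (Fin n → ℝ) => Function.update p.2 i p.1 := by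
    apply measurable_pi_lambda
    intro j
    by_cases hj : j = i
    · subst hj; simp only [Function.update_self]; exact measurable_fst
    · simp only [Function.update_of_ne hj]; exact (measurable_pi_apply j).comp measurable_snd
  have hm2 : Measurable fun p : ℝ × (Fin n → ℝ) => f (Function.update p.2 i p.1) := hf.comp hm
  rw [← MeasH_update i, integral_map hm.aemeasurable hf.aestronglyMeasurable,
    integral_prod_symm _ (integrable_of_bdd hm2 fun p => hC _)]
  simp only [h0, integral_zero]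

/-- The other directions. -/
theorem MeasH_other {Ψ : Eu n → ℝ} {L : ℝ} (hL : 0 ≤ L)
    (hΨ : ContDiff ℝ 1 Ψ) (hLip : ∀ x y, |Ψ x - Ψ y| ≤ L * ‖x - y‖) (i : Fin n)
    (h0 : (i : ℕ) ≠ 0) (h1 : (i : ℕ) ≠ 1) (h2 : (i : ℕ) ≠ q + 2)
    (hz : ∀ x : Eu n, x i ∉ Ioo (0 : ℝ) 1 → Ψ x = 0) (u : ℝ × ℝ) (z : ℝ) :
    ∫ r, fderiv ℝ Ψ (MeasH_P n q u z r) (EuclideanSpace.single i (1 : ℝ)) ∂(MeasH_pi n) = 0 := by
  apply MeasH_integral_update i (C := L)
    (MeasH_measurable_comp hΨ _ measurable_const measurable_const measurable_id)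
    (fun r => MeasH_bound hL hLip _ _)
  intro r
  have hP : ∀ t : ℝ, MeasH_P n q u z (Function.update r i t)
      = MeasH_P n q u z (Function.update r i 0) + t • EuclideanSpace.single i (1 : ℝ) := by
    intro t
    ext j
    simp only [MeasH_P, PiLp.add_apply, PiLp.smul_apply, PiLp.single_apply, smul_eq_mul]
    by_cases hj : j = i
    · subst hj
      simp [h0, h1, h2]
    · simp [hj]
  have hPi : ∀ t : ℝ, MeasH_P n q u z (Function.update r i t) i = t := by
    intro t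
    simp [MeasH_P, h0, h1, h2]
  have hl := MeasH_line (Ψ := Ψ) (γ := fun t => MeasH_P n q u z (Function.update r i t))
    (e := EuclideanSpace.single i (1 : ℝ)) (f := 0) (V := fun _ => 0) hΨ continuous_const ?_ ?_ ?_
  · simpa using hl
  · intro t
    rw [smul_zero, add_zero]
    have h3 : (fun t : ℝ => MeasH_P n q u z (Function.update r i t)) = fun t : ℝ =>
        MeasH_P n q u z (Function.update r i 0) + t • EuclideanSpace.single i (1 : ℝ) := by
      funext t; exact hP t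
    rw [h3]
    have h4 := ((hasDerivAt_id t).smul_const (EuclideanSpace.single i (1 : ℝ))).const_add
      (MeasH_P n q u z (Function.update r i 0))
    rw [one_smul] at h4
    exact h4
  · apply hz
    rw [hPi]; simp
  · apply hz
    rw [hPi]; simp

theorem MeasH_real_le : (Tor.restrict (Gs m0 s)).real univ ≤ 1 := by
  rw [measureReal_restrict_apply_univ]
  exact measureReal_le_one

/-- Approximate invariance of `mu0`. -/
theorem hypA_mu0 (hP : 0 < Pst) (hs : ∀ j, Good m0 Pst j s) (hn : q + 2 < n) :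
    HypA (q + 1) (mu0 m0 Pst s n q) (CA * (1 / 2) ^ m0) := by
  have h0n : 0 < n := by omega
  have h1n : 1 < n := by omega
  intro Ψ L hL hΨ hLip hz r hr
  have hfd : Continuous fun x => fderiv ℝ Ψ x (EuclideanSpace.single r (1 : ℝ)) :=
    (hΨ.continuous_fderiv (by norm_num)).clm_apply continuous_const
  unfold mu0
  rw [integral_map (measurable_Fmap hP hs).aemeasurable hfd.aestronglyMeasurable]
  simp only [MeasH_Fmap]
  have hmeas : ∀ {g : ℝ × ℝ → ℝ}, Measurable g →
      Measurable fun x : (ℝ × ℝ) × (Fin n → ℝ) × (ℕ → ℕ) =>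
      fderiv ℝ Ψ (MeasH_P n q x.1 (g x.1 + cd m0 Pst s x.2.2) x.2.1)
        (EuclideanSpace.single r (1 : ℝ)) := by
    intro g hg
    exact MeasH_measurable_comp hΨ _ measurable_fst ((hg.comp measurable_fst).add
      (measurable_cd.comp (measurable_snd.comp measurable_snd)))
      (measurable_fst.comp measurable_snd)
  have hb : ∀ x : Eu n, |fderiv ℝ Ψ x (EuclideanSpace.single r (1 : ℝ))| ≤ L := fun x =>
    MeasH_bound hL hLip r x
  have hpow : (0 : ℝ) < (1 / 2) ^ m0 := by positivity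
  have hCg := Cg_pos
  by_cases hr0 : (r : ℕ) = 0
  · -- the first coordinate
    have hr' : r = (⟨0, h0n⟩ : Fin n) := Fin.ext hr0
    subst hr'
    rw [integral_prod_symm _ (integrable_of_bdd (hmeas (measurable_g1 hP hs)) fun x => hb _)]
    have h1 : ∀ p : (Fin n → ℝ) × (ℕ → ℕ),
        ‖∫ u in Gs m0 s, fderiv ℝ Ψ (MeasH_P n q u (g1 m0 Pst s u + cd m0 Pst s p.2) p.1)
        (EuclideanSpace.single (⟨0, by omega⟩ : Fin n) (1 : ℝ)) ∂Tor‖
        ≤ 2 * √Cg * (1 / 2) ^ m0 * L + 66 * Cg * (1 / 2) ^ m0 * L := by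
      intro p
      rw [Real.norm_eq_abs]
      exact MeasH_first hP hs hn hL hΨ hLip (fun x hx => hz x ⟨_, by simp, hx⟩) _ _
    have h2 := norm_integral_le_of_norm_le_const (μ := (MeasH_pi n).prod (digs m0))
      (Eventually.of_forall h1)
    rw [Real.norm_eq_abs, probReal_univ, mul_one] at h2
    refine h2.trans ?_
    unfold CA
    nlinarith [mul_nonneg hpow.le hL]
  by_cases hr1 : (r : ℕ) = 1
  · -- the second coordinate
    have hr' : r = (⟨1, h1n⟩ : Fin n) := Fin.ext hr1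
    subst hr'
    have hi1 := integrable_of_bdd (μ := (Tor.restrict (Gs m0 s)).prod ((MeasH_pi n).prod (digs m0)))
      (hmeas (measurable_g1 hP hs)) fun x => hb _
    have hi2 := integrable_of_bdd (μ := (Tor.restrict (Gs m0 s)).prod ((MeasH_pi n).prod (digs m0)))
      (hmeas (measurable_g2 hP hs)) fun x => hb _
    -- the second branch
    have h2 : |∫ x, fderiv ℝ Ψ (MeasH_P n q x.1 (g2 m0 Pst s x.1 + cd m0 Pst s x.2.2) x.2.1)
        (EuclideanSpace.single (⟨1, by omega⟩ : Fin n) (1 : ℝ))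
        ∂((Tor.restrict (Gs m0 s)).prod ((MeasH_pi n).prod (digs m0)))|
        ≤ 2 * √Cg * (1 / 2) ^ m0 * L + 66 * Cg * (1 / 2) ^ m0 * L := by
      rw [integral_prod_symm _ hi2]
      have h1 : ∀ p : (Fin n → ℝ) × (ℕ → ℕ),
          ‖∫ u in Gs m0 s, fderiv ℝ Ψ (MeasH_P n q u (g2 m0 Pst s u + cd m0 Pst s p.2) p.1)
          (EuclideanSpace.single (⟨1, by omega⟩ : Fin n) (1 : ℝ)) ∂Tor‖
          ≤ 2 * √Cg * (1 / 2) ^ m0 * L + 66 * Cg * (1 / 2) ^ m0 * L := by
        intro p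
        rw [Real.norm_eq_abs]
        exact MeasH_second hP hs hn hL hΨ hLip (fun x hx => hz x ⟨_, by simp, hx⟩) _ _
      have h2 := norm_integral_le_of_norm_le_const (μ := (MeasH_pi n).prod (digs m0))
        (Eventually.of_forall h1)
      rwa [Real.norm_eq_abs, probReal_univ, mul_one] at h2
    -- comparison of the two branches
    have h3 : |∫ x, (fderiv ℝ Ψ (MeasH_P n q x.1 (g2 m0 Pst s x.1 + cd m0 Pst s x.2.2) x.2.1)
        (EuclideanSpace.single (⟨1, by omega⟩ : Fin n) (1 : ℝ))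
        - fderiv ℝ Ψ (MeasH_P n q x.1 (g1 m0 Pst s x.1 + cd m0 Pst s x.2.2) x.2.1)
        (EuclideanSpace.single (⟨1, by omega⟩ : Fin n) (1 : ℝ)))
        ∂((Tor.restrict (Gs m0 s)).prod ((MeasH_pi n).prod (digs m0)))|
        ≤ 2 * L * (1 / 2) ^ m0 := by
      rw [integral_prod _ (hi2.sub' hi1)]
      have h4 : ∀ u ∈ Gs m0 s, ‖∫ p, (fderiv ℝ Ψ
          (MeasH_P n q u (g2 m0 Pst s u + cd m0 Pst s p.2) p.1)
          (EuclideanSpace.single (⟨1, by omega⟩ : Fin n) (1 : ℝ))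
          - fderiv ℝ Ψ (MeasH_P n q u (g1 m0 Pst s u + cd m0 Pst s p.2) p.1)
          (EuclideanSpace.single (⟨1, by omega⟩ : Fin n) (1 : ℝ)))
          ∂((MeasH_pi n).prod (digs m0))‖ ≤ 2 * L * (1 / 2) ^ m0 := by
        intro u hu
        have hmu : ∀ z : ℝ, Measurable fun p : (Fin n → ℝ) × (ℕ → ℕ) =>
            fderiv ℝ Ψ (MeasH_P n q u (z + cd m0 Pst s p.2) p.1)
            (EuclideanSpace.single (⟨1, by omega⟩ : Fin n) (1 : ℝ)) := fun z =>
          MeasH_measurable_comp hΨ _ measurable_const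
            ((measurable_cd.comp measurable_snd).const_add z) measurable_fst
        have hiu : ∀ z : ℝ, Integrable (fun p : (Fin n → ℝ) × (ℕ → ℕ) =>
            fderiv ℝ Ψ (MeasH_P n q u (z + cd m0 Pst s p.2) p.1)
            (EuclideanSpace.single (⟨1, by omega⟩ : Fin n) (1 : ℝ)))
            ((MeasH_pi n).prod (digs m0)) := fun z =>
          integrable_of_bdd (hmu z) fun p => hb _
        rw [integral_prod _ ((hiu _).sub' (hiu _))]
        have h5 : ∀ ρ : Fin n → ℝ, ‖∫ l, (fderiv ℝ Ψ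
          (MeasH_P n q u (g2 m0 Pst s u + cd m0 Pst s l) ρ)
          (EuclideanSpace.single (⟨1, by omega⟩ : Fin n) (1 : ℝ))
          - fderiv ℝ Ψ (MeasH_P n q u (g1 m0 Pst s u + cd m0 Pst s l) ρ)
          (EuclideanSpace.single (⟨1, by omega⟩ : Fin n) (1 : ℝ)))
          ∂(digs m0)‖ ≤ 2 * L * (1 / 2) ^ m0 := by
          intro ρ
          obtain ⟨k, hk, hk2⟩ := g2_eq hP hs hu
          have hF : Measurable fun z : ℝ => fderiv ℝ Ψ (MeasH_P n q u (g1 m0 Pst s u + z) ρ)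
              (EuclideanSpace.single (⟨1, by omega⟩ : Fin n) (1 : ℝ)) :=
            MeasH_measurable_comp hΨ _ measurable_const (measurable_id.const_add _)
              measurable_const
          have h6 := digs_shift (m0 := m0) hP hs hk hF (M := L) (fun z => hb _)
          have h7 : ∀ l, g1 m0 Pst s u + (cd m0 Pst s l + ∑' j, pj m0 Pst s j * (k j : ℝ))
              = g2 m0 Pst s u + cd m0 Pst s l := by
            intro l; rw [hk2]; ring
          simp only [h7] at h6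
          have hml : ∀ z : ℝ, Integrable (fun l : ℕ → ℕ =>
              fderiv ℝ Ψ (MeasH_P n q u (z + cd m0 Pst s l) ρ)
              (EuclideanSpace.single (⟨1, by omega⟩ : Fin n) (1 : ℝ))) (digs m0) := fun z =>
            integrable_of_bdd (MeasH_measurable_comp hΨ _ measurable_const
              (measurable_cd.const_add z) measurable_const) fun l => hb _
          rw [integral_sub (hml _) (hml _), Real.norm_eq_abs]
          exact h6
        have h8 := norm_integral_le_of_norm_le_const (μ := MeasH_pi n) (Eventually.of_forall h5)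
        rwa [probReal_univ, mul_one] at h8
      have h9 := norm_setIntegral_le_of_norm_le_const (μ := Tor) (s := Gs m0 s)
        (measure_lt_top _ _) h4
      rw [Real.norm_eq_abs] at h9
      refine h9.trans ?_
      calc 2 * L * (1 / 2) ^ m0 * Tor.real (Gs m0 s) ≤ 2 * L * (1 / 2) ^ m0 * 1 := by
            gcongr
            exact measureReal_le_one
        _ = _ := mul_one _
    rw [integral_sub hi2 hi1] at h3
    have h10 := abs_sub_abs_le_abs_sub
      (∫ x, fderiv ℝ Ψ (MeasH_P n q x.1 (g1 m0 Pst s x.1 + cd m0 Pst s x.2.2) x.2.1)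
        (EuclideanSpace.single (⟨1, by omega⟩ : Fin n) (1 : ℝ))
        ∂((Tor.restrict (Gs m0 s)).prod ((MeasH_pi n).prod (digs m0))))
      (∫ x, fderiv ℝ Ψ (MeasH_P n q x.1 (g2 m0 Pst s x.1 + cd m0 Pst s x.2.2) x.2.1)
        (EuclideanSpace.single (⟨1, by omega⟩ : Fin n) (1 : ℝ))
        ∂((Tor.restrict (Gs m0 s)).prod ((MeasH_pi n).prod (digs m0))))
    rw [abs_sub_comm] at h10
    unfold CA
    linarith
  · -- the other coordinates
    have hr2 : (r : ℕ) ≠ q + 2 := by omega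
    rw [integral_prod _ (integrable_of_bdd (hmeas (measurable_g1 hP hs)) fun x => hb _)]
    have h1 : ∀ u : ℝ × ℝ, ∫ p : (Fin n → ℝ) × (ℕ → ℕ),
        fderiv ℝ Ψ (MeasH_P n q u (g1 m0 Pst s u + cd m0 Pst s p.2) p.1)
        (EuclideanSpace.single r (1 : ℝ)) ∂((MeasH_pi n).prod (digs m0)) = 0 := by
      intro u
      have hmu : Measurable fun p : (Fin n → ℝ) × (ℕ → ℕ) =>
          fderiv ℝ Ψ (MeasH_P n q u (g1 m0 Pst s u + cd m0 Pst s p.2) p.1)
          (EuclideanSpace.single r (1 : ℝ)) :=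
        MeasH_measurable_comp hΨ _ measurable_const
          ((measurable_cd.comp measurable_snd).const_add _) measurable_fst
      rw [integral_prod_symm _ (integrable_of_bdd hmu fun x => hb _)]
      have h2 : ∀ l : ℕ → ℕ, ∫ ρ, fderiv ℝ Ψ (MeasH_P n q u (g1 m0 Pst s u + cd m0 Pst s l) ρ)
          (EuclideanSpace.single r (1 : ℝ)) ∂(MeasH_pi n) = 0 := fun l =>
        MeasH_other hL hΨ hLip r hr0 hr1 hr2 (fun x hx => hz x ⟨r, hr, hx⟩) _ _
      simp only [h2, integral_zero]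
    have h2 : ∫ u in Gs m0 s, ∫ p : (Fin n → ℝ) × (ℕ → ℕ),
        fderiv ℝ Ψ (MeasH_P n q u (g1 m0 Pst s u + cd m0 Pst s p.2) p.1)
        (EuclideanSpace.single r (1 : ℝ)) ∂((MeasH_pi n).prod (digs m0)) ∂Tor = 0 := by
      simp only [h1, integral_zero]
    have h3 : |∫ u in Gs m0 s, ∫ p : (Fin n → ℝ) × (ℕ → ℕ),
        fderiv ℝ Ψ (MeasH_P n q u (g1 m0 Pst s u + cd m0 Pst s p.2) p.1)
        (EuclideanSpace.single r (1 : ℝ)) ∂((MeasH_pi n).prod (digs m0)) ∂Tor|
        ≤ CA * (1 / 2) ^ m0 * L := by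
      rw [h2, abs_zero]
      unfold CA
      positivity
    exact h3

end Pool.Agent.H28.Lusin
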