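import Pool.Agent.H28.Lusin.TopDefs

open MeasureTheory Set Filter
open scoped ContDiff Topology ENNReal

namespace Pool.Agent.H28.Lusin

variable {q : ℕ}

theorem isCompact_Qn (q : ℕ) : IsCompact (Qn q) := by
  have h1 : IsCompact (Set.pi univ fun _ : Fin (q + 2) => Icc (0 : ℝ) 1) :=
    isCompact_univ_pi fun _ => isCompact_Icc
  have h2 := (PiLp.continuousLinearEquiv 2 ℝ
    (fun _ : Fin (q + 2) => ℝ)).toHomeomorph.isCompact_preimage.mpr h1
  convert h2 using 1
  ext x
  simp only [Qn, mem_ofPred_eq, mem_preimage, Set.mem_pi, mem_univ, forall_const]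
  rfl

theorem OscA.tendsto_smul_single (a : Fin (q + 2)) (s : ℝ) (hs : s ≠ 0) :
    Tendsto (fun N : ℕ => ((s * N : ℝ) • ee q a : Eu (q + 2))) atTop (cocompact (Eu (q + 2))) := by
  rw [← Metric.cobounded_eq_cocompact, ← tendsto_norm_atTop_iff_cobounded]
  have : (fun N : ℕ => ‖((s * N : ℝ) • ee q a : Eu (q + 2))‖) = fun N : ℕ => |s| * (N : ℝ) := by
    funext N
    rw [norm_smul, ee, PiLp.norm_single, norm_one, mul_one, Real.norm_eq_abs, abs_mul,
      Nat.abs_cast]
  rw [this]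
  exact Tendsto.const_mul_atTop (abs_pos.mpr hs) tendsto_natCast_atTop_atTop

theorem OscA.measurableSet_Qn : MeasurableSet (Qn q) := (isCompact_Qn q).isClosed.measurableSet

theorem OscA.tendsto_integral_char {H : Eu (q + 2) → ℂ}
    (a : Fin (q + 2)) (s : ℝ) (hs : s ≠ 0) :
    Tendsto (fun N : ℕ => ∫ x in Qn q,
      Complex.exp (((2 * Real.pi * (-(s * N * x a)) : ℝ) : ℂ) * Complex.I) * H x) atTop
      (𝓝 0) := by
  have h1 := (tendsto_integral_exp_inner_smul_cocompact (V := Eu (q + 2))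
    ((Qn q).indicator H)).comp (OscA.tendsto_smul_single a s hs)
  refine h1.congr ?_
  intro N
  rw [← integral_indicator OscA.measurableSet_Qn]
  simp only [Function.comp_apply]
  congr 1
  funext x
  by_cases hx : x ∈ Qn q
  · rw [indicator_of_mem hx, indicator_of_mem hx, Circle.smul_def, Real.fourierChar_apply,
      smul_eq_mul, inner_smul_right, ee, EuclideanSpace.inner_single_right]
    simp
  · rw [indicator_of_notMem hx, indicator_of_notMem hx, smul_zero]

/-- Riemann-Lebesgue lemma for `cos (2πN x_a)` over the cube. -/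
theorem tendsto_integral_cos {H : Eu (q + 2) → ℂ} (hH : IntegrableOn H (Qn q))
    (a : Fin (q + 2)) :
    Tendsto (fun N : ℕ => ∫ x in Qn q, ((Real.cos (2 * Real.pi * N * x a) : ℝ) : ℂ) * H x) atTop
      (𝓝 0) := by
  have h1 := OscA.tendsto_integral_char (H := H) a 1 one_ne_zero
  have h2 := OscA.tendsto_integral_char (H := H) a (-1) (by norm_num)
  have h3 := (h1.add h2).mul_const (1 / 2 : ℂ)
  simp only [add_zero, zero_mul] at h3
  refine h3.congr ?_
  intro N
  have hint : ∀ s : ℝ, IntegrableOn (fun x =>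
      Complex.exp (((2 * Real.pi * (-(s * N * x a)) : ℝ) : ℂ) * Complex.I) * H x) (Qn q) := by
    intro s
    refine Integrable.bdd_mul (c := 1) hH ?_ ?_
    · apply Continuous.aestronglyMeasurable
      fun_prop
    · refine Eventually.of_forall fun x => ?_
      rw [Complex.norm_exp_ofReal_mul_I]
  rw [← integral_add (hint 1) (hint (-1)), ← integral_mul_const]
  congr 1
  funext x
  have h4 : ((Real.cos (2 * Real.pi * N * x a) : ℝ) : ℂ) =
      (Complex.exp (((2 * Real.pi * (-(1 * N * x a)) : ℝ) : ℂ) * Complex.I) +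
      Complex.exp (((2 * Real.pi * (-(-1 * N * x a)) : ℝ) : ℂ) * Complex.I)) * (1 / 2) := by
    rw [Complex.ofReal_cos, Complex.cos, add_comm (Complex.exp _), div_eq_mul_one_div]
    congr 3
    · push_cast; ring_nf
    · push_cast; ring_nf
  rw [h4]
  ring

theorem OscA.hasFDerivAt_coord (c : Fin (q + 2)) (w : ℝ) (x : Eu (q + 2)) :
    HasFDerivAt (fun y : Eu (q + 2) => w * y c)
      (w • (EuclideanSpace.proj c : Eu (q + 2) →L[ℝ] ℝ)) x := by
  have h : HasFDerivAt (fun y : Eu (q + 2) => y c)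
      (EuclideanSpace.proj c : Eu (q + 2) →L[ℝ] ℝ) x :=
    (EuclideanSpace.proj c : Eu (q + 2) →L[ℝ] ℝ).hasFDerivAt
  exact h.const_mul w

theorem OscA.fderiv_cos_mul {M : Eu (q + 2) → ℝ} (hM : Differentiable ℝ M) (c : Fin (q + 2))
    (w : ℝ) (x b : Eu (q + 2)) :
    fderiv ℝ (fun y => Real.cos (w * y c) * M y) x b =
      Real.cos (w * x c) * fderiv ℝ M x b - w * b c * (Real.sin (w * x c) * M x) := by
  have h1 := ((OscA.hasFDerivAt_coord c w x).cos).mul (hM x).hasFDerivAt
  have h2 : fderiv ℝ (fun y => Real.cos (w * y c) * M y) x = _ := h1.fderiv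
  rw [h2]
  simp [smul_eq_mul]
  ring

theorem OscA.fderiv_sin_mul {M : Eu (q + 2) → ℝ} (hM : Differentiable ℝ M) (c : Fin (q + 2))
    (w : ℝ) (x b : Eu (q + 2)) :
    fderiv ℝ (fun y => Real.sin (w * y c) * M y) x b =
      Real.sin (w * x c) * fderiv ℝ M x b + w * b c * (Real.cos (w * x c) * M x) := by
  have h1 := ((OscA.hasFDerivAt_coord c w x).sin).mul (hM x).hasFDerivAt
  have h2 : fderiv ℝ (fun y => Real.sin (w * y c) * M y) x = _ := h1.fderiv
  rw [h2]
  simp [smul_eq_mul]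
  ring

theorem OscA.contDiff_fderiv {M : Eu (q + 2) → ℝ} (hM : ContDiff ℝ ∞ M) (b : Eu (q + 2)) :
    ContDiff ℝ ∞ fun y => fderiv ℝ M y b :=
  (hM.fderiv_right (m := ∞) (by norm_num)).clm_apply contDiff_const

theorem OscA.dd_cos_mul {M : Eu (q + 2) → ℝ} (hM : ContDiff ℝ ∞ M) (c : Fin (q + 2))
    (w : ℝ) (a b x : Eu (q + 2)) :
    dd (fun y => Real.cos (w * y c) * M y) a b x =
      Real.cos (w * x c) * dd M a b x -
        w * Real.sin (w * x c) * (a c * fderiv ℝ M x b + b c * fderiv ℝ M x a) -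
        w ^ 2 * a c * b c * (Real.cos (w * x c) * M x) := by
  have hd : Differentiable ℝ M := hM.differentiable (by norm_num)
  have hd' : Differentiable ℝ fun y => fderiv ℝ M y b :=
    (OscA.contDiff_fderiv hM b).differentiable (by norm_num)
  unfold dd
  have e : (fun y => fderiv ℝ (fun y => Real.cos (w * y c) * M y) y b) =
      fun y => Real.cos (w * y c) * fderiv ℝ M y b - w * b c * (Real.sin (w * y c) * M y) := by
    funext y
    exact OscA.fderiv_cos_mul hd c w y b
  rw [e]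
  have hp : Differentiable ℝ fun y : Eu (q + 2) => w * y c := fun y =>
    (OscA.hasFDerivAt_coord c w y).differentiableAt
  have hc : Differentiable ℝ fun y : Eu (q + 2) => Real.cos (w * y c) * fderiv ℝ M y b :=
    hp.cos.mul hd'
  have hs : Differentiable ℝ fun y : Eu (q + 2) => Real.sin (w * y c) * M y :=
    hp.sin.mul hd
  have e2 : fderiv ℝ (fun y => Real.cos (w * y c) * fderiv ℝ M y b -
      w * b c * (Real.sin (w * y c) * M y)) x =
      fderiv ℝ (fun y => Real.cos (w * y c) * fderiv ℝ M y b) x -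
      (w * b c) • fderiv ℝ (fun y => Real.sin (w * y c) * M y) x := by
    rw [← fderiv_const_mul (hs x), ← fderiv_fun_sub (hc x) ((hs x).const_mul _)]
  rw [e2]
  simp only [sub_apply, smul_apply, smul_eq_mul]
  rw [OscA.fderiv_cos_mul hd' c w x a, OscA.fderiv_sin_mul hd c w x a]
  ring

theorem OscA.fderiv_add_const_mul {U W : Eu (q + 2) → ℝ} (hU : ContDiff ℝ ∞ U)
    (hW : ContDiff ℝ ∞ W) (s : ℝ) (x b : Eu (q + 2)) :
    fderiv ℝ (fun y => U y + s * W y) x b = fderiv ℝ U x b + s * fderiv ℝ W x b := by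
  have hd : Differentiable ℝ U := hU.differentiable (by norm_num)
  have hd' : Differentiable ℝ W := hW.differentiable (by norm_num)
  rw [fderiv_fun_add (hd x) ((hd' x).const_mul s), fderiv_const_mul (hd' x)]
  simp

theorem OscA.dd_add_const_mul {U W : Eu (q + 2) → ℝ} (hU : ContDiff ℝ ∞ U)
    (hW : ContDiff ℝ ∞ W) (s : ℝ) (a b x : Eu (q + 2)) :
    dd (fun y => U y + s * W y) a b x = dd U a b x + s * dd W a b x := by
  unfold dd
  have e : (fun y => fderiv ℝ (fun y => U y + s * W y) y b) =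
      fun y => fderiv ℝ U y b + s * fderiv ℝ W y b := by
    funext y
    exact OscA.fderiv_add_const_mul hU hW s y b
  rw [e]
  exact OscA.fderiv_add_const_mul (OscA.contDiff_fderiv hU b) (OscA.contDiff_fderiv hW b) s x a

theorem OscA.exists_bound {f : Eu (q + 2) → ℝ} (hf : Continuous f) :
    ∃ K, 0 ≤ K ∧ ∀ x ∈ Qn q, |f x| ≤ K := by
  obtain ⟨C, hC⟩ := (isCompact_Qn q).exists_bound_of_continuousOn hf.continuousOn
  exact ⟨max C 0, le_max_right _ _, fun x hx => (hC x hx).trans (le_max_left _ _)⟩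

theorem OscA.err_bound {σ C S D X K w η : ℝ} (hσ : |σ| ≤ 1) (hC : |C| ≤ 1) (hS : |S| ≤ 1)
    (hK : 0 ≤ K) (hD : |D| ≤ K) (hX : |X| ≤ 2 * K) (hw : 1 ≤ w) (hη : 3 * K / w ≤ η) :
    |(-σ / w ^ 2) * (C * D - w * S * X)| ≤ η := by
  have hw0 : 0 < w := by linarith
  have h1 : |C * D| ≤ K := by
    rw [abs_mul]
    calc |C| * |D| ≤ 1 * K := mul_le_mul hC hD (abs_nonneg _) zero_le_one
      _ = K := one_mul _
  have h2 : |w * S * X| ≤ w * (2 * K) := by
    rw [abs_mul, abs_mul, abs_of_pos hw0]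
    calc w * |S| * |X| ≤ w * 1 * (2 * K) := by
          apply mul_le_mul _ hX (abs_nonneg _) (by linarith)
          exact mul_le_mul_of_nonneg_left hS hw0.le
      _ = w * (2 * K) := by ring
  have h3 : |C * D - w * S * X| ≤ 3 * K * w := by
    have := abs_sub (C * D) (w * S * X)
    nlinarith
  have h4 : |-σ / w ^ 2| ≤ 1 / w ^ 2 := by
    rw [abs_div, abs_neg, abs_of_pos (by positivity : (0 : ℝ) < w ^ 2)]
    exact div_le_div_of_nonneg_right hσ (by positivity)
  rw [abs_mul]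
  calc |-σ / w ^ 2| * |C * D - w * S * X| ≤ 1 / w ^ 2 * (3 * K * w) :=
        mul_le_mul h4 h3 (abs_nonneg _) (by positivity)
    _ = 3 * K / w := by field_simp
    _ ≤ η := hη

theorem OscA.ee_apply (r c : Fin (q + 2)) : (ee q r) c = if c = r then 1 else 0 := by
  rw [ee, PiLp.single_apply]

/-- the integrals with oscillating factor -/
noncomputable def OscA.J (H : Eu (q + 2) → ℂ) (c : Fin (q + 2)) (N : ℕ) : ℂ :=
  ∫ x in Qn q, ((Real.cos (2 * Real.pi * N * x c) : ℝ) : ℂ) * H x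

theorem OscA.integrableOn {H : Eu (q + 2) → ℂ} (hH : Continuous H) : IntegrableOn H (Qn q) :=
  hH.continuousOn.integrableOn_compact (isCompact_Qn q)

theorem OscA.cont_cos (c : Fin (q + 2)) (w : ℝ) :
    Continuous fun x : Eu (q + 2) => Real.cos (w * x c) := by fun_prop

theorem OscA.lin3 {S : Set (Eu (q + 2))} {f1 f2 f3 : Eu (q + 2) → ℂ} (a1 a2 a3 : ℂ)
    (h1 : IntegrableOn f1 S) (h2 : IntegrableOn f2 S) (h3 : IntegrableOn f3 S) :
    a1 * (∫ x in S, f1 x) + a2 * (∫ x in S, f2 x) + a3 * (∫ x in S, f3 x) =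
      ∫ x in S, (a1 * f1 x + a2 * f2 x + a3 * f3 x) := by
  have h12 : IntegrableOn (fun x => a1 * f1 x + a2 * f2 x) S :=
    (h1.const_mul a1).add (h2.const_mul a2)
  rw [integral_add h12 (h3.const_mul a3), integral_add (h1.const_mul a1) (h2.const_mul a2),
    integral_const_mul, integral_const_mul, integral_const_mul]

theorem OscA.lin5 {S : Set (Eu (q + 2))} {f1 f2 f3 f4 f5 : Eu (q + 2) → ℂ} (a1 a2 a3 a4 a5 : ℂ)
    (h1 : IntegrableOn f1 S) (h2 : IntegrableOn f2 S) (h3 : IntegrableOn f3 S)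
    (h4 : IntegrableOn f4 S) (h5 : IntegrableOn f5 S) :
    a1 * (∫ x in S, f1 x) + a2 * (∫ x in S, f2 x) + a3 * (∫ x in S, f3 x) +
      a4 * (∫ x in S, f4 x) + a5 * (∫ x in S, f5 x) =
      ∫ x in S, (a1 * f1 x + a2 * f2 x + a3 * f3 x + a4 * f4 x + a5 * f5 x) := by
  have h12 : IntegrableOn (fun x => a1 * f1 x + a2 * f2 x) S :=
    (h1.const_mul a1).add (h2.const_mul a2)
  have h123 : IntegrableOn (fun x => a1 * f1 x + a2 * f2 x + a3 * f3 x) S :=
    h12.add (h3.const_mul a3)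
  have h1234 : IntegrableOn (fun x => a1 * f1 x + a2 * f2 x + a3 * f3 x + a4 * f4 x) S :=
    h123.add (h4.const_mul a4)
  rw [integral_add h1234 (h5.const_mul a5), integral_add h123 (h4.const_mul a4),
    ← OscA.lin3 a1 a2 a3 h1 h2 h3, integral_const_mul, integral_const_mul]

/-- The asymptotics of the first integral. -/
theorem OscA.tendsto_I {G : Eu (q + 2) → ℂ} (hG : Continuous G) (c : Fin (q + 2)) (ε σ : ℝ) :
    Tendsto (fun N : ℕ => ∫ x in Qn q, G x * (1 + (Real.cos (2 * Real.pi * N * x c) : ℝ)) *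
      (1 + Complex.I * ε * σ * (Real.cos (2 * Real.pi * N * x c) : ℝ))) atTop
      (𝓝 ((1 + Complex.I * ε * σ / 2) * ∫ x in Qn q, G x)) := by
  have hJ := tendsto_integral_cos (OscA.integrableOn hG) c
  have hJ2 : Tendsto (fun N : ℕ => OscA.J G c (2 * N)) atTop (𝓝 0) :=
    hJ.comp (tendsto_id.const_mul_atTop' (by norm_num))
  have h1 : Tendsto (fun N : ℕ => (1 + Complex.I * ε * σ / 2) * (∫ x in Qn q, G x) +
      (1 + Complex.I * ε * σ) * OscA.J G c N + (Complex.I * ε * σ / 2) * OscA.J G c (2 * N)) atTop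
      (𝓝 ((1 + Complex.I * ε * σ / 2) * (∫ x in Qn q, G x) + (1 + Complex.I * ε * σ) * 0 +
        (Complex.I * ε * σ / 2) * 0)) :=
    (tendsto_const_nhds.add (hJ.const_mul _)).add (hJ2.const_mul _)
  simp only [mul_zero, add_zero] at h1
  refine h1.congr ?_
  intro N
  unfold OscA.J
  have i1 := OscA.integrableOn hG
  have i2 : IntegrableOn (fun x => ((Real.cos (2 * Real.pi * N * x c) : ℝ) : ℂ) * G x) (Qn q) :=
    OscA.integrableOn ((Complex.continuous_ofReal.comp (OscA.cont_cos c _)).mul hG)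
  have i3 : IntegrableOn (fun x => ((Real.cos (2 * Real.pi * (2 * N : ℕ) * x c) : ℝ) : ℂ) * G x)
      (Qn q) :=
    OscA.integrableOn ((Complex.continuous_ofReal.comp (OscA.cont_cos c _)).mul hG)
  rw [OscA.lin3 _ _ _ i1 i2 i3]
  congr 1
  funext x
  have h2 : ((Real.cos (2 * Real.pi * (2 * N : ℕ) * x c) : ℝ) : ℂ) =
      2 * ((Real.cos (2 * Real.pi * N * x c) : ℝ) : ℂ) ^ 2 - 1 := by
    have : 2 * Real.pi * (2 * N : ℕ) * x c = 2 * (2 * Real.pi * N * x c) := by
      push_cast; ring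
    rw [this, Real.cos_two_mul]
    push_cast
    ring
  rw [h2]
  ring

/-- The asymptotics of the second integral. -/
theorem OscA.tendsto_S {G G' : Eu (q + 2) → ℂ} (hG : Continuous G) (hG' : Continuous G')
    (c : Fin (q + 2)) (ε σ : ℝ) (hσ : σ ^ 2 = 1) :
    Tendsto (fun N : ℕ => ∫ x in Qn q, (G' x + σ * (Real.cos (2 * Real.pi * N * x c) : ℝ) * G x) *
      (1 + Complex.I * ε * σ * (Real.cos (2 * Real.pi * N * x c) : ℝ))) atTop
      (𝓝 ((∫ x in Qn q, G' x) + Complex.I * ε / 2 * ∫ x in Qn q, G x)) := by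
  have hJ := tendsto_integral_cos (OscA.integrableOn hG) c
  have hJ' := tendsto_integral_cos (OscA.integrableOn hG') c
  have hJ2 : Tendsto (fun N : ℕ => OscA.J G c (2 * N)) atTop (𝓝 0) :=
    hJ.comp (tendsto_id.const_mul_atTop' (by norm_num))
  have h1 : Tendsto (fun N : ℕ => ((∫ x in Qn q, G' x) + Complex.I * ε / 2 * ∫ x in Qn q, G x) +
      (Complex.I * ε * σ) * OscA.J G' c N + (σ : ℂ) * OscA.J G c N +
      (Complex.I * ε / 2) * OscA.J G c (2 * N)) atTop
      (𝓝 (((∫ x in Qn q, G' x) + Complex.I * ε / 2 * ∫ x in Qn q, G x) +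
        (Complex.I * ε * σ) * 0 + (σ : ℂ) * 0 + (Complex.I * ε / 2) * 0)) :=
    ((tendsto_const_nhds.add (hJ'.const_mul _)).add (hJ.const_mul _)).add (hJ2.const_mul _)
  simp only [mul_zero, add_zero] at h1
  refine h1.congr ?_
  intro N
  unfold OscA.J
  have i0 := OscA.integrableOn hG'
  have i1 := OscA.integrableOn hG
  have i2 : IntegrableOn (fun x => ((Real.cos (2 * Real.pi * N * x c) : ℝ) : ℂ) * G x) (Qn q) :=
    OscA.integrableOn ((Complex.continuous_ofReal.comp (OscA.cont_cos c _)).mul hG)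
  have i2' : IntegrableOn (fun x => ((Real.cos (2 * Real.pi * N * x c) : ℝ) : ℂ) * G' x) (Qn q) :=
    OscA.integrableOn ((Complex.continuous_ofReal.comp (OscA.cont_cos c _)).mul hG')
  have i3 : IntegrableOn (fun x => ((Real.cos (2 * Real.pi * (2 * N : ℕ) * x c) : ℝ) : ℂ) * G x)
      (Qn q) :=
    OscA.integrableOn ((Complex.continuous_ofReal.comp (OscA.cont_cos c _)).mul hG)
  rw [← one_mul (∫ x in Qn q, G' x), OscA.lin5 _ _ _ _ _ i0 i1 i2' i2 i3]
  congr 1
  funext x
  have h2 : ((Real.cos (2 * Real.pi * (2 * N : ℕ) * x c) : ℝ) : ℂ) =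
      2 * ((Real.cos (2 * Real.pi * N * x c) : ℝ) : ℂ) ^ 2 - 1 := by
    have : 2 * Real.pi * (2 * N : ℕ) * x c = 2 * (2 * Real.pi * N * x c) := by
      push_cast; ring
    rw [this, Real.cos_two_mul]
    push_cast
    ring
  rw [h2]
  have h3 : (σ : ℂ) ^ 2 = 1 := by exact_mod_cast hσ
  linear_combination (Complex.I * ε * ((Real.cos (2 * Real.pi * N * x c) : ℝ) : ℂ) ^ 2 * G x) *
    (-h3)

theorem OscA.step_core {χ : Eu (q + 2) → ℝ} (hχ : Continuous χ) {ε τ τ' : ℝ} (hτ0 : 0 ≤ τ)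
    (hτ : (1 + |ε|) * τ < τ') {k : ℕ}
    {I S : ℂ} {U M F : Eu (q + 2) → ℝ} {g : Eu (q + 2) → ℂ}
    (h : OscP q χ ε τ k I S U M F g) (c : Fin (q + 2)) (σ : ℝ)
    (hcσ : (c = 0 ∧ σ = 1) ∨ (c = 1 ∧ σ = -1)) :
    ∃ (U' M' F' : Eu (q + 2) → ℝ) (g' : Eu (q + 2) → ℂ),
      OscP q χ ε τ' (k + 1) (I * (1 + Complex.I * ε * σ / 2))
        (S + Complex.I * ε * I / 2) U' M' F' g' := by
  have hττ : τ < τ' := by nlinarith [abs_nonneg ε, mul_nonneg (abs_nonneg ε) hτ0]
  have hσ2 : σ ^ 2 = 1 := by rcases hcσ with h | h <;> rw [h.2] <;> norm_num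
  have hσ1 : |σ| ≤ 1 := by rcases hcσ with h | h <;> rw [h.2] <;> norm_num
  -- bounds on the cube
  have cU := h.hU
  have cM := h.hM
  have hcont : ∀ b, Continuous fun y => fderiv ℝ M y b := fun b =>
    (OscA.contDiff_fderiv cM b).continuous
  have hcont2 : ∀ a b, Continuous fun y => dd M a b y := fun a b =>
    (OscA.contDiff_fderiv (OscA.contDiff_fderiv cM b) a).continuous
  obtain ⟨K0, hK0, hK0'⟩ := OscA.exists_bound cM.continuous
  obtain ⟨K1, hK1, hK1'⟩ := OscA.exists_bound (hcont (ee q 0))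
  obtain ⟨K2, hK2, hK2'⟩ := OscA.exists_bound (hcont (ee q 1))
  obtain ⟨K3, hK3, hK3'⟩ := OscA.exists_bound (hcont2 (ee q 0) (ee q 0))
  obtain ⟨K4, hK4, hK4'⟩ := OscA.exists_bound (hcont2 (ee q 1) (ee q 1))
  obtain ⟨K5, hK5, hK5'⟩ := OscA.exists_bound (hcont2 (ee q 0) (ee q 1))
  set K := K0 + K1 + K2 + K3 + K4 + K5 with hKdef
  have hK : 0 ≤ K := by positivity
  have hη : 0 < (τ' - τ) / 2 := by linarith
  -- the limits
  have hG : Continuous fun x => ((χ x * M x : ℝ) : ℂ) * g x :=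
    (Complex.continuous_ofReal.comp (hχ.mul cM.continuous)).mul h.hg
  have hG' : Continuous fun x => ((χ x * F x : ℝ) : ℂ) * g x :=
    (Complex.continuous_ofReal.comp (hχ.mul h.hF)).mul h.hg
  have t1 := (((OscA.tendsto_I hG c ε σ).sub_const (I * (1 + Complex.I * ε * σ / 2))).norm)
  have t2 := (((OscA.tendsto_S hG hG' c ε σ hσ2).sub_const (S + Complex.I * ε * I / 2)).norm)
  have t3 := (tendsto_integral_cos (OscA.integrableOn
    (Complex.continuous_ofReal.comp cM.continuous)) c).norm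
  have n1 : ‖Complex.I * ε * σ / 2‖ ≤ |ε| / 2 := by
    rw [norm_div, norm_mul, norm_mul, Complex.norm_I, Complex.norm_real, Complex.norm_real,
      Real.norm_eq_abs, Real.norm_eq_abs, one_mul, RCLike.norm_ofNat]
    have := mul_le_mul_of_nonneg_left hσ1 (abs_nonneg ε)
    linarith
  have n2 : ‖Complex.I * ε / 2‖ ≤ |ε| / 2 := by
    rw [norm_div, norm_mul, Complex.norm_I, Complex.norm_real,
      Real.norm_eq_abs, one_mul, RCLike.norm_ofNat]
  have b1 : ‖(1 + Complex.I * ε * σ / 2) * (∫ x in Qn q, ((χ x * M x : ℝ) : ℂ) * g x) -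
      I * (1 + Complex.I * ε * σ / 2)‖ < τ' := by
    have e : (1 + Complex.I * ε * σ / 2) * (∫ x in Qn q, ((χ x * M x : ℝ) : ℂ) * g x) -
      I * (1 + Complex.I * ε * σ / 2) = (1 + Complex.I * ε * σ / 2) *
        ((∫ x in Qn q, ((χ x * M x : ℝ) : ℂ) * g x) - I) := by ring
    rw [e, norm_mul]
    have h1 : ‖1 + Complex.I * ε * σ / 2‖ ≤ 1 + |ε| :=
      (norm_add_le _ _).trans (by rw [norm_one]; linarith [abs_nonneg ε])
    exact (mul_le_mul h1 h.hI (norm_nonneg _) (by positivity)).trans_lt hτ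
  have b2 : ‖((∫ x in Qn q, ((χ x * F x : ℝ) : ℂ) * g x) +
      Complex.I * ε / 2 * ∫ x in Qn q, ((χ x * M x : ℝ) : ℂ) * g x) -
      (S + Complex.I * ε * I / 2)‖ < τ' := by
    have e : ((∫ x in Qn q, ((χ x * F x : ℝ) : ℂ) * g x) +
      Complex.I * ε / 2 * ∫ x in Qn q, ((χ x * M x : ℝ) : ℂ) * g x) -
      (S + Complex.I * ε * I / 2) = ((∫ x in Qn q, ((χ x * F x : ℝ) : ℂ) * g x) - S) +
        Complex.I * ε / 2 * ((∫ x in Qn q, ((χ x * M x : ℝ) : ℂ) * g x) - I) := by ring
    rw [e]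
    refine (norm_add_le _ _).trans_lt ?_
    rw [norm_mul]
    have h1 := mul_le_mul n2 h.hI (norm_nonneg _) (by positivity)
    have h2 := h.hS
    nlinarith [mul_nonneg (abs_nonneg ε) hτ0]
  have b3 : ‖(0 : ℂ)‖ < τ' - τ := by rw [norm_zero]; linarith
  have t4 : Tendsto (fun N : ℕ => 3 * K / (2 * Real.pi * N)) atTop (𝓝 0) := by
    have h1 : Tendsto (fun N : ℕ => 2 * Real.pi * (N : ℝ)) atTop atTop :=
      Tendsto.const_mul_atTop (by positivity) tendsto_natCast_atTop_atTop
    exact h1.const_div_atTop _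
  obtain ⟨N, hN1, hN2, hN3, hN4, hN5⟩ := ((t1.eventually_lt_const b1).and
    ((t2.eventually_lt_const b2).and ((t3.eventually_lt_const b3).and
      ((t4.eventually_lt_const hη).and (eventually_ge_atTop 1))))).exists
  set w : ℝ := 2 * Real.pi * N with hw
  have hw1 : 1 ≤ w := by
    have h1 : (1 : ℝ) ≤ N := by exact_mod_cast hN5
    have h2 := Real.pi_gt_three
    nlinarith
  have cW : ContDiff ℝ ∞ fun y : Eu (q + 2) => Real.cos (w * y c) * M y := by
    refine ContDiff.mul ?_ cM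
    refine Real.contDiff_cos.comp ?_
    exact contDiff_const.mul (EuclideanSpace.proj c : Eu (q + 2) →L[ℝ] ℝ).contDiff
  -- the error term
  have herr : ∀ (x : Eu (q + 2)) (D X : ℝ), |D| ≤ K → |X| ≤ 2 * K →
      |(-σ / w ^ 2) * (Real.cos (w * x c) * D - w * Real.sin (w * x c) * X)| ≤
        (τ' - τ) / 2 := fun x D X hD hX =>
    OscA.err_bound hσ1 (Real.abs_cos_le_one _) (Real.abs_sin_le_one _) hK hD hX hw1 hN4.le
  have hddU : ∀ a b x : Eu (q + 2), dd (fun y => U y + (-σ / w ^ 2) * (Real.cos (w * y c) * M y)) a b x =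
      dd U a b x + σ * (a c * b c) * (Real.cos (w * x c) * M x) +
      (-σ / w ^ 2) * (Real.cos (w * x c) * dd M a b x -
        w * Real.sin (w * x c) * (a c * fderiv ℝ M x b + b c * fderiv ℝ M x a)) := by
    intro a b x
    rw [OscA.dd_add_const_mul cU cW, OscA.dd_cos_mul cM]
    have : w ≠ 0 := by linarith
    field_simp
    ring
  have hdU : ∀ b x : Eu (q + 2), fderiv ℝ (fun y => U y + (-σ / w ^ 2) * (Real.cos (w * y c) * M y)) x b =
      fderiv ℝ U x b + (-σ / w ^ 2) * (Real.cos (w * x c) * fderiv ℝ M x b -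
        w * Real.sin (w * x c) * (b c * M x)) := by
    intro b x
    rw [OscA.fderiv_add_const_mul cU cW, OscA.fderiv_cos_mul (cM.differentiable (by norm_num))]
    ring
  have h01 : (0 : Fin (q + 2)) ≠ 1 := by simp
  have hc2 : ∀ r : Fin (q + 2), 2 ≤ (r : ℕ) → (ee q r) c = 0 := by
    intro r hr
    rw [OscA.ee_apply, if_neg]
    rintro rfl
    rcases hcσ with hc | hc
    · rw [hc.1] at hr; simp at hr
    · rw [hc.1] at hr; simp at hr
  have hee : ∀ r : Fin (q + 2), |(ee q r) c| ≤ 1 := by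
    intro r
    rw [OscA.ee_apply]
    split_ifs <;> simp
  refine ⟨fun y => U y + (-σ / w ^ 2) * (Real.cos (w * y c) * M y),
    fun y => M y + 1 * (Real.cos (w * y c) * M y),
    fun y => F y + σ * (Real.cos (w * y c) * M y),
    fun y => g y * (1 + Complex.I * ε * σ * (Real.cos (w * y c) : ℝ)), ?_⟩
  constructor
  · exact cU.add (contDiff_const.mul cW)
  · exact cM.add (contDiff_const.mul cW)
  · exact h.hF.add (continuous_const.mul cW.continuous)
  · refine h.hg.mul (continuous_const.add (continuous_const.mul ?_))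
    exact Complex.continuous_ofReal.comp (OscA.cont_cos c w)
  · intro x
    have h1 := h.hMpos x
    have h2 := Real.neg_one_le_cos (w * x c)
    nlinarith
  · intro x r hr
    rw [hdU, h.hU2 x r hr, h.hM2 x r hr, hc2 r hr]
    simp
  · intro x r hr
    rw [OscA.fderiv_add_const_mul cM cW, OscA.fderiv_cos_mul (cM.differentiable (by norm_num)),
      h.hM2 x r hr, hc2 r hr]
    simp
  · intro x hx
    have hg := h.hgrad x hx
    have key : ∀ r : Fin (q + 2), |fderiv ℝ U x (ee q r)| ≤ τ →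
        |fderiv ℝ M x (ee q r)| ≤ K →
        |fderiv ℝ (fun y => U y + (-σ / w ^ 2) * (Real.cos (w * y c) * M y)) x (ee q r)| ≤
          τ' := by
      intro r h1 h2
      rw [hdU]
      have h3 : |(ee q r) c * M x| ≤ 2 * K := by
        rw [abs_mul]
        calc |(ee q r) c| * |M x| ≤ 1 * K0 :=
              mul_le_mul (hee r) (hK0' x hx) (abs_nonneg _) zero_le_one
          _ ≤ 2 * K := by linarith
      have h4 := herr x _ _ h2 h3
      refine (abs_add_le _ _).trans ?_
      linarith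
    exact ⟨key 0 hg.1 (by have := hK1' x hx; linarith), key 1 hg.2 (by have := hK2' x hx; linarith)⟩
  · intro x hx
    have e0 := herr x (dd M (ee q 0) (ee q 0) x) ((ee q 0) c * fderiv ℝ M x (ee q 0) +
      (ee q 0) c * fderiv ℝ M x (ee q 0)) (by have := hK3' x hx; linarith) (by
        have h1 := hK1' x hx
        have h2 := hee 0
        have h3 : |(ee q 0) c * fderiv ℝ M x (ee q 0)| ≤ 1 * K1 := by
          rw [abs_mul]; exact mul_le_mul h2 h1 (abs_nonneg _) zero_le_one
        refine (abs_add_le _ _).trans ?_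
        linarith)
    have e1 := herr x (dd M (ee q 1) (ee q 1) x) ((ee q 1) c * fderiv ℝ M x (ee q 1) +
      (ee q 1) c * fderiv ℝ M x (ee q 1)) (by have := hK4' x hx; linarith) (by
        have h1 := hK2' x hx
        have h2 := hee 1
        have h3 : |(ee q 1) c * fderiv ℝ M x (ee q 1)| ≤ 1 * K2 := by
          rw [abs_mul]; exact mul_le_mul h2 h1 (abs_nonneg _) zero_le_one
        refine (abs_add_le _ _).trans ?_
        linarith)
    have hs := h.hsub x hx
    rw [hddU, hddU]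
    have hid : σ * ((ee q 0) c * (ee q 0) c) - σ * ((ee q 1) c * (ee q 1) c) = 1 := by
      rcases hcσ with ⟨rfl, rfl⟩ | ⟨rfl, rfl⟩
      · rw [OscA.ee_apply, OscA.ee_apply, if_pos rfl, if_neg h01]; norm_num
      · rw [OscA.ee_apply, OscA.ee_apply, if_neg h01.symm, if_pos rfl]; norm_num
    have : dd U (ee q 0) (ee q 0) x + σ * ((ee q 0) c * (ee q 0) c) * (Real.cos (w * x c) * M x) +
      (-σ / w ^ 2) * (Real.cos (w * x c) * dd M (ee q 0) (ee q 0) x -
        w * Real.sin (w * x c) * ((ee q 0) c * fderiv ℝ M x (ee q 0) +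
          (ee q 0) c * fderiv ℝ M x (ee q 0))) -
      (dd U (ee q 1) (ee q 1) x + σ * ((ee q 1) c * (ee q 1) c) * (Real.cos (w * x c) * M x) +
      (-σ / w ^ 2) * (Real.cos (w * x c) * dd M (ee q 1) (ee q 1) x -
        w * Real.sin (w * x c) * ((ee q 1) c * fderiv ℝ M x (ee q 1) +
          (ee q 1) c * fderiv ℝ M x (ee q 1)))) - (M x + 1 * (Real.cos (w * x c) * M x) - 1) =
      (dd U (ee q 0) (ee q 0) x - dd U (ee q 1) (ee q 1) x - (M x - 1)) +
      (-σ / w ^ 2) * (Real.cos (w * x c) * dd M (ee q 0) (ee q 0) x -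
        w * Real.sin (w * x c) * ((ee q 0) c * fderiv ℝ M x (ee q 0) +
          (ee q 0) c * fderiv ℝ M x (ee q 0))) -
      (-σ / w ^ 2) * (Real.cos (w * x c) * dd M (ee q 1) (ee q 1) x -
        w * Real.sin (w * x c) * ((ee q 1) c * fderiv ℝ M x (ee q 1) +
          (ee q 1) c * fderiv ℝ M x (ee q 1))) := by
      linear_combination (Real.cos (w * x c) * M x) * hid
    rw [this]
    have h3 := abs_le.mp e0
    have h4 := abs_le.mp e1
    have h5 := abs_le.mp hs
    rw [abs_le]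
    constructor <;> linarith
  · intro x hx
    have e0 := herr x (dd M (ee q 0) (ee q 0) x) ((ee q 0) c * fderiv ℝ M x (ee q 0) +
      (ee q 0) c * fderiv ℝ M x (ee q 0)) (by have := hK3' x hx; linarith) (by
        have h1 := hK1' x hx
        have h2 := hee 0
        have h3 : |(ee q 0) c * fderiv ℝ M x (ee q 0)| ≤ 1 * K1 := by
          rw [abs_mul]; exact mul_le_mul h2 h1 (abs_nonneg _) zero_le_one
        refine (abs_add_le _ _).trans ?_
        linarith)
    have e1 := herr x (dd M (ee q 1) (ee q 1) x) ((ee q 1) c * fderiv ℝ M x (ee q 1) +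
      (ee q 1) c * fderiv ℝ M x (ee q 1)) (by have := hK4' x hx; linarith) (by
        have h1 := hK2' x hx
        have h2 := hee 1
        have h3 : |(ee q 1) c * fderiv ℝ M x (ee q 1)| ≤ 1 * K2 := by
          rw [abs_mul]; exact mul_le_mul h2 h1 (abs_nonneg _) zero_le_one
        refine (abs_add_le _ _).trans ?_
        linarith)
    have hs := h.hadd x hx
    rw [hddU, hddU]
    have hid : σ * ((ee q 0) c * (ee q 0) c) + σ * ((ee q 1) c * (ee q 1) c) = σ := by
      rcases hcσ with ⟨rfl, rfl⟩ | ⟨rfl, rfl⟩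
      · rw [OscA.ee_apply, OscA.ee_apply, if_pos rfl, if_neg h01]; norm_num
      · rw [OscA.ee_apply, OscA.ee_apply, if_neg h01.symm, if_pos rfl]; norm_num
    have : dd U (ee q 0) (ee q 0) x + σ * ((ee q 0) c * (ee q 0) c) * (Real.cos (w * x c) * M x) +
      (-σ / w ^ 2) * (Real.cos (w * x c) * dd M (ee q 0) (ee q 0) x -
        w * Real.sin (w * x c) * ((ee q 0) c * fderiv ℝ M x (ee q 0) +
          (ee q 0) c * fderiv ℝ M x (ee q 0))) +
      (dd U (ee q 1) (ee q 1) x + σ * ((ee q 1) c * (ee q 1) c) * (Real.cos (w * x c) * M x) +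
      (-σ / w ^ 2) * (Real.cos (w * x c) * dd M (ee q 1) (ee q 1) x -
        w * Real.sin (w * x c) * ((ee q 1) c * fderiv ℝ M x (ee q 1) +
          (ee q 1) c * fderiv ℝ M x (ee q 1)))) - (F x + σ * (Real.cos (w * x c) * M x)) =
      (dd U (ee q 0) (ee q 0) x + dd U (ee q 1) (ee q 1) x - F x) +
      (-σ / w ^ 2) * (Real.cos (w * x c) * dd M (ee q 0) (ee q 0) x -
        w * Real.sin (w * x c) * ((ee q 0) c * fderiv ℝ M x (ee q 0) +
          (ee q 0) c * fderiv ℝ M x (ee q 0))) +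
      (-σ / w ^ 2) * (Real.cos (w * x c) * dd M (ee q 1) (ee q 1) x -
        w * Real.sin (w * x c) * ((ee q 1) c * fderiv ℝ M x (ee q 1) +
          (ee q 1) c * fderiv ℝ M x (ee q 1))) := by
      linear_combination (Real.cos (w * x c) * M x) * hid
    rw [this]
    have h3 := abs_le.mp e0
    have h4 := abs_le.mp e1
    have h5 := abs_le.mp hs
    rw [abs_le]
    constructor <;> linarith
  · intro x hx
    have e0 := herr x (dd M (ee q 0) (ee q 1) x) ((ee q 0) c * fderiv ℝ M x (ee q 1) +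
      (ee q 1) c * fderiv ℝ M x (ee q 0)) (by have := hK5' x hx; linarith) (by
        have h1 := hK1' x hx
        have h1' := hK2' x hx
        have h3 : |(ee q 0) c * fderiv ℝ M x (ee q 1)| ≤ 1 * K2 := by
          rw [abs_mul]; exact mul_le_mul (hee 0) h1' (abs_nonneg _) zero_le_one
        have h3' : |(ee q 1) c * fderiv ℝ M x (ee q 0)| ≤ 1 * K1 := by
          rw [abs_mul]; exact mul_le_mul (hee 1) h1 (abs_nonneg _) zero_le_one
        refine (abs_add_le _ _).trans ?_
        linarith)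
    have hs := h.hmix x hx
    rw [hddU]
    have hid : (ee q 0) c * (ee q 1) c = 0 := by
      rcases hcσ with ⟨rfl, rfl⟩ | ⟨rfl, rfl⟩
      · rw [OscA.ee_apply, OscA.ee_apply, if_pos rfl, if_neg h01]; norm_num
      · rw [OscA.ee_apply, OscA.ee_apply, if_neg h01.symm, if_pos rfl]; norm_num
    rw [hid]
    have h3 := abs_le.mp e0
    have h5 := abs_le.mp hs
    rw [abs_le]
    constructor <;> linarith
  · have i1 : IntegrableOn M (Qn q) :=
      cM.continuous.continuousOn.integrableOn_compact (isCompact_Qn q)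
    have i2 : IntegrableOn (fun y : Eu (q + 2) => Real.cos (w * y c) * M y) (Qn q) :=
      cW.continuous.continuousOn.integrableOn_compact (isCompact_Qn q)
    have e : ∫ x in Qn q, (M x + 1 * (Real.cos (w * x c) * M x)) =
        (∫ x in Qn q, M x) + ∫ x in Qn q, Real.cos (w * x c) * M x := by
      rw [← integral_add i1 i2]
      congr 1
      funext x
      ring
    have e2 : (∫ x in Qn q, ((Real.cos (w * x c) : ℝ) : ℂ) *
        (Complex.ofReal ∘ M) x) = ((∫ x in Qn q, Real.cos (w * x c) * M x : ℝ) : ℂ) := by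
      rw [← integral_complex_ofReal]
      congr 1
      funext x
      simp
    have h1 : |∫ x in Qn q, Real.cos (w * x c) * M x| < τ' - τ := by
      have h2 := hN3
      rw [e2, Complex.norm_real, Real.norm_eq_abs] at h2
      exact h2
    have h2 := h.hMint
    have h3 := (abs_lt.mp h1).2
    rw [e]
    linarith
  · refine le_trans (le_of_eq ?_) hN1.le
    congr 2
    congr 1
    funext x
    push_cast
    ring
  · refine le_trans (le_of_eq ?_) hN2.le
    congr 2
    congr 1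
    funext x
    push_cast
    ring
  · intro x
    have h1 := h.hgb x
    rw [norm_mul, mul_pow]
    have h2 : ‖1 + Complex.I * ε * σ * ((Real.cos (w * x c) : ℝ) : ℂ)‖ ^ 2 ≤ 1 + ε ^ 2 := by
      have e : 1 + Complex.I * ε * σ * ((Real.cos (w * x c) : ℝ) : ℂ) =
          ((1 : ℝ) : ℂ) + ((ε * σ * Real.cos (w * x c) : ℝ) : ℂ) * Complex.I := by
        push_cast; ring
      rw [e, ← Complex.normSq_eq_norm_sq, Complex.normSq_add_mul_I]
      have h3 := Real.cos_sq_le_one (w * x c)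
      have h4 : (ε * σ * Real.cos (w * x c)) ^ 2 = ε ^ 2 * (Real.cos (w * x c)) ^ 2 := by
        rw [mul_pow, mul_pow, hσ2, mul_one]
      rw [h4]
      nlinarith [sq_nonneg ε]
    rw [pow_succ]
    exact mul_le_mul h1 h2 (sq_nonneg _) (pow_nonneg (by nlinarith [sq_nonneg ε]) k)

/-- One step of the construction. -/
theorem osc_step {χ : Eu (q + 2) → ℝ} (hχ : Continuous χ) {ε τ τ' : ℝ} (hτ0 : 0 ≤ τ)
    (hτ : (1 + |ε|) * τ < τ') {k : ℕ}
    {I S : ℂ} {U M F : Eu (q + 2) → ℝ} {g : Eu (q + 2) → ℂ}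
    (h : OscP q χ ε τ k I S U M F g) (a : Bool) :
    ∃ (U' M' F' : Eu (q + 2) → ℝ) (g' : Eu (q + 2) → ℂ),
      OscP q χ ε τ' (k + 1) (I * (1 + Complex.I * ε * (if a then (1 : ℂ) else -1) / 2))
        (S + Complex.I * ε * I / 2) U' M' F' g' := by
  cases a with
  | true =>
    have := OscA.step_core hχ hτ0 hτ h 0 1 (Or.inl ⟨rfl, rfl⟩)
    simpa using this
  | false =>
    have := OscA.step_core hχ hτ0 hτ h 1 (-1) (Or.inr ⟨rfl, rfl⟩)
    simpa using this

end Pool.Agent.H28.Lusin
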