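import Pool.Agent.H28.Lusin.OscA

open MeasureTheory Set Filter
open scoped ContDiff Topology ENNReal

namespace Pool.Agent.H28.Lusin

variable {q : ℕ}

/-- Ideal values of the first integral. -/
noncomputable def oI (ε I0 : ℝ) : ℕ → ℂ
  | 0 => I0
  | k + 1 => oI ε I0 k * (1 + Complex.I * ε * (if (k % 2 == 0) then (1 : ℂ) else -1) / 2)

/-- Ideal values of the second integral. -/
noncomputable def oS (ε I0 : ℝ) : ℕ → ℂ
  | 0 => 0
  | k + 1 => oS ε I0 k + Complex.I * ε * oI ε I0 k / 2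

theorem oI_even (ε I0 : ℝ) (j : ℕ) : oI ε I0 (2 * j) = ((I0 * (1 + ε ^ 2 / 4) ^ j : ℝ) : ℂ) := by
  induction j with
  | zero => simp [oI]
  | succ j ih =>
    have h1 : 2 * (j + 1) = 2 * j + 1 + 1 := by ring
    have h2 : (2 * j) % 2 = 0 := by omega
    have h3 : (2 * j + 1) % 2 = 1 := by omega
    rw [h1, oI, oI, ih, h2, h3]
    have h4 : ((1 : ℕ) == 0) = false := rfl
    rw [h4]
    push_cast
    simp
    ring_nf
    rw [Complex.I_sq]
    ring

theorem oS_even_im (ε I0 : ℝ) (hε : 0 ≤ ε) (hI : 0 ≤ I0) (j : ℕ) :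
    ε * I0 * j ≤ (oS ε I0 (2 * j)).im := by
  induction j with
  | zero => simp [oS]
  | succ j ih =>
    have h1 : 2 * (j + 1) = 2 * j + 1 + 1 := by ring
    have h2 : (2 * j) % 2 = 0 := by omega
    have h5 : oI ε I0 (2 * j + 1) = oI ε I0 (2 * j) * (1 + Complex.I * ε / 2) := by
      rw [oI, h2]
      simp
    rw [h1, oS, oS, h5, oI_even]
    have h6 : (1 : ℝ) ≤ (1 + ε ^ 2 / 4) ^ j := one_le_pow₀ (by nlinarith [sq_nonneg ε])
    have h7 : (oS ε I0 (2 * j)
        + Complex.I * ε * ((I0 * (1 + ε ^ 2 / 4) ^ j : ℝ) : ℂ) / 2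
        + Complex.I * ε * (((I0 * (1 + ε ^ 2 / 4) ^ j : ℝ) : ℂ) * (1 + Complex.I * ε / 2)) / 2).im
        = (oS ε I0 (2 * j)).im + ε * (I0 * (1 + ε ^ 2 / 4) ^ j) := by
      have e1 : Complex.I * ε * ((I0 * (1 + ε ^ 2 / 4) ^ j : ℝ) : ℂ) / 2
          + Complex.I * ε * (((I0 * (1 + ε ^ 2 / 4) ^ j : ℝ) : ℂ) * (1 + Complex.I * ε / 2)) / 2
          = ((-(ε ^ 2 * (I0 * (1 + ε ^ 2 / 4) ^ j) / 4) : ℝ) : ℂ)
            + ((ε * (I0 * (1 + ε ^ 2 / 4) ^ j) : ℝ) : ℂ) * Complex.I := by
        push_cast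
        ring_nf
        rw [Complex.I_sq]
        ring
      rw [add_assoc, e1, Complex.add_im, Complex.add_im, Complex.ofReal_im, Complex.mul_im,
        Complex.ofReal_re, Complex.ofReal_im, Complex.I_re, Complex.I_im]
      ring
    rw [h7]
    push_cast
    have h8 : ε * I0 * 1 ≤ ε * I0 * (1 + ε ^ 2 / 4) ^ j := by gcongr
    linarith

/-- The states exist for all `k`. -/
theorem exists_state {χ : Eu (q + 2) → ℝ} (hχ : Continuous χ) (ε t : ℝ) (ht : 0 < t) (k : ℕ) :
    ∃ (U M F : Eu (q + 2) → ℝ) (g : Eu (q + 2) → ℂ),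
      OscP q χ ε (t * (2 + 2 * |ε|) ^ k) k (oI ε (∫ x in Qn q, χ x) k)
        (oS ε (∫ x in Qn q, χ x) k) U M F g := by
  induction k with
  | zero =>
    refine ⟨fun _ => 0, fun _ => 1, fun _ => 0, fun _ => 1, ?_⟩
    have hdd : ∀ a b x : Eu (q + 2), dd (fun _ : Eu (q + 2) => (0 : ℝ)) a b x = 0 := by
      intro a b x
      simp [dd]
    refine ⟨contDiff_const, contDiff_const, continuous_const, continuous_const,
      fun _ => zero_le_one, ?_, ?_, ?_, ?_, ?_, ?_, ?_, ?_, ?_, ?_⟩
    · intro x r _; simp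
    · intro x r _; simp
    · intro x _; simp; exact ht.le
    · intro x _; simp [hdd]; exact ht.le
    · intro x _; simp [hdd]; exact ht.le
    · intro x _; simp [hdd]; exact ht.le
    · simp only [pow_zero, mul_one, integral_const, smul_eq_mul]
      rw [measureReal_restrict_apply_univ]
      linarith
    · simp only [pow_zero, mul_one, oI]
      rw [integral_complex_ofReal, sub_self, norm_zero]
      exact ht.le
    · simp only [pow_zero, mul_one, mul_zero, oS]
      simp
      exact ht.le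
    · intro x; simp
  | succ k ih =>
    obtain ⟨U, M, F, g, h⟩ := ih
    have hpos : 0 < t * (2 + 2 * |ε|) ^ k := by positivity
    have hlt : (1 + |ε|) * (t * (2 + 2 * |ε|) ^ k) < t * (2 + 2 * |ε|) ^ (k + 1) := by
      rw [pow_succ]
      nlinarith [abs_nonneg ε]
    obtain ⟨U', M', F', g', h'⟩ := osc_step hχ hpos.le hlt h (k % 2 == 0)
    exact ⟨U', M', F', g', h'⟩

theorem continuous_dd {U : Eu (q + 2) → ℝ} (hU : ContDiff ℝ ∞ U) (a b : Eu (q + 2)) :
    Continuous (dd U a b) := by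
  have h1 : ContDiff ℝ ∞ (fderiv ℝ U) := hU.fderiv_right (m := ∞) (by norm_num)
  have h2 : ContDiff ℝ ∞ fun y => fderiv ℝ U y b := h1.clm_apply contDiff_const
  exact (h2.continuous_fderiv (by norm_num)).clm_apply continuous_const

/-- Functions with small deviatoric second derivatives and large Laplacian in `L¹`. -/
theorem exists_osc {χ : Eu (q + 2) → ℝ} (hχ : Continuous χ) (hχ0 : ∀ x, 0 ≤ χ x)
    (hχi : 0 < ∫ x in Qn q, χ x) (L : ℝ) :
    ∃ U : Eu (q + 2) → ℝ, OscU q U ∧
      L ≤ ∫ x in Qn q, χ x * |dd U (ee q 0) (ee q 0) x + dd U (ee q 1) (ee q 1) x| := by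
  set I0 := ∫ x in Qn q, χ x with hI0
  set V := (volume : Measure (Eu (q + 2))).real (Qn q) with hV
  have hV0 : 0 ≤ V := measureReal_nonneg
  obtain ⟨l, hl⟩ := exists_nat_gt (max 1 ((3 * (|L| + I0) + 1) / I0))
  have hl1 : (1 : ℝ) < l := (le_max_left _ _).trans_lt hl
  have hl2 : 3 * (|L| + I0) + 1 < l * I0 := by
    have := (le_max_right _ _).trans_lt hl
    rwa [div_lt_iff₀ hχi] at this
  have hl0 : (0 : ℝ) < l := by linarith
  set ε : ℝ := 1 / l with hε
  have hε0 : 0 < ε := by positivity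
  set J : ℕ := l ^ 2 with hJ
  have hJε : ε ^ 2 * J = 1 := by
    rw [hε, hJ]
    push_cast
    field_simp
  have hεJ : ε * J = l := by
    rw [hε, hJ]
    push_cast
    field_simp
  set P : ℝ := (2 + 2 * |ε|) ^ (2 * J) with hP
  have hP0 : 0 < P := by positivity
  set t : ℝ := 1 / ((1 + V) * P) with ht
  have ht0 : 0 < t := by positivity
  obtain ⟨U, M, F, g, h⟩ := exists_state (q := q) hχ ε t ht0 (2 * J)
  set τ : ℝ := t * P with hτ
  have hτV : τ * (1 + V) = 1 := by
    rw [hτ, ht]; field_simp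
  have hτ0 : 0 < τ := by positivity
  have hτ1 : τ ≤ 1 := by nlinarith
  have hQc := isCompact_Qn q
  have hQm : MeasurableSet (Qn q) := hQc.measurableSet
  have hfin : IsFiniteMeasure (volume.restrict (Qn q)) :=
    ⟨by rw [Measure.restrict_apply_univ]; exact hQc.measure_lt_top⟩
  have hint : ∀ {G : Eu (q + 2) → ℝ}, Continuous G → IntegrableOn G (Qn q) := fun hG =>
    hG.continuousOn.integrableOn_compact hQc
  have hintC : ∀ {G : Eu (q + 2) → ℂ}, Continuous G → IntegrableOn G (Qn q) := fun hG =>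
    hG.continuousOn.integrableOn_compact hQc
  have hd00 := continuous_dd h.hU (ee q 0) (ee q 0)
  have hd11 := continuous_dd h.hU (ee q 1) (ee q 1)
  refine ⟨U, ⟨h.hU, h.hU2, fun x hx => ⟨(h.hgrad x hx).1.trans hτ1, (h.hgrad x hx).2.trans hτ1⟩,
    ?_, fun x hx => (h.hmix x hx).trans hτ1⟩, ?_⟩
  · calc ∫ x in Qn q, |dd U (ee q 0) (ee q 0) x - dd U (ee q 1) (ee q 1) x|
        ≤ ∫ x in Qn q, (M x + (1 + τ)) := by
          apply setIntegral_mono_on (hint (hd00.sub hd11).abs)
            (hint (h.hM.continuous.add continuous_const)) hQm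
          intro x hx
          have e1 := abs_le.1 (h.hsub x hx)
          have e2 := h.hMpos x
          show |dd U (ee q 0) (ee q 0) x - dd U (ee q 1) (ee q 1) x| ≤ M x + (1 + τ)
          rw [abs_le]
          constructor <;> linarith [e1.1, e1.2]
      _ = (∫ x in Qn q, M x) + V * (1 + τ) := by
          rw [integral_add (hint h.hM.continuous) (integrable_const _), integral_const,
            measureReal_restrict_apply_univ, smul_eq_mul]
      _ ≤ (V + τ) + V * (1 + τ) := by
          have := h.hMint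
          linarith
      _ = 2 * V + τ * (1 + V) := by ring
      _ = _ := by rw [hτV]
  · -- the lower bound
    have hgb : ∀ x, ‖g x‖ ≤ 3 := by
      intro x
      have e1 := h.hgb x
      have e2 : (1 + ε ^ 2) ^ (2 * J) ≤ 9 := by
        have e3 : (1 + ε ^ 2) ≤ Real.exp (ε ^ 2) := by
          have := Real.add_one_le_exp (ε ^ 2)
          linarith
        have e4 : (1 + ε ^ 2) ^ (2 * J) ≤ Real.exp (ε ^ 2) ^ (2 * J) := by gcongr
        have e5 : Real.exp (ε ^ 2) ^ (2 * J) = Real.exp 2 := by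
          rw [← Real.exp_nat_mul]
          congr 1
          push_cast
          linear_combination 2 * hJε
        have e6 : Real.exp 2 ≤ 9 := by
          have e7 : Real.exp 2 = Real.exp 1 * Real.exp 1 := by
            rw [← Real.exp_add]; norm_num
          have e8 : Real.exp 1 < 3 := by
            have := Real.exp_one_lt_d9
            linarith
          have e9 := Real.exp_pos 1
          rw [e7]
          nlinarith
        linarith
      have e3 := norm_nonneg (g x)
      nlinarith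
    have h1 : l * I0 ≤ (oS ε I0 (2 * J)).im := by
      have := oS_even_im ε I0 hε0.le hχi.le J
      calc (l : ℝ) * I0 = ε * I0 * J := by rw [← hεJ]; ring
        _ ≤ _ := this
    have h2 : (oS ε I0 (2 * J)).im ≤ ‖oS ε I0 (2 * J)‖ :=
      (le_abs_self _).trans (Complex.abs_im_le_norm _)
    have h3 : ‖oS ε I0 (2 * J)‖ ≤ ‖∫ x in Qn q, ((χ x * F x : ℝ) : ℂ) * g x‖ + τ := by
      have e1 := h.hS
      have e2 := norm_sub_norm_le (oS ε I0 (2 * J)) (∫ x in Qn q, ((χ x * F x : ℝ) : ℂ) * g x)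
      rw [norm_sub_rev] at e2
      linarith
    have h4 : ‖∫ x in Qn q, ((χ x * F x : ℝ) : ℂ) * g x‖ ≤ 3 * ∫ x in Qn q, χ x * |F x| := by
      rw [← integral_const_mul]
      refine norm_integral_le_of_norm_le
        ((hint (hχ.mul h.hF.abs)).const_mul 3) (Eventually.of_forall fun x => ?_)
      rw [norm_mul, Complex.norm_real, Real.norm_eq_abs, abs_mul, abs_of_nonneg (hχ0 x)]
      have := hgb x
      have e0 : 0 ≤ χ x * |F x| := mul_nonneg (hχ0 x) (abs_nonneg _)
      calc χ x * |F x| * ‖g x‖ ≤ χ x * |F x| * 3 := by gcongr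
        _ = _ := by ring
    have h5 : ∫ x in Qn q, χ x * |F x| ≤ (∫ x in Qn q,
        χ x * |dd U (ee q 0) (ee q 0) x + dd U (ee q 1) (ee q 1) x|) + τ * I0 := by
      have e1 : τ * I0 = ∫ x in Qn q, τ * χ x := by rw [integral_const_mul]
      have i1 : IntegrableOn (fun x =>
          χ x * |dd U (ee q 0) (ee q 0) x + dd U (ee q 1) (ee q 1) x|) (Qn q) :=
        hint (hχ.mul (hd00.add hd11).abs)
      have i2 : IntegrableOn (fun x => τ * χ x) (Qn q) := hint (hχ.const_mul τ)
      rw [e1, ← integral_add i1 i2]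
      apply setIntegral_mono_on (hint (hχ.mul h.hF.abs)) (i1.add i2) hQm
      intro x hx
      show χ x * |F x| ≤ χ x * |dd U (ee q 0) (ee q 0) x + dd U (ee q 1) (ee q 1) x| + τ * χ x
      have e2 := h.hadd x hx
      have e3 : |F x| ≤ |dd U (ee q 0) (ee q 0) x + dd U (ee q 1) (ee q 1) x| + τ := by
        have e4 := abs_sub_abs_le_abs_sub (F x)
          (dd U (ee q 0) (ee q 0) x + dd U (ee q 1) (ee q 1) x)
        rw [abs_sub_comm] at e4
        linarith
      have e4 := hχ0 x
      nlinarith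
    have h6 : τ * I0 ≤ I0 := by nlinarith
    have h7 := le_abs_self L
    nlinarith

end Pool.Agent.H28.Lusin
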