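import Pool.Agent.H28.Lusin.Torus2

open MeasureTheory Set Real

namespace Pool.Agent.H28.Lusin

/-- The data of one level: a frequency and two shifts. -/
structure Lev where
  /-- frequency -/
  D : ℕ
  /-- horizontal shift -/
  t1 : ℝ
  /-- vertical shift -/
  t2 : ℝ

instance : Inhabited Lev := ⟨⟨1, 0, 0⟩⟩

/-- Dependent choice for sequences. -/
theorem exists_seq {α : Type*} [Inhabited α] (Q : ℕ → (ℕ → α) → Prop)
    (hcongr : ∀ j s s', (∀ i ≤ j, s i = s' i) → Q j s → Q j s')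
    (hstep : ∀ j s, (∀ i < j, Q i s) → ∃ a, Q j (Function.update s j a)) :
    ∃ s, ∀ j, Q j s := by
  classical
  let t : ℕ → (ℕ → α) := fun k => Nat.rec (fun _ => default)
    (fun j tj => if h : ∀ i < j, Q i tj then Function.update tj j (hstep j tj h).choose else tj) k
  have ht : ∀ j, t (j + 1) =
      if h : ∀ i < j, Q i (t j) then Function.update (t j) j (hstep j (t j) h).choose else t j :=
    fun j => rfl
  have hne : ∀ j i, i ≠ j → t (j + 1) i = t j i := by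
    intro j i hij
    rw [ht]
    split_ifs with h
    · exact Function.update_of_ne hij _ _
    · rfl
  have hQ : ∀ j, ∀ i < j, Q i (t j) := by
    intro j
    induction j with
    | zero => intro i hi; omega
    | succ j ih =>
      intro i hi
      rcases Nat.lt_succ_iff_lt_or_eq.1 hi with h1 | h1
      · exact hcongr i (t j) _ (fun k hk => (hne j k (by omega)).symm) (ih i h1)
      · subst h1
        rw [ht, dif_pos ih]
        exact (hstep i (t i) ih).choose_spec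
  have hst : ∀ k j, j < k → t k j = t (j + 1) j := by
    intro k
    induction k with
    | zero => intro j hj; omega
    | succ k ih =>
      intro j hj
      rcases Nat.lt_succ_iff_lt_or_eq.1 hj with h1 | h1
      · rw [hne k j (by omega)]; exact ih j h1
      · rw [h1]
  refine ⟨fun j => t (j + 1) j, fun j => ?_⟩
  exact hcongr j (t (j + 1)) _ (fun i hi => hst (j + 1) i (by omega)) (hQ (j + 1) j (by omega))

/-! ### Numerical parameters -/

/-- Index of the block containing the level `j`. -/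
def bb (m0 j : ℕ) : ℕ := Nat.log 16 (16 ^ m0 + j)

/-- Inverse gain of the level `j`. -/
def JJ (m0 j : ℕ) : ℕ := 16 ^ bb m0 j

/-- Gain of the level `j`. -/
noncomputable def rho (m0 j : ℕ) : ℝ := 1 / (JJ m0 j : ℝ)

/-- Strip width exponent. -/
def KK (m0 j : ℕ) : ℕ := 8 * bb m0 j

/-- Strip width. -/
noncomputable def ep (m0 j : ℕ) : ℝ := (2 : ℝ)⁻¹ ^ KK m0 j

/-- Number of digits. -/
def NN (m0 j : ℕ) : ℕ := 2 ^ (j + m0 + 1)

/-- First level of the block of `j`. -/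
def bs (m0 j : ℕ) : ℕ := 16 ^ bb m0 j - 16 ^ m0

theorem le_bb (m0 j : ℕ) : m0 ≤ bb m0 j := by
  unfold bb
  calc m0 = Nat.log 16 (16 ^ m0) := (Nat.log_pow (by norm_num) m0).symm
    _ ≤ _ := Nat.log_mono_right (by omega)

theorem bs_le (m0 j : ℕ) : bs m0 j ≤ j := by
  unfold bs bb
  have := Nat.pow_log_le_self 16 (x := 16 ^ m0 + j) (by positivity)
  omega

theorem JJ_pos (m0 j : ℕ) : 0 < JJ m0 j := by unfold JJ; positivity

theorem NN_pos (m0 j : ℕ) : 0 < NN m0 j := by unfold NN; positivity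

theorem rho_pos (m0 j : ℕ) : 0 < rho m0 j := by
  have := JJ_pos m0 j
  unfold rho; positivity

theorem rho_le_one (m0 j : ℕ) : rho m0 j ≤ 1 := by
  unfold rho
  apply div_le_one_of_le₀ _ (by positivity)
  exact_mod_cast JJ_pos m0 j

theorem ep_pos (m0 j : ℕ) : 0 < ep m0 j := by unfold ep; positivity

theorem ep_le_one (m0 j : ℕ) : ep m0 j ≤ 1 := by
  unfold ep; exact pow_le_one₀ (by norm_num) (by norm_num)

/-! ### Level functions -/

/-- First phase coordinate. -/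
noncomputable def Lev.X (ℓ : Lev) (u : ℝ × ℝ) : ℝ := ℓ.D * u.1 + ℓ.t1

/-- Second phase coordinate. -/
noncomputable def Lev.Y (ℓ : Lev) (u : ℝ × ℝ) : ℝ := ℓ.D * u.2 + ℓ.t2

/-- `|w|^2`. -/
noncomputable def Lev.sq (ℓ : Lev) (u : ℝ × ℝ) : ℝ := fa (ℓ.X u) ^ 2 + fa (ℓ.Y u) ^ 2

theorem Lev.continuous_X (ℓ : Lev) : Continuous ℓ.X := by unfold Lev.X; fun_prop

theorem Lev.continuous_Y (ℓ : Lev) : Continuous ℓ.Y := by unfold Lev.Y; fun_prop

theorem Lev.continuous_sq (ℓ : Lev) : Continuous ℓ.sq := by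
  unfold Lev.sq
  exact ((continuous_fa.comp ℓ.continuous_X).pow 2).add ((continuous_fa.comp ℓ.continuous_Y).pow 2)

variable (m0 : ℕ)

/-- Horizontal slope of level `j`. -/
noncomputable def V1 (s : ℕ → Lev) (j : ℕ) (u : ℝ × ℝ) : ℝ :=
  rho m0 j * thX ((s j).X u) ((s j).Y u)

/-- Vertical slope of level `j`. -/
noncomputable def V2 (s : ℕ → Lev) (j : ℕ) (u : ℝ × ℝ) : ℝ :=
  rho m0 j * thY ((s j).X u) ((s j).Y u)

/-- Truncated horizontal slope. -/
noncomputable def S1 (s : ℕ → Lev) (j : ℕ) (u : ℝ × ℝ) : ℝ :=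
  rho m0 j * sX (ep m0 j) ((s j).X u) ((s j).Y u)

/-- Truncated vertical slope. -/
noncomputable def S2 (s : ℕ → Lev) (j : ℕ) (u : ℝ × ℝ) : ℝ :=
  rho m0 j * sY (ep m0 j) ((s j).X u) ((s j).Y u)

/-- Centred gain. -/
noncomputable def Qc (s : ℕ → Lev) (j : ℕ) (u : ℝ × ℝ) : ℝ :=
  rho m0 j * (qt ((s j).X u) ((s j).Y u) - cbar)

/-- Strips. -/
noncomputable def St (s : ℕ → Lev) (j : ℕ) (u : ℝ × ℝ) : ℝ :=
  strip (ep m0 j) ((s j).X u) ((s j).Y u)

/-- The functional controlled in a block. -/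
noncomputable def Fu (s : ℕ → Lev) (i j : ℕ) (u : ℝ × ℝ) : ℝ :=
  (∑ l ∈ Finset.Ico i j, S1 m0 s l u) ^ 2 + (∑ l ∈ Finset.Ico i j, S2 m0 s l u) ^ 2
    + (∑ l ∈ Finset.Ico i j, Qc m0 s l u) ^ 2 + ∑ l ∈ Finset.Ico i j, St m0 s l u

/-- Its integral. -/
noncomputable def FF (s : ℕ → Lev) (i j : ℕ) : ℝ := ∫ u, Fu m0 s i j u ∂Tor

/-- Bound for `|qt - cbar|`. -/
noncomputable def Cq : ℝ := lamB * (2 * π)

theorem Cq_pos : 0 < Cq := by unfold Cq; have := lamB_pos; positivity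

theorem abs_qt_sub_le (X Y : ℝ) : |qt X Y - cbar| ≤ Cq := by
  have h1 := qt_nonneg X Y
  have h2 := qt_le X Y
  have h3 := cbar_pos
  have h4 := cbar_le
  unfold Cq
  rw [abs_le]; constructor <;> linarith

/-- Increment allowed at level `j`. -/
noncomputable def gain (j : ℕ) : ℝ :=
  rho m0 j ^ 2 * (4 * ((KK m0 j : ℝ) + 1) + Cq ^ 2) + 2 * ep m0 j

theorem FF_self (s : ℕ → Lev) (i : ℕ) : FF m0 s i i = 0 := by
  unfold FF Fu; simp

theorem Fu_congr {s s' : ℕ → Lev} {i j : ℕ} (h : ∀ l, i ≤ l → l < j → s l = s' l) (u : ℝ × ℝ) :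
    Fu m0 s i j u = Fu m0 s' i j u := by
  have h1 : ∀ l ∈ Finset.Ico i j, s l = s' l := fun l hl => by
    rw [Finset.mem_Ico] at hl; exact h l hl.1 hl.2
  unfold Fu
  rw [Finset.sum_congr rfl fun l hl => show S1 m0 s l u = S1 m0 s' l u by unfold S1; rw [h1 l hl],
    Finset.sum_congr rfl fun l hl => show S2 m0 s l u = S2 m0 s' l u by unfold S2; rw [h1 l hl],
    Finset.sum_congr rfl fun l hl => show Qc m0 s l u = Qc m0 s' l u by unfold Qc; rw [h1 l hl],
    Finset.sum_congr rfl fun l hl => show St m0 s l u = St m0 s' l u by unfold St; rw [h1 l hl]]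

theorem FF_congr {s s' : ℕ → Lev} {i j : ℕ} (h : ∀ l, i ≤ l → l < j → s l = s' l) :
    FF m0 s i j = FF m0 s' i j := by
  unfold FF; simp_rw [Fu_congr m0 h]

theorem measurable_comp_XY {f : ℝ × ℝ → ℝ} (hf : Measurable f) (ℓ : Lev) :
    Measurable fun u => f (ℓ.X u, ℓ.Y u) :=
  hf.comp (ℓ.continuous_X.measurable.prodMk ℓ.continuous_Y.measurable)

theorem measurable_S1 (s : ℕ → Lev) (j : ℕ) : Measurable (S1 m0 s j) := by
  unfold S1
  exact (measurable_comp_XY (measurable_sX (ep m0 j)) (s j)).const_mul _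

theorem measurable_S2 (s : ℕ → Lev) (j : ℕ) : Measurable (S2 m0 s j) := by
  unfold S2
  exact (measurable_comp_XY (measurable_sY (ep m0 j)) (s j)).const_mul _

theorem measurable_Qc (s : ℕ → Lev) (j : ℕ) : Measurable (Qc m0 s j) := by
  unfold Qc
  exact ((measurable_comp_XY measurable_qt (s j)).sub_const _).const_mul _

theorem measurable_St (s : ℕ → Lev) (j : ℕ) : Measurable (St m0 s j) := by
  unfold St
  exact measurable_comp_XY (measurable_strip (ep m0 j)) (s j)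

theorem measurable_Fu (s : ℕ → Lev) (i j : ℕ) : Measurable (Fu m0 s i j) := by
  unfold Fu
  refine ((((Finset.measurable_fun_sum _ fun l _ => measurable_S1 m0 s l).pow_const 2).add
    ((Finset.measurable_fun_sum _ fun l _ => measurable_S2 m0 s l).pow_const 2)).add
    ((Finset.measurable_fun_sum _ fun l _ => measurable_Qc m0 s l).pow_const 2)).add
    (Finset.measurable_fun_sum _ fun l _ => measurable_St m0 s l)

theorem abs_S1_le (s : ℕ → Lev) (j : ℕ) (u : ℝ × ℝ) : |S1 m0 s j u| ≤ 1 / ep m0 j := by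
  unfold S1
  rw [abs_mul, abs_of_pos (rho_pos m0 j)]
  calc _ ≤ 1 * (1 / ep m0 j) := by
        gcongr
        · exact rho_le_one m0 j
        · exact abs_sX_le (ep_pos m0 j) _ _
    _ = _ := one_mul _

theorem abs_S2_le (s : ℕ → Lev) (j : ℕ) (u : ℝ × ℝ) : |S2 m0 s j u| ≤ 1 / ep m0 j := by
  unfold S2
  rw [abs_mul, abs_of_pos (rho_pos m0 j)]
  calc _ ≤ 1 * (1 / ep m0 j) := by
        gcongr
        · exact rho_le_one m0 j
        · exact abs_sY_le (ep_pos m0 j) _ _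
    _ = _ := one_mul _

theorem abs_Qc_le (s : ℕ → Lev) (j : ℕ) (u : ℝ × ℝ) : |Qc m0 s j u| ≤ Cq := by
  unfold Qc
  rw [abs_mul, abs_of_pos (rho_pos m0 j)]
  calc _ ≤ 1 * Cq := by
        gcongr
        · exact rho_le_one m0 j
        · exact abs_qt_sub_le _ _
    _ = _ := one_mul _

theorem abs_St_le (s : ℕ → Lev) (j : ℕ) (u : ℝ × ℝ) : |St m0 s j u| ≤ 1 := abs_strip_le _ _ _

/-- Crude bound for `Fu`. -/
noncomputable def FuB (i j : ℕ) : ℝ :=
  (∑ l ∈ Finset.Ico i j, 1 / ep m0 l) ^ 2 + (∑ l ∈ Finset.Ico i j, 1 / ep m0 l) ^ 2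
    + (∑ _l ∈ Finset.Ico i j, Cq) ^ 2 + ∑ _l ∈ Finset.Ico i j, (1 : ℝ)

theorem abs_Fu_le (s : ℕ → Lev) (i j : ℕ) (u : ℝ × ℝ) : |Fu m0 s i j u| ≤ FuB m0 i j := by
  unfold Fu FuB
  refine (abs_add_le _ _).trans (add_le_add ((abs_add_le _ _).trans (add_le_add
    ((abs_add_le _ _).trans (add_le_add ?_ ?_)) ?_)) ?_)
  · rw [abs_pow]
    gcongr
    exact (Finset.abs_sum_le_sum_abs _ _).trans (Finset.sum_le_sum fun l _ => abs_S1_le m0 s l u)
  · rw [abs_pow]
    gcongr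
    exact (Finset.abs_sum_le_sum_abs _ _).trans (Finset.sum_le_sum fun l _ => abs_S2_le m0 s l u)
  · rw [abs_pow]
    gcongr
    exact (Finset.abs_sum_le_sum_abs _ _).trans (Finset.sum_le_sum fun l _ => abs_Qc_le m0 s l u)
  · exact (Finset.abs_sum_le_sum_abs _ _).trans (Finset.sum_le_sum fun l _ => abs_St_le m0 s l u)

theorem Fu_nonneg (s : ℕ → Lev) (i j : ℕ) (u : ℝ × ℝ) : 0 ≤ Fu m0 s i j u := by
  unfold Fu
  have : 0 ≤ ∑ l ∈ Finset.Ico i j, St m0 s l u := Finset.sum_nonneg fun l _ => strip_nonneg _ _ _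
  positivity

theorem FF_nonneg (s : ℕ → Lev) (i j : ℕ) : 0 ≤ FF m0 s i j :=
  integral_nonneg fun u => Fu_nonneg m0 s i j u

end Pool.Agent.H28.Lusin
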