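import Mathlib

/-!
# Currents, decomposability bundles and the Lusin property for `k`-forms
-/

open MeasureTheory Set Filter
open scoped ContDiff Topology ENNReal

namespace Pool.Agent.H28.LusinStmt

/-- Euclidean space `ℝⁿ`. -/
abbrev Eu (n : ℕ) := EuclideanSpace ℝ (Fin n)

/-- `k`-covectors of `ℝⁿ` (alternating `k`-linear forms); their operator norm is the comass. -/
abbrev Cov (n k : ℕ) := Eu n [⋀^Fin k]→L[ℝ] ℝ

/-- `k`-vectors of `ℝⁿ`, as the dual space of the `k`-covectors. -/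
abbrev KVec (n k : ℕ) := Cov n k →L[ℝ] ℝ

/-- `α` is a smooth compactly supported `k`-form. -/
def IsTest {n k : ℕ} (α : Eu n → Cov n k) : Prop := ContDiff ℝ ∞ α ∧ HasCompactSupport α

/-- The mass in the open set `U` of a functional `T` on `k`-forms: the supremum of `T α` over the
test forms `α` supported in `U` with comass at most one. -/
noncomputable def massOn {n k : ℕ} (T : (Eu n → Cov n k) → ℝ) (U : Set (Eu n)) : ℝ≥0∞ :=
  ⨆ (α : Eu n → Cov n k) (_ : IsTest α ∧ tsupport α ⊆ U ∧ ∀ x, ‖α x‖ ≤ 1), ENNReal.ofReal (T α)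

/-- `T` is linear on test forms. -/
def IsLinearOnTest {n k : ℕ} (T : (Eu n → Cov n k) → ℝ) : Prop :=
  ∀ (a b : ℝ) (α β : Eu n → Cov n k), IsTest α → IsTest β →
    T (fun x => a • α x + b • β x) = a * T α + b * T β

/-- `T` is a normal `(m+1)`-current with `∂T = 0`: linear on test forms, of finite mass, and
vanishing on the exterior derivatives of test forms. -/
def IsNormalCycle {n m : ℕ} (T : (Eu n → Cov n (m + 1)) → ℝ) : Prop :=
  IsLinearOnTest T ∧ massOn T univ < ⊤ ∧ ∀ η : Eu n → Cov n m, IsTest η → T (extDeriv η) = 0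

/-- The current `v μ`. -/
noncomputable def vecCur {n k : ℕ} (v : KVec n k) (μ : Measure (Eu n)) (α : Eu n → Cov n k) : ℝ :=
  ∫ x, v (α x) ∂μ

/-- The `k`-dimensional decomposability bundle of `μ` at `x`, with `k = m + 1`: the `k`-vectors `v`
for which there is a normal `k`-current `N` with `∂N = 0` such that the mass of `N - vμ` in the
ball `B(x,r)` is `o(μ(B(x,r)))`. -/
def Vk {n : ℕ} (m : ℕ) (μ : Measure (Eu n)) (x : Eu n) : Set (KVec n (m + 1)) :=
  {v | ∃ N : (Eu n → Cov n (m + 1)) → ℝ, IsNormalCycle N ∧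
    Tendsto (fun r : ℝ => massOn (fun α => N α - vecCur v μ α) (Metric.ball x r)
      / μ (Metric.ball x r)) (𝓝[>] 0) (𝓝 0)}

/-- The value of the component of index `I` of a `k`-covector. -/
noncomputable def comp {n k : ℕ} (α : Cov n k) (I : Fin k → Fin n) : ℝ :=
  α fun i => EuclideanSpace.single (I i) 1

/-- The pair `(φ, K)` has the three properties of Q1 with the Lipschitz bound `L`. -/
def IsApprox {n m : ℕ} (μ : Measure (Eu n)) (Ω : Set (Eu n)) (α : Eu n → Cov n (m + 1))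
    (ε : ℝ) (L : ℝ≥0∞) (φ : Eu n → Cov n m) (K : Set (Eu n)) : Prop :=
  ContDiffOn ℝ 1 φ Ω ∧ K ⊆ Ω ∧ IsCompact K ∧ μ (Ω \ K) < ENNReal.ofReal ε ∧
    (∀ x ∈ K, extDeriv φ x = α x) ∧
    ∀ I : Fin m → Fin n, ∀ x ∈ Ω, ∀ y ∈ Ω, edist (comp (φ x) I) (comp (φ y) I) ≤ L * edist x y

/-- The form `α` is Borel and annihilates the bundle `Vk` at `μ`-almost every point of `Ω`. -/
def IsAdmissible {n m : ℕ} (μ : Measure (Eu n)) (Ω : Set (Eu n)) (α : Eu n → Cov n (m + 1)) :
    Prop :=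
  (∀ I : Fin (m + 1) → Fin n, Measurable fun x => comp (α x) I) ∧
    ∀ᵐ x ∂(μ.restrict Ω), ∀ τ ∈ Vk m μ x, τ (α x) = 0

/-- The Lusin property for `k`-forms on `ℝⁿ` asked for in Q1, with `k = m + 1`. -/
def LusinProperty (n m : ℕ) : Prop :=
  ∃ C : ℝ, ∀ μ : Measure (Eu n), IsLocallyFiniteMeasure μ → ∀ Ω : Set (Eu n), IsOpen Ω →
    μ Ω < ⊤ → ∀ α : Eu n → Cov n (m + 1), IsAdmissible μ Ω α → ∀ ε : ℝ, 0 < ε →
      ∃ (φ : Eu n → Cov n m) (K : Set (Eu n)),
        IsApprox μ Ω α ε (ENNReal.ofReal C * eLpNormEssSup α (μ.restrict Ω)) φ K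

end Pool.Agent.H28.LusinStmt
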