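import Pool.Agent.H28.Lusin.Cons

open MeasureTheory Set Real Filter
open scoped ContDiff Topology ENNReal ComplexConjugate

namespace Pool.Agent.H28.Lusin

variable {m0 Pst : ℕ} {s : ℕ → Lev}

theorem theta_mk (a b : ℝ) : (⟨a, b⟩ : ℂ) = (a : ℂ) + (b : ℂ) * Complex.I :=
  Complex.mk_eq_add_mul_I a b

/-- Derivative of the argument along a curve in the slit plane. -/
theorem theta_arg_deriv {f : ℝ → ℂ} {f' : ℂ} {x : ℝ} (hf : HasDerivAt f f' x)
    (h : f x ∈ Complex.slitPlane) :
    HasDerivAt (fun t => Complex.arg (f t)) (f' / f x).im x := by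
  have h1 := hf.clog_real h
  have h2 := Complex.imCLM.hasFDerivAt.comp_hasDerivAt x h1
  have h3 : (fun t => Complex.arg (f t)) = Complex.imCLM ∘ fun t => Complex.log (f t) := by
    funext t
    simp [Complex.log_im]
  rw [h3]
  exact h2

theorem theta_im_div1 (a b c : ℝ) :
    (((2 * π * c : ℝ) : ℂ) / (⟨a, b⟩ : ℂ)).im / (2 * π) = -(b * c) / (a ^ 2 + b ^ 2) := by
  have hp : (π : ℝ) ≠ 0 := Real.pi_ne_zero
  rw [Complex.div_im, Complex.normSq_mk]
  simp only [Complex.ofReal_im, Complex.ofReal_re]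
  by_cases h : a ^ 2 + b ^ 2 = 0
  · have ha : a * a + b * b = 0 := by linarith
    rw [ha, h]
    simp
  · have ha : a * a + b * b ≠ 0 := by
      intro h'
      apply h
      linarith
    have : a * a + b * b = a ^ 2 + b ^ 2 := by ring
    rw [this]
    field_simp
    ring

theorem theta_im_div2 (a b c : ℝ) :
    ((((2 * π * c : ℝ) : ℂ) * Complex.I) / (⟨a, b⟩ : ℂ)).im / (2 * π)
      = (a * c) / (a ^ 2 + b ^ 2) := by
  have hp : (π : ℝ) ≠ 0 := Real.pi_ne_zero
  rw [Complex.div_im, Complex.normSq_mk]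
  simp only [Complex.mul_im, Complex.mul_re, Complex.ofReal_im, Complex.ofReal_re,
    Complex.I_re, Complex.I_im]
  by_cases h : a ^ 2 + b ^ 2 = 0
  · have ha : a * a + b * b = 0 := by linarith
    rw [ha, h]
    simp
  · have : a * a + b * b = a ^ 2 + b ^ 2 := by ring
    rw [this]
    field_simp
    ring

theorem hasDerivAt_th1 {ε : ℝ} (hε : 0 < ε) (X Y : ℝ) :
    HasDerivAt (fun X => th1 ε X Y) (sX ε X Y) X := by
  unfold th1 sX
  by_cases h : ε ≤ |fa Y|
  · simp only [h, if_true]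
    have hY : fa Y ≠ 0 := by
      intro h0
      rw [h0, abs_zero] at h
      linarith
    have hf : HasDerivAt (fun X : ℝ => (⟨fa X, fa Y⟩ : ℂ)) ((2 * π * fc X : ℝ) : ℂ) X := by
      have h1 : HasDerivAt (fun X : ℝ => ((fa X : ℝ) : ℂ) + ((fa Y : ℝ) : ℂ) * Complex.I)
          ((2 * π * fc X : ℝ) : ℂ) X := ((hasDerivAt_fa X).ofReal_comp).add_const _
      simpa only [theta_mk] using h1
    have hs : (⟨fa X, fa Y⟩ : ℂ) ∈ Complex.slitPlane := by
      rw [Complex.mem_slitPlane_iff]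
      exact Or.inr hY
    have h2 := (theta_arg_deriv hf hs).div_const (2 * π)
    rw [theta_im_div1] at h2
    exact h2
  · simp only [h, if_false]
    exact hasDerivAt_const _ _

theorem hasDerivAt_th2 {ε : ℝ} (hε : 0 < ε) (X Y : ℝ) :
    HasDerivAt (fun Y => th2 ε X Y) (sY ε X Y) Y := by
  unfold th2 sY
  by_cases h : ε ≤ |fa X|
  · simp only [h, if_true]
    have hX : fa X ≠ 0 := by
      intro h0
      rw [h0, abs_zero] at h
      linarith
    by_cases h0 : 0 < fa X
    · simp only [h0, if_true]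
      have hf : HasDerivAt (fun Y : ℝ => (⟨fa X, fa Y⟩ : ℂ))
          (((2 * π * fc Y : ℝ) : ℂ) * Complex.I) Y := by
        have h1 : HasDerivAt (fun Y : ℝ => ((fa X : ℝ) : ℂ) + ((fa Y : ℝ) : ℂ) * Complex.I)
            (((2 * π * fc Y : ℝ) : ℂ) * Complex.I) Y :=
          (((hasDerivAt_fa Y).ofReal_comp).mul_const Complex.I).const_add _
        simpa only [theta_mk] using h1
      have hs : (⟨fa X, fa Y⟩ : ℂ) ∈ Complex.slitPlane := by
        rw [Complex.mem_slitPlane_iff]
        exact Or.inl h0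
      have h2 := (theta_arg_deriv hf hs).div_const (2 * π)
      rw [theta_im_div2] at h2
      exact h2
    · simp only [h0, if_false]
      have h0' : 0 < -fa X := by
        rcases lt_or_gt_of_ne hX with h1 | h1
        · linarith
        · exact absurd h1 h0
      have hf : HasDerivAt (fun Y : ℝ => (⟨-fa X, -fa Y⟩ : ℂ))
          (((2 * π * (-fc Y) : ℝ) : ℂ) * Complex.I) Y := by
        have h1 : HasDerivAt (fun Y : ℝ => ((-fa X : ℝ) : ℂ) + ((-fa Y : ℝ) : ℂ) * Complex.I)
            (((2 * π * (-fc Y) : ℝ) : ℂ) * Complex.I) Y := by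
          have h3 : HasDerivAt (fun Y : ℝ => -fa Y) (2 * π * (-fc Y)) Y := by
            have := (hasDerivAt_fa Y).neg
            rw [show 2 * π * (-fc Y) = -(2 * π * fc Y) by ring]
            exact this
          exact ((h3.ofReal_comp).mul_const Complex.I).const_add _
        simpa only [theta_mk] using h1
      have hs : (⟨-fa X, -fa Y⟩ : ℂ) ∈ Complex.slitPlane := by
        rw [Complex.mem_slitPlane_iff]
        exact Or.inl h0'
      have h2 := ((theta_arg_deriv hf hs).div_const (2 * π)).const_add (1 / 2)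
      rw [theta_im_div2] at h2
      have h4 : -fa X * -fc Y / ((-fa X) ^ 2 + (-fa Y) ^ 2) = thY X Y := by
        unfold thY
        rw [neg_sq, neg_sq]
        congr 1
        ring
      rw [h4] at h2
      exact h2
  · simp only [h, if_false]
    exact hasDerivAt_const _ _

theorem theta_abs_div (t B : ℝ) (h : |t| ≤ B * (2 * π)) : |t / (2 * π)| ≤ B := by
  have hp : (0 : ℝ) < 2 * π := by positivity
  rw [abs_div, abs_of_pos hp, div_le_iff₀ hp]
  exact h

theorem abs_th1_le (ε X Y : ℝ) : |th1 ε X Y| ≤ 1 / 2 := by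
  unfold th1
  split_ifs
  · apply theta_abs_div
    have := Complex.abs_arg_le_pi (⟨fa X, fa Y⟩ : ℂ)
    linarith
  · simp

theorem abs_th2_le (ε X Y : ℝ) : |th2 ε X Y| ≤ 3 / 4 := by
  unfold th2
  split_ifs with h1 h2
  · apply theta_abs_div
    have := Complex.abs_arg_le_pi (⟨fa X, fa Y⟩ : ℂ)
    linarith [Real.pi_pos]
  · have h3 : |Complex.arg (⟨-fa X, -fa Y⟩ : ℂ)| ≤ π / 2 := by
      rw [Complex.abs_arg_le_pi_div_two_iff]
      show 0 ≤ -fa X
      linarith
    have h4 := theta_abs_div (Complex.arg (⟨-fa X, -fa Y⟩ : ℂ)) (1 / 4) (by linarith)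
    calc |1 / 2 + Complex.arg (⟨-fa X, -fa Y⟩ : ℂ) / (2 * π)|
        ≤ |(1 / 2 : ℝ)| + |Complex.arg (⟨-fa X, -fa Y⟩ : ℂ) / (2 * π)| := abs_add_le _ _
      _ ≤ 1 / 2 + 1 / 4 := by
        rw [abs_of_pos (by norm_num : (0 : ℝ) < 1 / 2)]
        linarith
      _ = 3 / 4 := by norm_num
  · rw [abs_zero]
    norm_num

theorem theta_meas_arg : Measurable fun p : ℝ × ℝ => Complex.arg (⟨fa p.1, fa p.2⟩ : ℂ) := by
  apply Complex.measurable_arg.comp
  have h : (fun p : ℝ × ℝ => (⟨fa p.1, fa p.2⟩ : ℂ)) =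
      fun p : ℝ × ℝ => ((fa p.1 : ℝ) : ℂ) + ((fa p.2 : ℝ) : ℂ) * Complex.I := by
    funext p
    exact theta_mk _ _
  rw [h]
  exact (((Complex.continuous_ofReal.comp (continuous_fa.comp continuous_fst)).add
    ((Complex.continuous_ofReal.comp (continuous_fa.comp continuous_snd)).mul
      continuous_const)).measurable)

theorem theta_meas_arg' : Measurable fun p : ℝ × ℝ => Complex.arg (⟨-fa p.1, -fa p.2⟩ : ℂ) := by
  apply Complex.measurable_arg.comp
  have h : (fun p : ℝ × ℝ => (⟨-fa p.1, -fa p.2⟩ : ℂ)) =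
      fun p : ℝ × ℝ => ((-fa p.1 : ℝ) : ℂ) + ((-fa p.2 : ℝ) : ℂ) * Complex.I := by
    funext p
    exact theta_mk _ _
  rw [h]
  exact (((Complex.continuous_ofReal.comp (continuous_fa.comp continuous_fst).neg).add
    ((Complex.continuous_ofReal.comp (continuous_fa.comp continuous_snd).neg).mul
      continuous_const)).measurable)

theorem measurable_th1 (ε : ℝ) : Measurable fun p : ℝ × ℝ => th1 ε p.1 p.2 := by
  unfold th1
  refine Measurable.ite ?_ (theta_meas_arg.div_const _) measurable_const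
  exact measurableSet_le measurable_const
    ((continuous_fa.comp continuous_snd).abs.measurable)

theorem measurable_th2 (ε : ℝ) : Measurable fun p : ℝ × ℝ => th2 ε p.1 p.2 := by
  unfold th2
  refine Measurable.ite ?_ (Measurable.ite ?_ (theta_meas_arg.div_const _)
    ((theta_meas_arg'.div_const _).const_add _)) measurable_const
  · exact measurableSet_le measurable_const ((continuous_fa.comp continuous_fst).abs.measurable)
  · exact measurableSet_lt measurable_const ((continuous_fa.comp continuous_fst).measurable)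

/-- `sX ε · Y` and `sY ε X ·` are continuous. -/
theorem continuous_sX_left {ε : ℝ} (hε : 0 < ε) (Y : ℝ) : Continuous fun X => sX ε X Y := by
  unfold sX
  by_cases h : ε ≤ |fa Y|
  · simp only [h, if_true]
    have hY : 0 < fa Y ^ 2 := by
      have h1 : 0 < |fa Y| := by linarith
      have h2 : fa Y ≠ 0 := abs_pos.1 h1
      positivity
    unfold thX
    refine Continuous.div ((continuous_const.mul continuous_fc).neg)
      ((continuous_fa.pow 2).add continuous_const) ?_
    intro X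
    have := sq_nonneg (fa X)
    linarith
  · simp only [h, if_false]
    exact continuous_const

theorem continuous_sY_right {ε : ℝ} (hε : 0 < ε) (X : ℝ) : Continuous fun Y => sY ε X Y := by
  have h : (fun Y => sY ε X Y) = fun Y => -sX ε Y X := by
    funext Y
    exact sY_eq ε X Y
  rw [h]
  exact (continuous_sX_left hε X).neg

/-- The two branches differ by `0` or `1` outside the strips. -/
theorem th2_eq {ε X Y : ℝ} (hε : 0 < ε) (h1 : ε ≤ |fa X|) (h2 : ε ≤ |fa Y|) :
    ∃ k : ℕ, k ≤ 1 ∧ th2 ε X Y = th1 ε X Y + k := by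
  unfold th2 th1
  rw [if_pos h1, if_pos h2]
  have hp : (π : ℝ) ≠ 0 := Real.pi_ne_zero
  have hY : fa Y ≠ 0 := by
    intro h0
    rw [h0, abs_zero] at h2
    linarith
  by_cases h0 : 0 < fa X
  · rw [if_pos h0]
    exact ⟨0, by norm_num, by simp⟩
  · rw [if_neg h0]
    have hneg : (⟨-fa X, -fa Y⟩ : ℂ) = -(⟨fa X, fa Y⟩ : ℂ) := by
      apply Complex.ext <;> simp
    rw [hneg]
    rcases lt_or_gt_of_ne hY with hY' | hY'
    · refine ⟨1, le_rfl, ?_⟩
      rw [Complex.arg_neg_eq_arg_add_pi_of_im_neg (show (⟨fa X, fa Y⟩ : ℂ).im < 0 from hY')]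
      push_cast
      field_simp
      ring
    · refine ⟨0, by norm_num, ?_⟩
      rw [Complex.arg_neg_eq_arg_sub_pi_of_im_pos (show 0 < (⟨fa X, fa Y⟩ : ℂ).im from hY')]
      push_cast
      field_simp
      ring

theorem exp_th1 {ε X Y : ℝ} (hε : 0 < ε) (h : ε ≤ |fa Y|) :
    Complex.exp (2 * π * (th1 ε X Y : ℂ) * Complex.I)
      = (⟨fa X, fa Y⟩ : ℂ) / (‖(⟨fa X, fa Y⟩ : ℂ)‖ : ℂ) := by
  have hY : fa Y ≠ 0 := by
    intro h0
    rw [h0, abs_zero] at h
    linarith
  have hw : (⟨fa X, fa Y⟩ : ℂ) ≠ 0 := by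
    intro h0
    apply hY
    have := congrArg Complex.im h0
    simpa using this
  have hn : (‖(⟨fa X, fa Y⟩ : ℂ)‖ : ℂ) ≠ 0 := by
    rw [Complex.ofReal_ne_zero, norm_ne_zero_iff]
    exact hw
  have hp : (π : ℂ) ≠ 0 := Complex.ofReal_ne_zero.2 Real.pi_ne_zero
  unfold th1
  rw [if_pos h, eq_div_iff hn, mul_comm]
  have h3 : (2 : ℂ) * π * ((Complex.arg (⟨fa X, fa Y⟩ : ℂ) / (2 * π) : ℝ) : ℂ) * Complex.I
      = (Complex.arg (⟨fa X, fa Y⟩ : ℂ) : ℂ) * Complex.I := by
    push_cast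
    field_simp
  rw [h3]
  exact Complex.norm_mul_exp_arg_mul_I _

theorem theta_summable (hP : 0 < Pst) (hs : ∀ j, Good m0 Pst j s) (f : ℕ → ℝ)
    (hf : ∀ j, |f j| ≤ NN m0 j) : Summable fun j => pj m0 Pst s j * f j := by
  refine Summable.of_norm_bounded (summable_pj_NN hP hs) (fun j => ?_)
  have h1 := pj_pos hP hs j
  rw [Real.norm_eq_abs, abs_mul, abs_of_pos h1]
  exact mul_le_mul_of_nonneg_left (hf j) h1.le

theorem summable_g1 (hP : 0 < Pst) (hs : ∀ j, Good m0 Pst j s) (u : ℝ × ℝ) :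
    Summable fun j => pj m0 Pst s j * th1 (ep m0 j) ((s j).X u) ((s j).Y u) :=
  theta_summable hP hs _ fun j => by
    have h1 := abs_th1_le (ep m0 j) ((s j).X u) ((s j).Y u)
    have h2 := one_le_NN (m0 := m0) j
    linarith

theorem summable_g2 (hP : 0 < Pst) (hs : ∀ j, Good m0 Pst j s) (u : ℝ × ℝ) :
    Summable fun j => pj m0 Pst s j * th2 (ep m0 j) ((s j).X u) ((s j).Y u) :=
  theta_summable hP hs _ fun j => by
    have h1 := abs_th2_le (ep m0 j) ((s j).X u) ((s j).Y u)
    have h2 := one_le_NN (m0 := m0) j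
    linarith

theorem measurable_g1 (hP : 0 < Pst) (hs : ∀ j, Good m0 Pst j s) : Measurable (g1 m0 Pst s) := by
  refine measurable_of_tendsto_metrizable (f := fun n u => ∑ j ∈ Finset.range n,
    pj m0 Pst s j * th1 (ep m0 j) ((s j).X u) ((s j).Y u)) (fun n => ?_) ?_
  · refine Finset.measurable_sum _ fun j _ => ?_
    exact ((measurable_th1 (ep m0 j)).comp
      ((s j).continuous_X.measurable.prodMk (s j).continuous_Y.measurable)).const_mul _
  · rw [tendsto_pi_nhds]
    intro u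
    exact (summable_g1 hP hs u).hasSum.tendsto_sum_nat

theorem measurable_g2 (hP : 0 < Pst) (hs : ∀ j, Good m0 Pst j s) : Measurable (g2 m0 Pst s) := by
  refine measurable_of_tendsto_metrizable (f := fun n u => ∑ j ∈ Finset.range n,
    pj m0 Pst s j * th2 (ep m0 j) ((s j).X u) ((s j).Y u)) (fun n => ?_) ?_
  · refine Finset.measurable_sum _ fun j _ => ?_
    exact ((measurable_th2 (ep m0 j)).comp
      ((s j).continuous_X.measurable.prodMk (s j).continuous_Y.measurable)).const_mul _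
  · rw [tendsto_pi_nhds]
    intro u
    exact (summable_g2 hP hs u).hasSum.tendsto_sum_nat

/-- On the good set the two height functions differ by a sum of periods. -/
theorem g2_eq (hP : 0 < Pst) (hs : ∀ j, Good m0 Pst j s) {u : ℝ × ℝ} (hu : u ∈ Gs m0 s) :
    ∃ k : ℕ → ℕ, (∀ j, k j ≤ 1) ∧
      g2 m0 Pst s u = g1 m0 Pst s u + ∑' j, pj m0 Pst s j * (k j : ℝ) := by
  have h1 : ∀ j, ∃ k : ℕ, k ≤ 1 ∧ th2 (ep m0 j) ((s j).X u) ((s j).Y u) =
      th1 (ep m0 j) ((s j).X u) ((s j).Y u) + k := fun j =>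
    th2_eq (ep_pos m0 j) (hu.2.1 j).1.le (hu.2.1 j).2.le
  choose k hk1 hk2 using h1
  refine ⟨k, hk1, ?_⟩
  unfold g1 g2
  have hsk : Summable fun j => pj m0 Pst s j * (k j : ℝ) := theta_summable hP hs _ fun j => by
    have h1 : (k j : ℝ) ≤ 1 := by exact_mod_cast hk1 j
    have h2 := one_le_NN (m0 := m0) j
    rw [abs_of_nonneg (Nat.cast_nonneg _)]
    linarith
  rw [← (summable_g1 hP hs u).tsum_add hsk]
  congr 1
  funext j
  rw [hk2 j]
  ring

/-- The vertical coordinate is small compared with `1 / Pst`. -/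
theorem abs_g1_add_cd_le (hP : 0 < Pst) (hs : ∀ j, Good m0 Pst j s) (u : ℝ × ℝ) {l : ℕ → ℕ}
    (hl : ∀ j, l j < NN m0 j) :
    |g1 m0 Pst s u + cd m0 Pst s l| ≤ (1 / 4) * (1 / (Pst : ℝ)) := by
  have hsl : Summable fun j => pj m0 Pst s j * (l j : ℝ) := theta_summable hP hs _ fun j => by
    have h1 : (l j : ℝ) ≤ NN m0 j := by exact_mod_cast (hl j).le
    rw [abs_of_nonneg (Nat.cast_nonneg _)]
    exact h1
  have hsum := (summable_g1 hP hs u).add hsl
  have h1 : g1 m0 Pst s u + cd m0 Pst s l = ∑' j, (pj m0 Pst s j *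
      th1 (ep m0 j) ((s j).X u) ((s j).Y u) + pj m0 Pst s j * (l j : ℝ)) := by
    unfold g1 cd
    rw [(summable_g1 hP hs u).tsum_add hsl]
  rw [h1]
  have hterm : ∀ j, ‖pj m0 Pst s j * th1 (ep m0 j) ((s j).X u) ((s j).Y u) +
      pj m0 Pst s j * (l j : ℝ)‖ ≤ pj m0 Pst s j * NN m0 j := by
    intro j
    have h2 := pj_pos hP hs j
    have h3 := abs_th1_le (ep m0 j) ((s j).X u) ((s j).Y u)
    have h4 : (l j : ℝ) + 1 ≤ NN m0 j := by exact_mod_cast hl j
    have h5 : (0 : ℝ) ≤ l j := Nat.cast_nonneg _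
    rw [← mul_add, Real.norm_eq_abs, abs_mul, abs_of_pos h2]
    apply mul_le_mul_of_nonneg_left _ h2.le
    rw [abs_le] at h3 ⊢
    constructor <;> linarith
  have h6 := tsum_of_norm_bounded (summable_pj_NN hP hs).hasSum hterm
  have h7 := tail_pj_NN hP hs 0
  simp only [add_zero, zero_add] at h7
  have h8 : (Pp m0 Pst s 0 : ℝ) = Pst := rfl
  rw [h8] at h7
  have hP' : (0 : ℝ) < Pst := by exact_mod_cast hP
  have h9 : ((1 : ℝ) / 2) ^ (m0 + 9) ≤ 1 / 4 := by
    calc ((1 : ℝ) / 2) ^ (m0 + 9) ≤ (1 / 2) ^ 2 :=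
          pow_le_pow_of_le_one (by norm_num) (by norm_num) (by omega)
      _ = 1 / 4 := by norm_num
  rw [Real.norm_eq_abs] at h6
  refine h6.trans ?_
  rw [mul_one_div, le_div_iff₀ hP']
  linarith

end Pool.Agent.H28.Lusin
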