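import Pool.Agent.H28.Lusin.OscB
import Pool.Agent.H28.Lusin.DivEst

open MeasureTheory Set Filter
open scoped ContDiff Topology ENNReal

namespace Pool.Agent.H28.Lusin

theorem topA_norm_ee (q : ℕ) (r : Fin (q + 2)) : ‖ee q r‖ = 1 := by
  simp [ee]

/-- The centre of the unit cube. -/
noncomputable def topACen (q : ℕ) : Eu (q + 2) := WithLp.toLp 2 fun _ => (1 / 2 : ℝ)

theorem topA_ball_sub (q : ℕ) : Metric.closedBall (topACen q) (1 / 2) ⊆ Qn q := by
  intro x hx i
  have h1 : |x i - 1 / 2| ≤ 1 / 2 := by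
    have h2 : ‖(x - topACen q) i‖ ≤ ‖x - topACen q‖ := PiLp.norm_apply_le (x - topACen q) i
    have h3 : ‖x - topACen q‖ ≤ 1 / 2 := by
      rw [← dist_eq_norm]; exact hx
    have h4 : (x - topACen q) i = x i - 1 / 2 := by
      simp [topACen]
    rw [h4, Real.norm_eq_abs] at h2
    exact h2.trans h3
  rw [abs_le] at h1
  constructor <;> linarith [h1.1, h1.2]

theorem topA_volF (q : ℕ) : volF q (fun i => ee q i) = 1 := by
  rw [volF, wedgeC_apply]
  have : (Matrix.of fun i j => dxx j (ee q i)) = (1 : Matrix (Fin (q + 2)) (Fin (q + 2)) ℝ) := by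
    ext i j
    rw [Matrix.of_apply, Matrix.one_apply]
    by_cases h : i = j
    · subst h; simp [dxx, ee]
    · rw [if_neg h]
      simp [dxx, ee, Ne.symm h]
  exact (congrArg Matrix.det this).trans Matrix.det_one

/-- No `C¹` form with `C`-Lipschitz components has the exterior derivative `f dx` on a large set. -/
theorem top_afin (q : ℕ) (C : ℝ) (hC : 0 ≤ C) :
    ∃ (μ : Measure (Eu (q + 2))) (f : Eu (q + 2) → ℝ) (ε0 : ℝ), IsFiniteMeasure μ ∧
      Measurable f ∧ (∀ x, |f x| ≤ 1) ∧ 0 < ε0 ∧
      ∀ (φ : Eu (q + 2) → Cov (q + 2) (q + 1)) (K : Set (Eu (q + 2))), ContDiff ℝ 1 φ →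
        IsClosed K → μ.real Kᶜ < ε0 → (∀ x ∈ K, extDeriv φ x = f x • volF q) →
        (∀ (I : Fin (q + 1) → Fin (q + 2)) (x y : Eu (q + 2)),
          |φ x (fun i => EuclideanSpace.single (I i) (1 : ℝ))
            - φ y (fun i => EuclideanSpace.single (I i) (1 : ℝ))| ≤ C * ‖x - y‖) → False := by
  -- the bump function
  let χ : ContDiffBump (topACen q) := ⟨1 / 4, 1 / 2, by norm_num, by norm_num⟩
  have hχs : tsupport (χ : Eu (q + 2) → ℝ) ⊆ Qn q := by
    rw [χ.tsupport_eq]
    exact topA_ball_sub q
  have hχ : ContDiff ℝ ∞ (χ : Eu (q + 2) → ℝ) := χ.contDiff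
  have hχc : Continuous (χ : Eu (q + 2) → ℝ) := χ.continuous
  have hQm : MeasurableSet (Qn q) := (isCompact_Qn q).isClosed.measurableSet
  have hχQ : ∫ x in Qn q, (χ : Eu (q + 2) → ℝ) x = ∫ x, (χ : Eu (q + 2) → ℝ) x := by
    refine setIntegral_eq_integral_of_forall_compl_eq_zero fun x hx => ?_
    exact image_eq_zero_of_notMem_tsupport fun h => hx (hχs h)
  have hχi : 0 < ∫ x in Qn q, (χ : Eu (q + 2) → ℝ) x := by
    rw [hχQ]
    exact χ.integral_pos
  obtain ⟨B, hB⟩ := div_estimate hχ hχs (fun x => χ.nonneg) (fun x => χ.le_one) C hC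
  obtain ⟨U, hU, hUL⟩ := exists_osc hχc (fun x => χ.nonneg) hχi (B + (1 + (q + 2) * C) + 1)
  set F : Eu (q + 2) → ℝ := fun x => dd U (ee q 0) (ee q 0) x + dd U (ee q 1) (ee q 1) x
    with hFdef
  have hddc : ∀ a b : Eu (q + 2), Continuous (dd U a b) := by
    intro a b
    have h1 : ContDiff ℝ 1 (fun y => fderiv ℝ U y b) := by
      have h2 : ContDiff ℝ 1 (fderiv ℝ U) := hU.hU.fderiv_right (m := 1) (by
        norm_cast)
      exact h2.clm_apply contDiff_const
    have h3 : Continuous (fderiv ℝ (fun y => fderiv ℝ U y b)) := h1.continuous_fderiv (by norm_num)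
    exact h3.clm_apply continuous_const
  have hFc : Continuous F := (hddc _ _).add (hddc _ _)
  set f : Eu (q + 2) → ℝ := fun x => if 0 < F x then 1 else if F x < 0 then -1 else 0 with hfdef
  have hfm : Measurable f := by
    refine Measurable.ite (measurableSet_lt measurable_const hFc.measurable) measurable_const ?_
    exact Measurable.ite (measurableSet_lt hFc.measurable measurable_const) measurable_const
      measurable_const
  have hf1 : ∀ x, |f x| ≤ 1 := by
    intro x
    simp only [hfdef]
    split_ifs <;> simp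
  have hfF : ∀ x, f x * F x = |F x| := by
    intro x
    simp only [hfdef]
    split_ifs with h1 h2
    · rw [one_mul, abs_of_pos h1]
    · rw [neg_one_mul, abs_of_neg h2]
    · have : F x = 0 := le_antisymm (not_lt.1 h1) (not_lt.1 h2)
      rw [this]; simp
  have hFint : ∀ g : Eu (q + 2) → ℝ, Continuous g → IntegrableOn g (Qn q) := fun g hg =>
    hg.continuousOn.integrableOn_compact (isCompact_Qn q)
  set μ : Measure (Eu (q + 2)) := (volume.restrict (Qn q)).withDensity
    (fun x => ENNReal.ofReal |F x|) with hμdef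
  have hμfin : IsFiniteMeasure μ := by
    refine isFiniteMeasure_withDensity_ofReal ?_
    exact (hFint _ hFc.abs).2
  refine ⟨μ, f, 1, hμfin, hfm, hf1, one_pos, ?_⟩
  intro φ K hφ hK hμK hext hlip
  -- the vector field
  set X : Fin (q + 2) → Eu (q + 2) → ℝ := fun r x =>
    (-1 : ℝ) ^ (r : ℕ) * φ x (fun i => ee q (r.succAbove i)) with hXdef
  have hXc : ∀ r, ContDiff ℝ 1 (X r) := by
    intro r
    have h1 : ContDiff ℝ 1 (fun x => φ x (fun i => ee q (r.succAbove i))) := by
      exact ((ContinuousAlternatingMap.apply ℝ (Eu (q + 2)) ℝ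
        (fun i => ee q (r.succAbove i))).contDiff).comp hφ
    exact contDiff_const.mul h1
  have hXl : ∀ r x y, |X r x - X r y| ≤ C * ‖x - y‖ := by
    intro r x y
    have h1 := hlip (fun i => r.succAbove i) x y
    have h2 : X r x - X r y = (-1 : ℝ) ^ (r : ℕ) *
        (φ x (fun i => ee q (r.succAbove i)) - φ y (fun i => ee q (r.succAbove i))) := by
      simp only [hXdef]; ring
    rw [h2, abs_mul, abs_pow, abs_neg, abs_one, one_pow, one_mul]
    exact h1
  set G : Eu (q + 2) → ℝ := fun x => ∑ r : Fin (q + 2), fderiv ℝ (X r) x (ee q r) with hGdef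
  have hGc : Continuous G := by
    refine continuous_finsetSum _ fun r _ => ?_
    exact ((hXc r).continuous_fderiv (by norm_num)).clm_apply continuous_const
  have hG1 : ∀ x, |G x| ≤ (q + 2) * C := by
    intro x
    refine (Finset.abs_sum_le_sum_abs _ _).trans ?_
    have h1 : ∀ r ∈ (Finset.univ : Finset (Fin (q + 2))), |fderiv ℝ (X r) x (ee q r)| ≤ C := by
      intro r _
      have h2 : ‖fderiv ℝ (X r) x‖ ≤ C := by
        have hL : LipschitzWith ⟨C, hC⟩ (X r) := by
          refine LipschitzWith.of_dist_le_mul fun a b => ?_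
          rw [Real.dist_eq, dist_eq_norm]
          exact hXl r a b
        exact norm_fderiv_le_of_lipschitz ℝ hL
      have h3 := (fderiv ℝ (X r) x).le_opNorm (ee q r)
      rw [topA_norm_ee, mul_one] at h3
      exact h3.trans h2
    refine (Finset.sum_le_card_nsmul _ _ _ h1).trans ?_
    rw [Finset.card_univ, Fintype.card_fin, nsmul_eq_mul]
    push_cast
    exact le_rfl
  have hGK : ∀ x ∈ K, G x = f x := by
    intro x hx
    have h1 : extDeriv φ x (fun i => ee q i) = f x := by
      rw [hext x hx, ContinuousAlternatingMap.smul_apply, topA_volF, smul_eq_mul, mul_one]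
    rw [← h1, extDeriv_apply (hφ.differentiable (by norm_num) x)]
    simp only [hGdef]
    refine Finset.sum_congr rfl fun r _ => ?_
    have h2 : fderiv ℝ (X r) x = (-1 : ℝ) ^ (r : ℕ) •
        fderiv ℝ (fun y => φ y (fun i => ee q (r.succAbove i))) x := by
      have hd : DifferentiableAt ℝ (fun y => φ y (fun i => ee q (r.succAbove i))) x := by
        have h1 : ContDiff ℝ 1 (fun x => φ x (fun i => ee q (r.succAbove i))) := by
          exact ((ContinuousAlternatingMap.apply ℝ (Eu (q + 2)) ℝ
            (fun i => ee q (r.succAbove i))).contDiff).comp hφ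
        exact h1.differentiable (by norm_num) x
      exact fderiv_const_mul hd _
    rw [h2, _root_.smul_apply, zsmul_eq_mul, smul_eq_mul]
    push_cast
    rfl
  -- the contradiction
  have hχF : ∫ x in Qn q, χ x * |F x| = (∫ x in Qn q, χ x * F x * G x)
      + ∫ x in Qn q, χ x * F x * (f x - G x) := by
    rw [← integral_add]
    · refine integral_congr_ae (ae_of_all _ fun x => ?_)
      simp only
      rw [← hfF x]; ring
    · exact hFint _ ((hχc.mul hFc).mul hGc)
    · have h1 : IntegrableOn (fun x => χ x * F x) (Qn q) := hFint _ (hχc.mul hFc)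
      refine Integrable.mul_bdd (c := 1 + (q + 2) * C) h1 ?_ ?_
      · exact (hfm.sub hGc.measurable).aestronglyMeasurable
      · refine ae_of_all _ fun x => ?_
        rw [Real.norm_eq_abs]
        exact (abs_sub _ _).trans (add_le_add (hf1 x) (hG1 x))
  have hI1 : |∫ x in Qn q, χ x * F x * G x| ≤ B := by
    have h1 : ∫ x in Qn q, χ x * F x * G x = ∫ x, χ x * F x * G x := by
      refine setIntegral_eq_integral_of_forall_compl_eq_zero fun x hx => ?_
      have : χ x = 0 := image_eq_zero_of_notMem_tsupport fun h => hx (hχs h)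
      rw [this]; ring
    rw [h1]
    exact hB U hU X hXc hXl
  have hI2 : |∫ x in Qn q, χ x * F x * (f x - G x)| ≤ 1 + (q + 2) * C := by
    have hKm : MeasurableSet Kᶜ := hK.isOpen_compl.measurableSet
    have hpos : 0 ≤ 1 + ((q : ℝ) + 2) * C := by positivity
    have h1 : ∀ x, |χ x * F x * (f x - G x)| ≤ Kᶜ.indicator (fun x => (1 + (q + 2) * C) * |F x|) x := by
      intro x
      by_cases hx : x ∈ K
      · rw [hGK x hx, sub_self, mul_zero, abs_zero, indicator_of_notMem (by simpa using hx)]
      · rw [indicator_of_mem (by simpa using hx), abs_mul, abs_mul]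
        have h2 : |χ x| ≤ 1 := by
          rw [abs_of_nonneg χ.nonneg]; exact χ.le_one
        have h3 : |f x - G x| ≤ 1 + (q + 2) * C :=
          (abs_sub _ _).trans (add_le_add (hf1 x) (hG1 x))
        calc |χ x| * |F x| * |f x - G x| ≤ 1 * |F x| * (1 + (q + 2) * C) := by gcongr
          _ = (1 + (q + 2) * C) * |F x| := by ring
    have h4 : ∫ x in Qn q, Kᶜ.indicator (fun x => (1 + (q + 2) * C) * |F x|) x
        = (1 + (q + 2) * C) * μ.real Kᶜ := by
      rw [integral_indicator hKm, integral_const_mul]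
      congr 1
      rw [measureReal_def, hμdef, withDensity_apply _ hKm,
        integral_eq_lintegral_of_nonneg_ae (ae_of_all _ fun x => abs_nonneg _)
          hFc.abs.aestronglyMeasurable]
    have h5 : |∫ x in Qn q, χ x * F x * (f x - G x)| ≤
        ∫ x in Qn q, Kᶜ.indicator (fun x => (1 + (q + 2) * C) * |F x|) x := by
      rw [← Real.norm_eq_abs]
      refine norm_integral_le_of_norm_le ?_ (ae_of_all _ fun x => ?_)
      · refine Integrable.indicator ?_ hKm
        exact (hFint _ hFc.abs).const_mul _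
      · rw [Real.norm_eq_abs]; exact h1 x
    rw [h4] at h5
    refine h5.trans ?_
    calc (1 + (q + 2) * C) * μ.real Kᶜ ≤ (1 + (q + 2) * C) * 1 := by gcongr
      _ = 1 + (q + 2) * C := mul_one _
  have hfin : ∫ x in Qn q, χ x * |F x| ≤ B + (1 + (q + 2) * C) := by
    rw [hχF]
    exact add_le_add ((le_abs_self _).trans hI1) ((le_abs_self _).trans hI2)
  have : B + (1 + (q + 2) * C) + 1 ≤ B + (1 + (q + 2) * C) := hUL.trans hfin
  linarith

end Pool.Agent.H28.Lusin
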