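import Pool.Agent.H28.Lusin.TopDefs
import Pool.Agent.H28.Lusin.BFin

open MeasureTheory Set Filter
open scoped ContDiff Topology ENNReal

namespace Pool.Agent.H28.Lusin

variable {q : ℕ}

private lemma topB_hasFDerivAt {E F : Type} [NormedAddCommGroup E] [NormedSpace ℝ E]
    [FiniteDimensional ℝ E] [MeasurableSpace E] [BorelSpace E] [NormedAddCommGroup F]
    [NormedSpace ℝ F] (μ : Measure E) [IsFiniteMeasure μ] {h : E → F} (hh : ContDiff ℝ ∞ h)
    (hs : HasCompactSupport h) (x : E) :
    HasFDerivAt (fun x => ∫ t, h (x - t) ∂μ) (∫ t, fderiv ℝ h (x - t) ∂μ) x := by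
  have hh1 : ContDiff ℝ 1 h := hh.of_le (by exact_mod_cast le_top)
  have hc' : Continuous (fderiv ℝ h) := hh1.continuous_fderiv (by norm_num)
  obtain ⟨C, hC⟩ := hc'.bounded_above_of_compact_support (hs.fderiv (𝕜 := ℝ))
  obtain ⟨C0, hC0⟩ := hh.continuous.bounded_above_of_compact_support hs
  have hcx : ∀ x : E, Continuous fun t => h (x - t) := fun x =>
    hh.continuous.comp (continuous_const.sub continuous_id)
  refine hasFDerivAt_integral_of_dominated_of_fderiv_le (F := fun x t => h (x - t))
    (F' := fun x t => fderiv ℝ h (x - t)) (bound := fun _ => C) (s := univ) univ_mem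
    (Eventually.of_forall fun y => (hcx y).aestronglyMeasurable) ?_ ?_ ?_ (integrable_const _) ?_
  · exact Integrable.mono' (integrable_const C0) (hcx x).aestronglyMeasurable
      (Eventually.of_forall fun t => hC0 _)
  · exact (hc'.comp (continuous_const.sub continuous_id)).aestronglyMeasurable
  · exact Eventually.of_forall fun t y _ => hC _
  · refine Eventually.of_forall fun t y _ => ?_
    have h1 : HasFDerivAt h (fderiv ℝ h (y - t)) (y - t) :=
      (hh1.differentiable (by norm_num)).differentiableAt.hasFDerivAt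
    have h2 : HasFDerivAt (fun y : E => y - t) (ContinuousLinearMap.id ℝ E) y :=
      (hasFDerivAt_id y).sub_const t
    simpa [Function.comp_def] using h1.comp y h2

private lemma topB_contDiff {E : Type} [NormedAddCommGroup E] [NormedSpace ℝ E]
    [FiniteDimensional ℝ E] [MeasurableSpace E] [BorelSpace E] (μ : Measure E) [IsFiniteMeasure μ]
    (n : ℕ) : ∀ (F : Type) [NormedAddCommGroup F] [NormedSpace ℝ F] (h : E → F),
      ContDiff ℝ ∞ h → HasCompactSupport h → ContDiff ℝ n (fun x => ∫ t, h (x - t) ∂μ) := by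
  induction n with
  | zero =>
    intro F _ _ h hh hs
    rw [Nat.cast_zero, contDiff_zero]
    exact continuous_iff_continuousAt.2 fun x => (topB_hasFDerivAt μ hh hs x).continuousAt
  | succ n ih =>
    intro F _ _ h hh hs
    rw [Nat.cast_succ, contDiff_succ_iff_fderiv]
    refine ⟨fun x => (topB_hasFDerivAt μ hh hs x).differentiableAt, by simp, ?_⟩
    have h1 : fderiv ℝ (fun x => ∫ t, h (x - t) ∂μ) = fun x => ∫ t, fderiv ℝ h (x - t) ∂μ :=
      funext fun x => (topB_hasFDerivAt μ hh hs x).fderiv
    rw [h1]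
    exact ih (E →L[ℝ] F) (fderiv ℝ h) (hh.fderiv_right (by norm_num)) (hs.fderiv (𝕜 := ℝ))

private lemma topB_prim_nonneg {h : Eu (q + 2) → ℝ} (hh : ContDiff ℝ ∞ h)
    (hs : HasCompactSupport h) (T : ℝ) (hT : 0 ≤ T) :
    ∃ H : Eu (q + 2) → ℝ, ContDiff ℝ ∞ H ∧ HasCompactSupport H ∧
      ∀ x, fderiv ℝ H x (ee q 0) = h x - h (x - T • ee q 0) := by
  set e := ee q 0 with he
  have hmeas : Measurable fun s : ℝ => s • e := (measurable_id.smul_const e)
  set μ : Measure (Eu (q + 2)) := (volume.restrict (Icc 0 T)).map (fun s : ℝ => s • e) with hμ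
  have : IsFiniteMeasure μ := by rw [hμ]; infer_instance
  have hint : ∀ {F : Type} [NormedAddCommGroup F] [NormedSpace ℝ F] (f : Eu (q + 2) → F)
      (hf : Continuous f) (x : Eu (q + 2)), ∫ t, f (x - t) ∂μ = ∫ s in Icc 0 T, f (x - s • e) := by
    intro F _ _ f hf x
    rw [hμ, integral_map hmeas.aemeasurable]
    exact (hf.comp (continuous_const.sub continuous_id)).aestronglyMeasurable
  refine ⟨fun x => ∫ t, h (x - t) ∂μ, ?_, ?_, ?_⟩
  · rw [contDiff_infty]
    exact fun n => topB_contDiff μ n ℝ h hh hs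
  · have hK : IsCompact ((fun p : Eu (q + 2) × ℝ => p.1 + p.2 • e) '' (tsupport h ×ˢ Icc 0 T)) :=
      (hs.isCompact.prod isCompact_Icc).image (by fun_prop)
    refine HasCompactSupport.intro hK fun x hx => ?_
    rw [hint h hh.continuous]
    refine setIntegral_eq_zero_of_forall_eq_zero fun s hsT => ?_
    by_contra hne
    apply hx
    exact ⟨(x - s • e, s), ⟨subset_tsupport h hne, hsT⟩, by simp⟩
  · intro x
    have hc' : Continuous (fderiv ℝ h) :=
      hh.continuous_fderiv (by simp)
    rw [(topB_hasFDerivAt μ hh hs x).fderiv]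
    have hI : Integrable (fun t => fderiv ℝ h (x - t)) μ := by
      obtain ⟨C, hC⟩ := hc'.bounded_above_of_compact_support (hs.fderiv (𝕜 := ℝ))
      exact Integrable.mono' (integrable_const C)
        (hc'.comp (continuous_const.sub continuous_id)).aestronglyMeasurable
        (Eventually.of_forall fun t => hC _)
    rw [ContinuousLinearMap.integral_apply hI, hint (fun y => fderiv ℝ h y e)
      (hc'.clm_apply continuous_const) x, integral_Icc_eq_integral_Ioc,
      ← intervalIntegral.integral_of_le hT]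
    have hder : ∀ s ∈ uIcc 0 T, HasDerivAt (fun s : ℝ => -h (x - s • e))
        (fderiv ℝ h (x - s • e) e) s := by
      intro s _
      have h1 : HasFDerivAt h (fderiv ℝ h (x - s • e)) (x - s • e) :=
        (hh.differentiable (by simp)).differentiableAt.hasFDerivAt
      have h2 : HasDerivAt (fun s : ℝ => x - s • e) (-e) s := by
        simpa using ((hasDerivAt_id s).smul_const e).const_sub x
      have h3 : HasDerivAt (fun s : ℝ => -h (x - s • e)) (-(fderiv ℝ h (x - s • e) (-e))) s :=
        (h1.comp_hasDerivAt s h2).neg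
      rwa [map_neg, neg_neg] at h3
    rw [intervalIntegral.integral_eq_sub_of_hasDerivAt hder]
    · simp; ring
    · exact Continuous.intervalIntegrable (by fun_prop) _ _

/-- Smooth compactly supported primitives: `h - h(· - T e_0)` is the derivative in the direction
`e_0` of a smooth compactly supported function. -/
theorem exists_primitive {h : Eu (q + 2) → ℝ} (hh : ContDiff ℝ ∞ h) (hs : HasCompactSupport h)
    (T : ℝ) : ∃ H : Eu (q + 2) → ℝ, ContDiff ℝ ∞ H ∧ HasCompactSupport H ∧
      ∀ x, fderiv ℝ H x (ee q 0) = h x - h (x - T • ee q 0) := by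
  rcases le_total 0 T with hT | hT
  · exact topB_prim_nonneg hh hs T hT
  · obtain ⟨H, h1, h2, h3⟩ := topB_prim_nonneg hh hs (-T) (by linarith)
    refine ⟨fun x => -H (x - T • ee q 0), ?_, ?_, ?_⟩
    · exact (h1.comp (contDiff_id.sub contDiff_const)).neg
    · have : HasCompactSupport (fun x => H (x - T • ee q 0)) :=
        h2.comp_homeomorph (Homeomorph.subRight (T • ee q 0))
      exact this.neg
    · intro x
      have h4 : HasFDerivAt (fun x => H (x - T • ee q 0)) (fderiv ℝ H (x - T • ee q 0)) x := by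
        have h5 : HasFDerivAt H (fderiv ℝ H (x - T • ee q 0)) (x - T • ee q 0) :=
          (h1.differentiable (by simp)).differentiableAt.hasFDerivAt
        simpa [Function.comp_def] using h5.comp x ((hasFDerivAt_id x).sub_const (T • ee q 0))
      have h6 : HasFDerivAt (fun x => -H (x - T • ee q 0)) (-fderiv ℝ H (x - T • ee q 0)) x := h4.neg
      rw [h6.fderiv]
      show -(fderiv ℝ H (x - T • ee q 0) (ee q 0)) = _
      rw [h3]
      have : x - T • ee q 0 - -T • ee q 0 = x := by
        rw [neg_smul]; abel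
      rw [this]
      ring

/-- The test form `h volF`. -/
private noncomputable def topB_form (h : Eu (q + 2) → ℝ) (hh : ContDiff ℝ ∞ h)
    (hs : HasCompactSupport h) : TestForm (q + 2) (q + 2) :=
  ⟨fun x => h x • volF q, by
    refine ⟨hh.smul contDiff_const, ?_⟩
    refine HasCompactSupport.intro hs fun x hx => ?_
    have : h x = 0 := image_eq_zero_of_notMem_tsupport hx
    simp [this]⟩

private lemma topB_translate (N : Cur (q + 2) (q + 2))
    (hcyc : ∀ η : TestForm (q + 2) (q + 1), N (dTest η) = 0) {h : Eu (q + 2) → ℝ}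
    (hh : ContDiff ℝ ∞ h) (hs : HasCompactSupport h) (T : ℝ) (β : TestForm (q + 2) (q + 2))
    (hβ : ∀ x, (β : Eu (q + 2) → Cov (q + 2) (q + 2)) x = h (x - T • ee q 0) • volF q) :
    N β = N (topB_form h hh hs) := by
  obtain ⟨H, h1, h2, h3⟩ := exists_primitive hh hs T
  let r : Fin (q + 1) → (Eu (q + 2) →L[ℝ] ℝ) := fun i => dxx i.succ
  let η : TestForm (q + 2) (q + 1) := ⟨fun x => H x • wedgeC r, by
    refine ⟨h1.smul contDiff_const, ?_⟩
    refine HasCompactSupport.intro h2 fun x hx => ?_
    have : H x = 0 := image_eq_zero_of_notMem_tsupport hx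
    simp [this]⟩
  have hη : ∀ x, (dTest η : Eu (q + 2) → Cov (q + 2) (q + 2)) x =
      (h x - h (x - T • ee q 0)) • volF q := by
    intro x
    have e1 : (dTest η : Eu (q + 2) → Cov (q + 2) (q + 2)) x =
        extDeriv (fun y => H y • wedgeC r) x := rfl
    rw [e1, extDeriv_smul_wedgeC (h1.contDiffAt.differentiableAt (by simp)), wedgeC_cons_sum,
      Fin.sum_univ_succ]
    have e2 : ∑ i : Fin (q + 1), (fderiv ℝ H x) (EuclideanSpace.single i.succ (1 : ℝ)) •
        wedgeC (Fin.cons (dxx i.succ) r : Fin (q + 2) → (Eu (q + 2) →L[ℝ] ℝ)) = 0 := by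
      refine Finset.sum_eq_zero fun i _ => ?_
      have : wedgeC (Fin.cons (dxx i.succ) r : Fin (q + 2) → (Eu (q + 2) →L[ℝ] ℝ)) = 0 :=
        wedgeC_cons_eq_zero r i
      rw [this, smul_zero]
    rw [e2, add_zero]
    have e3 : (fderiv ℝ H x) (EuclideanSpace.single 0 (1 : ℝ)) = h x - h (x - T • ee q 0) := h3 x
    have e4 : (Fin.cons (dxx 0) r : Fin (q + 2) → (Eu (q + 2) →L[ℝ] ℝ)) = fun i => dxx i := by
      funext i
      refine Fin.cases rfl (fun j => rfl) i
    rw [e3, e4]
    rfl
  have hsub : topB_form h hh hs - β = dTest η := by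
    apply Subtype.ext
    funext x
    rw [hη x]
    show h x • volF q - (β : Eu (q + 2) → Cov (q + 2) (q + 2)) x = _
    rw [hβ x]
    exact (sub_smul _ _ _).symm
  have h5 : N (topB_form h hh hs - β) = 0 := by
    rw [hsub]
    exact hcyc η
  have h6 : N (topB_form h hh hs - β) = N (topB_form h hh hs) - N β := map_sub N _ _
  rw [h6] at h5
  linarith

/-- A top-dimensional cycle of finite mass vanishes. -/
theorem top_cycle_zero (N : Cur (q + 2) (q + 2)) (hmass : massOn N univ < ⊤)
    (hcyc : ∀ η : TestForm (q + 2) (q + 1), N (dTest η) = 0) {h : Eu (q + 2) → ℝ}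
    (hh : ContDiff ℝ ∞ h) (hs : HasCompactSupport h) (α : TestForm (q + 2) (q + 2))
    (hα : ∀ x, (α : Eu (q + 2) → Cov (q + 2) (q + 2)) x = h x • volF q) : N α = 0 := by
  obtain ⟨C, hC⟩ := hh.continuous.bounded_above_of_compact_support hs
  have hC0 : 0 ≤ C := (norm_nonneg _).trans (hC 0)
  -- support in a ball
  obtain ⟨R, hR⟩ := (hs.isCompact.isBounded).subset_closedBall (0 : Eu (q + 2))
  have hR' : ∀ x, h x ≠ 0 → ‖x‖ ≤ |R| := by
    intro x hx
    have := hR (subset_tsupport h hx)
    rw [mem_closedBall_zero_iff] at this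
    exact this.trans (le_abs_self R)
  set T : ℝ := 2 * |R| + 1 with hT
  have he1 : ‖ee q 0‖ = 1 := by
    rw [ee]; simp
  -- the translates
  let hi : ℕ → Eu (q + 2) → ℝ := fun i x => h (x - ((i : ℝ) * T) • ee q 0)
  have hi1 : ∀ i, ContDiff ℝ ∞ (hi i) := fun i => hh.comp (contDiff_id.sub contDiff_const)
  have hi2 : ∀ i, HasCompactSupport (hi i) := fun i =>
    hs.comp_homeomorph (Homeomorph.subRight (((i : ℝ) * T) • ee q 0))
  have hNi : ∀ i, N (topB_form (hi i) (hi1 i) (hi2 i)) = N α := by
    intro i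
    rw [topB_translate N hcyc hh hs ((i : ℝ) * T) _ (fun x => rfl)]
    congr 1
    apply Subtype.ext
    funext x
    rw [hα x]
    rfl
  have hdisj : ∀ (x : Eu (q + 2)) (i j : ℕ), hi i x ≠ 0 → hi j x ≠ 0 → i = j := by
    intro x i j h1 h2
    have h3 := hR' _ h1
    have h4 := hR' _ h2
    by_contra hij
    have h5 : ‖(x - ((i : ℝ) * T) • ee q 0) - (x - ((j : ℝ) * T) • ee q 0)‖ ≤ 2 * |R| :=
      (norm_sub_le _ _).trans (by linarith)
    have h6 : (x - ((i : ℝ) * T) • ee q 0) - (x - ((j : ℝ) * T) • ee q 0) =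
        (((j : ℝ) - i) * T) • ee q 0 := by
      rw [sub_mul, sub_smul]; abel
    rw [h6, norm_smul, he1, mul_one, norm_mul, Real.norm_eq_abs, Real.norm_eq_abs] at h5
    have h7 : (1 : ℝ) ≤ |(j : ℝ) - i| := by
      have h8 : (1 : ℤ) ≤ |(j : ℤ) - i| := Int.one_le_abs (by omega)
      exact_mod_cast h8
    have hTpos : 0 < T := by positivity
    rw [abs_of_pos hTpos] at h5
    nlinarith
  have key : ∀ M : ℕ, (M : ℝ) * |N α| ≤
      ((C + 1) * ((q + 2).factorial : ℝ)) * (massOn N univ).toReal := by
    intro M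
    set β : TestForm (q + 2) (q + 2) :=
      ∑ i ∈ Finset.range M, topB_form (hi i) (hi1 i) (hi2 i) with hβ
    have h1 : N β = M * N α := by
      rw [hβ, map_sum, Finset.sum_congr rfl fun i _ => hNi i, Finset.sum_const, Finset.card_range,
        nsmul_eq_mul]
    have hβx : ∀ x, (β : Eu (q + 2) → Cov (q + 2) (q + 2)) x =
        (∑ i ∈ Finset.range M, hi i x) • volF q := by
      intro x
      rw [hβ, AddSubmonoidClass.coe_finsetSum, Finset.sum_apply, Finset.sum_smul]
      rfl
    have hsum : ∀ x, |∑ i ∈ Finset.range M, hi i x| ≤ C := by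
      intro x
      by_cases hex : ∃ i ∈ Finset.range M, hi i x ≠ 0
      · obtain ⟨i, hiM, hne⟩ := hex
        rw [Finset.sum_eq_single_of_mem i hiM]
        · exact hC _
        · intro j _ hji
          by_contra h0
          exact hji (hdisj x j i h0 hne)
      · push Not at hex
        rw [Finset.sum_eq_zero hex, abs_zero]
        exact hC0
    have h2 := abs_le_massOn N univ β (subset_univ _) ((C + 1) * ((q + 2).factorial : ℝ))
      (by positivity) (fun x => by
        rw [hβx x, norm_smul, Real.norm_eq_abs]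
        exact mul_le_mul ((hsum x).trans (by linarith)) (norm_wedgeC_le fun i => i)
          (norm_nonneg _) (by linarith)) hmass.ne
    rw [h1, abs_mul, Nat.abs_cast] at h2
    exact h2
  by_contra hne
  have hpos : 0 < |N α| := abs_pos.2 hne
  obtain ⟨M, hM⟩ := exists_nat_gt
    (((C + 1) * ((q + 2).factorial : ℝ)) * (massOn N univ).toReal / |N α|)
  rw [div_lt_iff₀ hpos] at hM
  exact absurd (key M) (not_le.2 hM)

/-- In top dimension the decomposability bundle is trivial. -/
theorem top_bundle (μ : Measure (Eu (q + 2))) [IsFiniteMeasure μ] (x : Eu (q + 2))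
    (hx : ∀ r : ℝ, 0 < r → 0 < μ (Metric.ball x r)) (v : KVec (q + 2) (q + 2))
    (hv : v ∈ Vk (q + 1) μ x) : v (volF q) = 0 := by
  obtain ⟨N, hN1, hN2, hN3⟩ := hv
  set R : ℝ := ((q + 2).factorial : ℝ) with hR
  have hRpos : 0 < R := by positivity
  have claim : ∀ r : ℝ, 0 < r → ENNReal.ofReal |v (volF q)| * (μ (Metric.ball x r) / 2)
      ≤ ENNReal.ofReal R * massOn (N - vecCur v μ) (Metric.ball x r) := by
    intro r hr
    by_cases hfin : massOn (N - vecCur v μ) (Metric.ball x r) = ⊤
    · rw [hfin, ENNReal.mul_top (by simpa using hRpos)]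
      exact le_top
    have hhalf : μ (Metric.ball x r) / 2 < μ (Metric.ball x r) :=
      ENNReal.half_lt_self (hx r hr).ne' (measure_ne_top μ _)
    obtain ⟨K, hKU, hKc, hKm⟩ := Metric.isOpen_ball.exists_lt_isCompact hhalf
    -- a smaller ball that contains `K`
    obtain ⟨s, hs0, hsr, hKs⟩ : ∃ s : ℝ, 0 < s ∧ s < r ∧ K ⊆ Metric.closedBall x s := by
      rcases K.eq_empty_or_nonempty with hKe | hKne
      · exact ⟨r / 2, by linarith, by linarith, by rw [hKe]; exact empty_subset _⟩
      · obtain ⟨y, hy, hmax⟩ := hKc.exists_isMaxOn hKne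
          (continuous_id.dist continuous_const).continuousOn (f := fun y => dist y x)
        refine ⟨max (dist y x) (r / 2), lt_max_of_lt_right (by linarith),
          max_lt (hKU hy) (by linarith), fun z hz => ?_⟩
        exact Metric.mem_closedBall.mpr ((hmax hz).trans (le_max_left _ _))
    let f : ContDiffBump x := ⟨s, (s + r) / 2, hs0, by linarith⟩
    have hfts : tsupport (f : Eu (q + 2) → ℝ) ⊆ Metric.ball x r := by
      rw [f.tsupport_eq]
      exact Metric.closedBall_subset_ball (by show (s + r) / 2 < r; linarith)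
    set β := topB_form (f : Eu (q + 2) → ℝ) f.contDiff f.hasCompactSupport with hβ
    have hβN : N β = 0 := top_cycle_zero N hN1 hN2 f.contDiff f.hasCompactSupport β (fun y => rfl)
    have hvec : vecCur v μ β = v (volF q) * ∫ y, f y ∂μ := by
      show ∫ y, v ((f y) • volF q) ∂μ = _
      rw [← integral_const_mul]
      refine integral_congr_ae (Eventually.of_forall fun y => ?_)
      show v ((f y) • volF q) = v (volF q) * f y
      rw [map_smul, smul_eq_mul, mul_comm]
    have hf0 : 0 ≤ ∫ y, f y ∂μ := integral_nonneg fun y => f.nonneg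
    have hlim : |v (volF q)| * ∫ y, f y ∂μ ≤
        R * (massOn (N - vecCur v μ) (Metric.ball x r)).toReal := by
      have h1 := abs_le_massOn (N - vecCur v μ) (Metric.ball x r) β ?_ R hRpos ?_ hfin
      · rw [LinearMap.sub_apply, hβN, zero_sub, abs_neg, hvec, abs_mul, abs_of_nonneg hf0] at h1
        exact h1
      · refine (closure_mono ?_).trans hfts
        intro y hy
        rw [Function.mem_support] at hy ⊢
        intro h0
        apply hy
        show (f y) • volF q = 0
        rw [h0, zero_smul]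
      · intro y
        show ‖(f y) • volF q‖ ≤ R
        rw [norm_smul, Real.norm_eq_abs, abs_of_nonneg f.nonneg]
        calc f y * ‖volF q‖ ≤ 1 * R :=
              mul_le_mul f.le_one (norm_wedgeC_le fun i => i) (norm_nonneg _) zero_le_one
          _ = R := one_mul R
    have hKint : μ.real K ≤ ∫ y, f y ∂μ := by
      have hint : Integrable (f : Eu (q + 2) → ℝ) μ :=
        (f.contDiff (n := 0)).continuous.integrable_of_hasCompactSupport f.hasCompactSupport
      calc μ.real K = ∫ y, K.indicator (fun _ => (1 : ℝ)) y ∂μ := by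
            rw [integral_indicator_const _ hKc.measurableSet, smul_eq_mul, mul_one]
        _ ≤ ∫ y, f y ∂μ := by
            refine integral_mono ((integrable_const _).indicator hKc.measurableSet) hint
              fun y => ?_
            by_cases hy : y ∈ K
            · rw [indicator_of_mem hy]
              exact (f.one_of_mem_closedBall (hKs hy)).ge
            · rw [indicator_of_notMem hy]
              exact f.nonneg
    calc ENNReal.ofReal |v (volF q)| * (μ (Metric.ball x r) / 2)
        ≤ ENNReal.ofReal |v (volF q)| * μ K := by gcongr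
      _ = ENNReal.ofReal (|v (volF q)| * μ.real K) := by
          rw [ENNReal.ofReal_mul (abs_nonneg _), Measure.real, ENNReal.ofReal_toReal
            (measure_ne_top μ _)]
      _ ≤ ENNReal.ofReal (|v (volF q)| * ∫ y, f y ∂μ) := by
          apply ENNReal.ofReal_le_ofReal
          exact mul_le_mul_of_nonneg_left hKint (abs_nonneg _)
      _ ≤ ENNReal.ofReal (R * (massOn (N - vecCur v μ) (Metric.ball x r)).toReal) :=
          ENNReal.ofReal_le_ofReal hlim
      _ = _ := by rw [ENNReal.ofReal_mul hRpos.le, ENNReal.ofReal_toReal hfin]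
  have hle : ∀ r : ℝ, 0 < r → ENNReal.ofReal |v (volF q)| / 2
      ≤ ENNReal.ofReal R * (massOn (N - vecCur v μ) (Metric.ball x r)
        / μ (Metric.ball x r)) := by
    intro r hr
    have hb0 : μ (Metric.ball x r) ≠ 0 := (hx r hr).ne'
    have hbt : μ (Metric.ball x r) ≠ ⊤ := measure_ne_top μ _
    rw [← mul_div_assoc, ENNReal.le_div_iff_mul_le (Or.inl hb0) (Or.inl hbt)]
    refine le_trans (le_of_eq ?_) (claim r hr)
    rw [ENNReal.div_eq_inv_mul, ENNReal.div_eq_inv_mul]
    ring
  have hlim : Tendsto (fun r : ℝ => ENNReal.ofReal R * (massOn (N - vecCur v μ)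
      (Metric.ball x r) / μ (Metric.ball x r))) (𝓝[>] 0) (𝓝 (ENNReal.ofReal R * 0)) :=
    ENNReal.Tendsto.const_mul hN3 (Or.inr ENNReal.ofReal_ne_top)
  rw [mul_zero] at hlim
  have hz : ENNReal.ofReal |v (volF q)| / 2 ≤ 0 := by
    refine ge_of_tendsto hlim ?_
    filter_upwards [self_mem_nhdsWithin] with r hr
    exact hle r hr
  have hz2 : ENNReal.ofReal |v (volF q)| = 0 := by
    have := le_antisymm hz bot_le
    rw [ENNReal.div_eq_zero_iff] at this
    rcases this with h | h
    · exact h
    · exact absurd h (by norm_num)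
  have hz3 : |v (volF q)| ≤ 0 := ENNReal.ofReal_eq_zero.mp hz2
  exact abs_nonpos_iff.mp hz3

end Pool.Agent.H28.Lusin
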