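import Pool.Agent.H28.Lusin.Cur

open MeasureTheory Set Filter
open scoped ContDiff Topology ENNReal

namespace Pool.Agent.H28.Lusin

/-- The volume form of `ℝ^(q+2)`. -/
noncomputable def volF (q : ℕ) : Cov (q + 2) (q + 2) := wedgeC fun i : Fin (q + 2) => dxx i

/-- Coordinate vectors. -/
noncomputable def ee (q : ℕ) (r : Fin (q + 2)) : Eu (q + 2) := EuclideanSpace.single r (1 : ℝ)

/-- The closed unit cube. -/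
def Qn (q : ℕ) : Set (Eu (q + 2)) := {x | ∀ i, x i ∈ Icc (0 : ℝ) 1}

/-- Second derivative of `U` in the directions `a` and `b`. -/
noncomputable def dd {q : ℕ} (U : Eu (q + 2) → ℝ) (a b x : Eu (q + 2)) : ℝ :=
  fderiv ℝ (fun y => fderiv ℝ U y b) x a

/-- The state of the oscillation construction after `k` steps. -/
structure OscP (q : ℕ) (χ : Eu (q + 2) → ℝ) (ε τ : ℝ) (k : ℕ) (I S : ℂ)
    (U M F : Eu (q + 2) → ℝ) (g : Eu (q + 2) → ℂ) : Prop where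
  hU : ContDiff ℝ ∞ U
  hM : ContDiff ℝ ∞ M
  hF : Continuous F
  hg : Continuous g
  hMpos : ∀ x, 0 ≤ M x
  hU2 : ∀ (x : Eu (q + 2)) (r : Fin (q + 2)), 2 ≤ (r : ℕ) → fderiv ℝ U x (ee q r) = 0
  hM2 : ∀ (x : Eu (q + 2)) (r : Fin (q + 2)), 2 ≤ (r : ℕ) → fderiv ℝ M x (ee q r) = 0
  hgrad : ∀ x ∈ Qn q, |fderiv ℝ U x (ee q 0)| ≤ τ ∧ |fderiv ℝ U x (ee q 1)| ≤ τ
  hsub : ∀ x ∈ Qn q, |dd U (ee q 0) (ee q 0) x - dd U (ee q 1) (ee q 1) x - (M x - 1)| ≤ τ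
  hadd : ∀ x ∈ Qn q, |dd U (ee q 0) (ee q 0) x + dd U (ee q 1) (ee q 1) x - F x| ≤ τ
  hmix : ∀ x ∈ Qn q, |dd U (ee q 0) (ee q 1) x| ≤ τ
  hMint : ∫ x in Qn q, M x ≤ (volume : Measure (Eu (q + 2))).real (Qn q) + τ
  hI : ‖(∫ x in Qn q, ((χ x * M x : ℝ) : ℂ) * g x) - I‖ ≤ τ
  hS : ‖(∫ x in Qn q, ((χ x * F x : ℝ) : ℂ) * g x) - S‖ ≤ τ
  hgb : ∀ x, ‖g x‖ ^ 2 ≤ (1 + ε ^ 2) ^ k

/-- Properties of the function produced by the oscillation construction. -/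
structure OscU (q : ℕ) (U : Eu (q + 2) → ℝ) : Prop where
  hU : ContDiff ℝ ∞ U
  hU2 : ∀ (x : Eu (q + 2)) (r : Fin (q + 2)), 2 ≤ (r : ℕ) → fderiv ℝ U x (ee q r) = 0
  hgrad : ∀ x ∈ Qn q, |fderiv ℝ U x (ee q 0)| ≤ 1 ∧ |fderiv ℝ U x (ee q 1)| ≤ 1
  hsub : ∫ x in Qn q, |dd U (ee q 0) (ee q 0) x - dd U (ee q 1) (ee q 1) x|
    ≤ 2 * (volume : Measure (Eu (q + 2))).real (Qn q) + 1
  hmix : ∀ x ∈ Qn q, |dd U (ee q 0) (ee q 1) x| ≤ 1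

end Pool.Agent.H28.Lusin
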