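import Pool.Agent.H28.Lusin.TopA
import Pool.Agent.H28.Lusin.TopB

open MeasureTheory Set Real Filter
open scoped ContDiff Topology ENNReal

namespace Pool.Agent.H28.Lusin

theorem norm_volF_le (q : ℕ) : ‖volF q‖ ≤ ((q + 2).factorial : ℝ) :=
  norm_wedgeC_le (k := q + 2) fun i => i

/-- The Lusin property fails for `k = n = q + 2`. -/
theorem not_lusin_top (q : ℕ) : ¬ LusinProperty (q + 2) (q + 1) := by
  rintro ⟨C, hC⟩
  set B : ℝ := ((q + 2).factorial : ℝ) with hB
  have hB0 : 0 ≤ B := by positivity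
  set C' : ℝ := max C 0 * B with hC'
  have hC'0 : 0 ≤ C' := by positivity
  obtain ⟨μ, f, ε0, hμ, hfm, hf1, hε0, hA⟩ := top_afin q C' hC'0
  set α : Eu (q + 2) → Cov (q + 2) (q + 2) := fun x => f x • volF q with hα
  have hαn : ∀ x, ‖α x‖ ≤ B := by
    intro x
    rw [hα]
    simp only
    rw [norm_smul]
    calc ‖f x‖ * ‖volF q‖ ≤ 1 * B := by
          gcongr
          · exact hf1 x
          · exact norm_volF_le q
      _ = B := one_mul _
  have hαm : ∀ v : Fin (q + 1 + 1) → Eu (q + 2), Measurable fun x => α x v := by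
    intro v
    exact hfm.mul_const (volF q v)
  have hess : eLpNormEssSup α (μ.restrict univ) ≤ ENNReal.ofReal B :=
    eLpNormEssSup_le_of_ae_bound (Filter.Eventually.of_forall hαn)
  have hbundle : ∀ᵐ x ∂(μ.restrict univ), ∀ τ ∈ Vk (q + 1) μ x, τ (α x) = 0 := by
    rw [Measure.restrict_univ]
    have hsupp : μ.support ∈ ae μ := Measure.support_mem_ae
    filter_upwards [hsupp] with x hx τ hτ
    have hx' : ∀ r : ℝ, 0 < r → 0 < μ (Metric.ball x r) := fun r hr =>
      (Measure.mem_support_iff_forall x).1 hx _ (Metric.ball_mem_nhds x hr)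
    have h0 := top_bundle μ x hx' τ hτ
    rw [hα]
    simp only
    rw [map_smul, h0, smul_zero]
  obtain ⟨φ, K, hφ, -, hKc, hKμ, hKd, hKL⟩ := hC μ univ isOpen_univ (measure_lt_top _ _) α hαm
    hbundle ε0 hε0
  refine hA φ K (contDiffOn_univ.1 hφ) hKc.isClosed ?_ hKd ?_
  · have h1 : (univ \ K : Set (Eu (q + 2))) = Kᶜ := by rw [compl_eq_univ_sdiff]
    rw [h1] at hKμ
    rw [measureReal_def]
    exact (ENNReal.toReal_lt_of_lt_ofReal hKμ)
  · intro I x y
    have h1 := hKL I x (mem_univ x) y (mem_univ y)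
    have h2 : edist (φ x fun i => EuclideanSpace.single (I i) (1 : ℝ))
            (φ y fun i => EuclideanSpace.single (I i) (1 : ℝ))
          ≤ ENNReal.ofReal (max C 0) * ENNReal.ofReal B * edist x y := by
      refine h1.trans ?_
      gcongr
      exact le_max_left _ _
    rw [edist_dist, edist_dist, ← ENNReal.ofReal_mul (by positivity),
      ← ENNReal.ofReal_mul (by positivity)] at h2
    have h3 := (ENNReal.ofReal_le_ofReal_iff (by positivity)).1 h2
    rw [Real.dist_eq, dist_eq_norm] at h3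
    exact h3

end Pool.Agent.H28.Lusin
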