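import Mathlib

open MeasureTheory Set Real intervalIntegral

namespace Pool.Agent.H28.Lusin

/-- `sin (2πX)`. -/
noncomputable def fa (X : ℝ) : ℝ := Real.sin (2 * π * X)

/-- `cos (2πX)`. -/
noncomputable def fc (X : ℝ) : ℝ := Real.cos (2 * π * X)

/-- `∂_X Θ`, where `Θ = arg (fa X + i fa Y) / 2π`. -/
noncomputable def thX (X Y : ℝ) : ℝ := -(fa Y * fc X) / (fa X ^ 2 + fa Y ^ 2)

/-- `∂_Y Θ`. -/
noncomputable def thY (X Y : ℝ) : ℝ := (fa X * fc Y) / (fa X ^ 2 + fa Y ^ 2)

/-- The smooth step used to build the test forms. -/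
noncomputable def lam (s : ℝ) : ℝ := Real.smoothTransition (2 * s)

/-- The Jacobian of `(Θ, lam (fc X * fc Y))`. -/
noncomputable def qt (X Y : ℝ) : ℝ :=
  deriv lam (fc X * fc Y) *
    (2 * π * ((fa Y ^ 2 * fc X ^ 2 + fa X ^ 2 * fc Y ^ 2) / (fa X ^ 2 + fa Y ^ 2)))

/-- Slope along horizontal lines. -/
noncomputable def sX (ε X Y : ℝ) : ℝ := if ε ≤ |fa Y| then thX X Y else 0

/-- Slope along vertical lines. -/
noncomputable def sY (ε X Y : ℝ) : ℝ := if ε ≤ |fa X| then thY X Y else 0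

theorem fa_sq_add (X : ℝ) : fa X ^ 2 + fc X ^ 2 = 1 := Real.sin_sq_add_cos_sq _

theorem abs_fa_le (X : ℝ) : |fa X| ≤ 1 := Real.abs_sin_le_one _

theorem abs_fc_le (X : ℝ) : |fc X| ≤ 1 := Real.abs_cos_le_one _

theorem fa_add_one (X : ℝ) : fa (X + 1) = fa X := by
  unfold fa
  rw [show 2 * π * (X + 1) = 2 * π * X + 2 * π by ring, Real.sin_add_two_pi]

theorem fc_add_one (X : ℝ) : fc (X + 1) = fc X := by
  unfold fc
  rw [show 2 * π * (X + 1) = 2 * π * X + 2 * π by ring, Real.cos_add_two_pi]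

theorem continuous_fa : Continuous fa := by unfold fa; fun_prop

theorem continuous_fc : Continuous fc := by unfold fc; fun_prop

theorem hasDerivAt_fa (X : ℝ) : HasDerivAt fa (2 * π * fc X) X := by
  have h := ((hasDerivAt_id X).const_mul (2 * π)).sin
  simp only [id, mul_one] at h
  unfold fa fc
  convert h using 1
  ring

theorem hasDerivAt_fc (X : ℝ) : HasDerivAt fc (-(2 * π * fa X)) X := by
  have h := ((hasDerivAt_id X).const_mul (2 * π)).cos
  simp only [id, mul_one] at h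
  unfold fa fc
  convert h using 1
  ring

theorem thY_eq (X Y : ℝ) : thY X Y = -thX Y X := by
  unfold thX thY
  rw [add_comm (fa Y ^ 2)]
  ring

theorem sY_eq (ε X Y : ℝ) : sY ε X Y = -sX ε Y X := by
  unfold sX sY
  split_ifs
  · exact thY_eq X Y
  · simp

theorem contDiff_lam {n : ℕ∞} : ContDiff ℝ n lam := by
  unfold lam
  exact Real.smoothTransition.contDiff.comp (contDiff_const.mul contDiff_id)

theorem continuous_deriv_lam : Continuous (deriv lam) :=
  (contDiff_lam (n := 1)).continuous_deriv (by norm_num)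

theorem deriv_lam_nonneg (s : ℝ) : 0 ≤ deriv lam s := by
  have : Monotone lam := fun x y h => Real.smoothTransition.monotone (by linarith)
  exact this.deriv_nonneg

theorem deriv_lam_of_half_lt {s : ℝ} (h : 1 / 2 < s) : deriv lam s = 0 := by
  have : lam =ᶠ[nhds s] fun _ => 1 := by
    filter_upwards [Ioi_mem_nhds h] with t ht
    exact Real.smoothTransition.one_of_one_le (by have : 1 / 2 < t := ht; linarith)
  rw [this.deriv_eq, deriv_const]

theorem deriv_lam_of_neg {s : ℝ} (h : s < 0) : deriv lam s = 0 := by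
  have : lam =ᶠ[nhds s] fun _ => 0 := by
    filter_upwards [Iio_mem_nhds h] with t ht
    exact Real.smoothTransition.zero_of_nonpos (by have : t < 0 := ht; linarith)
  rw [this.deriv_eq, deriv_const]

/-- Where `deriv lam` does not vanish, `fa X ^ 2 + fa Y ^ 2` is bounded below. -/
theorem sq_ge_of_deriv_ne {X Y : ℝ} (h : deriv lam (fc X * fc Y) ≠ 0) :
    3 / 4 ≤ fa X ^ 2 + fa Y ^ 2 := by
  have h1 : fc X * fc Y ≤ 1 / 2 := by
    by_contra hc
    exact h (deriv_lam_of_half_lt (not_le.1 hc))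
  have h2 : 0 ≤ fc X * fc Y := by
    by_contra hc
    exact h (deriv_lam_of_neg (not_le.1 hc))
  have h3 : (fc X * fc Y) ^ 2 ≤ 1 / 4 := by nlinarith
  have h4 : (fc X * fc Y) ^ 2 = (1 - fa X ^ 2) * (1 - fa Y ^ 2) := by
    have e1 : 1 - fa X ^ 2 = fc X ^ 2 := by linarith [fa_sq_add X]
    have e2 : 1 - fa Y ^ 2 = fc Y ^ 2 := by linarith [fa_sq_add Y]
    rw [e1, e2]; ring
  nlinarith [sq_nonneg (fa X * fa Y)]

/-- A bound for `deriv lam` on `[-1,1]`. -/
theorem exists_bound_deriv_lam : ∃ L : ℝ, 0 < L ∧ ∀ s ∈ Icc (-1 : ℝ) 1, deriv lam s ≤ L := by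
  obtain ⟨L, hL⟩ := isCompact_Icc.exists_bound_of_continuousOn
    (continuous_deriv_lam.continuousOn (s := Icc (-1 : ℝ) 1))
  refine ⟨max L 1, lt_max_of_lt_right one_pos, fun s hs => ?_⟩
  exact (le_abs_self _).trans ((hL s hs).trans (le_max_left _ _))

/-- The bound for `deriv lam`. -/
noncomputable def lamB : ℝ := exists_bound_deriv_lam.choose

theorem lamB_pos : 0 < lamB := exists_bound_deriv_lam.choose_spec.1

theorem deriv_lam_le (X Y : ℝ) : deriv lam (fc X * fc Y) ≤ lamB := by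
  apply exists_bound_deriv_lam.choose_spec.2
  rw [mem_Icc, ← abs_le, abs_mul]
  exact mul_le_one₀ (abs_fc_le X) (abs_nonneg _) (abs_fc_le Y)

theorem frac_mem (X Y : ℝ) :
    (fa Y ^ 2 * fc X ^ 2 + fa X ^ 2 * fc Y ^ 2) / (fa X ^ 2 + fa Y ^ 2) ∈ Icc (0 : ℝ) 1 := by
  constructor
  · positivity
  · apply div_le_one_of_le₀ _ (by positivity)
    nlinarith [fa_sq_add X, fa_sq_add Y, mul_nonneg (sq_nonneg (fa X)) (sq_nonneg (fa Y))]

theorem qt_nonneg (X Y : ℝ) : 0 ≤ qt X Y :=
  mul_nonneg (deriv_lam_nonneg _) (mul_nonneg (by positivity) (frac_mem X Y).1)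

theorem qt_le (X Y : ℝ) : qt X Y ≤ lamB * (2 * π) := by
  unfold qt
  apply mul_le_mul (deriv_lam_le X Y) _ (mul_nonneg (by positivity) (frac_mem X Y).1) lamB_pos.le
  calc _ ≤ 2 * π * 1 := by gcongr; exact (frac_mem X Y).2
    _ = 2 * π := mul_one _

theorem abs_thX_le (X Y : ℝ) : |fa Y| * |thX X Y| ≤ 1 := by
  unfold thX
  rw [abs_div, abs_neg, abs_mul, abs_of_nonneg (by positivity : 0 ≤ fa X ^ 2 + fa Y ^ 2),
    ← mul_div_assoc]
  apply div_le_one_of_le₀ _ (by positivity)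
  have h1 : |fa Y| * (|fa Y| * |fc X|) ≤ |fa Y| * (|fa Y| * 1) := by
    gcongr; exact abs_fc_le X
  calc _ ≤ |fa Y| * (|fa Y| * 1) := h1
    _ = fa Y ^ 2 := by rw [mul_one, ← sq, sq_abs]
    _ ≤ _ := by nlinarith [sq_nonneg (fa X)]

theorem abs_sX_le {ε : ℝ} (hε : 0 < ε) (X Y : ℝ) : |sX ε X Y| ≤ 1 / ε := by
  unfold sX
  split_ifs with h
  · rw [le_div_iff₀ hε]
    calc |thX X Y| * ε ≤ |thX X Y| * |fa Y| := by gcongr
      _ = |fa Y| * |thX X Y| := mul_comm _ _
      _ ≤ 1 := abs_thX_le X Y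
  · rw [abs_zero]; positivity

theorem abs_sY_le {ε : ℝ} (hε : 0 < ε) (X Y : ℝ) : |sY ε X Y| ≤ 1 / ε := by
  rw [sY_eq, abs_neg]; exact abs_sX_le hε Y X

theorem measurable_fa : Measurable fa := continuous_fa.measurable

theorem measurable_fc : Measurable fc := continuous_fc.measurable

theorem measurable_thX : Measurable fun p : ℝ × ℝ => thX p.1 p.2 := by
  unfold thX
  have h1 : Measurable fun p : ℝ × ℝ => fa p.1 := measurable_fa.comp measurable_fst
  have h2 : Measurable fun p : ℝ × ℝ => fa p.2 := measurable_fa.comp measurable_snd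
  have h3 : Measurable fun p : ℝ × ℝ => fc p.1 := measurable_fc.comp measurable_fst
  exact ((h2.mul h3).neg).div ((h1.pow_const 2).add (h2.pow_const 2))

theorem measurable_sX (ε : ℝ) : Measurable fun p : ℝ × ℝ => sX ε p.1 p.2 := by
  unfold sX
  apply Measurable.ite _ measurable_thX measurable_const
  exact measurableSet_le measurable_const
    (measurable_fa.comp measurable_snd).abs

theorem measurable_sY (ε : ℝ) : Measurable fun p : ℝ × ℝ => sY ε p.1 p.2 := by
  have : (fun p : ℝ × ℝ => sY ε p.1 p.2) = fun p => -(fun q : ℝ × ℝ => sX ε q.1 q.2) (p.2, p.1) := by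
    funext p; exact sY_eq _ _ _
  rw [this]
  exact ((measurable_sX ε).comp measurable_swap).neg

theorem measurable_qt : Measurable fun p : ℝ × ℝ => qt p.1 p.2 := by
  unfold qt
  have h1 : Measurable fun p : ℝ × ℝ => fa p.1 := measurable_fa.comp measurable_fst
  have h2 : Measurable fun p : ℝ × ℝ => fa p.2 := measurable_fa.comp measurable_snd
  have h3 : Measurable fun p : ℝ × ℝ => fc p.1 := measurable_fc.comp measurable_fst
  have h4 : Measurable fun p : ℝ × ℝ => fc p.2 := measurable_fc.comp measurable_snd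
  apply (continuous_deriv_lam.measurable.comp (h3.mul h4)).mul
  exact ((((h2.pow_const 2).mul (h3.pow_const 2)).add ((h1.pow_const 2).mul (h4.pow_const 2))).div
    ((h1.pow_const 2).add (h2.pow_const 2))).const_mul _

/-! ### One-dimensional integrals -/

theorem sq_add_pos {X Y : ℝ} (hY : fa Y ≠ 0) : 0 < fa X ^ 2 + fa Y ^ 2 := by
  have : 0 < fa Y ^ 2 := by positivity
  nlinarith [sq_nonneg (fa X)]

theorem hasDerivAt_arctan_fa {Y : ℝ} (hY : fa Y ≠ 0) (X : ℝ) :
    HasDerivAt (fun X => Real.arctan (fa X / |fa Y|) / (2 * π))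
      (|fa Y| * fc X / (fa X ^ 2 + fa Y ^ 2)) X := by
  have hY' : |fa Y| ≠ 0 := abs_ne_zero.2 hY
  have h1 := (((hasDerivAt_fa X).div_const |fa Y|).arctan).div_const (2 * π)
  refine h1.congr_deriv ?_
  have h2 : fa Y ^ 2 = |fa Y| ^ 2 := (sq_abs _).symm
  have hpi : π ≠ 0 := Real.pi_ne_zero
  rw [h2]
  have h3 : fa X ^ 2 + |fa Y| ^ 2 ≠ 0 := by positivity
  have h4 : 1 + (fa X / |fa Y|) ^ 2 ≠ 0 := by positivity
  field_simp
  ring

theorem continuous_thX_left {Y : ℝ} (hY : fa Y ≠ 0) : Continuous fun X => thX X Y := by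
  unfold thX
  apply Continuous.div
  · exact (continuous_const.mul continuous_fc).neg
  · exact (continuous_fa.pow 2).add continuous_const
  · intro X; exact (sq_add_pos hY).ne'

theorem abs_thX_eq {X Y : ℝ} : |thX X Y| = |fa Y| * |fc X| / (fa X ^ 2 + fa Y ^ 2) := by
  unfold thX
  rw [abs_div, abs_neg, abs_mul, abs_of_nonneg (by positivity : 0 ≤ fa X ^ 2 + fa Y ^ 2)]

theorem fc_nonneg_of_mem {X : ℝ} (h : X ∈ Icc (-(1 / 4) : ℝ) (1 / 4)) : 0 ≤ fc X := by
  apply Real.cos_nonneg_of_mem_Icc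
  constructor <;> nlinarith [h.1, h.2, Real.pi_pos]

theorem fc_nonpos_of_mem {X : ℝ} (h : X ∈ Icc (1 / 4 : ℝ) (3 / 4)) : fc X ≤ 0 := by
  apply Real.cos_nonpos_of_pi_div_two_le_of_le
  · nlinarith [h.1, Real.pi_pos]
  · nlinarith [h.2, Real.pi_pos]

theorem thX_periodic (Y : ℝ) : Function.Periodic (fun X => thX X Y) 1 := by
  intro X
  simp only [thX, fa_add_one, fc_add_one]

theorem integral_abs_thX_le {Y : ℝ} (hY : fa Y ≠ 0) : ∫ X in (0 : ℝ)..1, |thX X Y| ≤ 1 := by
  have hper : Function.Periodic (fun X => |thX X Y|) 1 := fun X => by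
    exact congrArg abs (thX_periodic Y X)
  have h0 : ∫ X in (0 : ℝ)..1, |thX X Y| = ∫ X in (-(1 / 4) : ℝ)..(3 / 4), |thX X Y| := by
    have := hper.intervalIntegral_add_eq 0 (-(1 / 4))
    rw [zero_add] at this
    rw [this]
    norm_num
  have hcont : Continuous fun X => |thX X Y| := (continuous_thX_left hY).abs
  rw [h0, ← integral_add_adjacent_intervals (hcont.intervalIntegrable (-(1 / 4)) (1 / 4))
    (hcont.intervalIntegrable _ _)]
  have hpi := Real.pi_pos
  have hd := hasDerivAt_arctan_fa hY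
  have hcd : Continuous fun X => |fa Y| * fc X / (fa X ^ 2 + fa Y ^ 2) := by
    apply Continuous.div
    · exact continuous_const.mul continuous_fc
    · exact (continuous_fa.pow 2).add continuous_const
    · intro X; exact (sq_add_pos hY).ne'
  have h1 : ∫ X in (-(1 / 4) : ℝ)..(1 / 4), |thX X Y|
      = Real.arctan (fa (1 / 4) / |fa Y|) / (2 * π)
        - Real.arctan (fa (-(1 / 4)) / |fa Y|) / (2 * π) := by
    rw [← integral_eq_sub_of_hasDerivAt (fun x _ => hd x) (hcd.intervalIntegrable _ _)]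
    apply integral_congr
    intro X hX
    rw [uIcc_of_le (by norm_num)] at hX
    show |thX X Y| = _
    rw [abs_thX_eq, abs_of_nonneg (fc_nonneg_of_mem hX)]
  have h2 : ∫ X in (1 / 4 : ℝ)..(3 / 4), |thX X Y|
      = Real.arctan (fa (1 / 4) / |fa Y|) / (2 * π)
        - Real.arctan (fa (3 / 4) / |fa Y|) / (2 * π) := by
    have h3 := integral_eq_sub_of_hasDerivAt (a := 1 / 4) (b := 3 / 4) (fun x _ => hd x)
      (hcd.intervalIntegrable _ _)
    have h4 : ∫ X in (1 / 4 : ℝ)..(3 / 4), |thX X Y|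
        = ∫ X in (1 / 4 : ℝ)..(3 / 4), -(|fa Y| * fc X / (fa X ^ 2 + fa Y ^ 2)) := by
      apply integral_congr
      intro X hX
      rw [uIcc_of_le (by norm_num)] at hX
      show |thX X Y| = _
      rw [abs_thX_eq, abs_of_nonpos (fc_nonpos_of_mem hX)]
      ring
    rw [h4, intervalIntegral.integral_neg, h3]
    ring
  rw [h1, h2]
  have hat : ∀ t : ℝ, |Real.arctan t| ≤ π / 2 := fun t =>
    abs_le.2 ⟨by linarith [Real.neg_pi_div_two_lt_arctan t], (Real.arctan_lt_pi_div_two t).le⟩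
  have hb : ∀ t : ℝ, |Real.arctan t / (2 * π)| ≤ 1 / 4 := fun t => by
    rw [abs_div, abs_of_pos (by positivity : (0 : ℝ) < 2 * π), div_le_iff₀ (by positivity)]
    calc _ ≤ π / 2 := hat t
      _ = _ := by ring
  have e1 := abs_le.1 (hb (fa (1 / 4) / |fa Y|))
  have e2 := abs_le.1 (hb (fa (-(1 / 4)) / |fa Y|))
  have e3 := abs_le.1 (hb (fa (3 / 4) / |fa Y|))
  linarith [e1.1, e1.2, e2.1, e2.2, e3.1, e3.2]

theorem integral_thX_sq_le {Y : ℝ} (hY : fa Y ≠ 0) :
    ∫ X in (0 : ℝ)..1, thX X Y ^ 2 ≤ 1 / |fa Y| := by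
  have hY' : 0 < |fa Y| := abs_pos.2 hY
  have hc := continuous_thX_left hY
  calc ∫ X in (0 : ℝ)..1, thX X Y ^ 2 ≤ ∫ X in (0 : ℝ)..1, 1 / |fa Y| * |thX X Y| := by
        apply integral_mono_on zero_le_one ((hc.pow 2).intervalIntegrable _ _)
          ((continuous_const.mul hc.abs).intervalIntegrable _ _)
        intro X _
        show thX X Y ^ 2 ≤ 1 / |fa Y| * |thX X Y|
        rw [← sq_abs, sq]
        apply mul_le_mul_of_nonneg_right _ (abs_nonneg _)
        rw [le_div_iff₀ hY', mul_comm]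
        exact abs_thX_le X Y
    _ = 1 / |fa Y| * ∫ X in (0 : ℝ)..1, |thX X Y| := by rw [intervalIntegral.integral_const_mul]
    _ ≤ 1 / |fa Y| * 1 := by gcongr; exact integral_abs_thX_le hY
    _ = _ := mul_one _

theorem integral_thX_eq_zero {Y : ℝ} (hY : fa Y ≠ 0) : ∫ X in (0 : ℝ)..1, thX X Y = 0 := by
  have hd := hasDerivAt_arctan_fa hY
  have hcd : Continuous fun X => |fa Y| * fc X / (fa X ^ 2 + fa Y ^ 2) := by
    apply Continuous.div
    · exact continuous_const.mul continuous_fc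
    · exact (continuous_fa.pow 2).add continuous_const
    · intro X; exact (sq_add_pos hY).ne'
  have h3 := integral_eq_sub_of_hasDerivAt (a := 0) (b := 1) (fun x _ => hd x)
      (hcd.intervalIntegrable _ _)
  have h4 : fa 1 = fa 0 := by rw [← fa_add_one 0, zero_add]
  rw [h4, sub_self] at h3
  have h5 : (fun X => thX X Y) = fun X => (-(SignType.sign (fa Y) : ℝ)) *
      (|fa Y| * fc X / (fa X ^ 2 + fa Y ^ 2)) := by
    funext X
    unfold thX
    rcases lt_or_gt_of_ne hY with h | h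
    · rw [sign_neg h, abs_of_neg h]; simp
    · rw [sign_pos h, abs_of_pos h]; simp; ring
  rw [h5, intervalIntegral.integral_const_mul, h3, mul_zero]

end Pool.Agent.H28.Lusin
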