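import Pool.Agent.H28.Lusin.Torus

open MeasureTheory Set Real

namespace Pool.Agent.H28.Lusin

/-- Uniform measure on the unit square. -/
noncomputable def Tor : Measure (ℝ × ℝ) :=
  (volume.restrict (Ioc (0 : ℝ) 1)).prod (volume.restrict (Ioc (0 : ℝ) 1))

instance : IsProbabilityMeasure (volume.restrict (Ioc (0 : ℝ) 1)) :=
  ⟨by rw [Measure.restrict_apply_univ, Real.volume_Ioc]; norm_num⟩

instance : IsProbabilityMeasure Tor := by unfold Tor; infer_instance

theorem integrable_of_bdd {α : Type*} [MeasurableSpace α] {μ : Measure α} [IsFiniteMeasure μ]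
    {f : α → ℝ} (hf : Measurable f) {C : ℝ} (hC : ∀ x, |f x| ≤ C) : Integrable f μ :=
  Integrable.of_bound hf.aestronglyMeasurable C (Filter.Eventually.of_forall hC)

/-- Invariance of the integral over the unit square under translations. -/
theorem integral_Tor_add {f : ℝ × ℝ → ℝ} (hf : Measurable f) {C : ℝ} (hC : ∀ x, |f x| ≤ C)
    (h1 : ∀ X Y, f (X + 1, Y) = f (X, Y)) (h2 : ∀ X Y, f (X, Y + 1) = f (X, Y)) (u : ℝ × ℝ) :
    ∫ t, f (u.1 + t.1, u.2 + t.2) ∂Tor = ∫ t, f t ∂Tor := by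
  have hm : Measurable fun t : ℝ × ℝ => f (u.1 + t.1, u.2 + t.2) :=
    hf.comp ((measurable_fst.const_add u.1).prodMk (measurable_snd.const_add u.2))
  have e1 : ∀ X, ∫ Y in Ioc (0 : ℝ) 1, f (u.1 + X, u.2 + Y) = ∫ Y in Ioc (0 : ℝ) 1, f (u.1 + X, Y) := by
    intro X
    rw [← intervalIntegral.integral_of_le zero_le_one, ← intervalIntegral.integral_of_le zero_le_one,
      intervalIntegral.integral_comp_add_left (fun Y => f (u.1 + X, Y))]
    have hp : Function.Periodic (fun Y => f (u.1 + X, Y)) 1 := fun Y => h2 _ _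
    have := hp.intervalIntegral_add_eq (u.2 + 0) 0
    rw [zero_add] at this
    rw [← this]
    congr 1
    ring
  have e2 : ∫ X in Ioc (0 : ℝ) 1, ∫ Y in Ioc (0 : ℝ) 1, f (u.1 + X, Y)
      = ∫ X in Ioc (0 : ℝ) 1, ∫ Y in Ioc (0 : ℝ) 1, f (X, Y) := by
    rw [← intervalIntegral.integral_of_le zero_le_one, ← intervalIntegral.integral_of_le zero_le_one,
      intervalIntegral.integral_comp_add_left (fun X => ∫ Y in Ioc (0 : ℝ) 1, f (X, Y))]
    have hp : Function.Periodic (fun X => ∫ Y in Ioc (0 : ℝ) 1, f (X, Y)) 1 := fun X => by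
      show ∫ Y in Ioc (0 : ℝ) 1, f (X + 1, Y) = ∫ Y in Ioc (0 : ℝ) 1, f (X, Y)
      simp_rw [h1]
    have := hp.intervalIntegral_add_eq (u.1 + 0) 0
    rw [zero_add] at this
    rw [← this]
    congr 1
    ring
  unfold Tor
  rw [integral_prod _ (integrable_of_bdd hm fun x => hC _), integral_prod _ (integrable_of_bdd hf hC)]
  simp_rw [e1]
  exact e2

theorem exists_Tor_le {f : ℝ × ℝ → ℝ} (hf : Measurable f) {C : ℝ} (hC : ∀ x, |f x| ≤ C) :
    ∃ t, f t ≤ ∫ t, f t ∂Tor := exists_le_integral (integrable_of_bdd hf hC)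

/-- The set where `|sin (2πY)| ≤ t` is small. -/
theorem volume_fa_le {t : ℝ} (ht : 0 ≤ t) :
    (volume.restrict (Ioc (0 : ℝ) 1)).real {Y | |fa Y| ≤ t} ≤ t := by
  have hsub : {Y | |fa Y| ≤ t} ∩ Ioc (0 : ℝ) 1 ⊆
      Icc 0 (t / 4) ∪ (Icc (1 / 2 - t / 4) (1 / 2 + t / 4) ∪ Icc (1 - t / 4) 1) := by
    rintro Y ⟨hY, hY0, hY1⟩
    have hY : |fa Y| ≤ t := hY
    have hpi := Real.pi_pos
    have key : ∀ z : ℝ, 0 ≤ z → z ≤ 1 / 4 → 4 * z ≤ Real.sin (2 * π * z) := by
      intro z hz0 hz1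
      have h := Real.mul_le_sin (x := 2 * π * z) (by positivity) (by nlinarith)
      calc 4 * z = 2 / π * (2 * π * z) := by field_simp; ring
        _ ≤ _ := h
    unfold fa at hY
    rcases le_or_gt Y (1 / 4) with h1 | h1
    · left
      have h2 := key Y hY0.le h1
      exact ⟨hY0.le, by linarith [le_abs_self (Real.sin (2 * π * Y))]⟩
    rcases le_or_gt Y (1 / 2) with h3 | h3
    · right; left
      have h2 := key (1 / 2 - Y) (by linarith) (by linarith)
      rw [show 2 * π * (1 / 2 - Y) = π - 2 * π * Y by ring, Real.sin_pi_sub] at h2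
      constructor <;> linarith [le_abs_self (Real.sin (2 * π * Y)), abs_nonneg (Real.sin (2 * π * Y))]
    rcases le_or_gt Y (3 / 4) with h4 | h4
    · right; left
      have h2 := key (Y - 1 / 2) (by linarith) (by linarith)
      rw [show 2 * π * (Y - 1 / 2) = 2 * π * Y - π by ring, Real.sin_sub_pi] at h2
      constructor <;> linarith [neg_le_abs (Real.sin (2 * π * Y)), abs_nonneg (Real.sin (2 * π * Y))]
    · right; right
      have h2 := key (1 - Y) (by linarith) (by linarith)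
      rw [show 2 * π * (1 - Y) = 2 * π - 2 * π * Y by ring, Real.sin_two_pi_sub] at h2
      constructor <;> linarith [neg_le_abs (Real.sin (2 * π * Y)), abs_nonneg (Real.sin (2 * π * Y))]
  have hms : MeasurableSet {Y | |fa Y| ≤ t} :=
    measurableSet_le measurable_fa.abs measurable_const
  rw [measureReal_restrict_apply hms]
  calc volume.real ({Y | |fa Y| ≤ t} ∩ Ioc (0 : ℝ) 1)
      ≤ volume.real (Icc 0 (t / 4) ∪ (Icc (1 / 2 - t / 4) (1 / 2 + t / 4) ∪ Icc (1 - t / 4) 1)) := by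
        refine measureReal_mono hsub (LT.lt.ne ?_)
        refine (measure_union_le _ _).trans_lt ?_
        refine ENNReal.add_lt_top.2 ⟨measure_Icc_lt_top, (measure_union_le _ _).trans_lt ?_⟩
        exact ENNReal.add_lt_top.2 ⟨measure_Icc_lt_top, measure_Icc_lt_top⟩
    _ ≤ volume.real (Icc 0 (t / 4)) + (volume.real (Icc (1 / 2 - t / 4) (1 / 2 + t / 4))
        + volume.real (Icc (1 - t / 4) (1 : ℝ))) := by
        refine (measureReal_union_le _ _).trans ?_
        gcongr
        exact measureReal_union_le _ _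
    _ = t := by
        rw [Real.volume_real_Icc_of_le (by linarith), Real.volume_real_Icc_of_le (by linarith),
          Real.volume_real_Icc_of_le (by linarith)]
        ring

theorem sX_add_left (ε X Y : ℝ) : sX ε (X + 1) Y = sX ε X Y := by
  unfold sX thX; simp only [fa_add_one, fc_add_one]

theorem sX_add_right (ε X Y : ℝ) : sX ε X (Y + 1) = sX ε X Y := by
  unfold sX thX; simp only [fa_add_one]

theorem integral_sX {ε : ℝ} (hε : 0 < ε) : ∫ t, sX ε t.1 t.2 ∂Tor = 0 := by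
  unfold Tor
  rw [integral_prod_symm _ (integrable_of_bdd (measurable_sX ε) fun x => abs_sX_le hε _ _)]
  have : ∀ Y, ∫ X in Ioc (0 : ℝ) 1, sX ε X Y = 0 := by
    intro Y
    unfold sX
    by_cases h : ε ≤ |fa Y|
    · simp only [h, if_true]
      rw [← intervalIntegral.integral_of_le zero_le_one]
      exact integral_thX_eq_zero (abs_pos.1 (hε.trans_le h))
    · simp only [h, if_false, integral_zero]
  simp only [this, integral_zero]

theorem inv_le_dyadic {K : ℕ} {b : ℝ} (h1 : (2 : ℝ)⁻¹ ^ K ≤ b) (h2 : b ≤ 1) :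
    1 / b ≤ ∑ k ∈ Finset.range (K + 1), (2 : ℝ) ^ (k + 1) * (if b ≤ (2 : ℝ)⁻¹ ^ k then 1 else 0) := by
  have hb : 0 < b := lt_of_lt_of_le (by positivity) h1
  classical
  have hex : ∃ k, (2 : ℝ)⁻¹ ^ (k + 1) < b := by
    obtain ⟨k, hk⟩ := exists_pow_lt_of_lt_one hb (by norm_num : (2 : ℝ)⁻¹ < 1)
    refine ⟨k, lt_of_le_of_lt ?_ hk⟩
    exact pow_le_pow_of_le_one (by norm_num) (by norm_num) (Nat.le_succ k)
  set k := Nat.find hex with hk
  have hk1 : (2 : ℝ)⁻¹ ^ (k + 1) < b := Nat.find_spec hex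
  have hk2 : b ≤ (2 : ℝ)⁻¹ ^ k := by
    rcases Nat.eq_zero_or_pos k with h0 | h0
    · rw [h0, pow_zero]; exact h2
    · have := Nat.find_min hex (m := k - 1) (by omega)
      rw [Nat.sub_add_cancel h0] at this
      exact not_lt.1 this
  have hkK : k ≤ K := by
    by_contra hc
    push Not at hc
    have h3 : (2 : ℝ)⁻¹ ^ k < (2 : ℝ)⁻¹ ^ K :=
      pow_lt_pow_right_of_lt_one₀ (by norm_num) (by norm_num) hc
    linarith
  calc 1 / b ≤ (2 : ℝ) ^ (k + 1) := by
        rw [div_le_iff₀ hb]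
        have : (2 : ℝ) ^ (k + 1) * (2 : ℝ)⁻¹ ^ (k + 1) = 1 := by
          rw [← mul_pow]; norm_num
        nlinarith [pow_pos (two_pos (α := ℝ)) (k + 1)]
    _ = (2 : ℝ) ^ (k + 1) * (if b ≤ (2 : ℝ)⁻¹ ^ k then 1 else 0) := by rw [if_pos hk2, mul_one]
    _ ≤ _ := by
        apply Finset.single_le_sum (f := fun k => (2 : ℝ) ^ (k + 1) *
          (if b ≤ (2 : ℝ)⁻¹ ^ k then 1 else 0))
        · intro i _; positivity
        · exact Finset.mem_range.2 (by omega)

theorem integral_sX_sq_le (K : ℕ) :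
    ∫ t, sX ((2 : ℝ)⁻¹ ^ K) t.1 t.2 ^ 2 ∂Tor ≤ 2 * (K + 1) := by
  set ε : ℝ := (2 : ℝ)⁻¹ ^ K with hεdef
  have hε : 0 < ε := by positivity
  have hint : Integrable (fun t : ℝ × ℝ => sX ε t.1 t.2 ^ 2)
      ((volume.restrict (Ioc (0 : ℝ) 1)).prod (volume.restrict (Ioc (0 : ℝ) 1))) := by
    refine integrable_of_bdd ((measurable_sX ε).pow_const 2) (C := (1 / ε) ^ 2) fun x => ?_
    rw [abs_pow]
    gcongr
    exact abs_sX_le hε _ _
  unfold Tor
  rw [integral_prod_symm _ hint]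
  have h1 : ∀ Y, ∫ X in Ioc (0 : ℝ) 1, sX ε X Y ^ 2 ≤
      ∑ k ∈ Finset.range (K + 1), (2 : ℝ) ^ (k + 1) *
        (if |fa Y| ≤ (2 : ℝ)⁻¹ ^ k then 1 else 0) := by
    intro Y
    unfold sX
    by_cases h : ε ≤ |fa Y|
    · simp only [h, if_true]
      rw [← intervalIntegral.integral_of_le zero_le_one]
      exact (integral_thX_sq_le (abs_pos.1 (hε.trans_le h))).trans (inv_le_dyadic h (abs_fa_le Y))
    · simp only [h, if_false]
      rw [zero_pow two_ne_zero, integral_zero]
      exact Finset.sum_nonneg fun k _ => by positivity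
  have hms : ∀ t : ℝ, MeasurableSet {Y | |fa Y| ≤ t} := fun t =>
    measurableSet_le measurable_fa.abs measurable_const
  have hint2 : ∀ k, Integrable (fun Y => (2 : ℝ) ^ (k + 1) *
      (if |fa Y| ≤ (2 : ℝ)⁻¹ ^ k then (1 : ℝ) else 0)) (volume.restrict (Ioc (0 : ℝ) 1)) := by
    intro k
    apply Integrable.const_mul
    refine integrable_of_bdd (Measurable.ite (hms _) measurable_const measurable_const) (C := 1) ?_
    intro Y
    split_ifs <;> simp
  calc ∫ Y in Ioc (0 : ℝ) 1, ∫ X in Ioc (0 : ℝ) 1, sX ε X Y ^ 2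
      ≤ ∫ Y in Ioc (0 : ℝ) 1, ∑ k ∈ Finset.range (K + 1), (2 : ℝ) ^ (k + 1) *
        (if |fa Y| ≤ (2 : ℝ)⁻¹ ^ k then 1 else 0) := by
        apply integral_mono hint.integral_prod_right
        · exact integrable_finsetSum _ fun k _ => hint2 k
        · exact h1
    _ = ∑ k ∈ Finset.range (K + 1), (2 : ℝ) ^ (k + 1) *
          (volume.restrict (Ioc (0 : ℝ) 1)).real {Y | |fa Y| ≤ (2 : ℝ)⁻¹ ^ k} := by
        rw [integral_finsetSum _ fun k _ => hint2 k]
        apply Finset.sum_congr rfl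
        intro k _
        rw [integral_const_mul]
        congr 1
        have : (fun Y => if |fa Y| ≤ (2 : ℝ)⁻¹ ^ k then (1 : ℝ) else 0)
            = ({Y | |fa Y| ≤ (2 : ℝ)⁻¹ ^ k}).indicator 1 := by
          funext Y; simp [indicator]
        rw [this, integral_indicator_one (hms _)]
    _ ≤ ∑ k ∈ Finset.range (K + 1), (2 : ℝ) ^ (k + 1) * (2 : ℝ)⁻¹ ^ k := by
        gcongr with k _
        exact volume_fa_le (by positivity)
    _ = 2 * (K + 1) := by
        have : ∀ k : ℕ, (2 : ℝ) ^ (k + 1) * (2 : ℝ)⁻¹ ^ k = 2 := by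
          intro k
          rw [pow_succ, mul_comm ((2 : ℝ) ^ k), mul_assoc, ← mul_pow]
          norm_num
        simp only [this, Finset.sum_const, Finset.card_range, nsmul_eq_mul]
        push_cast
        ring

theorem integral_Tor_swap {f : ℝ × ℝ → ℝ} : ∫ t, f t.swap ∂Tor = ∫ t, f t ∂Tor := by
  unfold Tor
  exact integral_prod_swap f

theorem integral_sY {ε : ℝ} (hε : 0 < ε) : ∫ t, sY ε t.1 t.2 ∂Tor = 0 := by
  have h := integral_Tor_swap (f := fun t => sX ε t.1 t.2)
  rw [integral_sX hε] at h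
  simp only [Prod.fst_swap, Prod.snd_swap] at h
  simp_rw [sY_eq, integral_neg, h, neg_zero]

theorem integral_sY_sq_le (K : ℕ) :
    ∫ t, sY ((2 : ℝ)⁻¹ ^ K) t.1 t.2 ^ 2 ∂Tor ≤ 2 * (K + 1) := by
  have h := integral_Tor_swap (f := fun t => sX ((2 : ℝ)⁻¹ ^ K) t.1 t.2 ^ 2)
  simp only [Prod.fst_swap, Prod.snd_swap] at h
  simp_rw [sY_eq, neg_sq]
  rw [h]
  exact integral_sX_sq_le K

theorem sY_add_left (ε X Y : ℝ) : sY ε (X + 1) Y = sY ε X Y := by
  rw [sY_eq, sY_eq, sX_add_right]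

theorem sY_add_right (ε X Y : ℝ) : sY ε X (Y + 1) = sY ε X Y := by
  rw [sY_eq, sY_eq, sX_add_left]

theorem qt_add_left (X Y : ℝ) : qt (X + 1) Y = qt X Y := by
  unfold qt; simp only [fa_add_one, fc_add_one]

theorem qt_add_right (X Y : ℝ) : qt X (Y + 1) = qt X Y := by
  unfold qt; simp only [fa_add_one, fc_add_one]

/-- Indicator of the strips removed. -/
noncomputable def strip (ε X Y : ℝ) : ℝ := if |fa X| ≤ ε ∨ |fa Y| ≤ ε then 1 else 0

theorem strip_nonneg (ε X Y : ℝ) : 0 ≤ strip ε X Y := by unfold strip; positivity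

theorem strip_le_one (ε X Y : ℝ) : strip ε X Y ≤ 1 := by unfold strip; split_ifs <;> norm_num

theorem abs_strip_le (ε X Y : ℝ) : |strip ε X Y| ≤ 1 := by
  rw [abs_of_nonneg (strip_nonneg _ _ _)]; exact strip_le_one _ _ _

theorem measurable_strip (ε : ℝ) : Measurable fun p : ℝ × ℝ => strip ε p.1 p.2 := by
  unfold strip
  apply Measurable.ite _ measurable_const measurable_const
  exact (measurableSet_le (measurable_fa.comp measurable_fst).abs measurable_const).union
    (measurableSet_le (measurable_fa.comp measurable_snd).abs measurable_const)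

theorem strip_add_left (ε X Y : ℝ) : strip ε (X + 1) Y = strip ε X Y := by
  unfold strip; simp only [fa_add_one]

theorem strip_add_right (ε X Y : ℝ) : strip ε X (Y + 1) = strip ε X Y := by
  unfold strip; simp only [fa_add_one]

theorem integral_strip_le {ε : ℝ} (hε : 0 ≤ ε) : ∫ t, strip ε t.1 t.2 ∂Tor ≤ 2 * ε := by
  have hms : MeasurableSet {Y | |fa Y| ≤ ε} := measurableSet_le measurable_fa.abs measurable_const
  have h1 : ∀ X Y, strip ε X Y ≤ ({Y | |fa Y| ≤ ε}).indicator 1 X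
      + ({Y | |fa Y| ≤ ε}).indicator 1 Y := by
    intro X Y
    unfold strip
    by_cases hX : |fa X| ≤ ε <;> by_cases hY : |fa Y| ≤ ε <;> simp [indicator, hX, hY]
  have hi1 : Integrable (fun t : ℝ × ℝ => ({Y | |fa Y| ≤ ε}).indicator (1 : ℝ → ℝ) t.1) Tor := by
    refine integrable_of_bdd ((measurable_const.indicator hms).comp measurable_fst) (C := 1) ?_
    intro x; simp only [indicator]; split_ifs <;> simp
  have hi2 : Integrable (fun t : ℝ × ℝ => ({Y | |fa Y| ≤ ε}).indicator (1 : ℝ → ℝ) t.2) Tor := by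
    refine integrable_of_bdd ((measurable_const.indicator hms).comp measurable_snd) (C := 1) ?_
    intro x; simp only [indicator]; split_ifs <;> simp
  have h2 : ∫ t : ℝ × ℝ, ({Y | |fa Y| ≤ ε}).indicator (1 : ℝ → ℝ) t.1 ∂Tor ≤ ε := by
    unfold Tor at hi1 ⊢
    rw [integral_prod _ hi1]
    simp only [integral_const, probReal_univ, one_smul]
    rw [integral_indicator_one hms]
    exact volume_fa_le hε
  have h3 : ∫ t : ℝ × ℝ, ({Y | |fa Y| ≤ ε}).indicator (1 : ℝ → ℝ) t.2 ∂Tor ≤ ε := by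
    unfold Tor at hi2 ⊢
    rw [integral_prod _ hi2]
    simp only [integral_indicator_one hms, integral_const, probReal_univ, one_smul]
    exact volume_fa_le hε
  calc _ ≤ ∫ t : ℝ × ℝ, (({Y | |fa Y| ≤ ε}).indicator (1 : ℝ → ℝ) t.1
        + ({Y | |fa Y| ≤ ε}).indicator (1 : ℝ → ℝ) t.2) ∂Tor := by
        apply integral_mono (integrable_of_bdd (measurable_strip ε) fun _ => abs_strip_le _ _ _)
          (hi1.add hi2)
        intro t; exact h1 _ _
    _ ≤ _ := by rw [integral_add hi1 hi2]; linarith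

/-- The mean of `qt`. -/
noncomputable def cbar : ℝ := ∫ t, qt t.1 t.2 ∂Tor

theorem cbar_le : cbar ≤ lamB * (2 * π) := by
  unfold cbar
  calc ∫ t, qt t.1 t.2 ∂Tor ≤ ∫ _, lamB * (2 * π) ∂Tor := by
        apply integral_mono
        · exact integrable_of_bdd measurable_qt (C := lamB * (2 * π)) fun x => by
            rw [abs_of_nonneg (qt_nonneg _ _)]; exact qt_le _ _
        · exact integrable_const _
        · intro t; exact qt_le _ _
    _ = _ := by simp

theorem cbar_pos : 0 < cbar := by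
  obtain ⟨s0, hs0, hs0'⟩ : ∃ s ∈ Ioo (0 : ℝ) (1 / 2), deriv lam s = 2 := by
    obtain ⟨s, hs, hs'⟩ := exists_deriv_eq_slope lam (by norm_num : (0 : ℝ) < 1 / 2)
      (contDiff_lam (n := 1)).continuous.continuousOn
      ((contDiff_lam (n := 1)).differentiable (by norm_num)).differentiableOn
    refine ⟨s, hs, ?_⟩
    rw [hs']
    have e1 : lam (1 / 2) = 1 := Real.smoothTransition.one_of_one_le (by norm_num)
    have e0 : lam 0 = 0 := Real.smoothTransition.zero_of_nonpos (by norm_num)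
    rw [e1, e0]; norm_num
  -- the open set where `qt` is positive
  set U : Set (ℝ × ℝ) := {p | 0 < deriv lam (fc p.1 * fc p.2)} ∩ {p | 0 < fc p.1 * fc p.2}
    ∩ (Ioo 0 1 ×ˢ Ioo 0 1) with hU
  have hcc : Continuous fun p : ℝ × ℝ => fc p.1 * fc p.2 :=
    (continuous_fc.comp continuous_fst).mul (continuous_fc.comp continuous_snd)
  have hUo : IsOpen U := by
    refine (IsOpen.inter ?_ ?_).inter (isOpen_Ioo.prod isOpen_Ioo)
    · exact isOpen_lt continuous_const (continuous_deriv_lam.comp hcc)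
    · exact isOpen_lt continuous_const hcc
  have hUne : U.Nonempty := by
    have hc0 : ∃ X ∈ Ioo (0 : ℝ) (1 / 4), fc X = Real.sqrt s0 := by
      have h1 : Real.sqrt s0 ∈ Ioo (fc (1 / 4)) (fc 0) := by
        unfold fc
        rw [show 2 * π * (1 / 4) = π / 2 by ring, Real.cos_pi_div_two, mul_zero, Real.cos_zero]
        refine ⟨Real.sqrt_pos.2 hs0.1, ?_⟩
        rw [Real.sqrt_lt' one_pos]
        linarith [hs0.2]
      have h2 := intermediate_value_Ioo' (by norm_num : (0 : ℝ) ≤ 1 / 4)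
        (continuous_fc.continuousOn (s := Icc (0 : ℝ) (1 / 4)))
      obtain ⟨X, hX, hX'⟩ := h2 h1
      exact ⟨X, hX, hX'⟩
    obtain ⟨X, hX, hX'⟩ := hc0
    have h3 : fc X * fc X = s0 := by rw [hX', Real.mul_self_sqrt hs0.1.le]
    refine ⟨(X, X), ⟨?_, ?_⟩, ?_⟩
    · show 0 < deriv lam (fc X * fc X)
      rw [h3, hs0']; norm_num
    · show 0 < fc X * fc X
      rw [h3]; exact hs0.1
    · exact ⟨⟨hX.1, by linarith [hX.2]⟩, ⟨hX.1, by linarith [hX.2]⟩⟩
  have hpos : ∀ p ∈ U, 0 < qt p.1 p.2 := by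
    rintro p ⟨⟨h1, h2⟩, -⟩
    have h1' : 0 < deriv lam (fc p.1 * fc p.2) := h1
    have h2' : 0 < fc p.1 * fc p.2 := h2
    have h3 := sq_ge_of_deriv_ne h1'.ne'
    unfold qt
    have hcX : fc p.1 ≠ 0 := left_ne_zero_of_mul h2'.ne'
    have hcY : fc p.2 ≠ 0 := right_ne_zero_of_mul h2'.ne'
    have hcX2 : 0 < fc p.1 ^ 2 := by positivity
    have hcY2 : 0 < fc p.2 ^ 2 := by positivity
    have h4 : 0 < fa p.2 ^ 2 * fc p.1 ^ 2 + fa p.1 ^ 2 * fc p.2 ^ 2 := by
      rcases (sq_nonneg (fa p.1)).eq_or_lt' with h0 | h0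
      · rw [h0] at h3 ⊢
        have : 0 < fa p.2 ^ 2 := by linarith
        positivity
      · have := mul_pos h0 hcY2
        have := mul_nonneg (sq_nonneg (fa p.2)) hcX2.le
        linarith
    positivity
  have hTU : 0 < Tor U := by
    have h1 : Tor U = volume U := by
      unfold Tor
      rw [Measure.prod_restrict, Measure.restrict_apply hUo.measurableSet]
      congr 1
      apply inter_eq_left.2
      rintro p ⟨-, hp⟩
      exact ⟨⟨hp.1.1, hp.1.2.le⟩, ⟨hp.2.1, hp.2.2.le⟩⟩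
    rw [h1]
    exact hUo.measure_pos volume hUne
  unfold cbar
  rw [integral_pos_iff_support_of_nonneg (fun t => qt_nonneg _ _)
    (integrable_of_bdd measurable_qt (C := lamB * (2 * π)) fun x => by
            rw [abs_of_nonneg (qt_nonneg _ _)]; exact qt_le _ _)]
  refine hTU.trans_le (measure_mono fun p hp => ?_)
  exact (hpos p hp).ne'

end Pool.Agent.H28.Lusin
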